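import Mathlib

/-!
Evaluation of the Kronecker powers of a bilinear algorithm.
-/

set_option autoImplicit false

namespace Pool.Agent.H792_Clique

open Finset

/-- Entries of the Kronecker power of the matrix `E`. -/
def kk (E : ℕ → ℕ → ℤ) (r q : ℕ) : ℕ → ℕ → ℕ → ℤ
  | 0, _, _ => 1
  | L + 1, σ, τ => kk E r q L (σ / r) (τ / q) * E (σ % r) (τ % q)

/-- Row number. -/
def rowF (m : ℕ) : ℕ → ℕ → ℕ
  | 0, _ => 0
  | L + 1, τ => rowF m L (τ / (m * m)) * m + (τ % (m * m)) / m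

/-- Column number. -/
def colF (m : ℕ) : ℕ → ℕ → ℕ
  | 0, _ => 0
  | L + 1, τ => colF m L (τ / (m * m)) * m + (τ % (m * m)) % m

lemma sum_range_mul' {M : Type*} [AddCommMonoid M] (N q : ℕ) (f : ℕ → M) :
    ∑ i ∈ range (N * q), f i = ∑ a ∈ range N, ∑ t ∈ range q, f (a * q + t) := by
  induction N with
  | zero => simp
  | succ N ih =>
    rw [Nat.succ_mul, Finset.sum_range_add, ih, Finset.sum_range_succ]

lemma sum_range_pow (r L : ℕ) {M : Type*} [AddCommMonoid M] (f : ℕ → M) :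
    ∑ i ∈ range (r ^ (L + 1)), f i = ∑ a ∈ range (r ^ L), ∑ t ∈ range r, f (a * r + t) := by
  rw [pow_succ, sum_range_mul']

lemma dm {a q t : ℕ} (ht : t < q) : (a * q + t) / q = a ∧ (a * q + t) % q = t := by
  have hq : 0 < q := by omega
  constructor
  · rw [Nat.mul_comm, Nat.add_comm, Nat.add_mul_div_left _ _ hq, Nat.div_eq_of_lt ht, Nat.zero_add]
  · rw [Nat.mul_comm, Nat.add_comm, Nat.add_mul_mod_self_left, Nat.mod_eq_of_lt ht]

/-- The array at level `l`. -/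
def FF (E : ℕ → ℕ → ℤ) (r q L : ℕ) (x : ℕ → ℤ) (l i : ℕ) : ℤ :=
  ∑ τ ∈ range (q ^ l), kk E r q l (i / q ^ (L - l)) τ * x (τ * q ^ (L - l) + i % q ^ (L - l))

lemma FF_zero (E : ℕ → ℕ → ℤ) (r q L : ℕ) (x : ℕ → ℤ) {i : ℕ} (hi : i < q ^ L) :
    FF E r q L x 0 i = x i := by
  simp [FF, kk, Nat.mod_eq_of_lt hi]

lemma FF_last (E : ℕ → ℕ → ℤ) (r q L : ℕ) (x : ℕ → ℤ) (i : ℕ) :
    FF E r q L x L i = ∑ τ ∈ range (q ^ L), kk E r q L i τ * x τ := by
  simp [FF, Nat.mod_one]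

lemma FF_step (E : ℕ → ℕ → ℤ) {r q L : ℕ} (hq : 0 < q) (x : ℕ → ℤ) {l : ℕ} (hl : l < L)
    {a s b : ℕ} (hs : s < r) (hb : b < q ^ (L - l - 1)) :
    FF E r q L x (l + 1) ((a * r + s) * q ^ (L - l - 1) + b) =
      ∑ t ∈ range q, E s t * FF E r q L x l ((a * q + t) * q ^ (L - l - 1) + b) := by
  set B := q ^ (L - l - 1) with hB
  have hB0 : 0 < B := by positivity
  have e1 : L - (l + 1) = L - l - 1 := by omega
  have e2 : q ^ (L - l) = q * B := by
    rw [hB, ← pow_succ']; congr 1; omega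
  have h1 : ∀ t < q, FF E r q L x l ((a * q + t) * B + b) =
      ∑ τ ∈ range (q ^ l), kk E r q l a τ * x ((τ * q + t) * B + b) := by
    intro t ht
    have hlt : t * B + b < q * B := by
      have : (t + 1) * B ≤ q * B := Nat.mul_le_mul_right _ ht
      nlinarith
    have e3 : (a * q + t) * B + b = a * (q * B) + (t * B + b) := by ring
    obtain ⟨d1, d2⟩ := dm (a := a) hlt
    unfold FF
    rw [e2, e3, d1, d2]
    refine Finset.sum_congr rfl fun τ _ => ?_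
    congr 2
    ring
  rw [Finset.sum_congr rfl fun t ht => by rw [h1 t (Finset.mem_range.1 ht)]]
  unfold FF
  rw [e1, ← hB]
  obtain ⟨d1, d2⟩ := dm (a := a * r + s) hb
  rw [d1, d2, sum_range_pow]
  simp only [Finset.mul_sum]
  rw [Finset.sum_comm]
  refine Finset.sum_congr rfl fun t ht => Finset.sum_congr rfl fun τ hτ => ?_
  rw [Finset.mem_range] at ht hτ
  obtain ⟨g1, g2⟩ := dm (a := a) hs
  obtain ⟨g3, g4⟩ := dm (a := τ) ht
  simp only [kk, g1, g2, g3, g4]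
  ring

/-- The matrix multiplication condition on digits. -/
def mmc (m L τ τ' τ'' : ℕ) : Prop :=
  colF m L τ = rowF m L τ' ∧ colF m L τ' = rowF m L τ'' ∧ colF m L τ'' = rowF m L τ

instance (m L τ τ' τ'' : ℕ) : Decidable (mmc m L τ τ' τ'') := by
  unfold mmc; infer_instance

lemma digit_eq {m a b a' b' : ℕ} (hb : b < m) (hb' : b' < m) :
    a * m + b = a' * m + b' ↔ a = a' ∧ b = b' := by
  constructor
  · intro h
    have h1 := (dm (a := a) hb).1
    have h2 := (dm (a := a') hb').1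
    rw [h, h2] at h1
    subst h1
    exact ⟨rfl, by omega⟩
  · rintro ⟨rfl, rfl⟩; rfl

lemma mmc_succ {m L τ τ' τ'' : ℕ} (hm : 0 < m) : mmc m (L + 1) τ τ' τ'' ↔
    mmc m L (τ / (m * m)) (τ' / (m * m)) (τ'' / (m * m)) ∧
    (τ % (m * m)) % m = (τ' % (m * m)) / m ∧ (τ' % (m * m)) % m = (τ'' % (m * m)) / m ∧
      (τ'' % (m * m)) % m = (τ % (m * m)) / m := by
  have h1 : ∀ t : ℕ, (t % (m * m)) / m < m := fun t =>
    Nat.div_lt_of_lt_mul (Nat.mod_lt _ (by positivity))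
  have h2 : ∀ t : ℕ, (t % (m * m)) % m < m := fun t => Nat.mod_lt _ hm
  unfold mmc
  simp only [rowF, colF]
  rw [digit_eq (h2 τ) (h1 τ'), digit_eq (h2 τ') (h1 τ''), digit_eq (h2 τ'') (h1 τ)]
  tauto

/-- The condition on a bilinear algorithm. -/
def BA (m r : ℕ) (E1 E2 E3 : ℕ → ℕ → ℤ) : Prop :=
  ∀ t t' t'' : ℕ, t < m * m → t' < m * m → t'' < m * m →
    ∑ s ∈ range r, E1 s t * E2 s t' * E3 s t'' =
      if t % m = t' / m ∧ t' % m = t'' / m ∧ t'' % m = t / m then 1 else 0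

lemma kk_sum {m r : ℕ} (hm : 0 < m) {E1 E2 E3 : ℕ → ℕ → ℤ} (H : BA m r E1 E2 E3) :
    ∀ (L τ τ' τ'' : ℕ), ∑ σ ∈ range (r ^ L), kk E1 r (m * m) L σ τ *
      kk E2 r (m * m) L σ τ' * kk E3 r (m * m) L σ τ'' = if mmc m L τ τ' τ'' then 1 else 0 := by
  intro L
  induction L with
  | zero => intro τ τ' τ''; simp [kk, mmc, rowF, colF]
  | succ L ih =>
    intro τ τ' τ''
    have hmm : 0 < m * m := by positivity
    have h := H (τ % (m * m)) (τ' % (m * m)) (τ'' % (m * m)) (Nat.mod_lt _ hmm)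
      (Nat.mod_lt _ hmm) (Nat.mod_lt _ hmm)
    rw [sum_range_pow]
    have h1 : ∑ a ∈ range (r ^ L), ∑ t ∈ range r, kk E1 r (m * m) (L + 1) (a * r + t) τ *
        kk E2 r (m * m) (L + 1) (a * r + t) τ' * kk E3 r (m * m) (L + 1) (a * r + t) τ'' =
        (∑ a ∈ range (r ^ L), kk E1 r (m * m) L a (τ / (m * m)) *
          kk E2 r (m * m) L a (τ' / (m * m)) * kk E3 r (m * m) L a (τ'' / (m * m))) *
        ∑ s ∈ range r, E1 s (τ % (m * m)) * E2 s (τ' % (m * m)) * E3 s (τ'' % (m * m)) := by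
      rw [Finset.sum_mul_sum]
      refine Finset.sum_congr rfl fun a _ => Finset.sum_congr rfl fun t ht => ?_
      rw [Finset.mem_range] at ht
      obtain ⟨g1, g2⟩ := dm (a := a) ht
      simp only [kk, g1, g2]
      ring
    rw [h1, ih, h]
    by_cases hc : mmc m L (τ / (m * m)) (τ' / (m * m)) (τ'' / (m * m))
    · by_cases hd : (τ % (m * m)) % m = (τ' % (m * m)) / m ∧
        (τ' % (m * m)) % m = (τ'' % (m * m)) / m ∧ (τ'' % (m * m)) % m = (τ % (m * m)) / m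
      · rw [if_pos hc, if_pos hd, if_pos ((mmc_succ hm).2 ⟨hc, hd⟩), mul_one]
      · rw [if_neg hd, if_neg (fun h => hd ((mmc_succ hm).1 h).2), mul_zero]
    · rw [if_neg hc, if_neg (fun h => hc ((mmc_succ hm).1 h).1), zero_mul]

/-- The trace formula. -/
theorem trace_formula {m r : ℕ} (hm : 0 < m) {E1 E2 E3 : ℕ → ℕ → ℤ} (H : BA m r E1 E2 E3)
    (L : ℕ) (x : ℕ → ℤ) :
    ∑ σ ∈ range (r ^ L), FF E1 r (m * m) L x L σ * FF E2 r (m * m) L x L σ *
      FF E3 r (m * m) L x L σ = ∑ τ ∈ range ((m * m) ^ L), ∑ τ' ∈ range ((m * m) ^ L),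
        ∑ τ'' ∈ range ((m * m) ^ L), if mmc m L τ τ' τ'' then x τ * x τ' * x τ'' else 0 := by
  simp only [FF_last]
  set D := range ((m * m) ^ L) with hD
  have h1 : ∀ σ, (∑ τ ∈ D, kk E1 r (m * m) L σ τ * x τ) * (∑ τ ∈ D, kk E2 r (m * m) L σ τ * x τ) *
      (∑ τ ∈ D, kk E3 r (m * m) L σ τ * x τ) = ∑ τ ∈ D, ∑ τ' ∈ D, ∑ τ'' ∈ D,
        x τ * x τ' * x τ'' * (kk E1 r (m * m) L σ τ * kk E2 r (m * m) L σ τ' *
          kk E3 r (m * m) L σ τ'') := by
    intro σ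
    rw [Finset.sum_mul_sum, Finset.sum_mul]
    refine Finset.sum_congr rfl fun τ _ => ?_
    rw [Finset.sum_mul]
    refine Finset.sum_congr rfl fun τ' _ => ?_
    rw [Finset.mul_sum]
    exact Finset.sum_congr rfl fun τ'' _ => by ring
  rw [Finset.sum_congr rfl fun σ _ => h1 σ]
  rw [Finset.sum_comm]
  refine Finset.sum_congr rfl fun τ _ => ?_
  rw [Finset.sum_comm]
  refine Finset.sum_congr rfl fun τ' _ => ?_
  rw [Finset.sum_comm]
  refine Finset.sum_congr rfl fun τ'' _ => ?_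
  rw [← Finset.mul_sum, kk_sum hm H]
  split_ifs <;> simp

lemma row_lt {m : ℕ} (hm : 0 < m) : ∀ L τ : ℕ, rowF m L τ < m ^ L := by
  intro L
  induction L with
  | zero => intro τ; simp [rowF]
  | succ L ih =>
    intro τ
    have h1 := ih (τ / (m * m))
    have h2 : (τ % (m * m)) / m < m := Nat.div_lt_of_lt_mul (Nat.mod_lt _ (by positivity))
    simp only [rowF, pow_succ]
    nlinarith

lemma col_lt {m : ℕ} (hm : 0 < m) : ∀ L τ : ℕ, colF m L τ < m ^ L := by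
  intro L
  induction L with
  | zero => intro τ; simp [colF]
  | succ L ih =>
    intro τ
    have h1 := ih (τ / (m * m))
    have h2 : (τ % (m * m)) % m < m := Nat.mod_lt _ hm
    simp only [colF, pow_succ]
    nlinarith

lemma exists_rc {m : ℕ} (hm : 0 < m) : ∀ (L i j : ℕ), i < m ^ L → j < m ^ L →
    ∃ τ < (m * m) ^ L, rowF m L τ = i ∧ colF m L τ = j := by
  intro L
  induction L with
  | zero => intro i j hi hj; exact ⟨0, by simp, by simp [rowF] at *; omega, by simp [colF] at *; omega⟩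
  | succ L ih =>
    intro i j hi hj
    rw [pow_succ] at hi hj
    obtain ⟨τ, hτ, h1, h2⟩ := ih (i / m) (j / m) (Nat.div_lt_of_lt_mul (by rwa [Nat.mul_comm] at hi))
      (Nat.div_lt_of_lt_mul (by rwa [Nat.mul_comm] at hj))
    have hi' := Nat.mod_lt i hm
    have hj' := Nat.mod_lt j hm
    have hlt : (i % m) * m + j % m < m * m := by nlinarith
    obtain ⟨g1, g2⟩ := dm (a := τ) hlt
    obtain ⟨g3, g4⟩ := dm (a := i % m) hj'
    refine ⟨τ * (m * m) + ((i % m) * m + j % m), ?_, ?_, ?_⟩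
    · rw [pow_succ]
      have : (τ + 1) * (m * m) ≤ (m * m) ^ L * (m * m) := Nat.mul_le_mul_right _ hτ
      nlinarith
    · simp only [rowF]
      rw [g1, g2, g3, h1]
      exact Nat.div_add_mod' i m
    · simp only [colF]
      rw [g1, g2, g4, h2]
      exact Nat.div_add_mod' j m

/-- The sum is positive if and only if there is a triangle. -/
theorem trace_pos {m r : ℕ} (hm : 0 < m) {E1 E2 E3 : ℕ → ℕ → ℤ} (H : BA m r E1 E2 E3)
    (L : ℕ) (X : ℕ → ℕ → ℕ) (x : ℕ → ℤ)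
    (hx : ∀ τ < (m * m) ^ L, x τ = X (rowF m L τ) (colF m L τ)) :
    (0 ≤ ∑ σ ∈ range (r ^ L), FF E1 r (m * m) L x L σ * FF E2 r (m * m) L x L σ *
      FF E3 r (m * m) L x L σ) ∧
    (0 < ∑ σ ∈ range (r ^ L), FF E1 r (m * m) L x L σ * FF E2 r (m * m) L x L σ *
      FF E3 r (m * m) L x L σ ↔ ∃ i < m ^ L, ∃ j < m ^ L, ∃ k < m ^ L,
        X i j ≠ 0 ∧ X j k ≠ 0 ∧ X k i ≠ 0) := by
  rw [trace_formula hm H]
  set D := range ((m * m) ^ L) with hD
  have hx0 : ∀ τ ∈ D, 0 ≤ x τ := by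
    intro τ hτ
    rw [hx τ (Finset.mem_range.1 hτ)]
    exact_mod_cast Nat.zero_le _
  have hnn : ∀ τ ∈ D, ∀ τ' ∈ D, ∀ τ'' ∈ D, 0 ≤ (if mmc m L τ τ' τ'' then x τ * x τ' * x τ'' else 0) := by
    intro τ h1 τ' h2 τ'' h3
    split_ifs
    · exact mul_nonneg (mul_nonneg (hx0 _ h1) (hx0 _ h2)) (hx0 _ h3)
    · exact le_rfl
  refine ⟨Finset.sum_nonneg fun τ h1 => Finset.sum_nonneg fun τ' h2 => Finset.sum_nonneg fun τ'' h3 =>
    hnn τ h1 τ' h2 τ'' h3, ?_⟩
  constructor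
  · intro hpos
    by_contra hcon
    push Not at hcon
    refine absurd hpos (not_lt.2 (le_of_eq ?_))
    refine Finset.sum_eq_zero fun τ h1 => Finset.sum_eq_zero fun τ' h2 =>
      Finset.sum_eq_zero fun τ'' h3 => ?_
    split_ifs with hc
    · obtain ⟨c1, c2, c3⟩ := hc
      rw [hx τ (Finset.mem_range.1 h1), hx τ' (Finset.mem_range.1 h2),
        hx τ'' (Finset.mem_range.1 h3), c1, c2, c3]
      by_cases z1 : X (rowF m L τ) (rowF m L τ') = 0
      · simp [z1]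
      · by_cases z2 : X (rowF m L τ') (rowF m L τ'') = 0
        · simp [z2]
        · have := hcon _ (row_lt hm L τ) _ (row_lt hm L τ') _ (row_lt hm L τ'') z1 z2
          simp [this]
    · rfl
  · rintro ⟨i, hi, j, hj, k, hk, z1, z2, z3⟩
    obtain ⟨τ, hτ, r1, c1⟩ := exists_rc hm L i j hi hj
    obtain ⟨τ', hτ', r2, c2⟩ := exists_rc hm L j k hj hk
    obtain ⟨τ'', hτ'', r3, c3⟩ := exists_rc hm L k i hk hi
    have hc : mmc m L τ τ' τ'' := ⟨by rw [c1, r2], by rw [c2, r3], by rw [c3, r1]⟩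
    refine Finset.sum_pos' (fun τ h1 => Finset.sum_nonneg fun τ' h2 => Finset.sum_nonneg
      fun τ'' h3 => hnn τ h1 τ' h2 τ'' h3) ⟨τ, Finset.mem_range.2 hτ, ?_⟩
    refine Finset.sum_pos' (fun τ' h2 => Finset.sum_nonneg
      fun τ'' h3 => hnn τ (Finset.mem_range.2 hτ) τ' h2 τ'' h3) ⟨τ', Finset.mem_range.2 hτ', ?_⟩
    refine Finset.sum_pos' (fun τ'' h3 => hnn τ (Finset.mem_range.2 hτ) τ'
      (Finset.mem_range.2 hτ') τ'' h3) ⟨τ'', Finset.mem_range.2 hτ'', ?_⟩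
    rw [if_pos hc, hx τ hτ, hx τ' hτ', hx τ'' hτ'', r1, c1, r2, c2, r3, c3]
    have p1 : 0 < X i j := Nat.pos_of_ne_zero z1
    have p2 : 0 < X j k := Nat.pos_of_ne_zero z2
    have p3 : 0 < X k i := Nat.pos_of_ne_zero z3
    exact_mod_cast Nat.mul_pos (Nat.mul_pos p1 p2) p3

end Pool.Agent.H792_Clique
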