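import Mathlib

/-!
Multiplicative weights: a short sequence of vertices which hits every set about as often as a
random vertex.
-/

set_option autoImplicit false

namespace Pool.Agent.H792_Clique

open Finset

/-- Data of the multiplicative weights method. -/
structure MWd {ι : Type*} (F : Finset ι) (p K K' s : ℕ) (b : ι → ℕ → ℕ) (h : ι → ℕ)
    (W : ℕ → ι → ℕ) (u : ℕ → ℕ) : Prop where
  p1 : 0 < p
  K1 : 2 ≤ K
  K1' : 1 ≤ K'
  b1 : ∀ J v, b J v ≤ 1
  h1 : ∀ J ∈ F, h J * p ≤ K' * ∑ v ∈ range p, b J v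
  h2 : ∀ J ∈ F, K' * ∑ v ∈ range p, b J v < (h J + 1) * p
  W0 : ∀ J ∈ F, W 0 J = 1
  W1 : ∀ i < s, ∀ J ∈ F, W (i + 1) J = W i J * (K * K' + h J - K' * b J (u i))
  gr : ∀ i < s, ∀ v < p, ∑ J ∈ F, W i J * b J v ≤ ∑ J ∈ F, W i J * b J (u i)

variable {ι : Type*} {F : Finset ι} {p K K' s : ℕ} {b : ι → ℕ → ℕ} {h : ι → ℕ}
    {W : ℕ → ι → ℕ} {u : ℕ → ℕ}

theorem MWd.sum_le (H : MWd F p K K' s b h W u) : ∀ i ≤ s,
    ∑ J ∈ F, W i J ≤ (K * K') ^ i * F.card := by
  intro i
  induction i with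
  | zero =>
    intro _
    rw [Finset.sum_congr rfl fun J hJ => H.W0 J hJ]
    simp
  | succ i ih =>
    intro hi
    have ih' := ih (by omega)
    have e1 : p * ∑ J ∈ F, W i J * h J ≤ p * (K' * ∑ J ∈ F, W i J * b J (u i)) := by
      calc p * ∑ J ∈ F, W i J * h J = ∑ J ∈ F, W i J * (h J * p) := by
            rw [Finset.mul_sum]; exact Finset.sum_congr rfl fun J _ => by ring
        _ ≤ ∑ J ∈ F, W i J * (K' * ∑ v ∈ range p, b J v) :=
            Finset.sum_le_sum fun J hJ => Nat.mul_le_mul_left _ (H.h1 J hJ)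
        _ = ∑ v ∈ range p, K' * ∑ J ∈ F, W i J * b J v := by
            simp only [Finset.mul_sum]
            rw [Finset.sum_comm]
            exact Finset.sum_congr rfl fun v _ => Finset.sum_congr rfl fun J _ => by ring
        _ ≤ ∑ v ∈ range p, K' * ∑ J ∈ F, W i J * b J (u i) :=
            Finset.sum_le_sum fun v hv => Nat.mul_le_mul_left _
              (H.gr i (by omega) v (Finset.mem_range.1 hv))
        _ = p * (K' * ∑ J ∈ F, W i J * b J (u i)) := by simp
    have e2 := Nat.le_of_mul_le_mul_left e1 H.p1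
    have e3 : ∑ J ∈ F, W (i + 1) J + K' * ∑ J ∈ F, W i J * b J (u i) =
        K * K' * ∑ J ∈ F, W i J + ∑ J ∈ F, W i J * h J := by
      rw [Finset.mul_sum, Finset.mul_sum, ← Finset.sum_add_distrib, ← Finset.sum_add_distrib]
      refine Finset.sum_congr rfl fun J hJ => ?_
      rw [H.W1 i (by omega) J hJ]
      have hb := H.b1 J (u i)
      have hle : K' * b J (u i) ≤ K * K' + h J := by
        have := H.K1
        nlinarith
      obtain ⟨c, hc⟩ := Nat.exists_eq_add_of_le hle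
      rw [hc, Nat.add_sub_cancel_left]
      have : K * K' * W i J + W i J * h J = W i J * (K * K' + h J) := by ring
      rw [this, hc]; ring
    have e4 : ∑ J ∈ F, W (i + 1) J ≤ K * K' * ∑ J ∈ F, W i J := by omega
    calc ∑ J ∈ F, W (i + 1) J ≤ K * K' * ∑ J ∈ F, W i J := e4
      _ ≤ K * K' * ((K * K') ^ i * F.card) := Nat.mul_le_mul_left _ ih'
      _ = (K * K') ^ (i + 1) * F.card := by rw [pow_succ]; ring

theorem MWd.prod_eq (H : MWd F p K K' s b h W u) {J : ι} (hJ : J ∈ F) : ∀ i ≤ s,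
    W i J = ∏ t ∈ range i, (K * K' + h J - K' * b J (u t)) := by
  intro i
  induction i with
  | zero => intro _; rw [H.W0 J hJ]; simp
  | succ i ih => intro hi; rw [H.W1 i (by omega) J hJ, ih (by omega), Finset.prod_range_succ]

lemma log_ge {x : ℝ} (hx : -(1 / 2) ≤ x) : x - 2 * x ^ 2 ≤ Real.log (1 + x) := by
  have h0 : 0 < 1 + x := by linarith
  have h1 := Real.one_sub_inv_le_log_of_pos h0
  refine le_trans ?_ h1
  have : 1 - (1 + x)⁻¹ - (x - 2 * x ^ 2) = x ^ 2 * (1 + 2 * x) / (1 + x) := by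
    field_simp
    ring
  have h2 : 0 ≤ x ^ 2 * (1 + 2 * x) / (1 + x) := by
    apply div_nonneg _ h0.le
    apply mul_nonneg (sq_nonneg _)
    linarith
  linarith

theorem MWd.hits (H : MWd F p K K' s b h W u) {J : ι} (hJ : J ∈ F) :
    (s : ℝ) * ((∑ v ∈ range p, b J v : ℕ) / p - 1 / K' - 2 / K) - K * Real.log F.card ≤
      ∑ t ∈ range s, (b J (u t) : ℝ) := by
  have hp : (0 : ℝ) < p := by exact_mod_cast H.p1
  have hK : (2 : ℝ) ≤ K := by exact_mod_cast H.K1
  have hK' : (1 : ℝ) ≤ K' := by exact_mod_cast H.K1'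
  have hF : 0 < F.card := Finset.card_pos.2 ⟨J, hJ⟩
  have hFr : (0 : ℝ) < F.card := by exact_mod_cast hF
  set cnt : ℕ := ∑ v ∈ range p, b J v with hcnt
  set ρ : ℝ := (h J : ℝ) / K' with hρ
  have hcp : cnt ≤ p := by
    rw [hcnt]
    refine le_trans (Finset.sum_le_sum fun v _ => H.b1 J v) ?_
    simp
  have h1 : (h J : ℝ) * p ≤ K' * cnt := by exact_mod_cast H.h1 J hJ
  have h2 : (K' : ℝ) * cnt < (h J + 1) * p := by exact_mod_cast H.h2 J hJ
  have hcp' : (cnt : ℝ) ≤ p := by exact_mod_cast hcp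
  have hρ0 : 0 ≤ ρ := by positivity
  have hρ1 : ρ ≤ 1 := by
    rw [hρ, div_le_one (by linarith)]
    have : (h J : ℝ) * p ≤ K' * p := h1.trans (by nlinarith)
    exact le_of_mul_le_mul_right this hp
  have hρ2 : (cnt : ℝ) / p - 1 / K' ≤ ρ := by
    rw [hρ]
    have : (cnt : ℝ) / p < (h J + 1) / K' := by
      rw [div_lt_div_iff₀ hp (by linarith)]
      linarith
    rw [add_div] at this
    linarith
  -- the product
  have hprod : (W s J : ℝ) ≤ (K * K') ^ s * F.card := by
    have e1 : W s J ≤ ∑ J ∈ F, W s J := Finset.single_le_sum (f := fun J => W s J)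
      (fun _ _ => Nat.zero_le _) hJ
    exact_mod_cast e1.trans (H.sum_le s le_rfl)
  set x : ℕ → ℝ := fun t => (ρ - b J (u t)) / K with hx
  have hxb : ∀ t, |x t| ≤ 1 / K := by
    intro t
    have hb : (b J (u t) : ℝ) ≤ 1 := by exact_mod_cast H.b1 J (u t)
    have hb0 : (0 : ℝ) ≤ b J (u t) := by positivity
    simp only [hx]
    rw [abs_div, abs_of_pos (by linarith : (0 : ℝ) < K)]
    apply div_le_div_of_nonneg_right _ (by linarith)
    rw [abs_le]
    constructor <;> linarith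
  have hK2 : 1 / (K : ℝ) ≤ 1 / 2 := by
    apply one_div_le_one_div_of_le (by norm_num) hK
  have hfac : (W s J : ℝ) = (K * K') ^ s * ∏ t ∈ range s, (1 + x t) := by
    rw [H.prod_eq hJ s le_rfl]
    push_cast
    rw [← Finset.card_range s, ← Finset.prod_const, Finset.card_range, ← Finset.prod_mul_distrib]
    refine Finset.prod_congr rfl fun t _ => ?_
    have hb := H.b1 J (u t)
    have hle : K' * b J (u t) ≤ K * K' + h J := by
      have := H.K1
      nlinarith
    rw [Nat.cast_sub hle]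
    push_cast
    simp only [hx, hρ]
    field_simp
    ring
  have hpos : ∀ t, 0 < 1 + x t := by
    intro t
    have := (abs_le.1 (hxb t)).1
    linarith
  have hlog : ∑ t ∈ range s, Real.log (1 + x t) ≤ Real.log F.card := by
    rw [← Real.log_prod (fun t _ => (hpos t).ne')]
    apply Real.log_le_log (Finset.prod_pos fun t _ => hpos t)
    rw [hfac] at hprod
    exact le_of_mul_le_mul_left hprod (by positivity)
  have hlow : ∑ t ∈ range s, (x t - 2 / K ^ 2) ≤ ∑ t ∈ range s, Real.log (1 + x t) := by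
    refine Finset.sum_le_sum fun t _ => ?_
    refine le_trans ?_ (log_ge (by have := (abs_le.1 (hxb t)).1; linarith))
    have : x t ^ 2 ≤ 1 / K ^ 2 := by
      rw [← sq_abs, ← one_div_pow]
      exact pow_le_pow_left₀ (abs_nonneg _) (hxb t) 2
    have e : (2 : ℝ) / K ^ 2 = 2 * (1 / K ^ 2) := by ring
    linarith
  have hsum : ∑ t ∈ range s, (x t - 2 / K ^ 2) =
      ((s : ℝ) * ρ - ∑ t ∈ range s, (b J (u t) : ℝ)) / K - s * (2 / K ^ 2) := by
    rw [Finset.sum_sub_distrib]
    simp only [hx]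
    rw [← Finset.sum_div, Finset.sum_sub_distrib]
    simp
  have key : ((s : ℝ) * ρ - ∑ t ∈ range s, (b J (u t) : ℝ)) / K - s * (2 / K ^ 2) ≤
      Real.log F.card := by
    rw [← hsum]; exact hlow.trans hlog
  have hK0 : (0 : ℝ) < K := by linarith
  have key2 : (s : ℝ) * ρ - ∑ t ∈ range s, (b J (u t) : ℝ) - s * (2 / K) ≤
      K * Real.log F.card := by
    have := mul_le_mul_of_nonneg_left key hK0.le
    refine le_trans (le_of_eq ?_) this
    field_simp
  have hs : (0 : ℝ) ≤ s := by positivity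
  have key3 : (s : ℝ) * ((cnt : ℝ) / p - 1 / K') ≤ s * ρ := mul_le_mul_of_nonneg_left hρ2 hs
  have e5 : (s : ℝ) * ((cnt : ℝ) / p - 1 / K' - 2 / K) =
    s * ((cnt : ℝ) / p - 1 / K') - s * (2 / K) := by ring
  rw [e5]
  linarith

end Pool.Agent.H792_Clique
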