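import Mathlib

/-!
Neighbourhoods and sets of common neighbours, in terms of the adjacency matrix.
-/

set_option autoImplicit false
set_option linter.unusedSimpArgs false
set_option linter.unusedVariables false

namespace Pool.Agent.H792_Clique

/-- The list contains nine pairwise adjacent vertices. -/
def NineL (g : ℕ → ℕ → ℕ) (n : ℕ) (Ls : ℕ → ℕ) : Prop :=
  ∃ l : List ℕ, l.length = 9 ∧ (∀ i ∈ l, i < n) ∧ l.Pairwise (fun a b => g (Ls a) (Ls b) ≠ 0)

/-- Adjacency of a vertex to a triple. -/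
def ta (g : ℕ → ℕ → ℕ) (p v A : ℕ) : ℕ := g v (A / (p * p)) * (g v (A / p % p) * g v (A % p))

/-- Adjacency of a vertex to a pair of triples. -/
def bb (g : ℕ → ℕ → ℕ) (p J v : ℕ) : ℕ :=
  ta g p v (J / (p * p * p)) * ta g p v (J % (p * p * p))

lemma ta_le {g : ℕ → ℕ → ℕ} (hg : ∀ u v, g u v ≤ 1) (p v A : ℕ) : ta g p v A ≤ 1 := by
  unfold ta
  have key : ∀ x y : ℕ, x ≤ 1 → y ≤ 1 → x * y ≤ 1 := fun x y hx hy => by nlinarith
  exact key _ _ (hg _ _) (key _ _ (hg _ _) (hg _ _))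

lemma bb_le {g : ℕ → ℕ → ℕ} (hg : ∀ u v, g u v ≤ 1) (p J v : ℕ) : bb g p J v ≤ 1 := by
  unfold bb
  have key : ∀ x y : ℕ, x ≤ 1 → y ≤ 1 → x * y ≤ 1 := fun x y hx hy => by nlinarith
  exact key _ _ (ta_le hg _ _ _) (ta_le hg _ _ _)

/-- The list of neighbours. -/
def nbl (g : ℕ → ℕ → ℕ) (v k : ℕ) : List ℕ := (List.range k).filter fun x => decide (0 < g v x)

lemma nbl_succ (g : ℕ → ℕ → ℕ) (v k : ℕ) :
    nbl g v (k + 1) = if 0 < g v k then nbl g v k ++ [k] else nbl g v k := by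
  unfold nbl
  rw [List.range_succ, List.filter_append]
  by_cases h : 0 < g v k
  · rw [if_pos h]; simp [h]
  · rw [if_neg h]; simp [h]

lemma nbl_length_le (g : ℕ → ℕ → ℕ) (v k : ℕ) : (nbl g v k).length ≤ k := by
  refine le_trans (List.length_filter_le _ _) (by simp)

/-- The neighbourhood of `v` contains nine pairwise adjacent vertices. -/
def NineV (g : ℕ → ℕ → ℕ) (p v : ℕ) : Prop :=
  NineL g (nbl g v p).length (fun i => (nbl g v p).getD i 0)

/-- Indicators of the sets of common neighbours and of their complements. -/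
def bx (g : ℕ → ℕ → ℕ) (p : ℕ) (J : ℕ × Bool) (v : ℕ) : ℕ :=
  if J.2 then bb g p J.1 v else 1 - bb g p J.1 v

def hx (g : ℕ → ℕ → ℕ) (p K' : ℕ) (J : ℕ × Bool) : ℕ :=
  K' * (∑ v ∈ Finset.range p, bx g p J v) / p

def Fx (p : ℕ) : Finset (ℕ × Bool) :=
  Finset.range ((p * p * p) * (p * p * p)) ×ˢ Finset.univ

lemma mem_Fx {p : ℕ} {J : ℕ × Bool} : J ∈ Fx p ↔ J.1 < (p * p * p) * (p * p * p) := by
  simp [Fx]

lemma card_Fx (p : ℕ) : (Fx p).card = 2 * ((p * p * p) * (p * p * p)) := by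
  simp [Fx]; ring

lemma sum_Fx {p : ℕ} (f : ℕ × Bool → ℕ) : ∑ J ∈ Fx p, f J =
    ∑ J ∈ Finset.range ((p * p * p) * (p * p * p)), (f (J, true) + f (J, false)) := by
  unfold Fx
  rw [Finset.sum_product]
  refine Finset.sum_congr rfl fun J _ => ?_
  rw [Fintype.sum_bool]

lemma bx_le {g : ℕ → ℕ → ℕ} (hg : ∀ u v, g u v ≤ 1) (p : ℕ) (J : ℕ × Bool) (v : ℕ) :
    bx g p J v ≤ 1 := by
  unfold bx
  split_ifs
  · exact bb_le hg _ _ _
  · omega

lemma hx_false {g : ℕ → ℕ → ℕ} (hg : ∀ u v, g u v ≤ 1) (p K' J : ℕ) :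
    hx g p K' (J, false) = K' * (p - ∑ v ∈ Finset.range p, bb g p J v) / p := by
  have : ∑ v ∈ Finset.range p, (1 - bb g p J v) = p - ∑ v ∈ Finset.range p, bb g p J v := by
    have h : ∑ v ∈ Finset.range p, (1 - bb g p J v) + ∑ v ∈ Finset.range p, bb g p J v = p := by
      rw [← Finset.sum_add_distrib]
      rw [Finset.sum_congr rfl fun v _ => Nat.sub_add_cancel (bb_le hg p J v)]
      simp
    omega
  simp only [hx, bx, Bool.false_eq_true, if_false, this]

/-- Degree. -/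
def dg (g : ℕ → ℕ → ℕ) (p v : ℕ) : ℕ := ∑ x ∈ Finset.range p, g v x

lemma dg_eq {g : ℕ → ℕ → ℕ} (hg : ∀ u v, g u v ≤ 1) (p v : ℕ) : (nbl g v p).length = dg g p v := by
  unfold dg
  induction p with
  | zero => simp [nbl]
  | succ p ih =>
    rw [nbl_succ, Finset.sum_range_succ, ← ih]
    have := hg v p
    split_ifs with h
    · simp; omega
    · omega

end Pool.Agent.H792_Clique
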