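import Pool.Agent.H792_Clique.Arr

/-!
Tables of the digits of the numbers below `n ^ 3`.
-/

set_option autoImplicit false

namespace Pool.Agent.H792_Clique

open Pool.Agent.H588R2 Pool.Agent.TH687.HL

/-- Nested loops: the predicate `TI` does not depend on the registers. -/
theorem Tb.nest {X w x b : ℕ} {c : HC} {s : St} {T N : ℕ} {Q : St → Prop} (P : PX X w)
    (hb : Bd X s) (TI : ℕ → (ℕ → ℕ) → Prop) (k0 d τ : ℕ) (hN : s.reg b = N)
    (hT : N * (τ + 4) + 3 ≤ T) (h0 : TI k0 s.mem)
    (hstep : ∀ i < N, ∀ s', TI (k0 + i * d) s'.mem → Bd X s' → s'.reg x = i →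
      (∀ y, y ≠ x → y ∉ c.wr → s'.reg y = s.reg y) →
      Tr w c s' τ (fun s'' => Bd X s'' ∧ TI (k0 + (i + 1) * d) s''.mem))
    (hQ : ∀ s', TI (k0 + N * d) s'.mem → Bd X s' → s'.reg x = N →
      (∀ y, y ≠ x → y ∉ c.wr → s'.reg y = s.reg y) → Q s') :
    Tr w (.loop x b c) s T Q :=
  Tb.loop P hb (fun i s' => TI (k0 + i * d) s'.mem) τ hN hT (by simpa using h0) hstep hQ

/-- Index of a triple. -/
def idxT : Ex := .add (.mul (.r 10) (.r 2)) (.add (.mul (.r 11) (.r 1)) (.r 12))

/-- Store the digits. -/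
def tripBody : HC :=
  .seq (stA 5 idxT (ldA 4 (.r 10))) (.seq (stA 6 idxT (ldA 4 (.r 11))) (stA 7 idxT (ldA 4 (.r 12))))

/-- Tables of the entries `Ls (i / n ^ 2)`, `Ls (i / n % n)`, `Ls (i % n)` for `i < n ^ 3`. -/
def tripC : HC :=
  .seq (.asg 2 (.mul (.r 1) (.r 1))) (.seq (.asg 3 (.mul (.r 2) (.r 1)))
    (.loop 10 1 (.loop 11 1 (.loop 12 1 tripBody))))

/-- State of the tables. -/
structure TIt (B n : ℕ) (Ls : ℕ → ℕ) (m0 : ℕ → ℕ) (k : ℕ) (m : ℕ → ℕ) : Prop where
  fr : Fr [5, 6, 7] B m0 m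
  d1 : Fi B m 5 k (fun i => Ls (i / (n * n)))
  d2 : Fi B m 6 k (fun i => Ls (i / n % n))
  d3 : Fi B m 7 k (fun i => Ls (i % n))

lemma digits3 {n a b c : ℕ} (hb : b < n) (hc : c < n) :
    (a * (n * n) + (b * n + c)) / (n * n) = a ∧ (a * (n * n) + (b * n + c)) / n % n = b ∧
      (a * (n * n) + (b * n + c)) % n = c := by
  have hn : 0 < n := by omega
  have hlt : b * n + c < n * n := by nlinarith
  have e1 : a * (n * n) + (b * n + c) = c + n * (b + n * a) := by ring
  refine ⟨?_, ?_, ?_⟩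
  · rw [Nat.mul_comm a, Nat.add_comm, Nat.add_mul_div_left _ _ (by positivity),
      Nat.div_eq_of_lt hlt, Nat.zero_add]
  · rw [e1, Nat.add_mul_div_left _ _ hn, Nat.div_eq_of_lt hc, Nat.zero_add,
      Nat.add_mul_mod_self_left, Nat.mod_eq_of_lt hb]
  · rw [e1, Nat.add_mul_mod_self_left, Nat.mod_eq_of_lt hc]

theorem tr_trip {X w : ℕ} (P : PX X w) {B n : ℕ} {Ls : ℕ → ℕ} {s : St} {Q : St → Prop}
    (hX : 32 ≤ X) (hb : Bd X s) (h99 : s.reg 99 = B) (h1 : s.reg 1 = n) (hL : Fi B s.mem 4 n Ls)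
    (hn : n * n * n ≤ X) (hn2 : n * n ≤ X)
    (hQ : ∀ s', Bd X s' → (∀ y, y ∉ tripC.wr → s'.reg y = s.reg y) → s'.reg 2 = n * n →
      s'.reg 3 = n * n * n → TIt B n Ls s.mem (n * n * n) s'.mem → Q s') :
    Tr w tripC s (200 * (n + 1) ^ 3) Q := by
  have hT : 10 + (10 + (n * ((n * ((n * (120 + 4) + 3) + 4) + 3) + 4) + 3)) ≤ 200 * (n + 1) ^ 3 := by
    nlinarith [sq_nonneg n, Nat.zero_le n, Nat.zero_le (n ^ 3), Nat.zero_le (n ^ 2)]
  refine Tr.mono (T := 10 + (10 + (n * ((n * ((n * (120 + 4) + 3) + 4) + 3) + 4) + 3))) ?_ hT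
    (fun _ h => h)
  apply Tr.seq
  refine Tb.asg P hb (by simp [cs]) (by simp [sz]) (by simp [Ex.cost]) ?_ ?_
  · simp only [Ex.ev, h1]; exact hn2
  intro hb1
  apply Tr.seq
  refine Tb.asg P hb1 (by simp [cs]) (by simp [sz]) (by simp [Ex.cost]) ?_ ?_
  · simp only [Ex.ev, set_reg, h1]; simpa using hn
  intro hb2
  set s2 := (s.set 2 ((Ex.mul (.r 1) (.r 1)).ev s)).set 3
    ((Ex.mul (.r 2) (.r 1)).ev (s.set 2 ((Ex.mul (.r 1) (.r 1)).ev s))) with hs2
  have a1 : s2.reg 1 = n := by simp [hs2, set_reg, h1]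
  have a2 : s2.reg 2 = n * n := by simp [hs2, set_reg, Ex.ev, h1]
  have a3 : s2.reg 3 = n * n * n := by simp [hs2, set_reg, Ex.ev, h1]
  have a99 : s2.reg 99 = B := by simp [hs2, set_reg, h99]
  have am : s2.mem = s.mem := rfl
  have hfr0 : ∀ y, y ∉ tripC.wr → s2.reg y = s.reg y := by
    intro y hy
    have h2 : y ≠ 2 := by rintro rfl; exact hy (by decide)
    have h3 : y ≠ 3 := by rintro rfl; exact hy (by decide)
    simp [hs2, set_reg, h2, h3]
  refine Tb.nest P hb2 (TIt B n Ls s.mem) 0 (n * n) ((n * ((n * (120 + 4) + 3) + 4) + 3)) a1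
    le_rfl ⟨am ▸ Fr.refl _ _ _, Fi.zero _ _ _ _, Fi.zero _ _ _ _, Fi.zero _ _ _ _⟩ ?_ ?_
  · intro i hi s3 hTI3 hb3 r10 fr3
    refine Tb.nest P hb3 (TIt B n Ls s.mem) (0 + i * (n * n)) n (n * (120 + 4) + 3)
      (N := n) ?_ le_rfl hTI3 ?_ ?_
    · rw [fr3 1 (by norm_num) (by decide), a1]
    · intro j hj s4 hTI4 hb4 r11 fr4
      refine Tb.nest P hb4 (TIt B n Ls s.mem) (0 + i * (n * n) + j * n) 1 120
        (N := n) ?_ le_rfl hTI4 ?_ ?_
      · rw [fr4 1 (by norm_num) (by decide), fr3 1 (by norm_num) (by decide), a1]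
      · intro k hk s5 hTI5 hb5 r12 fr5
        have b1 : s5.reg 1 = n := by
          rw [fr5 1 (by norm_num) (by decide), fr4 1 (by norm_num) (by decide),
            fr3 1 (by norm_num) (by decide), a1]
        have b2 : s5.reg 2 = n * n := by
          rw [fr5 2 (by norm_num) (by decide), fr4 2 (by norm_num) (by decide),
            fr3 2 (by norm_num) (by decide), a2]
        have b99 : s5.reg 99 = B := by
          rw [fr5 99 (by norm_num) (by decide), fr4 99 (by norm_num) (by decide),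
            fr3 99 (by norm_num) (by decide), a99]
        have b10 : s5.reg 10 = i := by
          rw [fr5 10 (by norm_num) (by decide), fr4 10 (by norm_num) (by decide), r10]
        have b11 : s5.reg 11 = j := by
          rw [fr5 11 (by norm_num) (by decide), r11]
        set K := 0 + i * (n * n) + j * n + k * 1 with hK
        have hK' : K = i * (n * n) + (j * n + k) := by rw [hK]; ring
        obtain ⟨g1, g2, g3⟩ := digits3 (a := i) hj hk
        rw [← hK'] at g1 g2 g3
        have hidx : ∀ s' : St, s'.reg = s5.reg → idxT.ev s' = K := by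
          intro s' hs'
          simp only [idxT, Ex.ev, hs', b10, b2, b11, b1, r12, hK']
        have hLs : ∀ m', Fr [5, 6, 7] B s.mem m' → ∀ t < n, ar B m' 4 t = Ls t := by
          intro m' hF t ht
          exact (hF.arr 4 (by norm_num) (by decide) t).trans (hL t ht)
        have hLX : ∀ t < n, Ls t ≤ X := by
          intro t ht
          rw [← hL t ht]; exact hb.mem _
        have vadA : ∀ (s' : St) (kk : ℕ), s'.reg = s5.reg → (adA kk idxT).ev s' = B + (32 * K + kk) := by
          intro s' kk hs'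
          rw [adA_ev, hidx s' hs', hs', b99]
        have hcs : cs X idxT := by simp [idxT, cs]
        have hsz : sz idxT = 5 := by simp [idxT, sz]
        have hcost : idxT.cost = 14 := by simp [idxT, Ex.cost]
        have st1 : ∀ (kk jj : ℕ) (y : ℕ) (s' : St), kk ≤ 7 → s'.reg = s5.reg → Bd X s' →
            Fr [5, 6, 7] B s.mem s'.mem → s5.reg y = jj → jj < n → ∀ Q' : St → Prop,
            (Bd X (put s' (B + (32 * K + kk)) (Ls jj)) → Q' (put s' (B + (32 * K + kk)) (Ls jj))) →
            Tr w (stA kk idxT (ldA 4 (.r y))) s' 40 Q' := by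
          intro kk jj y s' hkk hs' hb' hF hy hjj Q' hQ'
          have hv : (ldA 4 (.r y)).ev s' = Ls jj := by
            rw [ldA_ev, hs', b99]
            simp only [Ex.ev, hs', hy]
            exact hLs _ hF _ hjj
          refine Tb.sto P hb' (by simp [hcs]; omega) (by simp [hsz]) (by simp [cs]; omega)
            (by simp [sz]) (by simp [hcost, Ex.cost]) (by rw [hv]; exact hLX _ hjj) ?_
          rw [hv, vadA s' kk hs']
          exact hQ'
        refine Tr.mono (T := 40 + (40 + 40)) ?_ (by norm_num) (fun _ h => h)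
        · apply Tr.seq
          refine st1 5 i 10 s5 (by norm_num) rfl hb5 hTI5.fr b10 hi _ ?_
          intro hb6
          apply Tr.seq
          refine st1 6 j 11 (put s5 (B + (32 * K + 5)) (Ls i)) (by norm_num) rfl hb6 (hTI5.fr.upd (by norm_num) (by decide) _ _) b11 hj _ ?_
          intro hb7
          refine st1 7 k 12 (put (put s5 (B + (32 * K + 5)) (Ls i)) (B + (32 * K + 6)) (Ls j)) (by norm_num) rfl hb7 ((hTI5.fr.upd (by norm_num) (by decide) _ _).upd
            (by norm_num) (by decide) _ _) r12 hk _ ?_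
          intro hb8
          refine ⟨hb8, ?_⟩
          have e1 : 0 + i * (n * n) + j * n + (k + 1) * 1 = K + 1 := by rw [hK]; ring
          rw [e1]
          refine ⟨((hTI5.fr.upd (by norm_num) (by decide) _ _).upd (by norm_num) (by decide) _ _).upd
            (by norm_num) (by decide) _ _, ?_, ?_, ?_⟩
          · refine Fi.other (Fi.other (Fi.upd hTI5.d1 (by norm_num) ?_) (by norm_num) (by norm_num)
              (by norm_num)) (by norm_num) (by norm_num) (by norm_num)
            simp only [g1]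
          · refine Fi.other (Fi.upd (Fi.other hTI5.d2 (by norm_num) (by norm_num) (by norm_num))
              (by norm_num) ?_) (by norm_num) (by norm_num) (by norm_num)
            simp only [g2]
          · refine Fi.upd (Fi.other (Fi.other hTI5.d3 (by norm_num) (by norm_num) (by norm_num))
              (by norm_num) (by norm_num) (by norm_num)) (by norm_num) ?_
            simp only [g3]
      · intro s5 hTI5 hb5 _ _
        refine ⟨hb5, ?_⟩
        have e1 : 0 + i * (n * n) + (j + 1) * n = 0 + i * (n * n) + j * n + n * 1 := by ring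
        rw [e1]; exact hTI5
    · intro s4 hTI4 hb4 _ _
      refine ⟨hb4, ?_⟩
      have e1 : 0 + (i + 1) * (n * n) = 0 + i * (n * n) + n * n := by ring
      rw [e1]; exact hTI4
  · intro s3 hTI3 hb3 _ fr3
    have e1 : 0 + n * (n * n) = n * n * n := by ring
    rw [e1] at hTI3
    have hw' : ∀ y, y ∉ tripC.wr → s3.reg y = s.reg y := by
      intro y hy
      rw [fr3 y, hfr0 y hy]
      · rintro rfl; exact hy (by decide)
      · intro h; exact hy (by
          simp only [tripC, HC.wr, List.mem_append, List.mem_cons] at h ⊢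
          tauto)
    refine hQ s3 hb3 hw' ?_ ?_ hTI3
    · rw [fr3 2 (by norm_num) (by decide), a2]
    · rw [fr3 3 (by norm_num) (by decide), a3]

end Pool.Agent.H792_Clique
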