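import Pool.Agent.H792_Clique.Defs
import Pool.Agent.H792_Clique.Kron
import Pool.Agent.H792_Clique.Trip
import Pool.Agent.H792_Clique.MW
import Pool.Agent.H792_Clique.PDefs

/-!
Nine pairwise adjacent vertices in neighbourhoods, and cliques.
-/

set_option autoImplicit false
set_option linter.unusedSimpArgs false
set_option linter.unusedVariables false

namespace Pool.Agent.H792_Clique

variable {p : ℕ} {G : SimpleGraph (Fin p)}

lemma bit_le (G : SimpleGraph (Fin p)) (u v : ℕ) : bit G u v ≤ 1 := by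
  unfold bit; split_ifs <;> omega

lemma bit_symm (G : SimpleGraph (Fin p)) (u v : ℕ) : bit G u v = bit G v u := by
  unfold bit
  congr 1
  simp only [eq_iff_iff]
  constructor
  · rintro ⟨h1, h2, h3⟩; exact ⟨h2, h1, h3.symm⟩
  · rintro ⟨h1, h2, h3⟩; exact ⟨h2, h1, h3.symm⟩

lemma bit_ne {u v : ℕ} : bit G u v ≠ 0 ↔ ∃ (hu : u < p) (hv : v < p), G.Adj ⟨u, hu⟩ ⟨v, hv⟩ := by
  unfold bit
  split_ifs with h
  · simp [h]
  · simp [h]

lemma bit_fin {u v : Fin p} : bit G u v ≠ 0 ↔ G.Adj u v := by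
  rw [bit_ne]
  constructor
  · rintro ⟨_, _, h⟩; exact h
  · intro h; exact ⟨u.2, v.2, h⟩

lemma mem_nbl {g : ℕ → ℕ → ℕ} {v k x : ℕ} : x ∈ nbl g v k ↔ x < k ∧ g v x ≠ 0 := by
  unfold nbl
  simp [List.mem_filter, Nat.pos_iff_ne_zero]

/-- Soundness. -/
theorem not_free_of_nineV {v : ℕ} (hv : v < p) (h : NineV (bit G) p v) : ¬ G.CliqueFree 10 := by
  obtain ⟨l, hl, hlt, hp⟩ := h
  set x : ℕ → ℕ := fun i => (nbl (bit G) v p).getD i 0 with hx
  have hmem : ∀ i ∈ l, x i < p ∧ bit G v (x i) ≠ 0 := by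
    intro i hi
    have h1 := hlt i hi
    have h2 : x i ∈ nbl (bit G) v p := by
      simp only [hx, List.getD_eq_getElem?_getD, List.getElem?_eq_getElem h1, Option.getD_some]
      exact List.getElem_mem _
    exact mem_nbl.1 h2
  have hpw : (v :: l.map x).Pairwise (fun a b => bit G a b ≠ 0) := by
    rw [List.pairwise_cons, List.pairwise_map]
    refine ⟨?_, hp⟩
    intro y hy
    obtain ⟨i, hi, rfl⟩ := List.mem_map.1 hy
    exact (hmem i hi).2
  have hlt' : ∀ y ∈ v :: l.map x, y < p := by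
    intro y hy
    rcases List.mem_cons.1 hy with rfl | hy
    · exact hv
    · obtain ⟨i, hi, rfl⟩ := List.mem_map.1 hy
      exact (hmem i hi).1
  set L : List (Fin p) := (v :: l.map x).pmap (fun a h => (⟨a, h⟩ : Fin p)) hlt' with hL
  have hLp : L.Pairwise (fun a b => G.Adj a b) := by
    rw [hL, List.pairwise_pmap]
    refine hpw.imp ?_
    intro a b hab h1 h2
    obtain ⟨_, _, h⟩ := bit_ne.1 hab
    exact h
  have hnd : L.Nodup := hLp.imp fun {a b} hab => hab.ne
  have hlen : L.length = 10 := by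
    rw [hL, List.length_pmap, List.length_cons, List.length_map, hl]
  intro hfree
  refine hfree L.toFinset ⟨?_, ?_⟩
  · intro a ha b hb hab
    have ha' : a ∈ L := by simpa using ha
    have hb' : b ∈ L := by simpa using hb
    have : Std.Symm (fun a b : Fin p => G.Adj a b) := ⟨fun _ _ h => G.adj_symm h⟩
    exact hLp.forall ha' hb' hab
  · rw [List.toFinset_card_of_nodup hnd, hlen]

/-- Completeness. -/
theorem nineV_of_clique {S : Finset (Fin p)} (hS : G.IsNClique 9 S) {u : Fin p}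
    (hu : ∀ x ∈ S, G.Adj u x) : NineV (bit G) p u := by
  set L := nbl (bit G) u p with hL
  have hmem : ∀ x ∈ S, (x : ℕ) ∈ L := fun x hx => mem_nbl.2 ⟨x.2, bit_fin.2 (hu x hx)⟩
  refine ⟨S.toList.map (fun x : Fin p => L.idxOf (x : ℕ)), ?_, ?_, ?_⟩
  · rw [List.length_map, Finset.length_toList, hS.2]
  · intro i hi
    obtain ⟨x, hx, rfl⟩ := List.mem_map.1 hi
    exact List.idxOf_lt_length_iff.2 (hmem x (Finset.mem_toList.1 hx))
  · rw [List.pairwise_map]
    have hget : ∀ x ∈ S, L.getD (L.idxOf (x : ℕ)) 0 = (x : ℕ) := by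
      intro x hx
      have h1 := List.idxOf_lt_length_iff.2 (hmem x hx)
      simp only [List.getD_eq_getElem?_getD, List.getElem?_eq_getElem h1, Option.getD_some,
        List.getElem_idxOf]
    have hnd : S.toList.Pairwise (fun a b => a ≠ b) := S.nodup_toList
    refine List.Pairwise.imp_of_mem ?_ hnd
    intro a b ha hb hab
    rw [Finset.mem_toList] at ha hb
    show bit G (L.getD (L.idxOf (a : ℕ)) 0) (L.getD (L.idxOf (b : ℕ)) 0) ≠ 0
    rw [hget a ha, hget b hb]
    exact bit_fin.2 (hS.1 ha hb hab)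

lemma dg_bit (v : Fin p) : dg (bit G) p v = dgr G v := by
  classical
  unfold dg dgr
  rw [Finset.sum_range (fun x => bit G v x), Finset.card_filter]
  refine Finset.sum_congr rfl fun x _ => ?_
  unfold bit
  by_cases h : G.Adj v x
  · rw [if_pos h, if_pos ⟨v.2, x.2, h⟩]
  · rw [if_neg h, if_neg]
    rintro ⟨_, _, h'⟩; exact h h'

open Classical in
/-- Index of a set of at most six vertices. -/
lemma exists_idx {J : Finset (Fin p)} (hJ0 : J.Nonempty) (hJ : J.card ≤ 6) :
    ∃ i < (p * p * p) * (p * p * p),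
    ∀ v : Fin p, bb (bit G) p i v = if ∀ x ∈ J, G.Adj v x then 1 else 0 := by
  obtain ⟨a0, ha0⟩ := hJ0
  obtain ⟨L, hlen, hL⟩ : ∃ L : List (Fin p), L.length = 6 ∧ ∀ x, x ∈ L ↔ x ∈ J := by
    refine ⟨J.toList ++ List.replicate (6 - J.card) a0, ?_, ?_⟩
    · rw [List.length_append, Finset.length_toList, List.length_replicate]; omega
    · intro x
      rw [List.mem_append, Finset.mem_toList, List.mem_replicate]
      constructor
      · rintro (h | ⟨_, rfl⟩)
        · exact h
        · exact ha0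
      · intro h; left; exact h
  obtain ⟨a1, a2, a3, b1, b2, b3, hl⟩ : ∃ a1 a2 a3 b1 b2 b3 : Fin p,
      L = [a1, a2, a3, b1, b2, b3] := by
    rcases hh : L with _ | ⟨a1, l⟩
    · rw [hh] at hlen; simp at hlen
    rcases l with _ | ⟨a2, l⟩
    · rw [hh] at hlen; simp at hlen
    rcases l with _ | ⟨a3, l⟩
    · rw [hh] at hlen; simp at hlen
    rcases l with _ | ⟨b1, l⟩
    · rw [hh] at hlen; simp at hlen
    rcases l with _ | ⟨b2, l⟩
    · rw [hh] at hlen; simp at hlen
    rcases l with _ | ⟨b3, l⟩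
    · rw [hh] at hlen; simp at hlen
    rcases l with _ | ⟨c4, l⟩
    · exact ⟨a1, a2, a3, b1, b2, b3, rfl⟩
    · rw [hh] at hlen; simp at hlen
  have hmem : ∀ x, x ∈ J ↔ x = a1 ∨ x = a2 ∨ x = a3 ∨ x = b1 ∨ x = b2 ∨ x = b3 := by
    intro x
    rw [← hL, hl]
    simp
  have lt3 : ∀ a b c : Fin p, (a : ℕ) * (p * p) + ((b : ℕ) * p + c) < p * p * p := by
    intro a b c
    have ha := a.2
    have hb := b.2
    have hc := c.2
    have h1 : (b : ℕ) * p + c < p * p := by nlinarith
    have h2 : ((a : ℕ) + 1) * (p * p) ≤ p * (p * p) := Nat.mul_le_mul_right _ ha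
    nlinarith
  set A := (a1 : ℕ) * (p * p) + ((a2 : ℕ) * p + a3) with hA
  set D := (b1 : ℕ) * (p * p) + ((b2 : ℕ) * p + b3) with hD
  have hA' : A < p * p * p := lt3 _ _ _
  have hD' : D < p * p * p := lt3 _ _ _
  refine ⟨A * (p * p * p) + D, ?_, ?_⟩
  · have : (A + 1) * (p * p * p) ≤ (p * p * p) * (p * p * p) := Nat.mul_le_mul_right _ hA'
    rw [Nat.add_mul] at this
    omega
  · intro v
    obtain ⟨g1, g2⟩ := dm (a := A) hD'
    have e1 := digits3 (a := (a1 : ℕ)) a2.2 a3.2
    have e2 := digits3 (a := (b1 : ℕ)) b2.2 b3.2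
    rw [← hA] at e1
    rw [← hD] at e2
    unfold bb
    rw [g1, g2]
    unfold ta
    rw [e1.1, e1.2.1, e1.2.2, e2.1, e2.2.1, e2.2.2]
    by_cases hc : ∀ x ∈ J, G.Adj v x
    · rw [if_pos hc]
      have hb : ∀ x : Fin p, x ∈ J → bit G v x = 1 := by
        intro x hx
        have h1 := bit_fin.2 (hc x hx)
        have h2 := bit_le G v x
        omega
      rw [hb a1 ((hmem _).2 (by tauto)), hb a2 ((hmem _).2 (by tauto)), hb a3 ((hmem _).2 (by tauto)),
        hb b1 ((hmem _).2 (by tauto)), hb b2 ((hmem _).2 (by tauto)), hb b3 ((hmem _).2 (by tauto))]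
    · rw [if_neg hc]
      by_contra hne
      apply hc
      simp only [mul_eq_zero, not_or] at hne
      obtain ⟨⟨h1, h2, h3⟩, h4, h5, h6⟩ := hne
      intro x hx
      rcases (hmem x).1 hx with rfl | rfl | rfl | rfl | rfl | rfl
      · exact bit_fin.1 h1
      · exact bit_fin.1 h2
      · exact bit_fin.1 h3
      · exact bit_fin.1 h4
      · exact bit_fin.1 h5
      · exact bit_fin.1 h6

open Classical in
lemma cnb_eq {J : Finset (Fin p)} {i : ℕ}
    (hi : ∀ v : Fin p, bb (bit G) p i v = if ∀ x ∈ J, G.Adj v x then 1 else 0) :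
    ∑ v ∈ Finset.range p, bb (bit G) p i v = cnb G J := by
  unfold cnb
  rw [Finset.sum_range (fun v => bb (bit G) p i v), Finset.card_filter]
  refine Finset.sum_congr rfl fun v _ => ?_
  rw [hi v]

open Classical in
/-- Number of terms of the sequence adjacent to all of `J`. -/
noncomputable def hit (G : SimpleGraph (Fin p)) (s : ℕ) (u : ℕ → ℕ) (J : Finset (Fin p)) : ℕ :=
  ((Finset.range s).filter fun t => ∃ h : u t < p, ∀ x ∈ J, G.Adj ⟨u t, h⟩ x).card

/-- The sequence hits every set of common neighbours about as often as a random vertex. -/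
theorem hit_approx {K K' s : ℕ} {W : ℕ → ℕ × Bool → ℕ} {u : ℕ → ℕ}
    (H : MWd (Fx p) p K K' s (bx (bit G) p) (hx (bit G) p K') W u)
    (hu : ∀ t < s, u t < p) {J : Finset (Fin p)} (hJ : J.card ≤ 6) :
    |(hit G s u J : ℝ) - s * (cnb G J / p)| ≤
      s * (1 / (K' : ℝ) + 2 / K) + K * Real.log (((Fx p).card : ℕ) : ℝ) := by
  classical
  have hp : 0 < p := H.p1
  have hpr : (0 : ℝ) < p := by exact_mod_cast hp
  have hE : 0 ≤ s * (1 / (K' : ℝ) + 2 / K) + K * Real.log (((Fx p).card : ℕ) : ℝ) := by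
    have h1 : 0 ≤ Real.log (((Fx p).card : ℕ) : ℝ) := Real.log_natCast_nonneg _
    positivity
  rcases J.eq_empty_or_nonempty with rfl | hJ0
  · have e1 : hit G s u ∅ = s := by
      unfold hit
      rw [Finset.filter_true_of_mem]
      · simp
      · intro t ht
        exact ⟨hu t (Finset.mem_range.1 ht), by simp⟩
    have e2 : cnb G ∅ = p := by
      unfold cnb
      rw [Finset.filter_true_of_mem]
      · simp
      · intro t _; simp
    rw [e1, e2, div_self hpr.ne', mul_one, sub_self, abs_zero]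
    exact hE
  · obtain ⟨i, hi, hb⟩ := exists_idx (G := G) hJ0 hJ
    have h1 := H.hits (J := (i, true)) (mem_Fx.2 hi)
    have h2 := H.hits (J := (i, false)) (mem_Fx.2 hi)
    have c1 : ∑ v ∈ Finset.range p, bx (bit G) p (i, true) v = cnb G J := by
      simp only [bx, if_true]
      exact cnb_eq hb
    have c2 : ∑ v ∈ Finset.range p, bx (bit G) p (i, false) v + cnb G J = p := by
      rw [← cnb_eq hb, ← Finset.sum_add_distrib]
      simp only [bx, Bool.false_eq_true, if_false]
      rw [Finset.sum_congr rfl fun v _ => Nat.sub_add_cancel (bb_le (bit_le G) p i v)]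
      simp
    have e1 : ∑ t ∈ Finset.range s, (bx (bit G) p (i, true) (u t) : ℝ) = hit G s u J := by
      unfold hit
      rw [Finset.card_filter]
      push_cast
      refine Finset.sum_congr rfl fun t ht => ?_
      have hut := hu t (Finset.mem_range.1 ht)
      simp only [bx, if_true]
      have := hb ⟨u t, hut⟩
      simp only at this
      rw [this]
      by_cases hc : ∀ x ∈ J, G.Adj ⟨u t, hut⟩ x
      · rw [if_pos hc, if_pos ⟨hut, hc⟩]; simp
      · rw [if_neg hc, if_neg]
        · simp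
        · rintro ⟨_, h⟩; exact hc h
    have e2 : ∑ t ∈ Finset.range s, (bx (bit G) p (i, false) (u t) : ℝ) = s - hit G s u J := by
      rw [← e1, eq_sub_iff_add_eq, ← Finset.sum_add_distrib]
      have : ∀ t ∈ Finset.range s, (bx (bit G) p (i, false) (u t) : ℝ) +
          (bx (bit G) p (i, true) (u t) : ℝ) = 1 := by
        intro t _
        simp only [bx, if_true, Bool.false_eq_true, if_false]
        have := Nat.sub_add_cancel (bb_le (bit_le G) p i (u t))
        exact_mod_cast this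
      rw [Finset.sum_congr rfl this]
      simp
    rw [c1, e1] at h1
    rw [e2] at h2
    have c2' : ((∑ v ∈ Finset.range p, bx (bit G) p (i, false) v : ℕ) : ℝ) / p =
        1 - (cnb G J : ℝ) / p := by
      have : ((∑ v ∈ Finset.range p, bx (bit G) p (i, false) v : ℕ) : ℝ) = p - cnb G J := by
        rw [eq_sub_iff_add_eq]; exact_mod_cast c2
      rw [this, sub_div, div_self hpr.ne']
    rw [c2'] at h2
    rw [abs_le]
    constructor
    · nlinarith
    · nlinarith

/-- Number of neighbours of the vertex `v` in `Q`. -/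
noncomputable def nq (G : SimpleGraph (Fin p)) (Q : Finset (Fin p)) (v : Fin p) : ℕ :=
  open Classical in
  (Q.filter fun x => G.Adj v x).card

/-- Value of the polynomial with the coefficients `c` in the binomial basis. -/
def pf (c : ℕ → ℝ) (x : ℕ) : ℝ := ∑ i ∈ Finset.range 7, c i * (x.choose i : ℝ)

lemma hit_sum {s : ℕ} {u : ℕ → ℕ} (hu : ∀ t < s, u t < p) (Q : Finset (Fin p)) (i : ℕ) :
    ∑ J ∈ Q.powersetCard i, (hit G s u J : ℝ) =
      ∑ t ∈ (Finset.range s).attach, (((nq G Q ⟨u t, hu t (Finset.mem_range.1 t.2)⟩).choose i : ℕ) : ℝ) := by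
  classical
  have h1 : ∀ J, (hit G s u J : ℝ) = ∑ t ∈ (Finset.range s).attach,
      (if ∀ x ∈ J, G.Adj ⟨u t, hu t (Finset.mem_range.1 t.2)⟩ x then (1 : ℝ) else 0) := by
    intro J
    unfold hit
    rw [Finset.card_filter]
    push_cast
    rw [← Finset.sum_attach]
    refine Finset.sum_congr rfl fun t _ => ?_
    by_cases hc : ∀ x ∈ J, G.Adj ⟨u t, hu t (Finset.mem_range.1 t.2)⟩ x
    · rw [if_pos hc, if_pos ⟨_, hc⟩]
    · rw [if_neg hc, if_neg]
      rintro ⟨_, h⟩; exact hc h
  simp only [h1]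
  rw [Finset.sum_comm]
  refine Finset.sum_congr rfl fun t _ => ?_
  rw [← Finset.sum_filter, Finset.sum_const, nsmul_eq_mul, mul_one]
  congr 1
  unfold nq
  rw [← Finset.card_powersetCard]
  congr 1
  ext J
  simp only [Finset.mem_filter, Finset.mem_powersetCard]
  constructor
  · rintro ⟨⟨h1, h2⟩, h3⟩
    exact ⟨fun x hx => Finset.mem_filter.2 ⟨h1 hx, h3 x hx⟩, h2⟩
  · rintro ⟨h1, h2⟩
    exact ⟨⟨fun x hx => (Finset.mem_filter.1 (h1 hx)).1, h2⟩,
      fun x hx => (Finset.mem_filter.1 (h1 hx)).2⟩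

/-- A vertex of the sequence with nine neighbours in the clique. -/
theorem exists_good {s : ℕ} {u : ℕ → ℕ} {ε δ M : ℝ} {c : ℕ → ℝ} (hp : 0 < p)
    (hε : 0 < ε) (hu : ∀ t < s, u t < p) (hs : 0 < s) (hM : ∀ x ≤ 8, pf c x ≤ M)
    (happ : ∀ J : Finset (Fin p), J.card ≤ 6 → |(hit G s u J : ℝ) - s * (cnb G J / p)| ≤ δ * s)
    (hδ : (∑ i ∈ Finset.range 7, |c i| * ((Nat.choose 10 i : ℕ) : ℝ)) * δ ≤ ε / 2)
    {Q : Finset (Fin p)} (hQ : G.IsNClique 10 Q)
    (hr : (M + ε) * p ≤ ∑ i ∈ Finset.range 7, c i * ∑ J ∈ Q.powersetCard i, (cnb G J : ℝ)) :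
    ∃ t < s, NineV (bit G) p (u t) := by
  classical
  by_contra hcon
  push Not at hcon
  have hpr : (0 : ℝ) < p := by exact_mod_cast hp
  have hsr : (0 : ℝ) < s := by exact_mod_cast hs
  -- bound for each vertex
  have hsmall : ∀ t (ht : t < s), nq G Q ⟨u t, hu t ht⟩ ≤ 8 := by
    intro t ht
    by_contra hc
    push Not at hc
    unfold nq at hc
    obtain ⟨S', hS', hc'⟩ := Finset.exists_subset_card_eq
      (show 9 ≤ (Q.filter fun x => G.Adj ⟨u t, hu t ht⟩ x).card by omega)
    apply hcon t ht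
    have := nineV_of_clique (G := G) (S := S') (u := ⟨u t, hu t ht⟩) ⟨?_, hc'⟩ ?_
    · exact this
    · intro a ha b hb hab
      exact hQ.1 (Finset.mem_filter.1 (hS' ha)).1 (Finset.mem_filter.1 (hS' hb)).1 hab
    · intro x hx
      exact (Finset.mem_filter.1 (hS' hx)).2
  set E : ℝ := δ * s with hE
  have hup : ∑ i ∈ Finset.range 7, c i * ∑ J ∈ Q.powersetCard i, (hit G s u J : ℝ) ≤ s * M := by
    simp only [hit_sum hu Q]
    simp only [Finset.mul_sum]
    rw [Finset.sum_comm]
    calc ∑ t ∈ (Finset.range s).attach, ∑ i ∈ Finset.range 7,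
        c i * (((nq G Q ⟨u t, hu t (Finset.mem_range.1 t.2)⟩).choose i : ℕ) : ℝ)
        ≤ ∑ t ∈ (Finset.range s).attach, M := by
          refine Finset.sum_le_sum fun t _ => ?_
          exact hM _ (hsmall t (Finset.mem_range.1 t.2))
      _ = s * M := by simp
  have hdiff : ∀ i ∈ Finset.range 7, c i * ((s / p) * ∑ J ∈ Q.powersetCard i, (cnb G J : ℝ)) -
      |c i| * ((Nat.choose 10 i : ℕ) : ℝ) * E ≤
      c i * ∑ J ∈ Q.powersetCard i, (hit G s u J : ℝ) := by
    intro i hi
    rw [Finset.mem_range] at hi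
    have h1 : |∑ J ∈ Q.powersetCard i, (hit G s u J : ℝ) -
        (s / p) * ∑ J ∈ Q.powersetCard i, (cnb G J : ℝ)| ≤ ((Nat.choose 10 i : ℕ) : ℝ) * E := by
      rw [Finset.mul_sum, ← Finset.sum_sub_distrib]
      refine (Finset.abs_sum_le_sum_abs _ _).trans ?_
      calc ∑ J ∈ Q.powersetCard i, |(hit G s u J : ℝ) - s / p * cnb G J| ≤
          ∑ J ∈ Q.powersetCard i, E := by
            refine Finset.sum_le_sum fun J hJ => ?_
            have e : (s : ℝ) / p * cnb G J = s * (cnb G J / p) := by ring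
            rw [e]
            exact happ J (by rw [(Finset.mem_powersetCard.1 hJ).2]; omega)
        _ = ((Nat.choose 10 i : ℕ) : ℝ) * E := by
            rw [Finset.sum_const, Finset.card_powersetCard, hQ.2, nsmul_eq_mul]
    have h2 : |c i * (∑ J ∈ Q.powersetCard i, (hit G s u J : ℝ) -
        (s / p) * ∑ J ∈ Q.powersetCard i, (cnb G J : ℝ))| ≤
        |c i| * (((Nat.choose 10 i : ℕ) : ℝ) * E) := by
      rw [abs_mul]
      exact mul_le_mul_of_nonneg_left h1 (abs_nonneg _)
    have h3 := (abs_le.1 h2).1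
    linarith
  have hsum := Finset.sum_le_sum hdiff
  rw [Finset.sum_sub_distrib, ← Finset.sum_mul] at hsum
  have hlhs : ∑ i ∈ Finset.range 7, c i * ((s : ℝ) / p * ∑ J ∈ Q.powersetCard i, (cnb G J : ℝ)) =
      (s / p) * ∑ i ∈ Finset.range 7, c i * ∑ J ∈ Q.powersetCard i, (cnb G J : ℝ) := by
    rw [Finset.mul_sum]
    exact Finset.sum_congr rfl fun i _ => by ring
  rw [hlhs] at hsum
  have h4 : (s : ℝ) * (M + ε) ≤
      (s / p) * ∑ i ∈ Finset.range 7, c i * ∑ J ∈ Q.powersetCard i, (cnb G J : ℝ) := by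
    have h5 := mul_le_mul_of_nonneg_left hr (show (0 : ℝ) ≤ s / p by positivity)
    refine le_trans (le_of_eq ?_) h5
    field_simp
  set Cf : ℝ := ∑ i ∈ Finset.range 7, |c i| * ((Nat.choose 10 i : ℕ) : ℝ) with hCf
  have h6 : Cf * E ≤ s * (ε / 2) := by
    have : Cf * E = s * (Cf * δ) := by rw [hE]; ring
    rw [this]
    exact mul_le_mul_of_nonneg_left hδ hsr.le
  have h7 : (s : ℝ) * ε > 0 := by positivity
  nlinarith

end Pool.Agent.H792_Clique
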