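import Pool.Agent.H792_Clique.Vis
import Pool.Agent.H792_Clique.MW

/-!
The main program.
-/

set_option autoImplicit false
set_option linter.unusedSimpArgs false
set_option linter.unusedVariables false

namespace Pool.Agent.H792_Clique

open Pool.Agent.H588R2 Pool.Agent.TH687.HL

lemma MWd.W_le {ι : Type*} {F : Finset ι} {p K K' s : ℕ} {b : ι → ℕ → ℕ} {h : ι → ℕ}
    {W : ℕ → ι → ℕ} {u : ℕ → ℕ} (H : MWd F p K K' s b h W u) {J : ι} (hJ : J ∈ F) :
    W s J ≤ (2 * K * K') ^ s := by
  rw [H.prod_eq hJ s le_rfl]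
  have h1 : ∀ t ∈ Finset.range s, K * K' + h J - K' * b J (u t) ≤ 2 * K * K' := by
    intro t _
    have hh : h J ≤ K' := by
      have h1 := H.h1 J hJ
      have h2 : ∑ v ∈ Finset.range p, b J v ≤ p := by
        refine le_trans (Finset.sum_le_sum fun v _ => H.b1 J v) ?_
        simp
      have h3 : h J * p ≤ K' * p := h1.trans (Nat.mul_le_mul_left _ h2)
      exact Nat.le_of_mul_le_mul_right h3 H.p1
    have := H.K1
    have : K' ≤ K * K' := Nat.le_mul_of_pos_left _ (by omega)
    have e : 2 * K * K' = K * K' + K * K' := by ring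
    omega
  refine le_trans (Finset.prod_le_prod' h1) ?_
  simp

/-- One step of the search for good vertices. -/
def stepC (K K' m r : ℕ) (E1 E2 E3 : ℕ → ℕ → ℤ) : HC :=
  .seq bestC (.seq (updC K K') (visC m r E1 E2 E3))

def usedW : List ℕ := [1, 41, 50, 51, 52, 53, 55, 56, 57, 58] ++ nineW

lemma stepC_wr (K K' m r : ℕ) (E1 E2 E3 : ℕ → ℕ → ℤ) : ∀ y, y ∉ usedW →
    y ∉ (stepC K K' m r E1 E2 E3).wr := by
  intro y hy
  simp only [usedW, List.mem_append, List.mem_cons, List.not_mem_nil, or_false, not_or] at hy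
  obtain ⟨hy1, hy2⟩ := hy
  have h1 := nineC_wr m r E1 E2 E3 y hy2
  simp only [stepC, bestC, updC, visC, taC, nbC, stA, HC.wr, List.mem_append, List.mem_cons,
    List.not_mem_nil, or_false, not_or]
  tauto

/-- Invariant of the search. -/
structure SI (p σ K K' : ℕ) (g : ℕ → ℕ → ℕ) (i : ℕ) (st : St) : Prop where
  ll : LL p σ g st
  d28 : Fi (p * p) st.mem 28 ((p * p * p) * (p * p * p)) (fun J => hx g p K' (J, true))
  d2 : Fi (p * p) st.mem 2 ((p * p * p) * (p * p * p)) (fun J => hx g p K' (J, false))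
  ex : ∃ W u, MWd (Fx p) p K K' i (bx g p) (hx g p K') W u ∧ (∀ t < i, u t < p) ∧
    Fi (p * p) st.mem 27 ((p * p * p) * (p * p * p)) (fun J => W i (J, true)) ∧
    Fi (p * p) st.mem 3 ((p * p * p) * (p * p * p)) (fun J => W i (J, false)) ∧
    (st.reg 41 ≠ 0 ↔ ∃ t < i, NineV g p (u t))
  r41 : st.reg 41 ≤ i

theorem tr_step {X w : ℕ} (Px : PX X w) {m r M : ℕ} {E1 E2 E3 : ℕ → ℕ → ℤ} (H : FM m r M E1 E2 E3)
    {p σ K K' : ℕ} {g : ℕ → ℕ → ℕ} {s : St} {i : ℕ}
    (hX : 32 ≤ X) (hXK : K1 m r M ^ (Nat.clog m (p * p * p) + 1) ≤ X) (hX3 : p * p * p ≤ X)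
    (hX2 : p * p ≤ X) (hpX : p ≤ X) (hp : 1 ≤ p) (hK : 2 ≤ K) (hK' : 1 ≤ K') (hKX : K * K' ≤ X)
    (hW : (2 * K * K') ^ σ * (2 * ((p * p * p) * (p * p * p))) ≤ X) (hσ : σ < X) (hi : i < σ)
    (hb : Bd X s) (hg : ∀ u v, g u v ≤ 1) (hsym : ∀ u v, g u v = g v u)
    (hI : SI p σ K K' g i s) :
    Tr w (stepC K K' m r E1 E2 E3) s (3000 * (p * ((p * p * p) * (p * p * p)) + 1) + tn m r p)
      (fun s' => Bd X s' ∧ SI p σ K K' g (i + 1) s') := by
  obtain ⟨W, u, hM, hu, d27, d3, h41⟩ := hI.ex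
  set N := p * p * p with hN
  have hN1 : 1 ≤ N := by rw [hN]; exact Nat.mul_pos (Nat.mul_pos hp hp) hp
  have h2K : 1 ≤ 2 * K * K' := Nat.mul_pos (by omega) hK'
  have hK'X : K' ≤ X := le_trans (Nat.le_mul_of_pos_left _ (by omega)) hKX
  have hWi : ∀ J ∈ Fx p, W i J ≤ (2 * K * K') ^ i := fun J hJ => hM.W_le hJ
  have hWi' : ∀ J < N * N, ∀ b, W i (J, b) ≤ (2 * K * K') ^ i := fun J hJ b =>
    hWi (J, b) (mem_Fx.2 hJ)
  have hsumX : ∑ J ∈ Finset.range (N * N), (W i (J, true) + W i (J, false)) ≤ X := by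
    refine le_trans (Finset.sum_le_sum (g := fun _ => 2 * (2 * K * K') ^ i) fun J hJ => ?_) ?_
    · have h1 := hWi' J (Finset.mem_range.1 hJ) true
      have h2 := hWi' J (Finset.mem_range.1 hJ) false
      omega
    rw [Finset.sum_const, Finset.card_range, smul_eq_mul]
    have h3 := Nat.mul_le_mul_right (2 * (N * N)) (Nat.pow_le_pow_right h2K hi.le)
    calc N * N * (2 * (2 * K * K') ^ i) = (2 * K * K') ^ i * (2 * (N * N)) := by ring
      _ ≤ X := h3.trans hW
  have htn : ∀ n, n ≤ p → tn m r n ≤ tn m r p := by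
    intro n hn
    have hn3 : n * n * n ≤ p * p * p := Nat.mul_le_mul (Nat.mul_le_mul hn hn) hn
    have hc := Nat.clog_mono_right m hn3
    unfold tn
    have hr : 1 ≤ r := by have := H.two; have := H.le; nlinarith
    exact Nat.mul_le_mul (by omega) (Nat.mul_le_mul_right _ (Nat.pow_le_pow_right hr hc))
  refine Tr.mono (T := 1000 * (p * (N * N) + 1) + (1000 * (N * N + 1) +
    (200 * (p + 1) + tn m r p))) ?_ ?_ (fun _ h => h)
  swap
  · have h2 : N * N ≤ p * (N * N) := Nat.le_mul_of_pos_left _ hp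
    have h3 : p ≤ p * (N * N) := Nat.le_mul_of_pos_right _ (Nat.mul_pos hN1 hN1)
    clear hW hsumX
    generalize p * (N * N) = a at *
    generalize N * N = c at *
    generalize tn m r p = d at *
    clear hN
    omega
  apply Tr.seq
  refine tr_best Px hX hb hI.ll hg hp hpX d27 d3 hsumX ?_
  intro s1 v b1 f1 F1 L1 r56 hv hmax
  have e28 := hI.d28.fr F1 (by norm_num) (by decide)
  have e2 := hI.d2.fr F1 (by norm_num) (by decide)
  have e27 := d27.fr F1 (by norm_num) (by decide)
  have e3 := d3.fr F1 (by norm_num) (by decide)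
  have g41 : s1.reg 41 = s.reg 41 := f1 41 (by decide)
  have hfK : ∀ J, hx g p K' J ≤ K' := by
    intro J
    unfold hx
    apply Nat.div_le_of_le_mul
    rw [Nat.mul_comm p]
    refine Nat.mul_le_mul_left _ ?_
    refine le_trans (Finset.sum_le_sum (g := fun _ => 1) fun v _ => bx_le hg _ _ _) ?_
    simp
  have hstep : ∀ J < N * N, ∀ (b : Bool) (c : ℕ),
      W i (J, b) * (K * K' + hx g p K' (J, b) - K' * c) ≤ X := by
    intro J hJ b c
    have h1 := hWi' J hJ b
    have h2 : K * K' + hx g p K' (J, b) - K' * c ≤ 2 * K * K' := by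
      have := hfK (J, b)
      have : K' ≤ K * K' := Nat.le_mul_of_pos_left _ (by omega)
      have e : 2 * K * K' = K * K' + K * K' := by ring
      omega
    refine le_trans (Nat.mul_le_mul h1 h2) ?_
    rw [← pow_succ]
    refine le_trans (Nat.pow_le_pow_right h2K hi) ?_
    exact le_trans (Nat.le_mul_of_pos_right _ (Nat.mul_pos (by norm_num) (Nat.mul_pos hN1 hN1))) hW
  apply Tr.seq
  refine tr_upd Px hX b1 L1 hg hp hpX r56 hv hKX hK'X e27 e28 e3 e2
    (fun J hJ => hstep J hJ true _) (fun J hJ => hstep J hJ false _) ?_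
  intro s2 b2 f2 r58 F2 L2 d2 d2'
  have g41' : s2.reg 41 = s.reg 41 := by rw [f2 41 (by decide), g41]
  have h41X : s2.reg 41 < X := by
    rw [g41']; have := hI.r41; omega
  refine Tr.mono (T := 200 * (p + 1) + tn m r (nbl g v p).length) ?_
    (Nat.add_le_add_left (htn _ (nbl_length_le g v p)) _) (fun _ h => h)
  refine tr_vis Px H hX hXK hX3 hX2 hpX b2 L2 hg hsym r58 hv h41X ?_
  intro s3 b3 f3 F3 L3 y1 y2
  have h41' : s3.reg 41 ≤ i + 1 ∧ (s3.reg 41 ≠ 0 ↔ (s.reg 41 ≠ 0 ∨ NineV g p v)) := by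
    have := hI.r41
    by_cases hc : NineV g p v
    · have e := y1 hc
      rw [e, g41']
      exact ⟨by omega, by simp [hc]⟩
    · have e := y2 hc
      rw [e, g41']
      exact ⟨by omega, by simp [hc]⟩
  have hupd : ∀ (b : Bool) (J : ℕ), (if i + 1 ≤ i then W (i + 1) (J, b) else
      W i (J, b) * (K * K' + hx g p K' (J, b) - K' * bx g p (J, b) v)) =
      W i (J, b) * (K * K' + hx g p K' (J, b) - K' * bx g p (J, b) v) := by
    intro b J; rw [if_neg (by omega)]
  refine ⟨b3, L3, ?_, ?_, ?_, h41'.1⟩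
  · refine Fi.fr (Fi.fr e28 F2 (by norm_num) (by decide)) F3 (by norm_num) (by decide)
  · refine Fi.fr (Fi.fr e2 F2 (by norm_num) (by decide)) F3 (by norm_num) (by decide)
  · refine ⟨fun t J => if t ≤ i then W t J else
      W i J * (K * K' + hx g p K' J - K' * bx g p J v),
      fun t => if t < i then u t else v, ?_, ?_, ?_, ?_, ?_⟩
    · refine ⟨hM.p1, hM.K1, hM.K1', hM.b1, hM.h1, hM.h2, ?_, ?_, ?_⟩
      · intro J hJ
        simp only [Nat.zero_le, if_true]
        exact hM.W0 J hJ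
      · intro t ht J hJ
        rcases Nat.lt_succ_iff_lt_or_eq.1 ht with h' | h'
        · simp only [if_pos (show t + 1 ≤ i by omega), if_pos (show t ≤ i by omega), if_pos h']
          exact hM.W1 t h' J hJ
        · subst h'
          simp only [if_neg (show ¬ t + 1 ≤ t by omega), le_refl, if_true,
            if_neg (lt_irrefl t)]
      · intro t ht v' hv'
        rcases Nat.lt_succ_iff_lt_or_eq.1 ht with h' | h'
        · simp only [if_pos (show t ≤ i by omega), if_pos h']
          exact hM.gr t h' v' hv'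
        · subst h'
          simp only [le_refl, if_true, if_neg (lt_irrefl t)]
          rw [sum_Fx, sum_Fx]
          exact hmax v' hv'
    · intro t ht
      show (if t < i then u t else v) < p
      split_ifs with h
      · exact hu t h
      · exact hv
    · simp only [hupd]
      exact d2.fr F3 (by norm_num) (by decide)
    · simp only [hupd]
      exact d2'.fr F3 (by norm_num) (by decide)
    · rw [h41'.2, h41]
      constructor
      · rintro (⟨t, ht, h⟩ | h)
        · exact ⟨t, by omega, by simp only [if_pos ht]; exact h⟩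
        · exact ⟨i, by omega, by simp only [lt_irrefl, if_false]; exact h⟩
      · rintro ⟨t, ht, h⟩
        rcases Nat.lt_succ_iff_lt_or_eq.1 ht with h' | h'
        · left
          refine ⟨t, h', ?_⟩
          simpa only [if_pos h'] using h
        · right
          subst h'
          simpa only [lt_irrefl, if_false] using h

/-- Treat the vertices of small degree. -/
def lowC (a b m r : ℕ) (E1 E2 E3 : ℕ → ℕ → ℤ) : HC :=
  .loop 50 98 (.seq (.asg 58 (.r 50)) (.seq (.asg 59 (.c 0)) (.seq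
    (.loop 51 98 (.asg 59 (.add (.r 59) (adE (.r 58) (.r 51)))))
    (.ite (.mul (.c a) (.r 59)) (.mul (.c b) (.r 98)) (visC m r E1 E2 E3) .skip))))

theorem tr_low {X w : ℕ} (Px : PX X w) {m r M : ℕ} {E1 E2 E3 : ℕ → ℕ → ℤ} (H : FM m r M E1 E2 E3)
    {p σ a b D : ℕ} {g : ℕ → ℕ → ℕ} {s : St} {Q : St → Prop}
    (hX : 32 ≤ X) (hXK : K1 m r M ^ (Nat.clog m (p * p * p) + 1) ≤ X) (hX3 : p * p * p ≤ X)
    (hX2 : p * p ≤ X) (hpX : p ≤ X) (haX : a ≤ X) (hbX : b ≤ X)
    (hb : Bd X s) (hLL : LL p σ g s) (hg : ∀ u v, g u v ≤ 1) (hsym : ∀ u v, g u v = g v u)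
    (h41 : s.reg 41 + p < X) (hD : ∀ v < p, a * dg g p v < b * p → dg g p v ≤ D)
    (hQ : ∀ s', Bd X s' → LL p σ g s' → (s'.reg 41 ≠ 0 ↔ (s.reg 41 ≠ 0 ∨
      ∃ v < p, a * dg g p v < b * p ∧ NineV g p v)) → Q s') :
    Tr w (lowC a b m r E1 E2 E3) s (p * (300 * (p + 1) + tn m r D) + 3) Q := by
  have htn : ∀ n, n ≤ D → tn m r n ≤ tn m r D := by
    intro n hn
    have hn3 : n * n * n ≤ D * D * D := Nat.mul_le_mul (Nat.mul_le_mul hn hn) hn
    have hc := Nat.clog_mono_right m hn3
    unfold tn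
    have hr : 1 ≤ r := by have := H.two; have := H.le; nlinarith
    exact Nat.mul_le_mul (by omega) (Nat.mul_le_mul_right _ (Nat.pow_le_pow_right hr hc))
  have hdgp : ∀ v, dg g p v ≤ p := fun v => by
    rw [← dg_eq hg]; exact nbl_length_le g v p
  have hwr : ∀ y, y ∉ usedW → y ≠ 59 → y ∉ (HC.seq (.asg 58 (.r 50)) (.seq (.asg 59 (.c 0)) (.seq
    (.loop 51 98 (.asg 59 (.add (.r 59) (adE (.r 58) (.r 51)))))
    (.ite (.mul (.c a) (.r 59)) (.mul (.c b) (.r 98)) (visC m r E1 E2 E3) .skip)))).wr := by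
    intro y hy h59
    simp only [usedW, List.mem_append, List.mem_cons, List.not_mem_nil, or_false, not_or] at hy
    obtain ⟨hy1, hy2⟩ := hy
    have h1 := nineC_wr m r E1 E2 E3 y hy2
    simp only [visC, nbC, stA, HC.wr, List.mem_append, List.mem_cons,
      List.not_mem_nil, or_false, not_or]
    tauto
  refine Tr.mono (T := p * ((5 + (5 + ((p * 30 + 3) + (200 * (p + 1) + tn m r D + 40)))) + 4) + 3)
    ?_ ?_ (fun _ h => h)
  swap
  · refine Nat.add_le_add_right (Nat.mul_le_mul_left p ?_) 3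
    generalize tn m r D = d
    clear htn hwr
    omega
  refine Tb.loop Px hb (fun i s' => LL p σ g s' ∧ s'.reg 41 ≤ s.reg 41 + i ∧
    (s'.reg 41 ≠ 0 ↔ (s.reg 41 ≠ 0 ∨ ∃ v < i, a * dg g p v < b * p ∧ NineV g p v)))
    (5 + (5 + ((p * 30 + 3) + (200 * (p + 1) + tn m r D + 40)))) hLL.r98 le_rfl ?_ ?_ ?_
  · refine ⟨hLL.mono (K := []) (fun y hy => ?_) (Fr.refl _ _ _) (by decide) (by decide) (by decide),
      ?_, ?_⟩
    · simp only [List.mem_cons, List.not_mem_nil, or_false] at hy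
      rw [set_reg, if_neg (by omega)]
    · simp [set_reg]
    · simp [set_reg]
  · rintro v hv s1 ⟨L1, c1, c2⟩ b1 r50 _
    apply Tr.seq
    refine Tb.asgv Px b1 (v := v) (by simp [Ex.ev, r50]) (by omega) (by simp [cs]) (by simp [sz])
      (by simp [Ex.cost]) ?_
    intro b2
    apply Tr.seq
    refine Tb.asgv Px b2 (v := 0) rfl (by omega) (by simp [cs]) (by simp [sz])
      (by simp [Ex.cost]) ?_
    intro b3
    set s3 := (s1.set 58 v).set 59 0 with hs3
    have L3 : LL p σ g s3 := L1.mono (K := []) (fun y hy => by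
      simp only [List.mem_cons, List.not_mem_nil, or_false] at hy
      rw [hs3, set_reg, if_neg (by omega), set_reg, if_neg (by omega)]) (Fr.refl _ _ _) (by decide)
      (by decide) (by decide)
    have q58 : s3.reg 58 = v := by simp [hs3, set_reg]
    have q59 : s3.reg 59 = 0 := by simp [hs3, set_reg]
    have q41 : s3.reg 41 = s1.reg 41 := by simp [hs3, set_reg]
    clear_value s3
    apply Tr.seq
    refine Tb.sumLoop Px b3 (N := p) (f := fun x => g v x) L3.r98 (by norm_num) (by norm_num)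
      (by norm_num) (by simp [cs]) (by simp [sz]) (by simp [Ex.cost]; omega) ?_ ?_ ?_
    · intro x hx v'
      simp only [adE_ev, Ex.ev, set_reg, St.set_mem]
      norm_num
      rw [q58, L3.r98]
      exact L3.G v hv x hx
    · rw [q59]; have := hdgp v; unfold dg at this; omega
    intro b4
    have hdg : s3.reg 59 + ∑ i ∈ Finset.range p, g v i = dg g p v := by rw [q59]; unfold dg; omega
    rw [hdg] at b4 ⊢
    set s4 := (s3.set 51 p).set 59 (dg g p v) with hs4
    have L4 : LL p σ g s4 := L3.mono (K := []) (fun y hy => by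
      simp only [List.mem_cons, List.not_mem_nil, or_false] at hy
      rw [hs4, set_reg, if_neg (by omega), set_reg, if_neg (by omega)]) (Fr.refl _ _ _) (by decide)
      (by decide) (by decide)
    have u58 : s4.reg 58 = v := by simp [hs4, set_reg, q58]
    have u59 : s4.reg 59 = dg g p v := by simp [hs4, set_reg]
    have u41 : s4.reg 41 = s1.reg 41 := by simp [hs4, set_reg, q41]
    clear_value s4
    have fin : ∀ s' : St, LL p σ g s' → LL p σ g (s'.set 50 (v + 1)) := fun s' hs' =>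
      hs'.mono (K := []) (fun y hy => by
      simp only [List.mem_cons, List.not_mem_nil, or_false] at hy
      rw [set_reg, if_neg (by omega)]) (Fr.refl _ _ _) (by decide)
      (by decide) (by decide)
    refine Tb.ite Px b4 (by simp [cs, haX]) (by simp [sz]) (by simp [cs, hbX]) (by simp [sz])
      (T := 200 * (p + 1) + tn m r D) (by simp [Ex.cost]; omega) ?_ ?_
    · intro hlt
      simp only [Ex.ev, u59, L4.r98] at hlt
      have hd := hD v hv hlt
      refine Tr.mono (T := 200 * (p + 1) + tn m r (nbl g v p).length) ?_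
        (Nat.add_le_add_left (htn _ (by rw [dg_eq hg]; exact hd)) _) (fun _ h => h)
      refine tr_vis Px H hX hXK hX3 hX2 hpX b4 L4 hg hsym u58 hv (by omega) ?_
      intro s5 b5 f5 F5 L5 y1 y2
      have e50 : (s5.set 50 (v + 1)).reg 41 = s5.reg 41 := by simp [set_reg]
      refine ⟨b5, fin s5 L5, ?_, ?_⟩
      · rw [e50]
        by_cases hc : NineV g p v
        · rw [y1 hc]; omega
        · rw [y2 hc]; omega
      · rw [e50]
        by_cases hc : NineV g p v
        · rw [y1 hc]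
          constructor
          · intro _; right; exact ⟨v, by omega, hlt, hc⟩
          · intro _; omega
        · rw [y2 hc, u41, c2]
          constructor
          · rintro (h | ⟨v', hv', h⟩)
            · left; exact h
            · right; exact ⟨v', by omega, h⟩
          · rintro (h | ⟨v', hv', h⟩)
            · left; exact h
            · rcases Nat.lt_succ_iff_lt_or_eq.1 hv' with h' | h'
              · right; exact ⟨v', h', h⟩
              · subst h'; exact absurd h.2 hc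
    · intro hlt
      simp only [Ex.ev, u59, L4.r98] at hlt
      apply Tr.skip
      have e50 : (s4.set 50 (v + 1)).reg 41 = s1.reg 41 := by simp [set_reg, u41]
      refine ⟨b4, fin s4 L4, ?_, ?_⟩
      · rw [e50]; omega
      · rw [e50, c2]
        constructor
        · rintro (h | ⟨v', hv', h⟩)
          · left; exact h
          · right; exact ⟨v', by omega, h⟩
        · rintro (h | ⟨v', hv', h⟩)
          · left; exact h
          · rcases Nat.lt_succ_iff_lt_or_eq.1 hv' with h' | h'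
            · right; exact ⟨v', h', h⟩
            · subst h'; exact absurd h.1 hlt
  · rintro s1 ⟨L1, c1, c2⟩ b1 _ _
    exact hQ s1 b1 L1 c2

/-- The main program. -/
def mainC (K K' S0 a b m r : ℕ) (E1 E2 E3 : ℕ → ℕ → ℤ) : HC :=
  .seq (initC K' S0) (.seq hC (.seq (.loop 54 43 (stepC K K' m r E1 E2 E3))
    (.seq (lowC a b m r E1 E2 E3) (.ite (.c 0) (.r 41) (.asg 0 (.c 1)) (.asg 0 (.c 0))))))

theorem tr_main {X w : ℕ} (Px : PX X w) {m r M : ℕ} {E1 E2 E3 : ℕ → ℕ → ℤ} (H : FM m r M E1 E2 E3)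
    {p σ K K' S0 a b D : ℕ} {g : ℕ → ℕ → ℕ} {s0 : St}
    (hX : 32 ≤ X) (hXK : K1 m r M ^ (Nat.clog m (p * p * p) + 1) ≤ X)
    (hp : 1 ≤ p) (hK : 2 ≤ K) (hK' : 1 ≤ K') (hKX : K * K' ≤ X) (haX : a ≤ X) (hbX : b ≤ X)
    (hσ' : σ = S0 * (Nat.log 2 p + 1)) (hS0 : S0 ≤ X)
    (hW : (2 * K * K') ^ σ * (2 * ((p * p * p) * (p * p * p))) ≤ X) (hσ : σ + p < X)
    (hX2 : 2 * p + 2 ≤ X)
    (hb : Bd X s0) (h0 : s0.reg 0 = p) (hg : ∀ u v, g u v ≤ 1) (hsym : ∀ u v, g u v = g v u)
    (hG : GM p g s0.mem) (hD : ∀ v < p, a * dg g p v < b * p → dg g p v ≤ D) :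
    Tr w (mainC K K' S0 a b m r E1 E2 E3) s0
      (1000 * (K' + 1) * (p + 1) ^ 3 + (1000 * (p * ((p * p * p) * (p * p * p)) + 1) +
        ((σ * ((3000 * (p * ((p * p * p) * (p * p * p)) + 1) + tn m r p) + 4) + 3) +
        ((p * (300 * (p + 1) + tn m r D) + 3) + 20))))
      (fun s' => ∃ W u, MWd (Fx p) p K K' σ (bx g p) (hx g p K') W u ∧ (∀ t < σ, u t < p) ∧
        (((∃ t < σ, NineV g p (u t)) ∨ ∃ v < p, a * dg g p v < b * p ∧ NineV g p v) →
          s'.reg 0 = 1) ∧
        (¬ ((∃ t < σ, NineV g p (u t)) ∨ ∃ v < p, a * dg g p v < b * p ∧ NineV g p v) →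
          s'.reg 0 = 0)) := by
  have h2K : 1 ≤ 2 * K * K' := Nat.mul_pos (by omega) hK'
  have hX6 : (p * p * p) * (p * p * p) ≤ X :=
    le_trans (Nat.le_mul_of_pos_left _ (by norm_num))
      (le_trans (Nat.le_mul_of_pos_left _ (Nat.pow_pos h2K)) hW)
  have hp3' : 1 ≤ p * p * p := Nat.mul_pos (Nat.mul_pos hp hp) hp
  have hX3 : p * p * p ≤ X := le_trans (Nat.le_mul_of_pos_right _ hp3') hX6
  have hX2' : p * p ≤ X := le_trans (Nat.le_mul_of_pos_right _ hp) hX3
  have hK'X : K' ≤ X := le_trans (Nat.le_mul_of_pos_left _ (by omega)) hKX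
  apply Tr.seq
  refine tr_init Px hX hb h0 hp hX2 hX6 hK'X (by rw [← hσ']; omega) hS0 hG ?_
  intro s1 b1 L1 r41 d30
  rw [← hσ'] at L1
  apply Tr.seq
  refine tr_h Px hX b1 L1 hg hp (by omega) hK'X d30 ?_
  intro s2 b2 f2 L2 d28 d2 d27 d3
  have hwr := stepC_wr K K' m r E1 E2 E3
  apply Tr.seq
  refine Tb.loop Px b2 (fun i s' => SI p σ K K' g i s') (3000 * (p * ((p * p * p) *
    (p * p * p)) + 1) + tn m r p) L2.r43 le_rfl ?_ ?_ ?_
  · refine ⟨L2.mono (K := []) (fun y hy => ?_) (Fr.refl _ _ _) (by decide) (by decide) (by decide),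
      d28, ?_, ⟨fun _ _ => 1, fun _ => 0, ?_, ?_, d27, d3, ?_⟩, ?_⟩
    · simp only [List.mem_cons, List.not_mem_nil, or_false] at hy
      rw [set_reg, if_neg (by omega)]
    · exact Fi.congr d2 fun J _ => (hx_false hg p K' J).symm
    · refine ⟨hp, hK, hK', bx_le hg p, ?_, ?_, fun _ _ => rfl, fun i hi => by omega,
        fun i hi => by omega⟩
      · intro J _
        exact Nat.div_mul_le_self _ _
      · intro J _
        exact (Nat.lt_mul_div_succ _ hp).trans_eq (Nat.mul_comm _ _)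
    · intro t ht; omega
    · have : s2.reg 41 = 0 := by rw [f2 41 (by decide), r41]
      simp [set_reg, this]
    · have : s2.reg 41 = 0 := by rw [f2 41 (by decide), r41]
      simp [set_reg, this]
  · intro i hi s3 hI b3 _ _
    refine Tr.mono (tr_step Px H hX hXK hX3 hX2' (by omega) hp hK hK' hKX hW (by omega) hi b3 hg
      hsym hI) le_rfl ?_
    rintro s4 ⟨b4, hI4⟩
    refine ⟨b4, ⟨hI4.ll.mono (K := []) (fun y hy => ?_) (Fr.refl _ _ _) (by decide) (by decide)
      (by decide), hI4.d28, hI4.d2, ?_, ?_⟩⟩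
    · simp only [List.mem_cons, List.not_mem_nil, or_false] at hy
      rw [set_reg, if_neg (by omega)]
    · obtain ⟨W, u, h1, h2, h3, h3', h4⟩ := hI4.ex
      refine ⟨W, u, h1, h2, h3, h3', ?_⟩
      rw [set_reg, if_neg (by norm_num)]
      exact h4
    · rw [set_reg, if_neg (by norm_num)]
      exact hI4.r41
  · intro s3 hI b3 _ _
    obtain ⟨W, u, h1, h2, h3, h3', h4⟩ := hI.ex
    have hr41 := hI.r41
    apply Tr.seq
    refine tr_low Px H hX hXK hX3 hX2' (by omega) haX hbX b3 hI.ll hg hsym (by omega) hD ?_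
    intro s4 b4 L4 c4
    rw [h4] at c4
    refine Tb.ite Px b4 (by simp [cs]) (by simp [sz]) (by simp [cs]) (by simp [sz]) (T := 10)
      (by simp [Ex.cost]) ?_ ?_
    · intro hlt
      simp only [Ex.ev] at hlt
      refine Tb.asgv Px b4 (v := 1) rfl (by omega) (by simp [cs]; omega) (by simp [sz])
        (by simp [Ex.cost]) ?_
      intro b5
      refine ⟨W, u, h1, h2, fun _ => by simp, fun hn => ?_⟩
      exact absurd (c4.1 (by omega)) hn
    · intro hlt
      simp only [Ex.ev, not_lt, nonpos_iff_eq_zero] at hlt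
      refine Tb.asgv Px b4 (v := 0) rfl (by omega) (by simp [cs]) (by simp [sz])
        (by simp [Ex.cost]) ?_
      intro b5
      refine ⟨W, u, h1, h2, fun hn => ?_, fun _ => by simp⟩
      exact absurd hlt (c4.2 hn)

end Pool.Agent.H792_Clique
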