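import Pool.Agent.H792_Clique.Cost
import Pool.Agent.H792_Clique.Comb
import Pool.Agent.H792_Clique.Prog4

/-!
The algorithm for the graphs all of whose vertices of low degree have very low degree and which
have no clique on 10 vertices or a rich one.
-/

set_option autoImplicit false
set_option linter.unusedSimpArgs false
set_option linter.unusedVariables false

namespace Pool.Agent.H792_Clique

open Pool.Agent.H588R2 Pool.Agent.TH687.HL

/-! ### well-formedness -/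

lemma wf_seq {c d : HC} (h1 : c.wf = true) (h2 : d.wf = true) : (HC.seq c d).wf = true := by
  simp [HC.wf, h1, h2]

lemma wf_loop {x b : ℕ} {c : HC} (hx : x < 100) (hb : b < 100) (hne : x ≠ b) (h : c.wf = true)
    (h1 : x ∉ c.wr) (h2 : b ∉ c.wr) : (HC.loop x b c).wf = true := by
  simp [HC.wf, hx, hb, hne, h, h1, h2]

lemma wf_tabC (k : ℕ) : ∀ (l : List ℕ) (i : ℕ), (tabC k i l).wf = true := by
  intro l
  induction l with
  | nil => intro i; rfl
  | cons v l ih => intro i; exact wf_seq rfl (ih _)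

lemma wf_stage (m r : ℕ) (E : ℕ → ℕ → ℤ) (kP kN : ℕ) : (stageC m r E kP kN).wf = true :=
  wf_seq (wf_tabC _ _ _) (wf_seq (wf_tabC _ _ _) rfl)

lemma wf_nine (m r : ℕ) (E1 E2 E3 : ℕ → ℕ → ℤ) : (nineC m r E1 E2 E3).wf = true :=
  wf_seq rfl (wf_seq rfl (wf_seq rfl (wf_seq rfl (wf_seq rfl (wf_seq (wf_stage _ _ _ _ _)
    (wf_seq (wf_stage _ _ _ _ _) (wf_seq (wf_stage _ _ _ _ _) rfl)))))))

lemma wf_vis (m r : ℕ) (E1 E2 E3 : ℕ → ℕ → ℤ) : (visC m r E1 E2 E3).wf = true :=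
  wf_seq rfl (wf_seq (wf_nine _ _ _ _ _) rfl)

lemma wf_step (K K' m r : ℕ) (E1 E2 E3 : ℕ → ℕ → ℤ) : (stepC K K' m r E1 E2 E3).wf = true :=
  wf_seq rfl (wf_seq rfl (wf_vis _ _ _ _ _))

lemma wf_low (a b m r : ℕ) (E1 E2 E3 : ℕ → ℕ → ℤ) : (lowC a b m r E1 E2 E3).wf = true := by
  have key : ∀ y, y ∉ usedW → y ≠ 59 → y ∉ (HC.seq (.asg 58 (.r 50)) (.seq (.asg 59 (.c 0)) (.seq
    (.loop 51 98 (.asg 59 (.add (.r 59) (adE (.r 58) (.r 51)))))
    (.ite (.mul (.c a) (.r 59)) (.mul (.c b) (.r 98)) (visC m r E1 E2 E3) .skip)))).wr := by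
    intro y hy h59
    simp only [usedW, List.mem_append, List.mem_cons, List.not_mem_nil, or_false, not_or] at hy
    obtain ⟨hy1, hy2⟩ := hy
    have h1 := nineC_wr m r E1 E2 E3 y hy2
    simp only [visC, nbC, stA, HC.wr, List.mem_append, List.mem_cons,
      List.not_mem_nil, or_false, not_or]
    tauto
  refine wf_loop (by norm_num) (by norm_num) (by norm_num) ?_ ?_ (key 98 (by decide) (by norm_num))
  · refine wf_seq rfl (wf_seq rfl (wf_seq rfl ?_))
    simp only [HC.wf, wf_vis, Bool.and_true]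
    rfl
  · have h1 := nineC_wr m r E1 E2 E3 50 (by decide)
    simp only [visC, nbC, stA, HC.wr, List.mem_append, List.mem_cons,
      List.not_mem_nil, or_false, not_or]
    simp [h1]

lemma wf_main (K K' S0 a b m r : ℕ) (E1 E2 E3 : ℕ → ℕ → ℤ) :
    (mainC K K' S0 a b m r E1 E2 E3).wf = true := by
  refine wf_seq rfl (wf_seq rfl (wf_seq ?_ (wf_seq (wf_low _ _ _ _ _ _ _) rfl)))
  exact wf_loop (by norm_num) (by norm_num) (by norm_num) (wf_step _ _ _ _ _ _ _)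
    (stepC_wr _ _ _ _ _ _ _ 54 (by decide)) (stepC_wr _ _ _ _ _ _ _ 43 (by decide))

/-! ### the theorem -/

/-- The class of graphs: enough common neighbours in the clique or a vertex of low degree. -/
def GoodClass (a b : ℕ) (δ : ℝ) (p : ℕ) (G : SimpleGraph (Fin p)) : Prop :=
  (∀ v, a * dgr G v < b * p → (dgr G v : ℝ) ≤ (p : ℝ) ^ (0.87 : ℝ)) ∧
  (¬ G.CliqueFree 10 → (∃ Q, G.IsNClique 10 Q ∧ ∃ v ∈ Q, a * dgr G v < b * p) ∨
    ∀ (s : ℕ) (u : ℕ → ℕ), 0 < s → (∀ t < s, u t < p) →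
      (∀ J : Finset (Fin p), J.card ≤ 6 → |(hit G s u J : ℝ) - s * (cnb G J / p)| ≤ δ * s) →
      ∃ t < s, NineV (bit G) p (u t))

/-- The class of graphs. -/
def MainClass (a b : ℕ) (ε M : ℝ) (c : ℕ → ℝ) (p : ℕ) (G : SimpleGraph (Fin p)) : Prop :=
  (∀ v, a * dgr G v < b * p → (dgr G v : ℝ) ≤ (p : ℝ) ^ (0.87 : ℝ)) ∧
  (¬ G.CliqueFree 10 → ∃ Q, G.IsNClique 10 Q ∧ ((∃ v ∈ Q, a * dgr G v < b * p) ∨
    (M + ε) * p ≤ ∑ i ∈ Finset.range 7, c i * ∑ J ∈ Q.powersetCard i, (cnb G J : ℝ)))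

lemma pow_bounds {p : ℕ} (hp : 1 ≤ p) : p < 2 ^ (Nat.log 2 p + 1) :=
  Nat.lt_pow_succ_log_self (by norm_num) p

theorem main_alg0 (a b : ℕ) {δ : ℝ} (hδ : 0 < δ) : SolvesIn 7.5 (GoodClass a b δ) := by
  classical
  obtain ⟨m, r, M, E1, E2, E3, H⟩ := exists_FM
  have hm := H.two
  have hr : 1 ≤ r := by have := H.le; nlinarith
  -- constants
  obtain ⟨K, hK2, hKε⟩ : ∃ K : ℕ, 2 ≤ K ∧ 1 / (K : ℝ) + 2 / K ≤ δ / 2 := by
    obtain ⟨n, hn⟩ := exists_nat_ge (6 / δ)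
    refine ⟨n + 2, by omega, ?_⟩
    have h1 : 6 / δ ≤ ((n + 2 : ℕ) : ℝ) := by push_cast; linarith
    have h0 : (0 : ℝ) < ((n + 2 : ℕ) : ℝ) := by positivity
    rw [div_le_iff₀ hδ] at h1
    have e : 1 / ((n + 2 : ℕ) : ℝ) + 2 / ((n + 2 : ℕ) : ℝ) = 3 / ((n + 2 : ℕ) : ℝ) := by
      rw [← add_div]; norm_num
    rw [e, div_le_iff₀ h0]
    linarith
  obtain ⟨S0, hS1, hS0⟩ : ∃ S0 : ℕ, 1 ≤ S0 ∧ (K : ℝ) * 7 ≤ S0 * (δ / 2) := by
    obtain ⟨n, hn⟩ := exists_nat_ge (((K : ℝ) * 7) / (δ / 2))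
    refine ⟨n + 1, by omega, ?_⟩
    rw [div_le_iff₀ (by positivity)] at hn
    push_cast
    nlinarith
  obtain ⟨C, hC⟩ := mainT_bound hm hr H.fast K S0
  set A : ℕ := 32 + K1 m r M ^ 4 + K * K + a + b + S0 + (2 * K * K) ^ S0 * 128 + 2 * (S0 + 1) + 8 with hA
  refine ⟨(mainC K K S0 a b m r E1 E2 E3).comp.compile 0, 100 * A, C, ?_⟩
  intro p w G hp hw hcls
  obtain ⟨hlow, hrich⟩ := hcls
  set L2 := Nat.log 2 p + 1 with hL2
  set X := A ^ L2 with hXdef
  have hL2' : 1 ≤ L2 := by omega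
  have hp2 : p < 2 ^ L2 := pow_bounds hp
  have hA1 : 1 ≤ A := by omega
  have leX : ∀ c, c ≤ A → c ≤ X := fun c hc =>
    hc.trans (Nat.le_self_pow (by omega) A)
  have powX : ∀ c, c ≤ A → c ^ L2 ≤ X := fun c hc => Nat.pow_le_pow_left hc _
  have hX32 : 32 ≤ X := leX 32 (by omega)
  have hPX : PX X w := by
    refine ⟨by omega, ?_⟩
    have h1 : X ^ 100 < 2 ^ (100 * A * L2) := by
      have h2 : A < 2 ^ A := Nat.lt_two_pow_self
      calc X ^ 100 = A ^ (L2 * 100) := by rw [hXdef, ← pow_mul]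
        _ < (2 ^ A) ^ (L2 * 100) := Nat.pow_lt_pow_left h2 (by omega)
        _ = 2 ^ (100 * A * L2) := by rw [← pow_mul]; congr 1; ring
    exact lt_of_lt_of_le h1 (Nat.pow_le_pow_right (by norm_num) hw)
  have hK1pos : 1 ≤ K1 m r M := by
    unfold K1
    have h1 : 0 < 2 * (m * m) * M := Nat.mul_pos (Nat.mul_pos (by norm_num) (by positivity)) H.M1
    have h2 : 0 < r * (m * m) := Nat.mul_pos (lt_of_lt_of_le (by positivity) H.le) (by positivity)
    exact Nat.mul_pos (by norm_num) (Nat.mul_pos (Nat.pow_pos h1) h2)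
  have hXK : K1 m r M ^ (Nat.clog m (p * p * p) + 1) ≤ X := by
    have h1 : Nat.clog m (p * p * p) ≤ 3 * L2 := by
      rw [Nat.clog_le_iff_le_pow (by omega)]
      calc p * p * p ≤ 2 ^ L2 * 2 ^ L2 * 2 ^ L2 :=
            Nat.mul_le_mul (Nat.mul_le_mul hp2.le hp2.le) hp2.le
        _ = 2 ^ (3 * L2) := by rw [← pow_add, ← pow_add]; congr 1; ring
        _ ≤ m ^ (3 * L2) := Nat.pow_le_pow_left hm _
    calc K1 m r M ^ (Nat.clog m (p * p * p) + 1) ≤ K1 m r M ^ (4 * L2) :=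
          Nat.pow_le_pow_right hK1pos (by omega)
      _ = (K1 m r M ^ 4) ^ L2 := by rw [pow_mul]
      _ ≤ X := powX _ (by omega)
  have hKK : K * K ≤ X := leX _ (by omega)
  have h3p : p * p * p ≤ 8 ^ L2 := by
    calc p * p * p ≤ 2 ^ L2 * 2 ^ L2 * 2 ^ L2 :=
        Nat.mul_le_mul (Nat.mul_le_mul hp2.le hp2.le) hp2.le
      _ = 8 ^ L2 := by rw [← mul_pow, ← mul_pow]; norm_num
  have hW : (2 * K * K) ^ (S0 * L2) * (2 * ((p * p * p) * (p * p * p))) ≤ X := by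
    have h1 : 2 * ((p * p * p) * (p * p * p)) ≤ 128 ^ L2 := by
      have h2 : 2 ≤ 2 ^ L2 := Nat.le_self_pow (by omega) 2
      calc 2 * ((p * p * p) * (p * p * p)) ≤ 2 ^ L2 * (8 ^ L2 * 8 ^ L2) :=
            Nat.mul_le_mul h2 (Nat.mul_le_mul h3p h3p)
        _ = 128 ^ L2 := by rw [← mul_pow, ← mul_pow]; norm_num
    calc (2 * K * K) ^ (S0 * L2) * (2 * ((p * p * p) * (p * p * p))) ≤
          ((2 * K * K) ^ S0) ^ L2 * 128 ^ L2 := by
          rw [pow_mul]; exact Nat.mul_le_mul_left _ h1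
      _ = ((2 * K * K) ^ S0 * 128) ^ L2 := by rw [← mul_pow]
      _ ≤ X := powX _ (by omega)
  have hσ : S0 * L2 + p < X := by
    have h1 : L2 < 2 ^ L2 := Nat.lt_two_pow_self
    have h2 : S0 * L2 + p < (S0 + 1) * 2 ^ L2 := by nlinarith
    have h3 : (S0 + 1) * 2 ^ L2 ≤ (2 * (S0 + 1)) ^ L2 := by
      rw [mul_pow, Nat.mul_comm]
      exact Nat.mul_le_mul_left _ (Nat.le_self_pow (by omega) _)
    exact lt_of_lt_of_le (lt_of_lt_of_le h2 h3) (powX _ (by omega))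
  have hX2 : 2 * p + 2 ≤ X := by
    have h1 : 2 * p + 2 ≤ 4 * 2 ^ L2 := by omega
    have h2 : 4 * 2 ^ L2 ≤ 8 ^ L2 := by
      have : (8 : ℕ) ^ L2 = 4 ^ L2 * 2 ^ L2 := by rw [← mul_pow]; norm_num
      rw [this]
      exact Nat.mul_le_mul_right _ (Nat.le_self_pow (by omega) _)
    exact (h1.trans h2).trans (powX _ (by omega))
  set s0 : St := ⟨fun r => if r = 0 then p else 0, fun a => bit G (a / p) (a % p)⟩ with hs0
  have hb : Bd X s0 := by
    constructor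
    · intro x
      simp only [hs0]
      split_ifs
      · omega
      · omega
    · intro x
      exact (bit_le G _ _).trans (by omega)
  have hG : GM p (bit G) s0.mem := by
    intro u hu v hv
    obtain ⟨g1, g2⟩ := dm (a := u) hv
    show bit G ((u * p + v) / p) ((u * p + v) % p) = bit G u v
    rw [g1, g2]
  have hD : ∀ v < p, a * dg (bit G) p v < b * p → dg (bit G) p v ≤ ⌊(p : ℝ) ^ (0.87 : ℝ)⌋₊ := by
    intro v hv h
    have e := dg_bit (G := G) ⟨v, hv⟩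
    simp only at e
    rw [e] at h ⊢
    exact Nat.le_floor (hlow _ h)
  have htr := tr_main hPX H (p := p) (σ := S0 * L2) (K := K) (K' := K) (S0 := S0) (a := a) (b := b)
    (D := ⌊(p : ℝ) ^ (0.87 : ℝ)⌋₊) (g := bit G) (s0 := s0) hX32 hXK hp hK2 (by omega) hKK
    (leX a (by omega)) (leX b (by omega)) rfl (leX S0 (by omega)) hW hσ hX2 hb (by simp [hs0])
    (bit_le G) (bit_symm G) hG hD
  refine Tr.halts (wf_main K K S0 a b m r E1 E2 E3) htr ?_ _ ?_
  · rintro s' ⟨W, u, hM, hu, h1, h2⟩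
    by_cases hfree : G.CliqueFree 10
    · rw [if_pos hfree]
      apply h2
      rintro (⟨t, ht, h⟩ | ⟨v, hv, _, h⟩)
      · exact not_free_of_nineV (hu t ht) h hfree
      · exact not_free_of_nineV hv h hfree
    · rw [if_neg hfree]
      apply h1
      rcases hrich hfree with ⟨Q, hQ, v, hv, hlt⟩ | hc
      · right
        refine ⟨v, v.2, ?_, ?_⟩
        · rw [dg_bit]; exact hlt
        · refine nineV_of_clique (G := G) (S := Q.erase v) ⟨?_, ?_⟩ ?_
          · intro x hx y hy hxy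
            exact hQ.1 (Finset.mem_of_mem_erase hx) (Finset.mem_of_mem_erase hy) hxy
          · rw [Finset.card_erase_of_mem hv, hQ.2]
          · intro x hx
            exact hQ.1 hv (Finset.mem_of_mem_erase hx) (Finset.ne_of_mem_erase hx).symm
      · left
        refine hc _ u (Nat.mul_pos hS1 (by omega)) hu (fun J hJ => (hit_approx hM hu hJ).trans ?_)
        have hcard : Real.log (((Fx p).card : ℕ) : ℝ) ≤ 7 * L2 := by
          have h1 : (Fx p).card ≤ 128 ^ L2 := by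
            rw [card_Fx]
            have h2 : 2 ≤ 2 ^ L2 := Nat.le_self_pow (by omega) 2
            calc 2 * ((p * p * p) * (p * p * p)) ≤ 2 ^ L2 * (8 ^ L2 * 8 ^ L2) :=
                  Nat.mul_le_mul h2 (Nat.mul_le_mul h3p h3p)
              _ = 128 ^ L2 := by rw [← mul_pow, ← mul_pow]; norm_num
          have h0 : 0 < (Fx p).card := by
            rw [card_Fx]; positivity
          have h2 : (((Fx p).card : ℕ) : ℝ) ≤ 128 ^ L2 := by exact_mod_cast h1
          have h6 : Real.log (((Fx p).card : ℕ) : ℝ) ≤ Real.log (128 ^ L2) :=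
            Real.log_le_log (by exact_mod_cast h0) h2
          rw [Real.log_pow] at h6
          have h7 : Real.log 128 ≤ 7 := by
            have h9 : (128 : ℝ) = 2 ^ 7 := by norm_num
            rw [h9, Real.log_pow]
            have := Real.log_two_lt_d9
            push_cast
            linarith
          have h8 : (0 : ℝ) ≤ L2 := by positivity
          nlinarith
        have hKr : (0 : ℝ) ≤ K := by positivity
        have hL2r : (0 : ℝ) ≤ L2 := by positivity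
        have hσr : (0 : ℝ) ≤ ((S0 * L2 : ℕ) : ℝ) := by positivity
        have e1 : ((S0 * L2 : ℕ) : ℝ) * (1 / (K : ℝ) + 2 / K) ≤ ((S0 * L2 : ℕ) : ℝ) * (δ / 2) :=
          mul_le_mul_of_nonneg_left hKε hσr
        have e2 : (K : ℝ) * Real.log (((Fx p).card : ℕ) : ℝ) ≤ ((S0 * L2 : ℕ) : ℝ) * (δ / 2) := by
          calc (K : ℝ) * Real.log (((Fx p).card : ℕ) : ℝ) ≤ K * (7 * L2) :=
                mul_le_mul_of_nonneg_left hcard hKr
            _ = (K * 7) * L2 := by ring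
            _ ≤ (S0 * (δ / 2)) * L2 := mul_le_mul_of_nonneg_right hS0 hL2r
            _ = ((S0 * L2 : ℕ) : ℝ) * (δ / 2) := by push_cast; ring
        linarith
  · exact hC p hp

/-- A solver for a class solves its subclasses. -/
theorem SolvesIn.mono {e : ℝ} {cls cls' : ∀ p : ℕ, SimpleGraph (Fin p) → Prop}
    (h : SolvesIn e cls) (hc : ∀ (p : ℕ) (G : SimpleGraph (Fin p)), 1 ≤ p → cls' p G → cls p G) :
    SolvesIn e cls' := by
  obtain ⟨P, c, C, hP⟩ := h
  exact ⟨P, c, C, fun p w G hp hw hG => hP p w G hp hw (hc p G hp hG)⟩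

theorem main_alg (a b : ℕ) {ε M0 : ℝ} {c : ℕ → ℝ} (hε : 0 < ε) (hM0 : ∀ x ≤ 8, pf c x ≤ M0) :
    SolvesIn 7.5 (MainClass a b ε M0 c) := by
  set Cf : ℝ := ∑ i ∈ Finset.range 7, |c i| * ((Nat.choose 10 i : ℕ) : ℝ) with hCf
  have hCf0 : 0 ≤ Cf := by positivity
  have hδ : 0 < ε / (2 * (Cf + 1)) := by positivity
  refine (main_alg0 a b hδ).mono ?_
  rintro p G hp ⟨h1, h2⟩
  refine ⟨h1, fun hfree => ?_⟩
  obtain ⟨Q, hQ, hc | hc⟩ := h2 hfree
  · exact Or.inl ⟨Q, hQ, hc⟩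
  · right
    intro s u hs hu happ
    refine exists_good hp hε hu hs hM0 happ ?_ hQ hc
    rw [← hCf, mul_div_assoc', div_le_div_iff₀ (by positivity) (by norm_num)]
    nlinarith

end Pool.Agent.H792_Clique
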