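import Pool.Agent.TH687.HL2

/-!
Rules for programs of the structured language all of whose values are at most `X`, and arrays in
the memory of the machine.
-/

set_option autoImplicit false

namespace Pool.Agent.H792_Clique

open Pool.Agent.H588R2 Pool.Agent.TH687.HL

/-- All registers and memory cells hold values at most `X`. -/
structure Bd (X : ℕ) (s : St) : Prop where
  reg : ∀ r, s.reg r ≤ X
  mem : ∀ a, s.mem a ≤ X

/-- All constants are at most `X`. -/
def cs (X : ℕ) : Ex → Prop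
  | .c k => k ≤ X
  | .r _ => True
  | .add a b => cs X a ∧ cs X b
  | .sub a b => cs X a ∧ cs X b
  | .mul a b => cs X a ∧ cs X b
  | .ld a => cs X a

/-- Number of leaves. -/
def sz : Ex → ℕ
  | .c _ => 1
  | .r _ => 1
  | .add a b => sz a + sz b
  | .sub a b => sz a + sz b
  | .mul a b => sz a + sz b
  | .ld a => sz a

lemma sz_pos : ∀ e : Ex, 1 ≤ sz e := by
  intro e
  induction e with
  | c _ => simp [sz]
  | r _ => simp [sz]
  | add a b ha hb => simp only [sz]; omega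
  | sub a b ha hb => simp only [sz]; omega
  | mul a b ha hb => simp only [sz]; omega
  | ld a ha => simpa [sz] using ha

lemma pow_add_le {X a b : ℕ} (hX : 2 ≤ X) (ha : 1 ≤ a) (hb : 1 ≤ b) :
    X ^ a + X ^ b ≤ X ^ (a + b) := by
  have h1 : 2 ≤ X ^ a := le_trans hX (Nat.le_self_pow (by omega) X)
  have h2 : 2 ≤ X ^ b := le_trans hX (Nat.le_self_pow (by omega) X)
  rw [pow_add]
  nlinarith

lemma ev_le {X : ℕ} (hX : 2 ≤ X) {s : St} (hb : Bd X s) : ∀ e : Ex, cs X e → e.ev s ≤ X ^ sz e := by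
  intro e
  induction e with
  | c k => intro h; simpa [Ex.ev, sz, cs] using h
  | r x => intro _; simpa [Ex.ev, sz] using hb.reg x
  | add a b ha hb' =>
    intro h
    exact le_trans (Nat.add_le_add (ha h.1) (hb' h.2)) (pow_add_le hX (sz_pos a) (sz_pos b))
  | sub a b ha hb' =>
    intro h
    refine le_trans (Nat.sub_le _ _) (le_trans (ha h.1) ?_)
    exact Nat.pow_le_pow_right (by omega) (by simp [sz])
  | mul a b ha hb' =>
    intro h
    simp only [Ex.ev, sz, pow_add]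
    exact Nat.mul_le_mul (ha h.1) (hb' h.2)
  | ld a ha =>
    intro _
    exact le_trans (hb.mem _) (Nat.le_self_pow (by have := sz_pos a; simp only [sz]; omega) X)

lemma ok_of {X w : ℕ} (hX : 2 ≤ X) {s : St} (hb : Bd X s) : ∀ e : Ex, cs X e → X ^ sz e < 2 ^ w →
    e.ok w s := by
  intro e
  induction e with
  | c k => intro h hw; simp only [sz, pow_one, cs] at *; simp only [Ex.ok]; omega
  | r x =>
    intro h hw; simp only [sz, pow_one] at *
    simp only [Ex.ok]; have := hb.reg x; omega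
  | add a b ha hb' =>
    intro h hw
    have h1 : X ^ sz a ≤ X ^ sz (Ex.add a b) := Nat.pow_le_pow_right (by omega) (by simp [sz])
    have h2 : X ^ sz b ≤ X ^ sz (Ex.add a b) := Nat.pow_le_pow_right (by omega) (by simp [sz])
    refine ⟨ha h.1 (by omega), hb' h.2 (by omega), ?_⟩
    exact lt_of_le_of_lt (ev_le hX hb (Ex.add a b) h) hw
  | sub a b ha hb' =>
    intro h hw
    have h1 : X ^ sz a ≤ X ^ sz (Ex.sub a b) := Nat.pow_le_pow_right (by omega) (by simp [sz])
    have h2 : X ^ sz b ≤ X ^ sz (Ex.sub a b) := Nat.pow_le_pow_right (by omega) (by simp [sz])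
    exact ⟨ha h.1 (by omega), hb' h.2 (by omega)⟩
  | mul a b ha hb' =>
    intro h hw
    have h1 : X ^ sz a ≤ X ^ sz (Ex.mul a b) := Nat.pow_le_pow_right (by omega) (by simp [sz])
    have h2 : X ^ sz b ≤ X ^ sz (Ex.mul a b) := Nat.pow_le_pow_right (by omega) (by simp [sz])
    refine ⟨ha h.1 (by omega), hb' h.2 (by omega), ?_⟩
    exact lt_of_le_of_lt (ev_le hX hb (Ex.mul a b) h) hw
  | ld a ha =>
    intro h hw
    refine ⟨ha h hw, ?_⟩
    have h1 : X ≤ X ^ sz a := Nat.le_self_pow (by have := sz_pos a; omega) X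
    have := hb.mem (a.ev s)
    simp only [sz] at hw
    omega

lemma Bd.set {X : ℕ} {s : St} (h : Bd X s) (x : ℕ) {v : ℕ} (hv : v ≤ X) : Bd X (s.set x v) :=
  ⟨fun r => by
    by_cases e : r = x
    · subst e; simpa using hv
    · rw [St.set_reg_ne _ _ e]; exact h.reg r, h.mem⟩

lemma Bd.put {X : ℕ} {s : St} (h : Bd X s) (a : ℕ) {v : ℕ} (hv : v ≤ X) :
    Bd X (put s a v) :=
  ⟨h.reg, fun b => by
    by_cases e : b = a
    · subst e; simpa [Pool.Agent.TH687.HL.put] using hv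
    · simpa [Pool.Agent.TH687.HL.put, Function.update_of_ne e] using h.mem b⟩

/-- The global parameters: a bound `X` for all values and the word length. -/
structure PX (X w : ℕ) : Prop where
  two : 2 ≤ X
  big : X ^ 100 < 2 ^ w

lemma PX.lt {X w : ℕ} (P : PX X w) {k : ℕ} (hk : k ≤ 100) : X ^ k < 2 ^ w :=
  lt_of_le_of_lt (Nat.pow_le_pow_right (by have := P.two; omega) hk) P.big

lemma PX.X_lt {X w : ℕ} (P : PX X w) : X < 2 ^ w := by
  have := P.lt (k := 1) (by norm_num)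
  simpa using this

theorem Tb.asg {X w x : ℕ} {e : Ex} {s : St} {T : ℕ} {Q : St → Prop} (P : PX X w) (hb : Bd X s)
    (hc : cs X e) (hs : sz e ≤ 100) (hT : e.cost + 2 ≤ T) (hv : e.ev s ≤ X)
    (h : Bd X (s.set x (e.ev s)) → Q (s.set x (e.ev s))) : Tr w (.asg x e) s T Q :=
  Tr.asg (ok_of P.two hb e hc (P.lt hs)) hT (h (hb.set x hv))

theorem Tb.sto {X w : ℕ} {a e : Ex} {s : St} {T : ℕ} {Q : St → Prop} (P : PX X w) (hb : Bd X s)
    (hc : cs X a) (hs : sz a ≤ 100) (hc' : cs X e) (hs' : sz e ≤ 100)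
    (hT : a.cost + e.cost + 1 ≤ T) (hv : e.ev s ≤ X)
    (h : Bd X (put s (a.ev s) (e.ev s)) → Q (put s (a.ev s) (e.ev s))) :
    Tr w (.sto a e) s T Q :=
  Tr.sto (ok_of P.two hb a hc (P.lt hs)) (ok_of P.two hb e hc' (P.lt hs')) hT
    (h (hb.put _ hv))

theorem Tb.ite {X w : ℕ} {a b : Ex} {c d : HC} {s : St} {T T' : ℕ} {Q : St → Prop} (P : PX X w)
    (hb : Bd X s) (hc : cs X a) (hs : sz a ≤ 100) (hc' : cs X b) (hs' : sz b ≤ 100)
    (hT : a.cost + b.cost + 2 + T ≤ T')
    (h1 : a.ev s < b.ev s → Tr w c s T Q) (h2 : ¬ a.ev s < b.ev s → Tr w d s T Q) :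
    Tr w (.ite a b c d) s T' Q :=
  Tr.ite (ok_of P.two hb a hc (P.lt hs)) (ok_of P.two hb b hc' (P.lt hs')) hT h1 h2

theorem Tb.loop {X w x b : ℕ} {c : HC} {s : St} {T N : ℕ} {Q : St → Prop} (P : PX X w)
    (hb : Bd X s) (I : ℕ → St → Prop)
    (τ : ℕ) (hN : s.reg b = N)
    (hT : N * (τ + 4) + 3 ≤ T)
    (h0 : I 0 (s.set x 0))
    (hstep : ∀ i < N, ∀ s', I i s' → Bd X s' → s'.reg x = i →
      (∀ y, y ≠ x → y ∉ c.wr → s'.reg y = s.reg y) →
      Tr w c s' τ (fun s'' => Bd X s'' ∧ I (i + 1) (s''.set x (i + 1))))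
    (hQ : ∀ s', I N s' → Bd X s' → s'.reg x = N →
      (∀ y, y ≠ x → y ∉ c.wr → s'.reg y = s.reg y) → Q s') :
    Tr w (.loop x b c) s T Q := by
  have hNX : N ≤ X := hN ▸ hb.reg b
  have hX := P.two
  refine Tr.loop (fun i s' => I i s' ∧ Bd X s') τ hN ?_ ?_ hT ⟨h0, hb.set x (by omega)⟩ ?_ ?_
  · have := P.X_lt; omega
  · have := P.X_lt; omega
  · rintro i hi s' ⟨h1, h2⟩ h3 h4
    exact (hstep i hi s' h1 h2 h3 h4).mono le_rfl fun s'' hs'' =>
      ⟨hs''.2, hs''.1.set x (by omega)⟩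
  · rintro s' ⟨h1, h2⟩ h3 h4
    exact hQ s' h1 h2 h3 h4

/-! ### arrays -/

/-- Entry `i` of the array `k`. -/
def ar (B : ℕ) (m : ℕ → ℕ) (k i : ℕ) : ℕ := m (B + (32 * i + k))

/-- Address of an array entry. -/
def adA (k : ℕ) (e : Ex) : Ex := .add (.r 99) (.add (.mul (.c 32) e) (.c k))

/-- Read an array entry. -/
def ldA (k : ℕ) (e : Ex) : Ex := .ld (adA k e)

/-- Write an array entry. -/
def stA (k : ℕ) (a e : Ex) : HC := .sto (adA k a) e

/-- Adjacency of the vertices with numbers `u`, `v`. -/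
def adE (u v : Ex) : Ex := .ld (.add (.mul u (.r 98)) v)

@[simp] lemma adA_ev (k : ℕ) (e : Ex) (s : St) :
    (adA k e).ev s = s.reg 99 + (32 * e.ev s + k) := rfl

@[simp] lemma ldA_ev (k : ℕ) (e : Ex) (s : St) :
    (ldA k e).ev s = ar (s.reg 99) s.mem k (e.ev s) := rfl

@[simp] lemma adE_ev (u v : Ex) (s : St) :
    (adE u v).ev s = s.mem (u.ev s * s.reg 98 + v.ev s) := rfl

@[simp] lemma cs_adA {X k : ℕ} {e : Ex} : cs X (adA k e) ↔ 32 ≤ X ∧ cs X e ∧ k ≤ X := by
  simp [adA, cs, and_assoc]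
@[simp] lemma cs_ldA {X k : ℕ} {e : Ex} : cs X (ldA k e) ↔ 32 ≤ X ∧ cs X e ∧ k ≤ X := by
  simp [ldA, cs]
@[simp] lemma cs_adE {X : ℕ} {u v : Ex} : cs X (adE u v) ↔ cs X u ∧ cs X v := by
  simp [adE, cs]
@[simp] lemma sz_adA {k : ℕ} {e : Ex} : sz (adA k e) = sz e + 3 := by
  simp only [adA, sz]; omega
@[simp] lemma sz_ldA {k : ℕ} {e : Ex} : sz (ldA k e) = sz e + 3 := by
  simp only [ldA, sz, sz_adA]
@[simp] lemma sz_adE {u v : Ex} : sz (adE u v) = sz u + sz v + 1 := by
  simp only [adE, sz]; omega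
@[simp] lemma cost_adA {k : ℕ} {e : Ex} : (adA k e).cost = e.cost + 7 := by
  simp only [adA, Ex.cost]; omega
@[simp] lemma cost_ldA {k : ℕ} {e : Ex} : (ldA k e).cost = e.cost + 8 := by
  simp only [ldA, Ex.cost, cost_adA]
@[simp] lemma cost_adE {u v : Ex} : (adE u v).cost = u.cost + v.cost + 5 := by
  simp only [adE, Ex.cost]; omega

@[simp] lemma put_reg (s : St) (a v : ℕ) : (put s a v).reg = s.reg := rfl
@[simp] lemma put_mem (s : St) (a v : ℕ) : (put s a v).mem = Function.update s.mem a v := rfl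

lemma ar_update {B k k' i i' v : ℕ} {m : ℕ → ℕ} (hk : k < 32) (hk' : k' < 32) :
    ar B (Function.update m (B + (32 * i + k)) v) k' i' =
      if k' = k ∧ i' = i then v else ar B m k' i' := by
  unfold ar
  by_cases h : k' = k ∧ i' = i
  · obtain ⟨rfl, rfl⟩ := h
    simp
  · rw [if_neg h, Function.update_of_ne]
    omega

lemma ar_update_self {B k i v : ℕ} {m : ℕ → ℕ} :
    ar B (Function.update m (B + (32 * i + k)) v) k i = v := by
  unfold ar; simp

lemma update_low {B k i v a : ℕ} {m : ℕ → ℕ} (ha : a < B) :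
    Function.update m (B + (32 * i + k)) v a = m a := by
  rw [Function.update_of_ne]; omega

/-- Only the arrays in `K` are changed. -/
structure Fr (K : List ℕ) (B : ℕ) (m m' : ℕ → ℕ) : Prop where
  low : ∀ a < B, m' a = m a
  arr : ∀ k < 32, k ∉ K → ∀ i, ar B m' k i = ar B m k i

lemma Fr.refl (K : List ℕ) (B : ℕ) (m : ℕ → ℕ) : Fr K B m m := ⟨fun _ _ => rfl, fun _ _ _ _ => rfl⟩

lemma Fr.trans {K : List ℕ} {B : ℕ} {m m' m'' : ℕ → ℕ} (h : Fr K B m m') (h' : Fr K B m' m'') :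
    Fr K B m m'' :=
  ⟨fun a ha => (h'.low a ha).trans (h.low a ha),
    fun k hk hK i => (h'.arr k hk hK i).trans (h.arr k hk hK i)⟩

lemma Fr.mono {K K' : List ℕ} {B : ℕ} {m m' : ℕ → ℕ} (h : Fr K B m m') (hK : ∀ k ∈ K, k ∈ K') :
    Fr K' B m m' :=
  ⟨h.low, fun k hk hk' i => h.arr k hk (fun h' => hk' (hK k h')) i⟩

lemma Fr.upd {K : List ℕ} {B : ℕ} {m m' : ℕ → ℕ} (h : Fr K B m m') {k : ℕ} (hk : k < 32)
    (hK : k ∈ K) (i v : ℕ) : Fr K B m (Function.update m' (B + (32 * i + k)) v) :=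
  ⟨fun a ha => by rw [update_low ha]; exact h.low a ha,
    fun k' hk' hK' i' => by
      rw [ar_update hk hk', if_neg]
      · exact h.arr k' hk' hK' i'
      · rintro ⟨rfl, _⟩; exact hK' hK⟩

/-- The first `n` entries of the array `k` are given by `f`. -/
def Fi (B : ℕ) (m : ℕ → ℕ) (k n : ℕ) (f : ℕ → ℕ) : Prop := ∀ i < n, ar B m k i = f i

lemma Fi.zero (B : ℕ) (m : ℕ → ℕ) (k : ℕ) (f : ℕ → ℕ) : Fi B m k 0 f := fun i hi => by omega

lemma Fi.upd {B : ℕ} {m : ℕ → ℕ} {k n : ℕ} {f : ℕ → ℕ} (h : Fi B m k n f) (hk : k < 32) {v : ℕ}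
    (hv : v = f n) : Fi B (Function.update m (B + (32 * n + k)) v) k (n + 1) f := by
  intro i hi
  rw [ar_update hk hk]
  by_cases e : i = n
  · subst e; simp [hv]
  · rw [if_neg (by tauto)]; exact h i (by omega)

lemma Fi.other {B : ℕ} {m : ℕ → ℕ} {k k' n i v : ℕ} {f : ℕ → ℕ} (h : Fi B m k n f) (hk : k < 32)
    (hk' : k' < 32) (hne : k ≠ k') : Fi B (Function.update m (B + (32 * i + k')) v) k n f := by
  intro j hj
  rw [ar_update hk' hk, if_neg (by tauto)]
  exact h j hj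

lemma Fi.fr {K : List ℕ} {B : ℕ} {m m' : ℕ → ℕ} {k n : ℕ} {f : ℕ → ℕ} (h : Fi B m k n f)
    (hF : Fr K B m m') (hk : k < 32) (hK : k ∉ K) : Fi B m' k n f :=
  fun i hi => (hF.arr k hk hK i).trans (h i hi)

lemma Fi.mono {B : ℕ} {m : ℕ → ℕ} {k n n' : ℕ} {f : ℕ → ℕ} (h : Fi B m k n f) (hn : n' ≤ n) :
    Fi B m k n' f := fun i hi => h i (by omega)

lemma Fi.congr {B : ℕ} {m : ℕ → ℕ} {k n : ℕ} {f g : ℕ → ℕ} (h : Fi B m k n f)
    (hg : ∀ i < n, f i = g i) : Fi B m k n g := fun i hi => (h i hi).trans (hg i hi)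

lemma set_reg (s : St) (d v x : ℕ) : (s.set d v).reg x = if x = d then v else s.reg x := by
  by_cases e : x = d
  · subst e; simp
  · rw [if_neg e, St.set_reg_ne _ _ e]

/-- A loop which adds the values `f i` to the register `d`. -/
theorem Tb.sumLoop {X w x b d : ℕ} {e : Ex} {s : St} {T N : ℕ} {Q : St → Prop} {f : ℕ → ℕ}
    (P : PX X w) (hb : Bd X s) (hN : s.reg b = N) (hxd : x ≠ d) (hxb : x ≠ b) (hbd : b ≠ d)
    (hc : cs X e) (hs : sz e ≤ 99) (hT : N * (e.cost + 9) + 3 ≤ T)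
    (he : ∀ i < N, ∀ v, e.ev ((s.set x i).set d v) = f i)
    (hv : s.reg d + ∑ i ∈ Finset.range N, f i ≤ X)
    (hQ : Bd X ((s.set x N).set d (s.reg d + ∑ i ∈ Finset.range N, f i)) →
      Q ((s.set x N).set d (s.reg d + ∑ i ∈ Finset.range N, f i))) :
    Tr w (.loop x b (.asg d (.add (.r d) e))) s T Q := by
  refine Tb.loop P hb (fun i s' => s' = (s.set x i).set d (s.reg d + ∑ j ∈ Finset.range i, f j))
    (e.cost + 5) hN ?_ ?_ ?_ ?_
  · calc N * (e.cost + 5 + 4) + 3 = N * (e.cost + 9) + 3 := by ring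
      _ ≤ T := hT
  · have : s.set x 0 = (s.set x 0).set d (s.reg d + ∑ j ∈ Finset.range 0, f j) := by
      cases s with
      | mk reg mem =>
        simp only [St.set, Finset.range_zero, Finset.sum_empty, add_zero, St.mk.injEq, and_true]
        funext r
        by_cases h1 : r = d
        · subst h1
          rw [Function.update_self, Function.update_of_ne (Ne.symm hxd)]
        · rw [Function.update_of_ne h1]
    exact this
  · rintro i hi s' rfl hb' _ _
    have hsum : s.reg d + ∑ j ∈ Finset.range i, f j + f i = s.reg d + ∑ j ∈ Finset.range (i + 1), f j := by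
      rw [Finset.sum_range_succ]; ring
    have hval : (Ex.add (.r d) e).ev ((s.set x i).set d (s.reg d + ∑ j ∈ Finset.range i, f j)) =
        s.reg d + ∑ j ∈ Finset.range (i + 1), f j := by
      simp only [Ex.ev, St.set_reg_self]
      rw [he i hi, hsum]
    have hmono : s.reg d + ∑ j ∈ Finset.range (i + 1), f j ≤ X := by
      refine le_trans (Nat.add_le_add_left ?_ _) hv
      exact Finset.sum_le_sum_of_subset (Finset.range_subset_range.2 (by omega))
    refine Tb.asg P hb' ⟨trivial, hc⟩ (by simp only [sz]; omega) (by simp only [Ex.cost]; omega)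
      (by rw [hval]; exact hmono) ?_
    intro hb''
    refine ⟨hb'', ?_⟩
    rw [hval]
    cases s with
    | mk reg mem =>
      simp only [St.set, St.mk.injEq, and_true]
      funext r
      by_cases h1 : r = x
      · subst h1
        rw [Function.update_self, Function.update_of_ne hxd, Function.update_self]
      · by_cases h2 : r = d
        · subst h2
          rw [Function.update_of_ne h1, Function.update_self, Function.update_self]
        · rw [Function.update_of_ne h1, Function.update_of_ne h2, Function.update_of_ne h2,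
            Function.update_of_ne h1, Function.update_of_ne h2, Function.update_of_ne h1]
  · rintro s' rfl hb' _ _
    exact hQ hb'

end Pool.Agent.H792_Clique
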