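import Pool.Agent.H792_Clique.Heavy
import Pool.Agent.H792_Clique.Alg

/-!
Common neighbours of the cliques.
-/

set_option autoImplicit false
set_option linter.unusedSimpArgs false
set_option linter.unusedVariables false

namespace Pool.Agent.H792_Clique

/-! ### hard graphs -/

/-- Ordered pairs of different numbers. -/
abbrev Pr := {q : Fin 10 × Fin 10 // q.1 ≠ q.2}

/-- The larger number. -/
def mx (q : Pr) : Fin 10 := max q.1.1 q.1.2

/-- The smaller number. -/
def mn (q : Pr) : Fin 10 := min q.1.1 q.1.2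

lemma mn_lt (q : Pr) : mn q < mx q := by
  unfold mn mx
  exact min_lt_max.2 q.2

/-- The other numbers. -/
def oth (q : Pr) : Finset (Fin 10) := {q.1.1, q.1.2}ᶜ

lemma mx_oth (q : Pr) : mx q ∉ oth q := by
  unfold mx oth
  rcases max_choice q.1.1 q.1.2 with h | h <;> rw [h] <;> simp

lemma mn_oth (q : Pr) : mn q ∉ oth q := by
  unfold mn oth
  rcases min_choice q.1.1 q.1.2 with h | h <;> rw [h] <;> simp

/-- Adjacency of the heavy blocks. -/
def Rc (N : ℕ) (i j : Pr × Fin N) : Prop := mx i.1 ≠ mx j.1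

lemma Rc_clique {N : ℕ} (I : Finset (Pr × Fin N)) (S : Finset (Fin 10)) (hI : I.Nonempty)
    (hR : ∀ i ∈ I, ∀ j ∈ I, i ≠ j → Rc N i j) (hS : ∀ i ∈ I, S ⊆ oth i.1) :
    S.card + I.card ≤ 9 := by
  classical
  obtain ⟨i0, hi0, hmin⟩ := I.exists_min_image (fun i => mx i.1) hI
  have hinj : Set.InjOn (fun i : Pr × Fin N => mx i.1) I := by
    intro i hi j hj e
    by_contra hne
    exact hR i hi j hj hne e
  set M := I.image (fun i : Pr × Fin N => mx i.1) with hM
  have hMc : M.card = I.card := Finset.card_image_of_injOn hinj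
  have h1 : Disjoint S M := by
    rw [Finset.disjoint_left]
    intro x hx hxM
    obtain ⟨i, hi, rfl⟩ := Finset.mem_image.1 hxM
    exact mx_oth _ (hS i hi hx)
  have h2 : mn i0.1 ∉ S ∪ M := by
    rw [Finset.mem_union]
    rintro (h | h)
    · exact mn_oth _ (hS i0 hi0 h)
    · obtain ⟨i, hi, e⟩ := Finset.mem_image.1 h
      have h3 := hmin i hi
      have h4 := mn_lt i0.1
      rw [← e] at h4
      exact absurd h3 (not_le.2 h4)
  have h3 : (insert (mn i0.1) (S ∪ M)).card ≤ 10 := by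
    have := Finset.card_le_univ (insert (mn i0.1) (S ∪ M))
    simpa using this
  rw [Finset.card_insert_of_notMem h2, Finset.card_union_of_disjoint h1, hMc] at h3
  omega

lemma card_Pr : Fintype.card Pr = 90 := by decide

/-- Number of common neighbours in the graph with the heavy blocks. -/
lemma cnb_heavy {N p : ℕ} {n : ℕ} {G : SimpleGraph (Fin p)} {B : SimpleGraph (Fin n)}
    {hs : ∀ i j, Rc N i j → Rc N j i} {h0 : ∀ i, ¬ Rc N i i}
    (φ : heavy (fun i : Pr × Fin N => oth i.1) (Rc N) hs h0 G ≃g B) (J : Finset (Fin n)) :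
    (10 - J.card) * (9 - J.card) * N * p ≤ cnb B J := by
  classical
  -- labels
  set lab : (Fin 10 ⊕ (Pr × Fin N)) × Fin p → Fin 10 := fun z => z.1.elim id (fun i => mx i.1) with hlab
  set U : Finset (Fin 10) := J.image (fun x => lab (φ.symm x)) with hU
  have hUc : U.card ≤ J.card := Finset.card_image_le
  have hUc' : 10 - J.card ≤ (Uᶜ).card := by
    rw [Finset.card_compl, Fintype.card_fin]; omega
  set src : Finset ((Fin 10 × Fin 10) × (Fin N × Fin p)) := Uᶜ.offDiag ×ˢ Finset.univ with hsrc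
  have hcard : (10 - J.card) * (9 - J.card) * N * p ≤ src.card := by
    rw [hsrc, Finset.card_product, Finset.offDiag_card, Finset.card_univ, Fintype.card_prod,
      Fintype.card_fin, Fintype.card_fin, Nat.mul_assoc ((10 - J.card) * (9 - J.card))]
    apply Nat.mul_le_mul_right
    set a := (Uᶜ).card
    have : a * a - a = a * (a - 1) := by rw [Nat.mul_sub, Nat.mul_one]
    rw [this]
    exact Nat.mul_le_mul hUc' (by omega)
  have hne : ∀ q ∈ src, q.1.1 ≠ q.1.2 := by
    intro q hq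
    rw [hsrc, Finset.mem_product, Finset.mem_offDiag] at hq
    exact hq.1.2.2
  set f : {x // x ∈ src} → Fin n := fun q =>
    φ (Sum.inr (⟨q.1.1, hne q.1 q.2⟩, q.1.2.1), q.1.2.2) with hf
  have hinj : Function.Injective f := by
    rintro ⟨⟨⟨a, b⟩, y, v⟩, h1⟩ ⟨⟨⟨a', b'⟩, y', v'⟩, h2⟩ e
    have e1 := φ.injective e
    simp only [Prod.mk.injEq, Sum.inr.injEq, Subtype.mk.injEq] at e1
    obtain ⟨⟨⟨rfl, rfl⟩, rfl⟩, rfl⟩ := e1
    rfl
  have hle : (src.attach.image f).card = src.card := by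
    rw [Finset.card_image_of_injective _ hinj, Finset.card_attach]
  refine hcard.trans (hle ▸ ?_)
  unfold cnb
  refine Finset.card_le_card ?_
  intro z hz
  obtain ⟨⟨⟨⟨a, b⟩, y, v⟩, hq⟩, _, rfl⟩ := Finset.mem_image.1 hz
  rw [Finset.mem_filter]
  refine ⟨Finset.mem_univ _, fun x hx => ?_⟩
  have hab := hne _ hq
  rw [hsrc, Finset.mem_product, Finset.mem_offDiag] at hq
  obtain ⟨⟨ha, hb, _⟩, _⟩ := hq
  simp only [Finset.mem_compl] at ha hb
  have hxU : lab (φ.symm x) ∈ U := Finset.mem_image_of_mem _ hx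
  have hx' : x = φ (φ.symm x) := (φ.apply_symm_apply x).symm
  rw [hx', hf]
  simp only
  rw [φ.map_adj_iff]
  rcases hx2 : φ.symm x with ⟨β | i, u⟩
  · show β ∈ oth _
    rw [hx2] at hxU
    simp only [hlab, Sum.elim_inl, id_eq] at hxU
    unfold oth
    simp only [Finset.mem_compl, Finset.mem_insert, Finset.mem_singleton, not_or]
    refine ⟨?_, ?_⟩
    · rintro rfl; exact ha hxU
    · rintro rfl; exact hb hxU
  · show Rc N _ _
    rw [hx2] at hxU
    simp only [hlab, Sum.elim_inr] at hxU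
    unfold Rc
    intro e
    rw [← e] at hxU
    unfold mx at hxU
    simp only at hxU
    rcases max_choice a b with h | h
    · rw [h] at hxU; exact ha hxU
    · rw [h] at hxU; exact hb hxU

/-- The graph with the heavy blocks is 10-colourable. -/
lemma col_cod {N p : ℕ} {n : ℕ} {G : SimpleGraph (Fin p)} {B : SimpleGraph (Fin n)}
    {hs : ∀ i j, Rc N i j → Rc N j i} {h0 : ∀ i, ¬ Rc N i i}
    (φ : heavy (fun i : Pr × Fin N => oth i.1) (Rc N) hs h0 G ≃g B) : B.Colorable 10 := by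
  refine ⟨SimpleGraph.Coloring.mk
    (fun v => (φ.symm v).1.elim id (fun i => mx i.1)) ?_⟩
  intro v w hvw
  rw [← φ.symm.map_adj_iff] at hvw
  rcases hv : φ.symm v with ⟨k | i, u⟩ <;> rcases hw : φ.symm w with ⟨l | j, u'⟩ <;> rw [hv, hw] at hvw
  · exact hvw.1
  · have h1 : k ∈ oth j.1 := hvw
    intro e
    have e' : k = mx j.1 := e
    exact mx_oth _ (e' ▸ h1)
  · have h1 : l ∈ oth i.1 := hvw
    intro e
    have e' : mx i.1 = l := e
    exact mx_oth i.1 (e' ▸ h1)
  · exact hvw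

/-- The graphs with many common neighbours are hard. -/
theorem cod_hard {e : ℝ} (he : 2 ≤ e) {cls : ∀ p : ℕ, SimpleGraph (Fin p) → Prop} {θ : ℕ → ℝ}
    (hθ : ∀ j ∈ Finset.Icc 1 9, θ j < (10 - j) * (9 - j) / 90)
    (hcls : ∀ (p : ℕ) (G : SimpleGraph (Fin p)), G.Colorable 10 →
      (∀ j ∈ Finset.Icc 1 9, ∀ J : Finset (Fin p), J.card = j → θ j * p ≤ cnb G J) → cls p G)
    (h : SolvesIn e cls) : SolvesIn e allGraphs := by
  classical
  obtain ⟨N, hN⟩ : ∃ N : ℕ, ∀ j ∈ Finset.Icc 1 9,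
      10 * θ j ≤ N * (((10 : ℝ) - j) * (9 - j) - 90 * θ j) := by
    have h1 : ∀ j : ℕ, ∃ n : ℕ, j ∈ Finset.Icc 1 9 →
        10 * θ j ≤ n * (((10 : ℝ) - j) * (9 - j) - 90 * θ j) := by
      intro j
      by_cases hj : j ∈ Finset.Icc 1 9
      · have h2 := hθ j hj
        rw [lt_div_iff₀ (by norm_num)] at h2
        obtain ⟨n, hn⟩ := exists_nat_ge (10 * θ j / (((10 : ℝ) - j) * (9 - j) - 90 * θ j))
        rw [div_le_iff₀ (by linarith)] at hn
        exact ⟨n, fun _ => hn⟩
      · exact ⟨0, fun h => absurd h hj⟩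
    choose n hn using h1
    refine ⟨(Finset.Icc 1 9).sup n, fun j hj => (hn j hj).trans ?_⟩
    have h2 := hθ j hj
    rw [lt_div_iff₀ (by norm_num)] at h2
    apply mul_le_mul_of_nonneg_right _ (by linarith)
    exact_mod_cast Finset.le_sup (f := n) hj
  have hcardι : Fintype.card (Pr × Fin N) = 90 * N := by
    rw [Fintype.card_prod, card_Pr, Fintype.card_fin]
  refine reduce_heavy (fun i : Pr × Fin N => oth i.1) (Rc N) he (fun i j h e => h e.symm)
    (fun i h => h rfl) Rc_clique ?_ h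
  intro p G B hp φ
  apply hcls _ _ (col_cod φ)
  intro j hj J hJ
  have h1 := cnb_heavy φ J
  rw [hJ] at h1
  rw [Finset.mem_Icc] at hj
  have h2 : ((10 - j) * (9 - j) * N * p : ℝ) ≤ cnb B J := by
    have h3 : (((10 - j) * (9 - j) * N * p : ℕ) : ℝ) = (10 - j) * (9 - j) * N * p := by
      push_cast [Nat.cast_sub (show j ≤ 10 by omega), Nat.cast_sub hj.2]
      ring
    rw [← h3]
    exact_mod_cast h1
  refine le_trans ?_ h2
  have h4 := hN j (Finset.mem_Icc.2 hj)
  have hp0 : (0 : ℝ) ≤ p := Nat.cast_nonneg p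
  have h5 := mul_le_mul_of_nonneg_right h4 hp0
  have h6 : (((10 + Fintype.card (Pr × Fin N)) * p : ℕ) : ℝ) = (10 + 90 * N) * p := by
    rw [hcardι]; push_cast; ring
  rw [h6]
  linarith

end Pool.Agent.H792_Clique
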