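import Pool.Agent.H792_Clique.Reduce
import Pool.Agent.H792_Clique.Alg

/-!
The algorithm for the graphs whose cliques have many common neighbours.
-/

set_option autoImplicit false
set_option linter.unusedSimpArgs false
set_option linter.unusedVariables false

namespace Pool.Agent.H792_Clique

open Pool.Agent.H588R2 Pool.Agent.TH687.HL

variable {p : ℕ} {G : SimpleGraph (Fin p)}

/-- Double counting. -/
lemma sum_cnb (G : SimpleGraph (Fin p)) (Q : Finset (Fin p)) (i : ℕ) :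
    ∑ J ∈ Q.powersetCard i, (cnb G J : ℝ) = ∑ v, (((nq G Q v).choose i : ℕ) : ℝ) := by
  classical
  have h1 : ∀ J, (cnb G J : ℝ) = ∑ v : Fin p, (if ∀ x ∈ J, G.Adj v x then (1 : ℝ) else 0) := by
    intro J
    unfold cnb
    rw [Finset.card_filter]
    push_cast
    rfl
  simp only [h1]
  rw [Finset.sum_comm]
  refine Finset.sum_congr rfl fun t _ => ?_
  rw [← Finset.sum_filter, Finset.sum_const, nsmul_eq_mul, mul_one]
  congr 1
  unfold nq
  rw [← Finset.card_powersetCard]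
  congr 1
  ext J
  simp only [Finset.mem_filter, Finset.mem_powersetCard]
  constructor
  · rintro ⟨⟨h1, h2⟩, h3⟩
    exact ⟨fun x hx => Finset.mem_filter.2 ⟨h1 hx, h3 x hx⟩, h2⟩
  · rintro ⟨h1, h2⟩
    exact ⟨⟨fun x hx => (Finset.mem_filter.1 (h1 hx)).1, h2⟩,
      fun x hx => (Finset.mem_filter.1 (h1 hx)).2⟩

/-- The statistic as a sum over the vertices. -/
lemma stat_eq (G : SimpleGraph (Fin p)) (Q : Finset (Fin p)) (c : ℕ → ℝ) :
    ∑ i ∈ Finset.range 7, c i * ∑ J ∈ Q.powersetCard i, (cnb G J : ℝ) =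
      ∑ v, pf c (nq G Q v) := by
  simp only [sum_cnb, Finset.mul_sum]
  rw [Finset.sum_comm]
  rfl

/-- Coefficients of `x (x - 8) (x - 2) ^ 2 (x - 5) ^ 2` in the binomial basis. -/
def cf (i : ℕ) : ℝ :=
  if i = 1 then -112 else if i = 2 then 224 else if i = 3 then -396 else if i = 4 then 624 else
    if i = 5 then -840 else if i = 6 then 720 else 0

lemma pf_cf (x : ℕ) (hx : x ≤ 10) : pf cf x = x * (x - 8) * (x - 2) ^ 2 * (x - 5) ^ 2 := by
  unfold pf
  simp only [Finset.sum_range_succ, Finset.sum_range_zero, cf]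
  interval_cases x <;> norm_num [Nat.choose]

lemma pf_cf_le (x : ℕ) (hx : x ≤ 8) : pf cf x ≤ 0 := by
  rw [pf_cf x (by omega)]
  have h1 : (x : ℝ) ≤ 8 := by exact_mod_cast hx
  have h2 : (0 : ℝ) ≤ x := by positivity
  have h3 : (0 : ℝ) ≤ (8 - x) * ((x - 2) ^ 2 * (x - 5) ^ 2) :=
    mul_nonneg (by linarith) (by positivity)
  nlinarith [mul_nonneg h2 h3]

lemma pf_cf_ge (j : ℕ) (h1 : 1 ≤ j) (h8 : j ≤ 8) : ∃ l : ℝ, 0 < l ∧
    ∀ x ≤ 10, l * (((x.choose j : ℕ) : ℝ) - ((Nat.choose 8 j : ℕ) : ℝ)) ≤ pf cf x := by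
  refine ⟨if j = 1 ∨ j = 8 then 700 else if j = 2 ∨ j = 7 then 100 else if j = 3 ∨ j = 6 then 34
    else 20, ?_, ?_⟩
  · split_ifs <;> norm_num
  · intro x hx
    rw [pf_cf x hx]
    interval_cases j <;> interval_cases x <;> norm_num [Nat.choose]

lemma nq_le {Q : Finset (Fin p)} (v : Fin p) : nq G Q v ≤ Q.card := by
  classical
  unfold nq
  exact Finset.card_filter_le _ _

/-- The algorithm for `j ≤ 8`. -/
theorem cod_easy {j : ℕ} (h1 : 1 ≤ j) (h8 : j ≤ 8) {θ : ℝ}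
    (hθ : ((10 : ℝ) - j) * (9 - j) / 90 < θ) :
    SolvesIn 7.5 (fun p G => ∀ J : Finset (Fin p), G.IsNClique j J → θ * p ≤ cnb G J) := by
  classical
  obtain ⟨l, hl, hge⟩ := pf_cf_ge j h1 h8
  have hch : (0 : ℝ) < ((Nat.choose 10 j : ℕ) : ℝ) := by
    exact_mod_cast Nat.choose_pos (by omega)
  have hthr : ((Nat.choose 8 j : ℕ) : ℝ) = ((10 : ℝ) - j) * (9 - j) / 90 * ((Nat.choose 10 j : ℕ) : ℝ) := by
    interval_cases j <;> norm_num [Nat.choose]
  set ε : ℝ := l * (((Nat.choose 10 j : ℕ) : ℝ) * (θ - ((10 : ℝ) - j) * (9 - j) / 90)) with hε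
  have hε0 : 0 < ε := mul_pos hl (mul_pos hch (by linarith))
  refine (main_alg 0 0 (ε := ε) (M0 := 0) (c := cf) hε0 pf_cf_le).mono ?_
  intro p G hp hG
  refine ⟨fun v h => by simp at h, fun hfree => ?_⟩
  unfold SimpleGraph.CliqueFree at hfree
  push Not at hfree
  obtain ⟨Q, hQ⟩ := hfree
  refine ⟨Q, hQ, Or.inr ?_⟩
  rw [stat_eq]
  have h3 : ∑ v, l * ((((nq G Q v).choose j : ℕ) : ℝ) - ((Nat.choose 8 j : ℕ) : ℝ)) ≤
      ∑ v, pf cf (nq G Q v) :=
    Finset.sum_le_sum fun v _ => hge _ ((nq_le v).trans hQ.2.le)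
  refine le_trans ?_ h3
  rw [← Finset.mul_sum, Finset.sum_sub_distrib, ← sum_cnb]
  have h4 : ((Nat.choose 10 j : ℕ) : ℝ) * (θ * p) ≤ ∑ J ∈ Q.powersetCard j, (cnb G J : ℝ) := by
    have h5 : ∑ J ∈ Q.powersetCard j, (θ * p) ≤ ∑ J ∈ Q.powersetCard j, (cnb G J : ℝ) := by
      refine Finset.sum_le_sum fun J hJ => ?_
      rw [Finset.mem_powersetCard] at hJ
      exact hG J ⟨fun a ha b hb hab => hQ.1 (hJ.1 ha) (hJ.1 hb) hab, hJ.2⟩
    rwa [Finset.sum_const, Finset.card_powersetCard, hQ.2, nsmul_eq_mul] at h5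
  rw [Finset.sum_const, Finset.card_univ, Fintype.card_fin, nsmul_eq_mul, hthr, hε, zero_add,
    mul_assoc]
  apply mul_le_mul_of_nonneg_left _ hl.le
  linarith

end Pool.Agent.H792_Clique
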