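import Pool.Agent.H792_Clique.CodAlg
import Pool.Agent.H792_Clique.Cod

/-!
The algorithm for the graphs whose cliques on 9 vertices have a common neighbour.
-/

set_option autoImplicit false
set_option linter.unusedSimpArgs false
set_option linter.unusedVariables false

namespace Pool.Agent.H792_Clique

open Pool.Agent.H588R2 Pool.Agent.TH687.HL

/-- A copy of the graph and independent vertices adjacent to it. -/
def T9 (x y : ℕ) : ℕ :=
  if x = 0 ∧ y = 0 then 2 else if x = 0 ∧ y = 1 then 1 else if x = 1 ∧ y = 0 then 1 else 0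

lemma T9_symm (x y : ℕ) : T9 x y = T9 y x := by
  unfold T9; split_ifs <;> omega

lemma T9_self (x : ℕ) : T9 x x ≠ 1 := by
  unfold T9; split_ifs <;> omega

/-- The graph. -/
abbrev B9 {p : ℕ} (G : SimpleGraph (Fin p)) : SimpleGraph (Fin (2 * p)) :=
  blow 2 T9 T9_symm T9_self G

variable {p : ℕ}

/-- Vertices of the copy. -/
def v0 (u : Fin p) : Fin (2 * p) := ⟨u, by have := u.2; omega⟩

/-- Other vertices. -/
def v1 (u : Fin p) : Fin (2 * p) := ⟨p + u, by have := u.2; omega⟩

lemma v0_div (u : Fin p) : ((v0 u : Fin _) : ℕ) / p = 0 ∧ ((v0 u : Fin _) : ℕ) % p = u :=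
  ⟨Nat.div_eq_of_lt u.2, Nat.mod_eq_of_lt u.2⟩

lemma v1_div (u : Fin p) : ((v1 u : Fin _) : ℕ) / p = 1 ∧ ((v1 u : Fin _) : ℕ) % p = u := by
  have hp : 0 < p := lt_of_le_of_lt (Nat.zero_le _) u.2
  show (p + (u : ℕ)) / p = 1 ∧ (p + (u : ℕ)) % p = u
  rw [Nat.add_div_left _ hp, Nat.div_eq_of_lt u.2, Nat.add_mod_left, Nat.mod_eq_of_lt u.2]
  exact ⟨rfl, rfl⟩

lemma adj00 (G : SimpleGraph (Fin p)) (u v : Fin p) : (B9 G).Adj (v0 u) (v0 v) ↔ G.Adj u v := by
  show T9 _ _ = 1 ∨ (T9 _ _ = 2 ∧ bit G _ _ ≠ 0) ↔ _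
  rw [(v0_div u).1, (v0_div u).2, (v0_div v).1, (v0_div v).2, bit_fin]
  simp [T9]

lemma adj01 (G : SimpleGraph (Fin p)) (u v : Fin p) : (B9 G).Adj (v0 u) (v1 v) := by
  show T9 _ _ = 1 ∨ (T9 _ _ = 2 ∧ bit G _ _ ≠ 0)
  rw [(v0_div u).1, (v0_div u).2, (v1_div v).1, (v1_div v).2]
  simp [T9]

lemma adj11 (G : SimpleGraph (Fin p)) (u v : Fin p) : ¬ (B9 G).Adj (v1 u) (v1 v) := by
  show ¬ (T9 _ _ = 1 ∨ (T9 _ _ = 2 ∧ bit G _ _ ≠ 0))
  rw [(v1_div u).1, (v1_div u).2, (v1_div v).1, (v1_div v).2]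
  simp [T9]

lemma v_cases (a : Fin (2 * p)) : (∃ u, a = v0 u) ∨ ∃ u, a = v1 u := by
  rcases lt_or_ge (a : ℕ) p with h | h
  · left; exact ⟨⟨a, h⟩, rfl⟩
  · right
    refine ⟨⟨a - p, by have := a.2; omega⟩, ?_⟩
    apply Fin.ext
    show (a : ℕ) = p + (a - p)
    omega

lemma v0_inj : Function.Injective (v0 : Fin p → Fin (2 * p)) := by
  intro u v h
  exact Fin.ext (show (u : ℕ) = v from congrArg (fun z : Fin (2 * p) => (z : ℕ)) h)

lemma v1_inj : Function.Injective (v1 : Fin p → Fin (2 * p)) := by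
  intro u v h
  have : p + (u : ℕ) = p + v := congrArg (fun z : Fin (2 * p) => (z : ℕ)) h
  exact Fin.ext (by omega)

/-- Nine vertices. -/
lemma free_nine {G : SimpleGraph (Fin p)} (hG : ∀ J : Finset (Fin p), G.IsNClique 9 J → 0 < cnb G J)
    (h : G.CliqueFree 10) : G.CliqueFree 9 := by
  classical
  intro J hJ
  have h1 := hG J hJ
  unfold cnb at h1
  obtain ⟨v, hv⟩ := Finset.card_pos.1 h1
  rw [Finset.mem_filter] at hv
  have hvJ : v ∉ J := fun hm => (hv.2 v hm).ne rfl
  apply h (insert v J)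
  exact hJ.insert fun b hb => hv.2 b hb

lemma free_B9 {G : SimpleGraph (Fin p)} (hG : ∀ J : Finset (Fin p), G.IsNClique 9 J → 0 < cnb G J) :
    (B9 G).CliqueFree 10 ↔ G.CliqueFree 10 := by
  classical
  constructor
  · intro h
    refine h.comap ⟨?_⟩
    exact SimpleGraph.Hom.toCopy ⟨v0, fun {a b} hab => (adj00 G a b).2 hab⟩ v0_inj
  · intro h Q hQ
    have h9 := free_nine hG h
    -- the part of the clique in the copy
    set S : Finset (Fin p) := Finset.univ.filter fun u => v0 u ∈ Q with hS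
    set I : Finset (Fin p) := Finset.univ.filter fun u => v1 u ∈ Q with hI
    have hSc : G.IsNClique S.card S := by
      refine ⟨?_, rfl⟩
      intro a ha b hb hab
      rw [Finset.mem_coe, hS, Finset.mem_filter] at ha hb
      exact (adj00 G a b).1 (hQ.1 ha.2 hb.2 fun e => hab (v0_inj e))
    have hIc : I.card ≤ 1 := by
      rw [Finset.card_le_one]
      intro a ha b hb
      rw [hI, Finset.mem_filter] at ha hb
      by_contra hab
      exact adj11 G a b (hQ.1 ha.2 hb.2 fun e => hab (v1_inj e))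
    have hQc : Q.card ≤ S.card + I.card := by
      calc Q.card ≤ (S.image v0 ∪ I.image v1).card := by
            apply Finset.card_le_card
            intro a ha
            rw [Finset.mem_union]
            rcases v_cases a with ⟨u, rfl⟩ | ⟨u, rfl⟩
            · left; exact Finset.mem_image_of_mem _ (by rw [hS, Finset.mem_filter]; exact ⟨Finset.mem_univ _, ha⟩)
            · right; exact Finset.mem_image_of_mem _ (by rw [hI, Finset.mem_filter]; exact ⟨Finset.mem_univ _, ha⟩)
        _ ≤ (S.image v0).card + (I.image v1).card := Finset.card_union_le _ _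
        _ ≤ S.card + I.card := add_le_add Finset.card_image_le Finset.card_image_le
    rw [hQ.2] at hQc
    exact (h9.mono (show 9 ≤ S.card by omega)) S hSc

theorem nine_easy : SolvesIn 7.5
    (fun p G => ∀ J : Finset (Fin p), G.IsNClique 9 J → 0 < cnb G J) := by
  classical
  refine reduce (cls := MainClass 0 0 1 0 cf) (by norm_num) (κ := 2) (by norm_num) T9_symm T9_self
    ?_ ?_ (main_alg 0 0 one_pos pf_cf_le)
  · intro p G hp hG
    refine ⟨fun v h => by simp at h, fun hfree => ?_⟩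
    rw [free_B9 hG] at hfree
    unfold SimpleGraph.CliqueFree at hfree
    push Not at hfree
    obtain ⟨Q, hQ⟩ := hfree
    obtain ⟨S, hSQ, hS9⟩ := Finset.exists_subset_card_eq (show 9 ≤ Q.card by rw [hQ.2]; norm_num)
    have hS : G.IsNClique 9 S := ⟨fun a ha b hb hab => hQ.1 (hSQ ha) (hSQ hb) hab, hS9⟩
    set w : Fin (2 * p) := v1 ⟨0, hp⟩ with hw
    set Q' : Finset (Fin (2 * p)) := insert w (S.image v0) with hQ'
    have hwS : w ∉ S.image v0 := by
      intro hm
      obtain ⟨u, _, e⟩ := Finset.mem_image.1 hm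
      have := congrArg (fun z : Fin (2 * p) => (z : ℕ)) e
      simp only [hw, v0, v1] at this
      have := u.2
      omega
    have hQ'c : Q'.card = 10 := by
      rw [hQ', Finset.card_insert_of_notMem hwS, Finset.card_image_of_injective _ v0_inj, hS9]
    have hQ'n : (B9 G).IsNClique 10 Q' := by
      refine ⟨?_, hQ'c⟩
      intro a ha b hb hab
      rw [hQ', Finset.mem_coe, Finset.mem_insert, Finset.mem_image] at ha hb
      rcases ha with rfl | ⟨u, hu, rfl⟩
      · rcases hb with rfl | ⟨v, hv, rfl⟩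
        · exact absurd rfl hab
        · exact (adj01 G v _).symm
      · rcases hb with rfl | ⟨v, hv, rfl⟩
        · exact adj01 G u _
        · exact (adj00 G u v).2 (hS.1 hu hv fun e => hab (by rw [e]))
    refine ⟨Q', hQ'n, Or.inr ?_⟩
    rw [stat_eq]
    -- vertices outside of the copy have nine neighbours
    have h9 : ∀ u : Fin p, nq (B9 G) Q' (v1 u) = 9 := by
      intro u
      unfold nq
      rw [← hS9, ← Finset.card_image_of_injective S v0_inj]
      congr 1
      ext a
      rw [Finset.mem_filter, hQ', Finset.mem_insert]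
      constructor
      · rintro ⟨rfl | h, h2⟩
        · exact absurd h2 (adj11 G _ _)
        · exact h
      · intro h
        refine ⟨Or.inr h, ?_⟩
        obtain ⟨v, _, rfl⟩ := Finset.mem_image.1 h
        exact (adj01 G v u).symm
    have hall : ∀ a : Fin (2 * p), -700 ≤ pf cf (nq (B9 G) Q' a) := by
      intro a
      have h1 := nq_le (G := B9 G) (Q := Q') a
      rw [hQ'c] at h1
      rw [pf_cf _ h1]
      generalize nq (B9 G) Q' a = x at h1
      interval_cases x <;> norm_num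
    set W : Finset (Fin (2 * p)) := Finset.univ.image v1 with hW
    have hWc : W.card = p := by
      rw [hW, Finset.card_image_of_injective _ v1_inj, Finset.card_univ, Fintype.card_fin]
    have hsplit : ∑ a, pf cf (nq (B9 G) Q' a) =
        ∑ a ∈ W, pf cf (nq (B9 G) Q' a) + ∑ a ∈ Wᶜ, pf cf (nq (B9 G) Q' a) :=
      (Finset.sum_add_sum_compl W _).symm
    have h1 : ∑ a ∈ W, pf cf (nq (B9 G) Q' a) = 7056 * p := by
      rw [Finset.sum_congr rfl (g := fun _ => (7056 : ℝ))]
      · rw [Finset.sum_const, hWc, nsmul_eq_mul]; ring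
      · intro a ha
        obtain ⟨u, _, rfl⟩ := Finset.mem_image.1 ha
        rw [h9, pf_cf 9 (by norm_num)]
        norm_num
    have h2 : (-700 : ℝ) * p ≤ ∑ a ∈ Wᶜ, pf cf (nq (B9 G) Q' a) := by
      have h3 : ∑ a ∈ Wᶜ, (-700 : ℝ) ≤ ∑ a ∈ Wᶜ, pf cf (nq (B9 G) Q' a) :=
        Finset.sum_le_sum fun a _ => hall a
      rw [Finset.sum_const, nsmul_eq_mul] at h3
      have h4 : Wᶜ.card = p := by
        rw [Finset.card_compl, hWc, Fintype.card_fin]; omega
      rw [h4] at h3
      linarith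
    rw [hsplit, h1]
    have hp0 : (0 : ℝ) ≤ p := Nat.cast_nonneg p
    push_cast
    linarith
  · intro p G hp hG
    exact free_B9 hG

/-- Cliques with many common neighbours. -/
theorem cod_dichotomy {θ : ℕ → ℝ} {cls : ∀ p : ℕ, SimpleGraph (Fin p) → Prop}
    (hθ : ∀ j ∈ Finset.Icc 1 9, θ j ≠ (10 - j) * (9 - j) / 90)
    (h1 : ∀ (p : ℕ) (G : SimpleGraph (Fin p)), G.Colorable 10 →
      (∀ j ∈ Finset.Icc 1 9, ∀ J : Finset (Fin p), J.card = j → θ j * p ≤ cnb G J) → cls p G)
    (h2 : ∀ (p : ℕ) (G : SimpleGraph (Fin p)), cls p G →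
      ∀ j ∈ Finset.Icc 1 9, ∀ J : Finset (Fin p), G.IsNClique j J → θ j * p ≤ cnb G J) :
    SolvesIn 7.5 cls ↔
      ((∃ j ∈ Finset.Icc 1 9, (10 - j) * (9 - j) / 90 < θ j) ∨ SolvesIn 7.5 allGraphs) := by
  constructor
  · intro h
    by_cases hc : ∃ j ∈ Finset.Icc 1 9, (10 - j) * (9 - j) / 90 < θ j
    · exact Or.inl hc
    · right
      refine cod_hard (by norm_num) (fun j hj => ?_) h1 h
      refine lt_of_le_of_ne ?_ (hθ j hj)
      by_contra hlt
      exact hc ⟨j, hj, not_le.1 hlt⟩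
  · rintro (⟨j, hj, hlt⟩ | h)
    · have hj' := Finset.mem_Icc.1 hj
      rcases Nat.lt_or_ge j 9 with h9 | h9
      · exact (cod_easy hj'.1 (by omega) hlt).mono fun p G _ hG => h2 p G hG j hj
      · obtain rfl : j = 9 := by omega
        refine nine_easy.mono fun p G hp hG J hJ => ?_
        have h3 := h2 p G hG 9 hj J hJ
        norm_num at hlt
        have h4 : (0 : ℝ) < θ 9 * p := mul_pos hlt (by exact_mod_cast hp)
        have h5 : (0 : ℝ) < cnb G J := lt_of_lt_of_le h4 h3
        exact_mod_cast h5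
    · exact h.mono fun p G _ _ => trivial

end Pool.Agent.H792_Clique
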