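import Pool.Agent.H792_Clique.TDefs

/-!
Bounds for the running time.
-/

set_option autoImplicit false
set_option linter.unusedSimpArgs false
set_option linter.unusedVariables false

namespace Pool.Agent.H792_Clique

lemma geo {m r : ℕ} (hm : 2 ≤ m) (hr : 1 ≤ r) (h : r ^ 100 < m ^ 249) :
    ∃ C : ℝ, 0 < C ∧ ∀ L : ℕ, ((L : ℝ) + 1) * (r : ℝ) ^ L ≤ C * ((m : ℝ) ^ L) ^ (2.49 : ℝ) := by
  have hm0 : (0 : ℝ) < m := by exact_mod_cast (by omega : 0 < m)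
  have hr0 : (0 : ℝ) < r := by exact_mod_cast hr
  set ρ : ℝ := (m : ℝ) ^ (2.49 : ℝ) with hρ
  have hρ0 : 0 < ρ := Real.rpow_pos_of_pos hm0 _
  have hlt : (r : ℝ) < ρ := by
    have h1 : ρ ^ 100 = (m : ℝ) ^ 249 := by
      rw [hρ, ← Real.rpow_natCast, ← Real.rpow_mul hm0.le, ← Real.rpow_natCast]
      norm_num
    have h2 : (r : ℝ) ^ 100 < ρ ^ 100 := by rw [h1]; exact_mod_cast h
    exact lt_of_pow_lt_pow_left₀ 100 hρ0.le h2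
  set δ : ℝ := ρ / r - 1 with hδ
  have hδ0 : 0 < δ := by
    rw [hδ, sub_pos, lt_div_iff₀ hr0]; linarith
  refine ⟨1 + 1 / δ, by positivity, fun L => ?_⟩
  have h1 := one_add_mul_le_pow (show (-2 : ℝ) ≤ δ by linarith) L
  have h2 : (L : ℝ) + 1 ≤ (1 + 1 / δ) * (1 + L * δ) := by
    have : (1 + 1 / δ) * (1 + L * δ) = 1 + L * δ + 1 / δ + L := by field_simp; ring
    rw [this]
    have : 0 ≤ (L : ℝ) * δ := by positivity
    have : 0 < 1 / δ := by positivity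
    linarith
  have h3 : (1 + δ) ^ L * (r : ℝ) ^ L = ρ ^ L := by
    rw [← mul_pow]; congr 1; rw [hδ]; field_simp; ring
  have h4 : ρ ^ L = ((m : ℝ) ^ L) ^ (2.49 : ℝ) := by
    rw [hρ, ← Real.rpow_natCast, ← Real.rpow_mul hm0.le, mul_comm, Real.rpow_mul hm0.le,
      Real.rpow_natCast]
  rw [← h4, ← h3]
  calc ((L : ℝ) + 1) * (r : ℝ) ^ L ≤ ((1 + 1 / δ) * (1 + δ) ^ L) * (r : ℝ) ^ L := by
        apply mul_le_mul_of_nonneg_right _ (by positivity)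
        exact h2.trans (mul_le_mul_of_nonneg_left h1 (by positivity))
    _ = (1 + 1 / δ) * ((1 + δ) ^ L * (r : ℝ) ^ L) := by ring

lemma tn_bound {m r : ℕ} (hm : 2 ≤ m) (hr : 1 ≤ r) (h : r ^ 100 < m ^ 249) :
    ∃ C : ℝ, 0 < C ∧ ∀ n : ℕ, (tn m r n : ℝ) ≤ C * ((n : ℝ) + 1) ^ (7.47 : ℝ) := by
  obtain ⟨C, hC, hgeo⟩ := geo hm hr h
  have hm0 : (0 : ℝ) < m := by exact_mod_cast (by omega : 0 < m)
  set Z : ℝ := ((6000 + 60 * (r * (m * m)) + 528 * (m * m) : ℕ) : ℝ) with hZ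
  have hZ0 : 0 < Z := by rw [hZ]; positivity
  refine ⟨C * (m : ℝ) ^ (2.49 : ℝ) * Z, by positivity, fun n => ?_⟩
  set L := Nat.clog m (n * n * n) with hL
  have h1 : ((m ^ L : ℕ) : ℝ) ≤ m * ((n : ℝ) + 1) ^ 3 := by
    have : m ^ L ≤ m * (n + 1) ^ 3 := by
      rcases Nat.eq_zero_or_pos L with h0 | h0
      · rw [h0]
        have : 1 ≤ (n + 1) ^ 3 := Nat.one_le_pow _ _ (by omega)
        nlinarith
      · have h2 : m ^ (L - 1) < n * n * n := by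
          have h1' : L - 1 < Nat.clog m (n * n * n) := by rw [← hL]; omega
          exact (Nat.lt_clog_iff_pow_lt (by omega)).1 h1'
        obtain ⟨l, hl⟩ : ∃ l, L = l + 1 := ⟨L - 1, by omega⟩
        rw [hl] at h2 ⊢
        simp only [Nat.add_sub_cancel] at h2
        rw [pow_succ, Nat.mul_comm]
        apply Nat.mul_le_mul_left
        nlinarith
    exact_mod_cast this
  have h2 : ((m : ℝ) ^ L) ^ (2.49 : ℝ) ≤ (m : ℝ) ^ (2.49 : ℝ) * ((n : ℝ) + 1) ^ (7.47 : ℝ) := by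
    push_cast at h1
    calc ((m : ℝ) ^ L) ^ (2.49 : ℝ) ≤ (m * ((n : ℝ) + 1) ^ 3) ^ (2.49 : ℝ) :=
          Real.rpow_le_rpow (by positivity) h1 (by norm_num)
      _ = (m : ℝ) ^ (2.49 : ℝ) * ((n : ℝ) + 1) ^ (7.47 : ℝ) := by
          rw [Real.mul_rpow hm0.le (by positivity), ← Real.rpow_natCast, ← Real.rpow_mul (by positivity)]
          norm_num
  have h3 := hgeo L
  have e : (tn m r n : ℝ) = ((L : ℝ) + 1) * (r : ℝ) ^ L * Z := by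
    unfold tn
    rw [← hL, hZ]; push_cast; ring
  rw [e]
  calc ((L : ℝ) + 1) * (r : ℝ) ^ L * Z ≤ (C * ((m : ℝ) ^ L) ^ (2.49 : ℝ)) * Z :=
        mul_le_mul_of_nonneg_right h3 hZ0.le
    _ ≤ (C * ((m : ℝ) ^ (2.49 : ℝ) * ((n : ℝ) + 1) ^ (7.47 : ℝ))) * Z :=
        mul_le_mul_of_nonneg_right (mul_le_mul_of_nonneg_left h2 hC.le) hZ0.le
    _ = C * (m : ℝ) ^ (2.49 : ℝ) * Z * ((n : ℝ) + 1) ^ (7.47 : ℝ) := by ring

lemma log_bound {p : ℕ} (hp : 1 ≤ p) : ((Nat.log 2 p + 1 : ℕ) : ℝ) ≤ 70 * (p : ℝ) ^ (0.03 : ℝ) := by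
  have hp1 : (1 : ℝ) ≤ p := by exact_mod_cast hp
  have h1 : (Nat.log 2 p : ℝ) ≤ Real.logb 2 p := Real.natLog_le_logb p 2
  have h2 : Real.logb 2 p = Real.log p / Real.log 2 := rfl
  have h3 : Real.log p ≤ (p : ℝ) ^ (0.03 : ℝ) / 0.03 :=
    Real.log_le_rpow_div (by linarith) (by norm_num)
  have h4 : (1 : ℝ) / 2 ≤ Real.log 2 := by have := Real.log_two_gt_d9; linarith
  have h5 : (1 : ℝ) ≤ (p : ℝ) ^ (0.03 : ℝ) := Real.one_le_rpow hp1 (by norm_num)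
  have h6 : Real.log p / Real.log 2 ≤ 2 * Real.log p := by
    rw [div_le_iff₀ (by linarith)]
    have : 0 ≤ Real.log p := Real.log_nonneg hp1
    nlinarith
  push_cast
  have h7 : (p : ℝ) ^ (0.03 : ℝ) / 0.03 ≤ 34 * (p : ℝ) ^ (0.03 : ℝ) := by
    rw [div_le_iff₀ (by norm_num)]
    nlinarith
  linarith

/-- The running time of the main program. -/
def mainT (K' σ m r p D : ℕ) : ℕ :=
  1000 * (K' + 1) * (p + 1) ^ 3 + (1000 * (p * ((p * p * p) * (p * p * p)) + 1) +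
        ((σ * ((3000 * (p * ((p * p * p) * (p * p * p)) + 1) + tn m r p) + 4) + 3) +
        ((p * (300 * (p + 1) + tn m r D) + 3) + 20)))

theorem mainT_bound {m r : ℕ} (hm : 2 ≤ m) (hr : 1 ≤ r) (h : r ^ 100 < m ^ 249) (K' S0 : ℕ) :
    ∃ C : ℝ, ∀ p : ℕ, 1 ≤ p →
      (mainT K' (S0 * (Nat.log 2 p + 1)) m r p ⌊(p : ℝ) ^ (0.87 : ℝ)⌋₊ : ℝ) ≤ C * (p : ℝ) ^ (7.5 : ℝ) := by
  obtain ⟨C3, hC3, htn⟩ := tn_bound hm hr h
  refine ⟨8000 * (K' + 1) + 2000 + (70 * S0 * (6004 + 256 * C3) + 3) + (600 + 256 * C3 + 3) + 20,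
    fun p hp => ?_⟩
  have hp1 : (1 : ℝ) ≤ p := by exact_mod_cast hp
  have hp0 : (0 : ℝ) < p := by linarith
  set x : ℝ := (p : ℝ) with hx
  set y : ℝ := x ^ (7.5 : ℝ) with hy
  have hy1 : 1 ≤ y := Real.one_le_rpow hp1 (by norm_num)
  have pw : ∀ e : ℝ, e ≤ 7.5 → x ^ e ≤ y := fun e he => Real.rpow_le_rpow_of_exponent_le hp1 he
  have pwn : ∀ k : ℕ, (k : ℝ) ≤ 7.5 → x ^ k ≤ y := fun k hk => by
    rw [← Real.rpow_natCast]; exact pw _ hk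
  have e3 : (x + 1) ^ 3 ≤ 8 * y := by
    have h1 : (x + 1) ^ 3 ≤ (2 * x) ^ 3 := pow_le_pow_left₀ (by linarith) (by linarith) 3
    have h2 := pwn 3 (by norm_num)
    have h3 : (2 * x) ^ 3 = 8 * x ^ 3 := by ring
    linarith
  have e7 : x * ((x * x * x) * (x * x * x)) = x ^ 7 := by ring
  have h7 := pwn 7 (by norm_num)
  have two : (2 : ℝ) ^ (7.47 : ℝ) ≤ 256 := by
    calc (2 : ℝ) ^ (7.47 : ℝ) ≤ 2 ^ (8 : ℝ) :=
          Real.rpow_le_rpow_of_exponent_le (by norm_num) (by norm_num)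
      _ = 256 := by norm_num
  have t1 : (tn m r p : ℝ) ≤ 256 * C3 * x ^ (7.47 : ℝ) := by
    refine (htn p).trans ?_
    have h1 : ((p : ℝ) + 1) ^ (7.47 : ℝ) ≤ (2 * x) ^ (7.47 : ℝ) :=
      Real.rpow_le_rpow (by positivity) (by linarith) (by norm_num)
    rw [Real.mul_rpow (by norm_num) hp0.le] at h1
    have h2 : (0 : ℝ) ≤ x ^ (7.47 : ℝ) := by positivity
    nlinarith [mul_le_mul_of_nonneg_right two h2]
  have hx87 : 1 ≤ x ^ (0.87 : ℝ) := Real.one_le_rpow hp1 (by norm_num)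
  have t2 : (tn m r ⌊x ^ (0.87 : ℝ)⌋₊ : ℝ) ≤ 256 * C3 * x ^ (6.5 : ℝ) := by
    refine (htn _).trans ?_
    have hfl : ((⌊x ^ (0.87 : ℝ)⌋₊ : ℕ) : ℝ) ≤ x ^ (0.87 : ℝ) := Nat.floor_le (by positivity)
    have h1 : (((⌊x ^ (0.87 : ℝ)⌋₊ : ℕ) : ℝ) + 1) ^ (7.47 : ℝ) ≤
        (2 * x ^ (0.87 : ℝ)) ^ (7.47 : ℝ) :=
      Real.rpow_le_rpow (by positivity) (by linarith) (by norm_num)
    rw [Real.mul_rpow (by norm_num) (by positivity), ← Real.rpow_mul hp0.le] at h1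
    have h2 : x ^ ((0.87 : ℝ) * 7.47) ≤ x ^ (6.5 : ℝ) :=
      Real.rpow_le_rpow_of_exponent_le hp1 (by norm_num)
    have h3 : (0 : ℝ) ≤ x ^ ((0.87 : ℝ) * 7.47) := by positivity
    have h4 : (2 : ℝ) ^ (7.47 : ℝ) * x ^ ((0.87 : ℝ) * 7.47) ≤ 256 * x ^ (6.5 : ℝ) :=
      mul_le_mul two h2 h3 (by norm_num)
    calc C3 * (((⌊x ^ (0.87 : ℝ)⌋₊ : ℕ) : ℝ) + 1) ^ (7.47 : ℝ) ≤ C3 * (256 * x ^ (6.5 : ℝ)) :=
          mul_le_mul_of_nonneg_left (h1.trans h4) hC3.le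
      _ = 256 * C3 * x ^ (6.5 : ℝ) := by ring
  have hlog := log_bound hp
  have u1 : x ^ (0.03 : ℝ) * x ^ (7.47 : ℝ) = y := by
    rw [← Real.rpow_add hp0, hy]; norm_num
  have u2 : x * x ^ (6.5 : ℝ) = y := by
    rw [hy]
    nth_rewrite 1 [← Real.rpow_one x]
    rw [← Real.rpow_add hp0]; norm_num
  have u3 : x ^ 7 ≤ x ^ (7.47 : ℝ) := by
    rw [← Real.rpow_natCast]; exact Real.rpow_le_rpow_of_exponent_le hp1 (by norm_num)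
  have u4 : 1 ≤ x ^ (7.47 : ℝ) := Real.one_le_rpow hp1 (by norm_num)
  have hS : (0 : ℝ) ≤ S0 := by positivity
  have a1 : (S0 : ℝ) * ((Nat.log 2 p + 1 : ℕ) : ℝ) *
      ((3000 * (x ^ 7 + 1) + tn m r p) + 4) ≤ 70 * S0 * (6004 + 256 * C3) * y := by
    have b1 : (3000 * (x ^ 7 + 1) + (tn m r p : ℝ)) + 4 ≤ (6004 + 256 * C3) * x ^ (7.47 : ℝ) := by
      nlinarith
    have b2 : (S0 : ℝ) * ((Nat.log 2 p + 1 : ℕ) : ℝ) ≤ S0 * (70 * x ^ (0.03 : ℝ)) :=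
      mul_le_mul_of_nonneg_left hlog hS
    have b3 : 0 ≤ (3000 * (x ^ 7 + 1) + (tn m r p : ℝ)) + 4 := by positivity
    calc (S0 : ℝ) * ((Nat.log 2 p + 1 : ℕ) : ℝ) * ((3000 * (x ^ 7 + 1) + tn m r p) + 4)
        ≤ S0 * (70 * x ^ (0.03 : ℝ)) * ((6004 + 256 * C3) * x ^ (7.47 : ℝ)) :=
          mul_le_mul b2 b1 b3 (by positivity)
      _ = 70 * S0 * (6004 + 256 * C3) * (x ^ (0.03 : ℝ) * x ^ (7.47 : ℝ)) := by ring
      _ = 70 * S0 * (6004 + 256 * C3) * y := by rw [u1]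
  have a2 : x * (tn m r ⌊x ^ (0.87 : ℝ)⌋₊ : ℝ) ≤ 256 * C3 * y := by
    calc x * (tn m r ⌊x ^ (0.87 : ℝ)⌋₊ : ℝ) ≤ x * (256 * C3 * x ^ (6.5 : ℝ)) :=
          mul_le_mul_of_nonneg_left t2 hp0.le
      _ = 256 * C3 * (x * x ^ (6.5 : ℝ)) := by ring
      _ = 256 * C3 * y := by rw [u2]
  have a3 : x * (300 * (x + 1)) ≤ 600 * y := by
    have := pwn 2 (by norm_num)
    nlinarith
  have a4 : (1000 : ℝ) * (K' + 1) * (x + 1) ^ 3 ≤ 8000 * (K' + 1) * y := by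
    have : (0 : ℝ) ≤ 1000 * (K' + 1) := by positivity
    nlinarith [mul_le_mul_of_nonneg_left e3 this]
  unfold mainT
  push_cast
  rw [e7]
  push_cast at a1
  have hexp : x * (300 * (x + 1) + (tn m r ⌊x ^ (0.87 : ℝ)⌋₊ : ℝ)) =
    x * (300 * (x + 1)) + x * (tn m r ⌊x ^ (0.87 : ℝ)⌋₊ : ℝ) := by ring
  rw [hexp]
  nlinarith

end Pool.Agent.H792_Clique
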