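import Pool.Agent.H588R2.Model

/-!
10-CLIQUE on a word RAM.
-/

set_option autoImplicit false

namespace Pool.Agent.H792_Clique

open Pool.Agent.H588R2

/-- Entry of the adjacency matrix of `G` in row `u` and column `v`. -/
noncomputable def bit {p : ℕ} (G : SimpleGraph (Fin p)) (u v : ℕ) : ℕ :=
  open Classical in
  if ∃ (hu : u < p) (hv : v < p), G.Adj ⟨u, hu⟩ ⟨v, hv⟩ then 1 else 0

/-- The machine receives the graph: register `0` holds the number `p` of vertices, memory cell
`u * p + v` holds the entry of the adjacency matrix in row `u` and column `v` (`u, v < p`), and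
all other registers and memory cells hold `0`. -/
noncomputable def inputConfig {p : ℕ} (G : SimpleGraph (Fin p)) : Config :=
  ⟨0, ⟨fun r => if r = 0 then p else 0, fun a => bit G (a / p) (a % p)⟩⟩

/-- `SolvesIn e cls`: there is an algorithm (a program of the word RAM) which solves 10-CLIQUE in
time `O(p ^ e)` on the graphs of the class `cls`; for every word length `w ≥ c (log p + 1)` it
halts after at most `C * p ^ e` steps, with output `1` in register `0` if the graph has a clique
on 10 vertices, and with output `0` otherwise. -/
def SolvesIn (e : ℝ) (cls : ∀ p : ℕ, SimpleGraph (Fin p) → Prop) : Prop :=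
  open Classical in
  ∃ (P : List Instr) (c : ℕ) (C : ℝ), ∀ (p w : ℕ) (G : SimpleGraph (Fin p)), 1 ≤ p →
    c * (Nat.log 2 p + 1) ≤ w → cls p G →
    HaltsWithin w P (inputConfig G) (C * (p : ℝ) ^ e) (if G.CliqueFree 10 then 0 else 1)

/-- The class of all graphs: `SolvesIn e allGraphs` says that 10-CLIQUE is solvable in time
`O(p ^ e)`. -/
def allGraphs : ∀ p : ℕ, SimpleGraph (Fin p) → Prop := fun _ _ => True

/-- The number of neighbours of `v`. -/
noncomputable def dgr {p : ℕ} (G : SimpleGraph (Fin p)) (v : Fin p) : ℕ :=
  open Classical in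
  (Finset.univ.filter fun u => G.Adj v u).card

/-- The number of common neighbours of the vertices in `J`. -/
noncomputable def cnb {p : ℕ} (G : SimpleGraph (Fin p)) (J : Finset (Fin p)) : ℕ :=
  open Classical in
  (Finset.univ.filter fun u => ∀ x ∈ J, G.Adj u x).card

end Pool.Agent.H792_Clique
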