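import Pool.Agent.H792_Clique.Heavy
import Pool.Agent.H792_Clique.CodAlg

/-!
Vertex degrees.
-/

set_option autoImplicit false
set_option linter.unusedSimpArgs false
set_option linter.unusedVariables false

namespace Pool.Agent.H792_Clique

/-! ### the algorithm -/

lemma cnb_single {p : ℕ} (G : SimpleGraph (Fin p)) (v : Fin p) : cnb G {v} = dgr G v := by
  classical
  unfold cnb dgr
  congr 1
  ext u
  simp only [Finset.mem_filter, Finset.mem_univ, true_and, Finset.mem_singleton, forall_eq]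
  exact G.adj_comm u v

lemma pf_one (x : ℕ) : pf (fun i => if i = 1 then 1 else 0) x = x := by
  unfold pf
  simp [Finset.sum_range_succ]

theorem deg_easy {a : ℝ} (ha : 4 / 5 < a) : SolvesIn 7.5 (fun p G =>
    ∀ v : Fin p, a * p ≤ dgr G v ∨ (dgr G v : ℝ) ≤ (p : ℝ) ^ (0.87 : ℝ)) := by
  classical
  obtain ⟨r, hr1, hr2⟩ := exists_rat_btwn ha
  have hr0 : (0 : ℝ) < r := by linarith
  have hrQ : 0 < r := by exact_mod_cast hr0
  set A := r.den with hA
  set B := r.num.toNat with hB
  have hA0 : (0 : ℝ) < A := by exact_mod_cast r.den_pos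
  have hr : (r : ℝ) = B / A := by
    have h1 : (r : ℝ) = (r.num : ℝ) / (r.den : ℝ) := by exact_mod_cast (Rat.num_div_den r).symm
    have h2 : ((B : ℕ) : ℝ) = (r.num : ℝ) := by
      have h3 : ((r.num.toNat : ℕ) : ℤ) = r.num := Int.toNat_of_nonneg (Rat.num_nonneg.2 hrQ.le)
      rw [hB]
      exact_mod_cast h3
    rw [h1, h2]
  have hε : 0 < 10 * (r : ℝ) - 8 := by linarith
  refine (main_alg A B (ε := 10 * (r : ℝ) - 8) (M0 := 8) (c := fun i => if i = 1 then 1 else 0) hε
    ?_).mono ?_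
  · intro x hx
    rw [pf_one]
    exact_mod_cast hx
  intro p G hp hG
  have hp0 : (0 : ℝ) < p := by exact_mod_cast hp
  have hlow : ∀ v, A * dgr G v < B * p ↔ (dgr G v : ℝ) < r * p := by
    intro v
    rw [hr, div_mul_eq_mul_div, lt_div_iff₀ hA0]
    constructor
    · intro h
      have : ((A * dgr G v : ℕ) : ℝ) < ((B * p : ℕ) : ℝ) := by exact_mod_cast h
      push_cast at this
      linarith
    · intro h
      have : ((A * dgr G v : ℕ) : ℝ) < ((B * p : ℕ) : ℝ) := by
        push_cast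
        linarith
      exact_mod_cast this
  refine ⟨?_, ?_⟩
  · intro v hv
    rw [hlow] at hv
    rcases hG v with h | h
    · exfalso
      have : (r : ℝ) * p < a * p := mul_lt_mul_of_pos_right hr2 hp0
      linarith
    · exact h
  · intro hfree
    unfold SimpleGraph.CliqueFree at hfree
    push Not at hfree
    obtain ⟨Q, hQ⟩ := hfree
    refine ⟨Q, hQ, ?_⟩
    by_cases hc : ∃ v ∈ Q, A * dgr G v < B * p
    · exact Or.inl hc
    · right
      push Not at hc
      have h1 : ∀ v ∈ Q, (r : ℝ) * p ≤ dgr G v := by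
        intro v hv
        by_contra h
        push Not at h
        exact absurd ((hlow v).2 h) (not_lt.2 (hc v hv))
      have h2 : ∑ v ∈ Q, ((r : ℝ) * p) ≤ ∑ v ∈ Q, (dgr G v : ℝ) := Finset.sum_le_sum h1
      rw [Finset.sum_const, hQ.2, nsmul_eq_mul] at h2
      have h3 : ∑ i ∈ Finset.range 7, (if i = 1 then (1 : ℝ) else 0) *
          ∑ J ∈ Q.powersetCard i, (cnb G J : ℝ) = ∑ v ∈ Q, (dgr G v : ℝ) := by
        rw [Finset.sum_eq_single 1]
        · rw [if_pos rfl, one_mul, Finset.powersetCard_one, Finset.sum_map]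
          refine Finset.sum_congr rfl fun v _ => ?_
          simp only [Function.Embedding.coeFn_mk]
          rw [cnb_single]
        · intro i _ hi
          rw [if_neg hi, zero_mul]
        · intro h; simp at h
      rw [h3]
      push_cast at h2
      linarith

/-! ### degrees in the graphs with heavy blocks -/

section

variable {ι : Type} [Fintype ι] (τ : ι → Finset (Fin 10)) (R : ι → ι → Prop)

/-- Adjacency to the heavy blocks. -/
def nodeAdj (a : Fin 10 ⊕ ι) (j : ι) : Prop := a.elim (fun k => k ∈ τ j) (fun i => R i j)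

open Classical in
lemma dgr_heavy {hs : ∀ i j, R i j → R j i} {h0 : ∀ i, ¬ R i i} {p m : ℕ}
    {G : SimpleGraph (Fin p)} {B : SimpleGraph (Fin m)} (φ : heavy τ R hs h0 G ≃g B)
    (z : (Fin 10 ⊕ ι) × Fin p) :
    (Finset.univ.filter (fun j => nodeAdj τ R z.1 j)).card * p ≤ dgr B (φ z) ∧
    dgr B (φ z) ≤ (Finset.univ.filter (fun j => nodeAdj τ R z.1 j)).card * p + 10 * p := by
  set H : Finset ι := Finset.univ.filter (fun j => nodeAdj τ R z.1 j) with hH
  set FH : Finset (Fin m) := (H ×ˢ (Finset.univ : Finset (Fin p))).image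
    fun z => φ (Sum.inr z.1, z.2) with hFH
  set FA : Finset (Fin m) := ((Finset.univ : Finset (Fin 10)) ×ˢ (Finset.univ : Finset (Fin p))).image
    fun z => φ (Sum.inl z.1, z.2) with hFA
  have c1 : FH.card = H.card * p := by
    rw [hFH, Finset.card_image_of_injective, Finset.card_product, Finset.card_univ,
      Fintype.card_fin]
    rintro ⟨a, b⟩ ⟨a', b'⟩ e
    have := φ.injective e
    simpa using this
  have c2 : FA.card ≤ 10 * p := by
    refine Finset.card_image_le.trans ?_
    rw [Finset.card_product, Finset.card_univ, Finset.card_univ, Fintype.card_fin, Fintype.card_fin]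
  have hadj : ∀ (j : ι) (v : Fin p), (heavy τ R hs h0 G).Adj z (Sum.inr j, v) ↔ nodeAdj τ R z.1 j := by
    intro j v
    obtain ⟨a | i, u⟩ := z
    · exact Iff.rfl
    · exact Iff.rfl
  unfold dgr
  constructor
  · rw [← c1]
    apply Finset.card_le_card
    intro w hw
    rw [hFH, Finset.mem_image] at hw
    obtain ⟨⟨j, v⟩, hj, rfl⟩ := hw
    rw [Finset.mem_product, hH, Finset.mem_filter] at hj
    rw [Finset.mem_filter]
    refine ⟨Finset.mem_univ _, ?_⟩
    rw [φ.map_adj_iff, hadj]
    exact hj.1.2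
  · rw [← c1]
    refine le_trans ?_ (Nat.add_le_add_left c2 _)
    refine le_trans (Finset.card_le_card ?_) (Finset.card_union_le _ _)
    intro w hw
    rw [Finset.mem_filter] at hw
    have hw' : w = φ (φ.symm w) := (φ.apply_symm_apply w).symm
    rw [Finset.mem_union]
    rcases hw2 : φ.symm w with ⟨β | j, v⟩
    · right
      rw [hFA, Finset.mem_image]
      exact ⟨(β, v), by simp, by rw [hw', hw2]⟩
    · left
      rw [hFH, Finset.mem_image]
      refine ⟨(j, v), ?_, by rw [hw', hw2]⟩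
      rw [Finset.mem_product, hH, Finset.mem_filter]
      refine ⟨⟨Finset.mem_univ _, ?_⟩, Finset.mem_univ _⟩
      have h1 := hw.2
      rw [hw', φ.map_adj_iff, hw2, hadj] at h1
      exact h1

end

/-! ### hard graphs -/

/-- Class of a colour. -/
def cl (i : Fin 10) : ℕ := ((i + 1 : Fin 10) : ℕ) / 2

/-- Adjacent copies. -/
def τd (g h N : ℕ) (j : Fin 10 × Fin (g + 1) × Fin N) : Finset (Fin 10) :=
  if (j.2.1 : ℕ) < h then Finset.univ.filter (fun k => k ≠ j.1 ∧ k + 1 ≠ j.1) else ∅

/-- Adjacent heavy blocks. -/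
def Rd (g h N : ℕ) (i j : Fin 10 × Fin (g + 1) × Fin N) : Prop :=
  cl i.1 ≠ cl j.1 ∧ ((i.1 < j.1 ∧ ((j.2.1 - i.2.1 : Fin (g + 1)) : ℕ) < h) ∨
    (j.1 < i.1 ∧ ((i.2.1 - j.2.1 : Fin (g + 1)) : ℕ) < h))

lemma Rd_symm {g h N : ℕ} (i j : Fin 10 × Fin (g + 1) × Fin N) (H : Rd g h N i j) : Rd g h N j i :=
  ⟨H.1.symm, H.2.symm⟩

lemma Rd_irrefl {g h N : ℕ} (i : Fin 10 × Fin (g + 1) × Fin N) : ¬ Rd g h N i i :=
  fun H => H.1 rfl

lemma reach (i y : Fin 10) : ∃ n : Fin 10, (fun x : Fin 10 => x - 1)^[(n : ℕ)] i = y := by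
  revert i y
  decide

lemma Rd_clique {g h N : ℕ} (I : Finset (Fin 10 × Fin (g + 1) × Fin N)) (S : Finset (Fin 10))
    (hI : I.Nonempty) (hR : ∀ i ∈ I, ∀ j ∈ I, i ≠ j → Rd g h N i j)
    (hS : ∀ i ∈ I, S ⊆ τd g h N i) : S.card + I.card ≤ 9 := by
  classical
  have hinj : Set.InjOn (fun j : Fin 10 × Fin (g + 1) × Fin N => j.1) I := by
    intro i hi j hj e
    by_contra hne
    exact (hR i hi j hj hne).1 (congrArg cl e)
  set M := I.image (fun j : Fin 10 × Fin (g + 1) × Fin N => j.1) with hM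
  have hMc : M.card = I.card := Finset.card_image_of_injOn hinj
  have hcl : ∀ a ∈ M, ∀ b ∈ M, a ≠ b → cl a ≠ cl b := by
    intro a ha b hb hab
    obtain ⟨i, hi, rfl⟩ := Finset.mem_image.1 ha
    obtain ⟨j, hj, rfl⟩ := Finset.mem_image.1 hb
    exact (hR i hi j hj (fun e => hab (by rw [e]))).1
  have hτ : ∀ i ∈ I, ∀ k ∈ S, k ≠ i.1 ∧ k + 1 ≠ i.1 := by
    intro i hi k hk
    have h1 := hS i hi hk
    unfold τd at h1
    split_ifs at h1
    · rw [Finset.mem_filter] at h1; exact h1.2
    · simp at h1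
  obtain ⟨x, hx1, hx2⟩ : ∃ x : Fin 10, x ∉ M ∧ x + 1 ∈ M := by
    by_contra hcon
    push Not at hcon
    have hcl' : ∀ x : Fin 10, x + 1 ∈ M → x ∈ M := by
      intro x hx
      by_contra h
      exact hcon x h hx
    obtain ⟨i0, hi0⟩ := hI
    have h0 : i0.1 ∈ M := Finset.mem_image_of_mem _ hi0
    have hall : ∀ n : ℕ, (fun x : Fin 10 => x - 1)^[n] i0.1 ∈ M := by
      intro n
      induction n with
      | zero => exact h0
      | succ n ih =>
        apply hcl'
        rw [Function.iterate_succ_apply']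
        simpa using ih
    have h1 : (0 : Fin 10) ∈ M := by
      obtain ⟨n, hn⟩ := reach i0.1 0
      rw [← hn]; exact hall n
    have h2 : (9 : Fin 10) ∈ M := by
      obtain ⟨n, hn⟩ := reach i0.1 9
      rw [← hn]; exact hall n
    exact hcl 0 h1 9 h2 (by decide) (by decide)
  have d1 : Disjoint S M := by
    rw [Finset.disjoint_left]
    intro k hk hkM
    obtain ⟨i, hi, rfl⟩ := Finset.mem_image.1 hkM
    exact (hτ i hi _ hk).1 rfl
  have d2 : x ∉ S ∪ M := by
    rw [Finset.mem_union]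
    rintro (h | h)
    · obtain ⟨i, hi, e⟩ := Finset.mem_image.1 hx2
      exact (hτ i hi x h).2 e.symm
    · exact hx1 h
  have h3 : (insert x (S ∪ M)).card ≤ 10 := by
    have := Finset.card_le_univ (insert x (S ∪ M))
    simpa using this
  rw [Finset.card_insert_of_notMem d2, Finset.card_union_of_disjoint d1, hMc] at h3
  omega

end Pool.Agent.H792_Clique
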