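import Pool.Agent.H792_Clique.Defs

/-!
Balanced 10-partite graphs.
-/

set_option autoImplicit false

namespace Pool.Agent.H792_Clique

/-- A proper colouring with ten colours and colour classes of the same size. -/
def Balanced {p : ℕ} (G : SimpleGraph (Fin p)) : Prop :=
  ∃ χ : G.Coloring (Fin 10), ∀ c : Fin 10, 10 * (Finset.univ.filter fun v => χ v = c).card = p

end Pool.Agent.H792_Clique
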