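import Pool.Agent.H792_Clique.Deg
import Pool.Agent.H792_Clique.DegDefs

/-!
Vertex degrees: hard graphs.
-/

set_option autoImplicit false
set_option linter.unusedSimpArgs false
set_option linter.unusedVariables false

namespace Pool.Agent.H792_Clique

lemma card_lt {g h : ℕ} (hh : h ≤ g + 1) :
    (Finset.univ.filter (fun y : Fin (g + 1) => (y : ℕ) < h)).card = h := by
  rw [Fin.card_filter_val_lt]
  omega

lemma card_sub {g h : ℕ} (hh : h ≤ g + 1) (x0 : Fin (g + 1)) :
    (Finset.univ.filter (fun x : Fin (g + 1) => ((x - x0 : Fin (g + 1)) : ℕ) < h)).card = h :=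
  (Finset.card_equiv (Equiv.subRight x0) (by simp)).trans (card_lt hh)

lemma card_sub' {g h : ℕ} (hh : h ≤ g + 1) (x0 : Fin (g + 1)) :
    (Finset.univ.filter (fun x : Fin (g + 1) => ((x0 - x : Fin (g + 1)) : ℕ) < h)).card = h :=
  (Finset.card_equiv (Equiv.subLeft x0) (by simp)).trans (card_lt hh)

open Classical in
lemma card_copy {g h N : ℕ} (hh : h ≤ g + 1) (k : Fin 10) :
    (Finset.univ.filter (fun j : Fin 10 × Fin (g + 1) × Fin N => k ∈ τd g h N j)).card =
      8 * (h * N) := by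
  have h1 : (Finset.univ.filter (fun j : Fin 10 × Fin (g + 1) × Fin N => k ∈ τd g h N j)) =
      (Finset.univ.filter (fun i : Fin 10 => k ≠ i ∧ k + 1 ≠ i)) ×ˢ
        ((Finset.univ.filter (fun y : Fin (g + 1) => (y : ℕ) < h)) ×ˢ Finset.univ) := by
    ext ⟨i, x, y⟩
    simp only [Finset.mem_filter, Finset.mem_univ, true_and, Finset.mem_product, and_true, τd]
    by_cases hx : (x : ℕ) < h
    · simp [hx]
    · simp [hx]
  have h2 : ∀ k : Fin 10, (Finset.univ.filter (fun i : Fin 10 => k ≠ i ∧ k + 1 ≠ i)).card = 8 := by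
    decide
  rw [h1, Finset.card_product, Finset.card_product, card_lt hh, Finset.card_univ, Fintype.card_fin]
  congr 1
  convert h2 k

open Classical in
lemma card_node {g h N : ℕ} (hh : h ≤ g + 1) (i : Fin 10 × Fin (g + 1) × Fin N) :
    (Finset.univ.filter (fun j : Fin 10 × Fin (g + 1) × Fin N => Rd g h N i j)).card =
      8 * (h * N) := by
  obtain ⟨a, x0, y0⟩ := i
  rw [Finset.card_filter, Fintype.sum_prod_type]
  have h1 : ∀ b : Fin 10, ∑ z : Fin (g + 1) × Fin N,
      (if Rd g h N (a, x0, y0) (b, z) then 1 else 0) = if cl a ≠ cl b then h * N else 0 := by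
    intro b
    by_cases hab : cl a ≠ cl b
    · rw [if_pos hab, ← Finset.card_filter]
      rcases lt_trichotomy a b with hlt | heq | hgt
      · have h2 : (Finset.univ.filter (fun z : Fin (g + 1) × Fin N => Rd g h N (a, x0, y0) (b, z))) =
            (Finset.univ.filter (fun x : Fin (g + 1) => ((x - x0 : Fin (g + 1)) : ℕ) < h)) ×ˢ
              Finset.univ := by
          ext ⟨x, y⟩
          simp only [Finset.mem_filter, Finset.mem_univ, true_and, Finset.mem_product, and_true, Rd]
          constructor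
          · rintro ⟨_, h | h⟩
            · exact h.2
            · exact absurd h.1 (not_lt.2 hlt.le)
          · intro h
            exact ⟨hab, Or.inl ⟨hlt, h⟩⟩
        rw [h2, Finset.card_product, card_sub hh, Finset.card_univ, Fintype.card_fin]
      · exact absurd (congrArg cl heq) hab
      · have h2 : (Finset.univ.filter (fun z : Fin (g + 1) × Fin N => Rd g h N (a, x0, y0) (b, z))) =
            (Finset.univ.filter (fun x : Fin (g + 1) => ((x0 - x : Fin (g + 1)) : ℕ) < h)) ×ˢ
              Finset.univ := by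
          ext ⟨x, y⟩
          simp only [Finset.mem_filter, Finset.mem_univ, true_and, Finset.mem_product, and_true, Rd]
          constructor
          · rintro ⟨_, h | h⟩
            · exact absurd h.1 (not_lt.2 hgt.le)
            · exact h.2
          · intro h
            exact ⟨hab, Or.inr ⟨hgt, h⟩⟩
        rw [h2, Finset.card_product, card_sub' hh, Finset.card_univ, Fintype.card_fin]
    · rw [if_neg hab]
      apply Finset.sum_eq_zero
      intro z _
      rw [if_neg]
      intro h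
      exact hab h.1
  rw [Finset.sum_congr rfl fun b _ => h1 b, ← Finset.sum_filter, Finset.sum_const, smul_eq_mul]
  congr 1
  have h2 : ∀ a : Fin 10, (Finset.univ.filter (fun i : Fin 10 => cl a ≠ cl i)).card = 8 := by
    decide
  convert h2 a

/-- Colour of a node. -/
def colN {g N : ℕ} (a : Fin 10 ⊕ (Fin 10 × Fin (g + 1) × Fin N)) : Fin 10 :=
  a.elim id (fun j => j.1)

lemma col_card (g N p : ℕ) (c : Fin 10) :
    (Finset.univ.filter fun z : (Fin 10 ⊕ (Fin 10 × Fin (g + 1) × Fin N)) × Fin p =>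
      colN z.1 = c).card = (1 + (g + 1) * N) * p := by
  have h1 : (Finset.univ.filter fun z : (Fin 10 ⊕ (Fin 10 × Fin (g + 1) × Fin N)) × Fin p =>
      colN z.1 = c) =
      (Finset.univ.filter fun a : Fin 10 ⊕ (Fin 10 × Fin (g + 1) × Fin N) => colN a = c) ×ˢ
        Finset.univ := by
    ext ⟨a, u⟩
    simp
  have h2 : (Finset.univ.filter fun a : Fin 10 ⊕ (Fin 10 × Fin (g + 1) × Fin N) => colN a = c) =
      (({c} : Finset (Fin 10)).disjSum (({c} : Finset (Fin 10)) ×ˢ
        (Finset.univ : Finset (Fin (g + 1) × Fin N)))) := by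
    ext a
    rcases a with k | ⟨i, x, y⟩
    · simp [colN]
    · simp [colN, eq_comm]
  rw [h1, h2, Finset.card_product, Finset.card_disjSum, Finset.card_product]
  simp [Fintype.card_prod]

lemma colN_ne {g h N p : ℕ} {G : SimpleGraph (Fin p)}
    {z w : (Fin 10 ⊕ (Fin 10 × Fin (g + 1) × Fin N)) × Fin p}
    (H : (heavy (τd g h N) (Rd g h N) Rd_symm Rd_irrefl G).Adj z w) : colN z.1 ≠ colN w.1 := by
  obtain ⟨k | i, u⟩ := z <;> obtain ⟨l | j, u'⟩ := w
  · exact H.1
  · have h1 : k ∈ τd g h N j := H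
    unfold τd at h1
    split_ifs at h1
    · rw [Finset.mem_filter] at h1; exact h1.2.1
    · simp at h1
  · have h1 : l ∈ τd g h N i := H
    unfold τd at h1
    split_ifs at h1
    · rw [Finset.mem_filter] at h1; exact fun e => h1.2.1 e.symm
    · simp at h1
  · have h1 : Rd g h N i j := H
    intro e
    exact h1.1 (congrArg cl e)

theorem deg_hard {e : ℝ} (he : 2 ≤ e) {a b : ℝ} (ha : 0 ≤ a) (hab : a < b) (ha' : a < 4 / 5)
    {cls : ∀ p : ℕ, SimpleGraph (Fin p) → Prop}
    (hcls : ∀ (p : ℕ) (G : SimpleGraph (Fin p)), Balanced G →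
      (∀ v, a * p ≤ dgr G v ∧ (dgr G v : ℝ) ≤ b * p) → cls p G)
    (h : SolvesIn e cls) : SolvesIn e allGraphs := by
  classical
  obtain ⟨q, hq1, hq2⟩ := exists_rat_btwn (show 5 * a / 4 < min (5 * b / 4) 1 by
    rw [lt_min_iff]; constructor <;> linarith)
  rw [lt_min_iff] at hq2
  have hq0 : (0 : ℝ) < q := by linarith
  have hqQ : 0 < q := by exact_mod_cast hq0
  obtain ⟨g, hg⟩ : ∃ g, q.den = g + 1 := ⟨q.den - 1, by have := q.den_pos; omega⟩
  set h' := q.num.toNat with hh'
  have hg0 : (0 : ℝ) < ((g + 1 : ℕ) : ℝ) := by positivity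
  have hr : (q : ℝ) = h' / ((g + 1 : ℕ) : ℝ) := by
    have h1 : (q : ℝ) = (q.num : ℝ) / (q.den : ℝ) := by exact_mod_cast (Rat.num_div_den q).symm
    have h2 : ((h' : ℕ) : ℝ) = (q.num : ℝ) := by
      have h3 : ((q.num.toNat : ℕ) : ℤ) = q.num := Int.toNat_of_nonneg (Rat.num_nonneg.2 hqQ.le)
      rw [hh']
      exact_mod_cast h3
    rw [h1, h2, hg]
  rw [hr] at hq1 hq2
  obtain ⟨hq2, hq3⟩ := hq2
  rw [lt_div_iff₀ hg0] at hq1
  rw [div_lt_iff₀ hg0] at hq2
  rw [div_lt_one hg0] at hq3
  have hh : h' ≤ g + 1 := by exact_mod_cast hq3.le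
  push_cast at hq1 hq2
  have k1 : 0 < 8 * (h' : ℝ) - 10 * a * (g + 1) := by linarith
  have k2 : 0 < 10 * b * (g + 1) - 8 * (h' : ℝ) := by linarith
  obtain ⟨N, hN⟩ := exists_nat_ge (max (10 * a / (8 * (h' : ℝ) - 10 * a * (g + 1)))
    ((10 - 10 * b) / (10 * b * (g + 1) - 8 * (h' : ℝ))))
  have hN1 : 10 * a ≤ N * (8 * (h' : ℝ) - 10 * a * (g + 1)) := by
    have := le_trans (le_max_left _ _) hN
    rwa [div_le_iff₀ k1] at this
  have hN2 : 10 - 10 * b ≤ N * (10 * b * (g + 1) - 8 * (h' : ℝ)) := by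
    have := le_trans (le_max_right _ _) hN
    rwa [div_le_iff₀ k2] at this
  have hcard : Fintype.card (Fin 10 × Fin (g + 1) × Fin N) = 10 * ((g + 1) * N) := by
    simp [Fintype.card_prod]
  refine reduce_heavy (τd g h' N) (Rd g h' N) he Rd_symm Rd_irrefl Rd_clique ?_ h
  intro p G B hp φ
  have hp0 : (0 : ℝ) < p := by exact_mod_cast hp
  apply hcls
  · -- the colouring
    have hval : ∀ {v w}, B.Adj v w → colN (φ.symm v).1 ≠ colN (φ.symm w).1 := fun {v w} hvw =>
      colN_ne (φ.symm.map_adj_iff.2 hvw)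
    refine ⟨SimpleGraph.Coloring.mk (fun v => colN (φ.symm v).1) hval, ?_⟩
    intro c
    have h1 : (Finset.univ.filter fun v : Fin ((10 + Fintype.card (Fin 10 × Fin (g + 1) × Fin N)) * p) =>
        colN (φ.symm v).1 = c).card = (Finset.univ.filter fun z : (Fin 10 ⊕
          (Fin 10 × Fin (g + 1) × Fin N)) × Fin p => colN z.1 = c).card :=
      Finset.card_equiv φ.symm.toEquiv (by
        intro v
        simp only [Finset.mem_filter, Finset.mem_univ, true_and]
        exact Iff.rfl)
    have h2 := col_card g N p c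
    have h3 : 10 * (Finset.univ.filter fun v : Fin ((10 + Fintype.card (Fin 10 × Fin (g + 1) × Fin N)) * p) =>
        colN (φ.symm v).1 = c).card = (10 + Fintype.card (Fin 10 × Fin (g + 1) × Fin N)) * p := by
      rw [h1, h2, hcard]
      ring
    exact h3
  · -- the degrees
    intro v
    obtain ⟨z, rfl⟩ : ∃ z, v = φ z := ⟨φ.symm v, (φ.apply_symm_apply v).symm⟩
    obtain ⟨d1, d2⟩ := dgr_heavy (τd g h' N) (Rd g h' N) φ z
    have hc : (Finset.univ.filter (fun j => nodeAdj (τd g h' N) (Rd g h' N) z.1 j)).card =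
        8 * (h' * N) := by
      obtain ⟨k | i, u⟩ := z
      · have h5 := card_copy (N := N) hh k
        convert h5
        exact Iff.rfl
      · have h5 := card_node (N := N) hh i
        convert h5
        exact Iff.rfl
    rw [hc] at d1 d2
    have e1 : ((8 * (h' * N) * p : ℕ) : ℝ) ≤ dgr B (φ z) := by exact_mod_cast d1
    have e2 : (dgr B (φ z) : ℝ) ≤ ((8 * (h' * N) * p + 10 * p : ℕ) : ℝ) := by exact_mod_cast d2
    have e3 : (((10 + Fintype.card (Fin 10 × Fin (g + 1) × Fin N)) * p : ℕ) : ℝ) =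
        (10 + 10 * ((g + 1) * N)) * p := by
      rw [hcard]; push_cast; ring
    rw [e3]
    push_cast at e1 e2
    have f1 := mul_le_mul_of_nonneg_right hN1 hp0.le
    have f2 := mul_le_mul_of_nonneg_right hN2 hp0.le
    constructor
    · refine le_trans ?_ e1
      linarith
    · refine le_trans e2 ?_
      linarith

/-- Degrees in an interval. -/
theorem deg_dichotomy {a b : ℝ} (ha : 0 ≤ a) (hab : a < b) (ha' : a ≠ 4 / 5)
    {cls : ∀ p : ℕ, SimpleGraph (Fin p) → Prop}
    (h1 : ∀ (p : ℕ) (G : SimpleGraph (Fin p)), Balanced G →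
      (∀ v, a * p ≤ dgr G v ∧ (dgr G v : ℝ) ≤ b * p) → cls p G)
    (h2 : ∀ (p : ℕ) (G : SimpleGraph (Fin p)), cls p G →
      ∀ v, a * p ≤ dgr G v ∨ (dgr G v : ℝ) ≤ (p : ℝ) ^ (0.87 : ℝ)) :
    SolvesIn 7.5 cls ↔ (4 / 5 < a ∨ SolvesIn 7.5 allGraphs) := by
  constructor
  · intro h
    rcases lt_or_gt_of_ne ha' with hlt | hgt
    · exact Or.inr (deg_hard (by norm_num) ha hab hlt h1 h)
    · exact Or.inl hgt
  · rintro (hgt | h)
    · exact (deg_easy hgt).mono fun p G _ hG => h2 p G hG
    · exact h.mono fun p G _ _ => trivial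

end Pool.Agent.H792_Clique
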