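import Pool.Agent.H792_Clique.Strassen

/-!
The exponent of matrix multiplication over the integers is less than `2.49`.
-/

set_option autoImplicit false

namespace Pool.Agent.H792_Clique

open Finset Filter Topology

theorem BRk.comp {α β γ α' β' γ' : Type*} {T : α → β → γ → ℤ} {r : ℕ} (h : BRk T r) (f : α' → α)
    (g : β' → β) (k : γ' → γ) : BRk (fun a b c => T (f a) (g b) (k c)) r := by
  obtain ⟨e, u, v, w, h⟩ := h
  exact ⟨e, fun l a => u l (f a), fun l b => v l (g b), fun l c => w l (k c),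
    fun a b c => h _ _ _⟩

theorem BRk.DSM_inj {S I S' I' : Type*} [DecidableEq S] [DecidableEq I] [DecidableEq S']
    [DecidableEq I'] {r : ℕ} (h : BRk (DSM S I) r) {f : S' → S} {g : I' → I}
    (hf : Function.Injective f) (hg : Function.Injective g) : BRk (DSM S' I') r := by
  have h2 := h.comp (fun x : S' × I' × I' => (f x.1, g x.2.1, g x.2.2))
    (fun x : S' × I' × I' => (f x.1, g x.2.1, g x.2.2))
    (fun x : S' × I' × I' => (f x.1, g x.2.1, g x.2.2))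
  have : (fun a b c => DSM S I (f a.1, g a.2.1, g a.2.2) (f b.1, g b.2.1, g b.2.2)
      (f c.1, g c.2.1, g c.2.2)) = DSM S' I' := by
    funext x y z
    simp [DSM, hf.eq_iff, hg.eq_iff]
  rwa [this] at h2

lemma growth {x y : ℝ} (hx : 0 ≤ x) (hxy : x < y) (hy : 1 < y) (h : ℕ) :
    ∃ N : ℕ, 1 ≤ N ∧ x ^ N * ((N : ℝ) * h + 1) ^ 2 + 1 < y ^ N := by
  have hy0 : 0 < y := by linarith
  have hq0 : 0 ≤ x / y := div_nonneg hx hy0.le
  have hq : |x / y| < 1 := by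
    rw [abs_of_nonneg hq0, div_lt_one hy0]; exact hxy
  have t1 := (tendsto_pow_const_mul_const_pow_of_abs_lt_one 2 hq).const_mul (((h : ℝ) + 1) ^ 2)
  have hz : |1 / y| < 1 := by
    rw [abs_of_nonneg (by positivity), div_lt_one hy0]; exact hy
  have t2 := tendsto_pow_const_mul_const_pow_of_abs_lt_one 0 hz
  rw [mul_zero] at t1
  obtain ⟨N, ⟨hN1, hN3⟩, hN2⟩ := ((((t1.eventually (gt_mem_nhds (show (0 : ℝ) < 1 / 2 by norm_num))).and
    (t2.eventually (gt_mem_nhds (show (0 : ℝ) < 1 / 2 by norm_num))))).and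
    (eventually_ge_atTop 1)).exists
  refine ⟨N, hN2, ?_⟩
  have hyN : 0 < y ^ N := pow_pos hy0 N
  have hN1' : (1 : ℝ) ≤ N := by exact_mod_cast hN2
  have h2 : ((N : ℝ) * h + 1) ^ 2 ≤ (((h : ℝ) + 1) * N) ^ 2 := by
    apply pow_le_pow_left₀ (by positivity)
    nlinarith
  have h3 : x ^ N * ((N : ℝ) * h + 1) ^ 2 < 1 / 2 * y ^ N := by
    calc x ^ N * ((N : ℝ) * h + 1) ^ 2 ≤ x ^ N * (((h : ℝ) + 1) * N) ^ 2 :=
          mul_le_mul_of_nonneg_left h2 (pow_nonneg hx N)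
      _ = (((h : ℝ) + 1) ^ 2 * ((N : ℝ) ^ 2 * (x / y) ^ N)) * y ^ N := by
          rw [div_pow]; field_simp
      _ < 1 / 2 * y ^ N := mul_lt_mul_of_pos_right hN1 hyN
  have h4 : (1 : ℝ) < 1 / 2 * y ^ N := by
    have : (1 : ℝ) = ((N : ℝ) ^ 0 * (1 / y) ^ N) * y ^ N := by
      rw [div_pow]; field_simp; simp
    calc (1 : ℝ) = ((N : ℝ) ^ 0 * (1 / y) ^ N) * y ^ N := this
      _ < 1 / 2 * y ^ N := mul_lt_mul_of_pos_right hN3 hyN
  linarith

lemma growth2 {a y s : ℝ} (ha : 0 ≤ a) (hay : a < y) (hs : 0 < s) :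
    ∃ N : ℕ, 1 ≤ N ∧ a ^ N * s < y ^ N := by
  have hy0 : 0 < y := lt_of_le_of_lt ha hay
  have hq0 : 0 ≤ a / y := div_nonneg ha hy0.le
  have hq : a / y < 1 := by rw [div_lt_one hy0]; exact hay
  have t1 := tendsto_pow_atTop_nhds_zero_of_lt_one hq0 hq
  obtain ⟨N, hN1, hN2⟩ := ((t1.eventually (gt_mem_nhds (show (0 : ℝ) < 1 / s by positivity))).and
    (eventually_ge_atTop 1)).exists
  refine ⟨N, hN2, ?_⟩
  have hyN : 0 < y ^ N := pow_pos hy0 N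
  rw [div_pow, div_lt_iff₀ hyN] at hN1
  have h2 : a ^ N * s < 1 / s * y ^ N * s := mul_lt_mul_of_pos_right hN1 hs
  calc a ^ N * s < 1 / s * y ^ N * s := h2
    _ = y ^ N := by field_simp

/-- From a direct sum of small border rank to a fast algorithm. -/
theorem exists_of_DSM {s Q r : ℕ} (hs : 1 ≤ s) (hQ : 2 ≤ Q) (H : BRk (DSM (Fin s) (Fin Q)) r)
    (hr : r ^ 100 < s ^ 100 * Q ^ 249) :
    ∃ m R : ℕ, 2 ≤ m ∧ R ^ 100 < m ^ 249 ∧ Rk (DSM Unit (Fin m)) R := by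
  obtain ⟨h, hh⟩ := H.DSM_pows
  have hs0 : (0 : ℝ) < s := by exact_mod_cast hs
  have hQ0 : (0 : ℝ) < Q := by positivity
  have hQ1 : (1 : ℝ) < Q := by exact_mod_cast (by omega : 1 < Q)
  set x : ℝ := r / s with hx
  set y : ℝ := (Q : ℝ) ^ (2.49 : ℝ) with hy
  have hy100 : y ^ 100 = (Q : ℝ) ^ 249 := by
    rw [hy, ← Real.rpow_natCast, ← Real.rpow_natCast, ← Real.rpow_mul hQ0.le]
    norm_num
  have hy0 : 0 < y := Real.rpow_pos_of_pos hQ0 _
  have hy1 : 1 < y := Real.one_lt_rpow hQ1 (by norm_num)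
  have hx0 : 0 ≤ x := by positivity
  have hxy : x < y := by
    rw [← pow_lt_pow_iff_left₀ hx0 hy0.le (by norm_num : (100 : ℕ) ≠ 0), hy100, hx, div_pow,
      div_lt_iff₀ (by positivity), mul_comm]
    exact_mod_cast hr
  obtain ⟨N, hN, hN'⟩ := growth hx0 hxy hy1 h
  set rN : ℕ := r ^ N * (N * h + 1) ^ 2 with hrN
  have hsN : (0 : ℝ) < (s : ℝ) ^ N := pow_pos hs0 N
  set a : ℕ := ⌈(rN : ℝ) / (s : ℝ) ^ N⌉₊ with ha
  have ha1 : (rN : ℝ) / (s : ℝ) ^ N ≤ a := Nat.le_ceil _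
  have ha2 : (a : ℝ) < (rN : ℝ) / (s : ℝ) ^ N + 1 := Nat.ceil_lt_add_one (by positivity)
  have ha4 : rN ≤ a * Fintype.card (Fin N → Fin s) := by
    rw [div_le_iff₀ hsN] at ha1
    simp only [Fintype.card_fun, Fintype.card_fin]
    exact_mod_cast ha1
  have hay : (a : ℝ) < y ^ N := by
    refine lt_of_lt_of_le ha2 (le_trans (le_of_eq ?_) hN'.le)
    rw [hrN, hx, div_pow]
    push_cast
    ring
  obtain ⟨N', hN1, hN2⟩ := growth2 (Nat.cast_nonneg a) hay hsN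
  have h1 := DSM_pow (hh N) ha4 N'
  have : Nonempty (Fin N → Fin s) := ⟨fun _ => ⟨0, hs⟩⟩
  have hcard : Fintype.card (Fin N' → Fin N → Fin Q) = Q ^ (N * N') := by
    simp [pow_mul]
  refine ⟨Q ^ (N * N'), a ^ N' * s ^ N, ?_, ?_, ?_⟩
  · calc 2 ≤ Q := hQ
      _ = Q ^ 1 := (pow_one Q).symm
      _ ≤ Q ^ (N * N') := Nat.pow_le_pow_right (by omega) (Nat.mul_pos (by omega) (by omega))
  · have h2 : ((a : ℝ) ^ N' * (s : ℝ) ^ N) ^ 100 < ((y ^ N) ^ N') ^ 100 :=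
      pow_lt_pow_left₀ hN2 (by positivity) (by norm_num)
    have h3 : ((y ^ N) ^ N') ^ 100 = ((Q : ℝ) ^ (N * N')) ^ 249 := by
      have e1 : ((y ^ N) ^ N') ^ 100 = (y ^ 100) ^ (N * N') := by
        rw [← pow_mul, ← pow_mul, ← pow_mul]; congr 1; ring
      rw [e1, hy100, ← pow_mul, ← pow_mul, mul_comm 249]
    rw [h3] at h2
    exact_mod_cast h2
  · let e : Fin (Q ^ (N * N')) ≃ (Fin N' → Fin N → Fin Q) :=
      (Fintype.equivFinOfCardEq hcard).symm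
    have h2 := h1.DSM_inj (f := fun _ : Unit => (fun _ => ⟨0, hs⟩ : Fin N → Fin s)) (g := e)
      (fun _ _ _ => Subsingleton.elim _ _) e.injective
    simpa using h2

/-- The number of pairs is large. -/
lemma exists_n : ∃ n : ℕ, 1 ≤ n ∧ (6 ^ (6 * n)) ^ 100 <
    (Fintype.card (Prs n.centralBinom)) ^ 100 * (5 ^ (2 * n)) ^ 249 := by
  have hρ : |(((6 : ℝ) ^ 6) ^ 100 / ((16 : ℝ) ^ 100 * ((5 : ℝ) ^ 2) ^ 249))| < 1 := by
    rw [abs_of_nonneg (by positivity), div_lt_one (by positivity)]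
    norm_num
  have t1 := (tendsto_pow_const_mul_const_pow_of_abs_lt_one 200 hρ).const_mul ((8 : ℝ) ^ 100)
  rw [mul_zero] at t1
  obtain ⟨n, hN1, hN2⟩ := ((t1.eventually (gt_mem_nhds (show (0 : ℝ) < 1 by norm_num))).and
    (eventually_ge_atTop 1)).exists
  refine ⟨n, hN2, ?_⟩
  set σ := Fintype.card (Prs n.centralBinom) with hσ
  have h1 : n.centralBinom ^ 2 ≤ 2 * σ := card_Prs _
  have h2 : 4 ^ n ≤ 2 * n * n.centralBinom := Nat.four_pow_le_two_mul_self_mul_centralBinom n hN2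
  have h3 : 16 ^ n ≤ 8 * n ^ 2 * σ := by
    calc 16 ^ n = (4 ^ n) ^ 2 := by rw [← pow_mul, mul_comm, pow_mul]; norm_num
      _ ≤ (2 * n * n.centralBinom) ^ 2 := Nat.pow_le_pow_left h2 2
      _ = 4 * n ^ 2 * n.centralBinom ^ 2 := by ring
      _ ≤ 4 * n ^ 2 * (2 * σ) := Nat.mul_le_mul_left _ h1
      _ = 8 * n ^ 2 * σ := by ring
  have h3' : (16 : ℝ) ^ n ≤ 8 * (n : ℝ) ^ 2 * σ := by exact_mod_cast h3
  have hn0 : (0 : ℝ) < n := by exact_mod_cast hN2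
  have h4 : ((16 : ℝ) ^ n) ^ 100 ≤ (8 * (n : ℝ) ^ 2 * σ) ^ 100 :=
    pow_le_pow_left₀ (by positivity) h3' 100
  set A : ℝ := ((6 : ℝ) ^ 6) ^ 100 with hA
  set B : ℝ := ((5 : ℝ) ^ 2) ^ 249 with hB
  have hA0 : 0 < A := by positivity
  have hB0 : 0 < B := by positivity
  have h5 : (8 : ℝ) ^ 100 * (n : ℝ) ^ 200 * A ^ n < ((16 : ℝ) ^ 100 * B) ^ n := by
    have hpos : 0 < ((16 : ℝ) ^ 100 * B) ^ n := by positivity
    calc (8 : ℝ) ^ 100 * (n : ℝ) ^ 200 * A ^ n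
        = ((8 : ℝ) ^ 100 * ((n : ℝ) ^ 200 * (A / ((16 : ℝ) ^ 100 * B)) ^ n)) *
          ((16 : ℝ) ^ 100 * B) ^ n := by
          rw [div_pow]
          generalize ((16 : ℝ) ^ 100 * B) ^ n = D at hpos
          field_simp
      _ < 1 * ((16 : ℝ) ^ 100 * B) ^ n := mul_lt_mul_of_pos_right hN1 hpos
      _ = _ := one_mul _
  have h6 : ((8 : ℝ) * (n : ℝ) ^ 2) ^ 100 * A ^ n < ((8 : ℝ) * (n : ℝ) ^ 2) ^ 100 *
      ((σ : ℝ) ^ 100 * B ^ n) := by
    calc ((8 : ℝ) * (n : ℝ) ^ 2) ^ 100 * A ^ n = (8 : ℝ) ^ 100 * (n : ℝ) ^ 200 * A ^ n := by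
          rw [mul_pow, ← pow_mul]
      _ < ((16 : ℝ) ^ 100 * B) ^ n := h5
      _ = ((16 : ℝ) ^ n) ^ 100 * B ^ n := by
          rw [mul_pow]; congr 1; rw [← pow_mul, ← pow_mul, mul_comm 100 n]
      _ ≤ (8 * (n : ℝ) ^ 2 * σ) ^ 100 * B ^ n := mul_le_mul_of_nonneg_right h4 (by positivity)
      _ = _ := by rw [mul_pow]; ring
  have h7 : A ^ n < (σ : ℝ) ^ 100 * B ^ n := lt_of_mul_lt_mul_left h6 (by positivity)
  have h8 : (((6 : ℝ) ^ (6 * n)) ^ 100) = A ^ n := by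
    rw [hA, ← pow_mul, ← pow_mul, ← pow_mul]; congr 1; ring
  have h9 : (((5 : ℝ) ^ (2 * n)) ^ 249) = B ^ n := by
    rw [hB, ← pow_mul, ← pow_mul, ← pow_mul]; congr 1; ring
  have h10 : (((6 : ℝ) ^ (6 * n)) ^ 100) < (σ : ℝ) ^ 100 * (((5 : ℝ) ^ (2 * n)) ^ 249) := by
    rw [h8, h9]; exact h7
  exact_mod_cast h10

/-- A bilinear algorithm for `m × m` matrices with integer coefficients and fewer than
`m ^ 2.49` multiplications. -/
theorem exists_fast : ∃ m R : ℕ, 2 ≤ m ∧ R ^ 100 < m ^ 249 ∧ Rk (DSM Unit (Fin m)) R := by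
  classical
  obtain ⟨n, hn, hlt⟩ := exists_n
  have h := DSM_brk n 5
  set σ := Fintype.card (Prs n.centralBinom) with hσ
  have hcard : Fintype.card (Fin (2 * n) → Fin 5) = 5 ^ (2 * n) := by simp
  let e1 : Fin σ ≃ Prs n.centralBinom := (Fintype.equivFinOfCardEq hσ.symm).symm
  let e2 : Fin (5 ^ (2 * n)) ≃ (Fin (2 * n) → Fin 5) := (Fintype.equivFinOfCardEq hcard).symm
  have h1 := h.DSM_inj e1.injective e2.injective
  have hσ1 : 1 ≤ σ := by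
    rcases Nat.eq_zero_or_pos σ with h0 | h0
    · rw [h0] at hlt; simp at hlt
    · exact h0
  refine exists_of_DSM hσ1 ?_ h1 hlt
  calc 2 ≤ 5 ^ 1 := by norm_num
    _ ≤ 5 ^ (2 * n) := Nat.pow_le_pow_right (by norm_num) (by omega)

end Pool.Agent.H792_Clique
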