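import Pool.Agent.H792_Clique.Kron
import Pool.Agent.H792_Clique.Expo

/-!
A fast bilinear algorithm for matrix multiplication in terms of numbered matrices.
-/

set_option autoImplicit false

namespace Pool.Agent.H792_Clique

open Finset

/-- A fast bilinear algorithm in terms of numbered matrices. -/
theorem exists_BA : ∃ (m r : ℕ) (E1 E2 E3 : ℕ → ℕ → ℤ), 2 ≤ m ∧ m * m ≤ r ∧
    r ^ 100 < m ^ 249 ∧ BA m r E1 E2 E3 := by
  obtain ⟨m, R, hm, hR, H⟩ := exists_fast
  set r := max R (m * m) with hr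
  have hm0 : 0 < m := by omega
  obtain ⟨u, v, w, h⟩ := H.mono (le_max_left R (m * m))
  have key : ∀ (a : Fin r → Unit × Fin m × Fin m → ℤ), ∃ E : ℕ → ℕ → ℤ,
      ∀ (s : Fin r) (t : ℕ) (ht : t < m * m), E s t =
        a s ((), ⟨t / m, Nat.div_lt_of_lt_mul ht⟩, ⟨t % m, Nat.mod_lt _ hm0⟩) := by
    intro a
    refine ⟨fun s t => if h : s < r ∧ t < m * m then
      a ⟨s, h.1⟩ ((), ⟨t / m, Nat.div_lt_of_lt_mul h.2⟩, ⟨t % m, Nat.mod_lt _ hm0⟩) else 0, ?_⟩
    intro s t ht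
    simp only [s.2, ht, and_self, dif_pos]
  obtain ⟨E1, h1⟩ := key u
  obtain ⟨E2, h2⟩ := key v
  obtain ⟨E3, h3⟩ := key w
  refine ⟨m, r, E1, E2, E3, hm, le_max_right _ _, ?_, ?_⟩
  · rcases le_total R (m * m) with hle | hle
    · rw [hr, max_eq_right hle]
      calc (m * m) ^ 100 = m ^ 200 := by rw [← pow_two, ← pow_mul]
        _ < m ^ 249 := Nat.pow_lt_pow_right (by omega) (by norm_num)
    · rw [hr, max_eq_left hle]; exact hR
  · intro t t' t'' ht ht' ht''
    rw [Finset.sum_range]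
    rw [Finset.sum_congr rfl fun s _ => by rw [h1 s t ht, h2 s t' ht', h3 s t'' ht'']]
    rw [← h]
    simp only [DSM, true_and, Fin.mk.injEq]

end Pool.Agent.H792_Clique
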