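import Pool.Agent.H792_Clique.Reduce
import Pool.Agent.H792_Clique.Comb

/-!
The reduction with heavy blocks.
-/

set_option autoImplicit false
set_option linter.unusedSimpArgs false
set_option linter.unusedVariables false

namespace Pool.Agent.H792_Clique

open Pool.Agent.H588R2 Pool.Agent.TH687.HL

section

variable {ι : Type} (τ : ι → Finset (Fin 10)) (R : ι → ι → Prop)

/-- Adjacency of the nodes and vertices. -/
def hAdj {p : ℕ} (G : SimpleGraph (Fin p)) (a b : (Fin 10 ⊕ ι) × Fin p) : Prop :=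
  match a.1, b.1 with
  | .inl β, .inl γ => β ≠ γ ∧ G.Adj a.2 b.2
  | .inl β, .inr i => β ∈ τ i
  | .inr i, .inl β => β ∈ τ i
  | .inr i, .inr j => R i j

/-- The graph with ten copies of `G` and heavy blocks. -/
def heavy (hs : ∀ i j, R i j → R j i) (h0 : ∀ i, ¬ R i i) {p : ℕ} (G : SimpleGraph (Fin p)) :
    SimpleGraph ((Fin 10 ⊕ ι) × Fin p) where
  Adj := hAdj τ R G
  symm := ⟨by
    rintro ⟨a | i, u⟩ ⟨b | j, v⟩ h
    · exact ⟨fun e => h.1 e.symm, h.2.symm⟩
    · exact h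
    · exact h
    · exact hs _ _ h⟩
  loopless := ⟨by
    rintro ⟨a | i, u⟩ h
    · exact h.1 rfl
    · exact h0 _ h⟩

open Classical in
/-- Table of the nodes. -/
noncomputable def tabN (a b : Fin 10 ⊕ ι) : ℕ :=
  match a, b with
  | .inl β, .inl γ => if β = γ then 0 else 2
  | .inl β, .inr i => if β ∈ τ i then 1 else 0
  | .inr i, .inl β => if β ∈ τ i then 1 else 0
  | .inr i, .inr j => if R i j then 1 else 0

variable [Fintype ι]

/-- Nodes and numbers. -/
noncomputable def nodeE : Fin 10 ⊕ ι ≃ Fin (10 + Fintype.card ι) :=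
  (Equiv.sumCongr (Equiv.refl _) (Fintype.equivFin ι)).trans finSumFinEquiv

/-- Vertices of the two graphs. -/
noncomputable def vertE (p : ℕ) : (Fin 10 ⊕ ι) × Fin p ≃ Fin ((10 + Fintype.card ι) * p) :=
  (Equiv.prodCongr nodeE (Equiv.refl _)).trans finProdFinEquiv

/-- The table. -/
noncomputable def tabT (x y : ℕ) : ℕ :=
  if h : x < 10 + Fintype.card ι ∧ y < 10 + Fintype.card ι then
    tabN τ R (nodeE.symm ⟨x, h.1⟩) (nodeE.symm ⟨y, h.2⟩) else 0

omit [Fintype ι] in
lemma tabN_symm (hs : ∀ i j, R i j → R j i) (a b : Fin 10 ⊕ ι) : tabN τ R a b = tabN τ R b a := by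
  rcases a with a | i <;> rcases b with b | j <;> simp only [tabN]
  · by_cases h : a = b
    · rw [if_pos h, if_pos h.symm]
    · rw [if_neg h, if_neg (fun e => h e.symm)]
  · by_cases h : R i j
    · rw [if_pos h, if_pos (hs _ _ h)]
    · rw [if_neg h, if_neg (fun e => h (hs _ _ e))]

lemma tabT_symm (hs : ∀ i j, R i j → R j i) (x y : ℕ) : tabT τ R x y = tabT τ R y x := by
  unfold tabT
  by_cases h : x < 10 + Fintype.card ι ∧ y < 10 + Fintype.card ι
  · rw [dif_pos h, dif_pos ⟨h.2, h.1⟩, tabN_symm τ R hs]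
  · rw [dif_neg h, dif_neg (fun e => h ⟨e.2, e.1⟩)]

lemma tabT_self (h0 : ∀ i, ¬ R i i) (x : ℕ) : tabT τ R x x ≠ 1 := by
  unfold tabT
  split_ifs with h
  · rcases nodeE.symm ⟨x, h.1⟩ with a | i
    · simp [tabN]
    · simp [tabN, h0]
  · omega

lemma blow_adj (hs : ∀ i j, R i j → R j i) (h0 : ∀ i, ¬ R i i) {p : ℕ} (G : SimpleGraph (Fin p))
    (a b : (Fin 10 ⊕ ι) × Fin p) :
    (blow (10 + Fintype.card ι) (tabT τ R) (tabT_symm τ R hs) (tabT_self τ R h0) G).Adj
      (vertE p a) (vertE p b) ↔ (heavy τ R hs h0 G).Adj a b := by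
  obtain ⟨a, u⟩ := a
  obtain ⟨b, v⟩ := b
  have key : ∀ (a : Fin 10 ⊕ ι) (u : Fin p), ((vertE p (a, u) : Fin _) : ℕ) / p = nodeE a ∧
      ((vertE p (a, u) : Fin _) : ℕ) % p = u := by
    intro a u
    have e : ((vertE p (a, u) : Fin _) : ℕ) = (u : ℕ) + p * (nodeE a : ℕ) := rfl
    have hp : 0 < p := lt_of_le_of_lt (Nat.zero_le _) u.2
    rw [e, Nat.add_mul_div_left _ _ hp, Nat.add_mul_mod_self_left, Nat.div_eq_of_lt u.2,
      Nat.mod_eq_of_lt u.2]
    simp
  have hT : tabT τ R (nodeE a : ℕ) (nodeE b : ℕ) = tabN τ R a b := by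
    unfold tabT
    rw [dif_pos ⟨(nodeE a).2, (nodeE b).2⟩]
    simp
  show tabT τ R (((vertE p (a, u) : Fin _) : ℕ) / p) (((vertE p (b, v) : Fin _) : ℕ) / p) = 1 ∨
    (tabT τ R (((vertE p (a, u) : Fin _) : ℕ) / p) (((vertE p (b, v) : Fin _) : ℕ) / p) = 2 ∧
      bit G (((vertE p (a, u) : Fin _) : ℕ) % p) (((vertE p (b, v) : Fin _) : ℕ) % p) ≠ 0) ↔
      hAdj τ R G (a, u) (b, v)
  rw [(key a u).1, (key a u).2, (key b v).1, (key b v).2, hT]
  rw [bit_fin]
  rcases a with a | i <;> rcases b with b | j <;> simp only [tabN, hAdj]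
  · by_cases h : a = b
    · simp [h]
    · simp [h]
  · by_cases h : a ∈ τ j
    · simp [h]
    · simp [h]
  · by_cases h : b ∈ τ i
    · simp [h]
    · simp [h]
  · by_cases h : R i j
    · simp [h]
    · simp [h]

/-- The isomorphism. -/
noncomputable def blowIso (hs : ∀ i j, R i j → R j i) (h0 : ∀ i, ¬ R i i) {p : ℕ}
    (G : SimpleGraph (Fin p)) : heavy τ R hs h0 G ≃g
    blow (10 + Fintype.card ι) (tabT τ R) (tabT_symm τ R hs) (tabT_self τ R h0) G where
  toEquiv := vertE p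
  map_rel_iff' := by
    intro a b
    exact blow_adj τ R hs h0 G a b

omit [Fintype ι] in
lemma heavy_free (hs : ∀ i j, R i j → R j i) (h0 : ∀ i, ¬ R i i)
    (hc : ∀ (I : Finset ι) (S : Finset (Fin 10)), I.Nonempty → (∀ i ∈ I, ∀ j ∈ I, i ≠ j → R i j) →
      (∀ i ∈ I, S ⊆ τ i) → S.card + I.card ≤ 9) {p : ℕ} (G : SimpleGraph (Fin p)) :
    (heavy τ R hs h0 G).CliqueFree 10 ↔ G.CliqueFree 10 := by
  classical
  constructor
  · intro h Q hQ
    obtain ⟨f⟩ : Nonempty (Fin 10 ≃ Q) := by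
      refine ⟨(Fintype.equivFinOfCardEq ?_).symm⟩
      rw [Fintype.card_coe, hQ.2]
    refine h (Finset.univ.image fun β : Fin 10 => ((Sum.inl β, (f β : Fin p)) : (Fin 10 ⊕ ι) × Fin p))
      ⟨?_, ?_⟩
    · intro a ha b hb hab
      simp only [Finset.coe_image, Finset.coe_univ, Set.image_univ, Set.mem_range] at ha hb
      obtain ⟨β, rfl⟩ := ha
      obtain ⟨γ, rfl⟩ := hb
      have hne : β ≠ γ := by rintro rfl; exact hab rfl
      refine ⟨hne, hQ.1 (f β).2 (f γ).2 ?_⟩
      intro e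
      exact hne (f.injective (Subtype.ext e))
    · rw [Finset.card_image_of_injective, Finset.card_univ, Fintype.card_fin]
      intro β γ e
      simpa using congrArg Prod.fst e
  · intro h Q hQ
    -- nodes of the clique
    have hinj : Set.InjOn (Prod.fst : (Fin 10 ⊕ ι) × Fin p → Fin 10 ⊕ ι) Q := by
      rintro ⟨a, u⟩ ha ⟨b, v⟩ hb (rfl : a = b)
      by_contra hne
      have h1 := hQ.1 ha hb hne
      rcases a with a | i
      · exact h1.1 rfl
      · exact h0 _ h1
    set N : Finset (Fin 10 ⊕ ι) := Q.image Prod.fst with hN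
    have hNc : N.card = 10 := by rw [hN, Finset.card_image_of_injOn hinj, hQ.2]
    have hLR := N.card_toLeft_add_card_toRight
    have hadj : ∀ a ∈ N, ∀ b ∈ N, a ≠ b → ∃ u v, (heavy τ R hs h0 G).Adj (a, u) (b, v) := by
      intro a ha b hb hab
      obtain ⟨⟨a', u⟩, hu, rfl⟩ := Finset.mem_image.1 ha
      obtain ⟨⟨b', v⟩, hv, rfl⟩ := Finset.mem_image.1 hb
      exact ⟨u, v, hQ.1 hu hv (fun e => hab (congrArg Prod.fst e))⟩
    rcases Finset.eq_empty_or_nonempty N.toRight with he | hne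
    · -- no heavy vertex
      have hall : ∀ z ∈ Q, ∃ β : Fin 10, z.1 = Sum.inl β := by
        rintro ⟨a | i, u⟩ hz
        · exact ⟨a, rfl⟩
        · exfalso
          have : i ∈ N.toRight := by
            rw [Finset.mem_toRight, hN]
            exact Finset.mem_image.2 ⟨_, hz, rfl⟩
          rw [he] at this
          simp at this
      have hadj2 : ∀ z ∈ Q, ∀ z' ∈ Q, z ≠ z' → G.Adj z.2 z'.2 := by
        rintro ⟨a, u⟩ hz ⟨b, v⟩ hz' hne
        obtain ⟨β, rfl⟩ := hall _ hz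
        obtain ⟨γ, rfl⟩ := hall _ hz'
        exact (hQ.1 hz hz' hne).2
      refine h (Q.image Prod.snd) ⟨?_, ?_⟩
      · intro x hx y hy hxy
        obtain ⟨z, hz, rfl⟩ := Finset.mem_image.1 (Finset.mem_coe.1 hx)
        obtain ⟨z', hz', rfl⟩ := Finset.mem_image.1 (Finset.mem_coe.1 hy)
        exact hadj2 z hz z' hz' (fun e => hxy (by rw [e]))
      · rw [Finset.card_image_of_injOn, hQ.2]
        intro z hz z' hz' e
        by_contra hne
        exact (hadj2 z hz z' hz' hne).ne e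
    · have := hc N.toRight N.toLeft hne ?_ ?_
      · omega
      · intro i hi j hj hij
        rw [Finset.mem_toRight] at hi hj
        obtain ⟨u, v, h1⟩ := hadj _ hi _ hj (fun e => hij (Sum.inr_injective e))
        exact h1
      · intro i hi β hβ
        rw [Finset.mem_toRight] at hi
        rw [Finset.mem_toLeft] at hβ
        obtain ⟨u, v, h1⟩ := hadj _ hβ _ hi (by simp)
        exact h1

theorem reduce_heavy {e : ℝ} (he : 2 ≤ e) {cls : ∀ p : ℕ, SimpleGraph (Fin p) → Prop}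
    (hs : ∀ i j, R i j → R j i) (h0 : ∀ i, ¬ R i i)
    (hc : ∀ (I : Finset ι) (S : Finset (Fin 10)), I.Nonempty → (∀ i ∈ I, ∀ j ∈ I, i ≠ j → R i j) →
      (∀ i ∈ I, S ⊆ τ i) → S.card + I.card ≤ 9)
    (hcls : ∀ (p : ℕ) (G : SimpleGraph (Fin p))
      (B : SimpleGraph (Fin ((10 + Fintype.card ι) * p))), 1 ≤ p → (heavy τ R hs h0 G ≃g B) →
      cls ((10 + Fintype.card ι) * p) B)
    (h : SolvesIn e cls) : SolvesIn e allGraphs := by
  refine reduce he (κ := 10 + Fintype.card ι) (by omega) (T := tabT τ R) (tabT_symm τ R hs)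
    (tabT_self τ R h0) ?_ ?_ h
  · intro p G hp _
    exact hcls p G _ hp (blowIso τ R hs h0 G)
  · intro p G hp _
    rw [← heavy_free τ R hs h0 hc G]
    exact ⟨fun h => h.comap (blowIso τ R hs h0 G).isContained,
      fun h => h.comap (blowIso τ R hs h0 G).isContained'⟩

end

end Pool.Agent.H792_Clique
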