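import Pool.Agent.H792_Clique.Mat

/-!
Loops which fill and copy arrays.
-/

set_option autoImplicit false
set_option linter.unusedSimpArgs false
set_option linter.unusedVariables false

namespace Pool.Agent.H792_Clique

open Pool.Agent.H588R2 Pool.Agent.TH687.HL

/-- A loop which fills an array. -/
theorem Tb.mapLoop {X w x b k : ℕ} {e : Ex} {s : St} {T N B : ℕ} {f : ℕ → ℕ} {Q : St → Prop}
    (P : PX X w) (hb : Bd X s) (hX : 32 ≤ X) (hk : k < 32) (hN : s.reg b = N)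
    (h99 : s.reg 99 = B) (hx : x ≠ 99) (hc : cs X e) (hs : sz e ≤ 100)
    (hT : N * (e.cost + 14) + 3 ≤ T)
    (he : ∀ i < N, ∀ s', Fr [k] B s.mem s'.mem → s'.reg x = i → (∀ y, y ≠ x → s'.reg y = s.reg y) →
      e.ev s' = f i)
    (hv : ∀ i < N, f i ≤ X)
    (hQ : ∀ s', Bd X s' → s'.reg x = N → (∀ y, y ≠ x → s'.reg y = s.reg y) →
      Fr [k] B s.mem s'.mem → Fi B s'.mem k N f → Q s') :
    Tr w (.loop x b (stA k (.r x) e)) s T Q := by
  refine Tb.loop P hb (fun i s' => Fr [k] B s.mem s'.mem ∧ Fi B s'.mem k i f) (e.cost + 10) hN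
    ?_ ?_ ?_ ?_
  · calc N * (e.cost + 10 + 4) + 3 = N * (e.cost + 14) + 3 := by ring
      _ ≤ T := hT
  · exact ⟨Fr.refl _ _ _, Fi.zero _ _ _ _⟩
  · rintro i hi s' ⟨h1, h2⟩ hb' hr hfr
    have hfr' : ∀ y, y ≠ x → s'.reg y = s.reg y := fun y hy => hfr y hy (by simp [stA, HC.wr])
    refine Tb.stAv P hb' hX hk (B := B) (by rw [hfr' 99 (Ne.symm hx), h99]) (i := i) (v := f i)
      (by simpa [Ex.ev] using hr) (he i hi s' h1 hr hfr') (hv i hi) (by simp [cs]) (by simp [sz]) hc hs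
      (by simp [Ex.cost]; omega) ?_
    intro hb''
    refine ⟨hb'', ?_, ?_⟩
    · exact h1.upd hk (by simp) _ _
    · exact h2.upd hk rfl
  · rintro s' ⟨h1, h2⟩ hb' hr hfr
    exact hQ s' hb' hr (fun y hy => hfr y hy (by simp [stA, HC.wr])) h1 h2

/-- Copy array `k` to array `k'`, loop variable 11, bound in register `b`. -/
def cpC (b k k' : ℕ) : HC := .loop 11 b (stA k' (.r 11) (ldA k (.r 11)))

theorem tr_cp {X w b k k' : ℕ} (P : PX X w) {s : St} {T N B : ℕ} {f : ℕ → ℕ} {Q : St → Prop}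
    (hb : Bd X s) (hX : 32 ≤ X) (hk : k < 32) (hk' : k' < 32) (hne : k ≠ k') (hN : s.reg b = N)
    (h99 : s.reg 99 = B) (hT : N * 30 + 3 ≤ T) (hf : Fi B s.mem k N f)
    (hQ : ∀ s', Bd X s' → (∀ y, y ≠ 11 → s'.reg y = s.reg y) →
      Fr [k'] B s.mem s'.mem → Fi B s'.mem k' N f → Q s') :
    Tr w (cpC b k k') s T Q := by
  refine Tb.mapLoop (f := f) P hb hX hk' hN h99 (by norm_num) (by simp [cs]; omega) (by simp [sz])
    (by simp [Ex.cost]; omega) ?_ ?_ ?_
  · intro i hi s' hF hr hfr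
    simp only [ldA_ev, Ex.ev, hr]
    rw [hfr 99 (by norm_num), h99, hF.arr k hk (by simp; exact hne) i]
    exact hf i hi
  · intro i hi
    rw [← hf i hi]; exact hb.mem _
  · intro s' hb' hr hfr hF hFi
    exact hQ s' hb' hfr hF hFi

end Pool.Agent.H792_Clique
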