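import Pool.Agent.H792_Clique.Pow

/-!
The adjacency matrix of the triples, and tables of constants.
-/

set_option autoImplicit false
set_option linter.unusedSimpArgs false
set_option linter.unusedVariables false

namespace Pool.Agent.H792_Clique

open Pool.Agent.H588R2 Pool.Agent.TH687.HL

/-- The low part of the memory is the adjacency matrix `g`. -/
def GM (p : ℕ) (g : ℕ → ℕ → ℕ) (m : ℕ → ℕ) : Prop := ∀ u < p, ∀ v < p, m (u * p + v) = g u v

lemma GM.fr {p : ℕ} {g : ℕ → ℕ → ℕ} {m m' : ℕ → ℕ} (h : GM p g m) {K : List ℕ}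
    (hF : Fr K (p * p) m m') : GM p g m' := by
  intro u hu v hv
  rw [hF.low _ (by
    have : (u + 1) * p ≤ p * p := Nat.mul_le_mul_right _ hu
    nlinarith)]
  exact h u hu v hv

/-- Product of the adjacencies of the pairs of registers in a list. -/
def prodE : List (ℕ × ℕ) → Ex
  | [] => .c 1
  | z :: l => .mul (adE (.r z.1) (.r z.2)) (prodE l)

lemma prodE_ev (s : St) : ∀ l : List (ℕ × ℕ), (prodE l).ev s =
    (l.map fun z => s.mem (s.reg z.1 * s.reg 98 + s.reg z.2)).prod := by
  intro l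
  induction l with
  | nil => rfl
  | cons z l ih => simp only [prodE, Ex.ev, adE_ev, List.map_cons, List.prod_cons, ih]

lemma prodE_cs {X : ℕ} (hX : 1 ≤ X) : ∀ l : List (ℕ × ℕ), cs X (prodE l) := by
  intro l
  induction l with
  | nil => simpa [prodE, cs] using hX
  | cons z l ih => simp [prodE, cs, ih]

lemma prodE_sz : ∀ l : List (ℕ × ℕ), sz (prodE l) = 3 * l.length + 1 := by
  intro l
  induction l with
  | nil => rfl
  | cons z l ih => simp only [prodE, sz, sz_adE, ih, List.length_cons]; omega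

lemma prodE_cost : ∀ l : List (ℕ × ℕ), (prodE l).cost = 10 * l.length + 1 := by
  intro l
  induction l with
  | nil => rfl
  | cons z l ih => simp only [prodE, Ex.cost, cost_adE, ih, List.length_cons]; omega

def P15 : List (ℕ × ℕ) := [(33, 34), (34, 35), (33, 35), (36, 37), (37, 38), (36, 38), (33, 36),
  (33, 37), (33, 38), (34, 36), (34, 37), (34, 38), (35, 36), (35, 37), (35, 38)]

/-- All six vertices are pairwise adjacent. -/
def six (g : ℕ → ℕ → ℕ) (a1 a2 a3 b1 b2 b3 : ℕ) : ℕ :=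
  g a1 a2 * (g a2 a3 * (g a1 a3 * (g b1 b2 * (g b2 b3 * (g b1 b3 * (g a1 b1 * (g a1 b2 *
    (g a1 b3 * (g a2 b1 * (g a2 b2 * (g a2 b3 * (g a3 b1 * (g a3 b2 * g a3 b3)))))))))))))

lemma six_le {g : ℕ → ℕ → ℕ} {p : ℕ} (hg : ∀ u v, g u v ≤ 1) (a1 a2 a3 b1 b2 b3 : ℕ) :
    six g a1 a2 a3 b1 b2 b3 ≤ 1 := by
  have key : ∀ x y : ℕ, x ≤ 1 → y ≤ 1 → x * y ≤ 1 := fun x y hx hy => by nlinarith
  unfold six
  repeat (first | exact hg _ _ | apply key)

def matBody : HC :=
  .seq (.asg 31 (ldA 8 (.r 10))) (.seq (.asg 32 (ldA 9 (.r 10))) (.seq (.asg 39 (.c 0))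
    (.seq (.ite (.r 31) (.r 3) (.ite (.r 32) (.r 3)
      (.seq (.asg 33 (ldA 5 (.r 31))) (.seq (.asg 34 (ldA 6 (.r 31))) (.seq (.asg 35 (ldA 7 (.r 31)))
      (.seq (.asg 36 (ldA 5 (.r 32))) (.seq (.asg 37 (ldA 6 (.r 32))) (.seq (.asg 38 (ldA 7 (.r 32)))
        (.asg 39 (prodE P15)))))))) .skip) .skip)
    (stA 10 (.r 10) (.r 39)))))

def matC : HC := .loop 10 6 matBody

lemma matBody_wr : matBody.wr = [31, 32, 39, 33, 34, 35, 36, 37, 38, 39] := rfl

/-- The matrix. -/
def XXm (g : ℕ → ℕ → ℕ) (N : ℕ) (D1 D2 D3 : ℕ → ℕ) (i j : ℕ) : ℕ :=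
  if i < N ∧ j < N then six g (D1 i) (D2 i) (D3 i) (D1 j) (D2 j) (D3 j) else 0

theorem tr_mat {X w : ℕ} (P : PX X w) {p N S : ℕ} {g : ℕ → ℕ → ℕ} {D1 D2 D3 rf cf : ℕ → ℕ} {s : St}
    {Q : St → Prop}
    (hX : 32 ≤ X) (hb : Bd X s) (h98 : s.reg 98 = p) (h99 : s.reg 99 = p * p) (h3 : s.reg 3 = N)
    (h6 : s.reg 6 = S) (hg : ∀ u v, g u v ≤ 1) (hG : GM p g s.mem)
    (h5 : Fi (p * p) s.mem 5 N D1) (h6' : Fi (p * p) s.mem 6 N D2) (h7 : Fi (p * p) s.mem 7 N D3)
    (hD1 : ∀ i < N, D1 i < p) (hD2 : ∀ i < N, D2 i < p) (hD3 : ∀ i < N, D3 i < p)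
    (h8 : Fi (p * p) s.mem 8 S rf) (h9 : Fi (p * p) s.mem 9 S cf)
    (hQ : ∀ s', Bd X s' → (∀ y, y ∉ matC.wr → s'.reg y = s.reg y) →
      Fr [10] (p * p) s.mem s'.mem →
      Fi (p * p) s'.mem 10 S (fun τ => XXm g N D1 D2 D3 (rf τ) (cf τ)) → Q s') :
    Tr w matC s (400 * (S + 1)) Q := by
  refine Tr.mono (T := S * (380 + 4) + 3) ?_ (by omega) (fun _ h => h)
  refine Tb.nest P hb (fun k m => Fr [10] (p * p) s.mem m ∧
    Fi (p * p) m 10 k (fun τ => XXm g N D1 D2 D3 (rf τ) (cf τ))) 0 1 380 (N := S) h6 le_rfl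
    ⟨Fr.refl _ _ _, Fi.zero _ _ _ _⟩ ?_ ?_
  · intro i hi s1 hTI hb1 r10 fr1
    have hi' : 0 + i * 1 = i := by ring
    rw [hi'] at hTI
    obtain ⟨hF, hFi⟩ := hTI
    have e98 : s1.reg 98 = p := by rw [fr1 98 (by norm_num) (by decide), h98]
    have e99 : s1.reg 99 = p * p := by rw [fr1 99 (by norm_num) (by decide), h99]
    have e3 : s1.reg 3 = N := by rw [fr1 3 (by norm_num) (by decide), h3]
    have hG1 := hG.fr hF
    have k5 := h5.fr hF (by norm_num) (by decide)
    have k6 := h6'.fr hF (by norm_num) (by decide)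
    have k7 := h7.fr hF (by norm_num) (by decide)
    have k8 := h8.fr hF (by norm_num) (by decide)
    have k9 := h9.fr hF (by norm_num) (by decide)
    have c5 : ∀ i < N, D1 i ≤ X := fun i hi => by rw [← h5 i hi]; exact hb.mem _
    have c6 : ∀ i < N, D2 i ≤ X := fun i hi => by rw [← h6' i hi]; exact hb.mem _
    have c7 : ∀ i < N, D3 i ≤ X := fun i hi => by rw [← h7 i hi]; exact hb.mem _
    refine Tr.mono (T := 15 + (15 + (15 + (300 + 20)))) ?_ (by norm_num) (fun _ h => h)
    apply Tr.seq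
    refine Tb.asgv P hb1 (v := rf i) (by simp only [ldA_ev, Ex.ev, e99, r10]; exact k8 i hi)
      (by rw [← h8 i hi]; exact hb.mem _) (by simp [cs]; omega) (by simp [sz]) (by simp [Ex.cost]) ?_
    intro b2
    apply Tr.seq
    refine Tb.asgv P b2 (v := cf i) (by simp [Ex.ev, set_reg, e99, r10]; exact k9 i hi)
      (by rw [← h9 i hi]; exact hb.mem _) (by simp [cs]; omega) (by simp [sz]) (by simp [Ex.cost]) ?_
    intro b3
    apply Tr.seq
    refine Tb.asgv P b3 (v := 0) rfl (by omega) (by simp [cs]) (by simp [sz]) (by simp [Ex.cost]) ?_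
    intro b4
    set s4 := ((s1.set 31 (rf i)).set 32 (cf i)).set 39 0 with hs4
    -- the value
    have fin : ∀ (s' : St), Bd X s' → s'.mem = s1.mem → s'.reg 10 = i → s'.reg 99 = p * p →
        s'.reg 39 = XXm g N D1 D2 D3 (rf i) (cf i) →
        Tr w (stA 10 (.r 10) (.r 39)) s' 20 (fun s'' => Bd X s'' ∧
          (Fr [10] (p * p) s.mem s''.mem ∧
            Fi (p * p) s''.mem 10 (0 + (i + 1) * 1) (fun τ => XXm g N D1 D2 D3 (rf τ) (cf τ)))) := by
      intro s' hb' hm h10 h99' h39
      refine Tb.stAv P hb' hX (by norm_num) h99' (i := i) (v := XXm g N D1 D2 D3 (rf i) (cf i))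
        h10 h39 (by rw [← h39]; exact hb'.reg _) (by simp [cs]) (by simp [sz]) (by simp [cs])
        (by simp [sz]) (by simp [Ex.cost]) ?_
      intro b'
      refine ⟨b', ?_, ?_⟩
      · rw [put_mem, hm]; exact hF.upd (by norm_num) (by decide) _ _
      · rw [put_mem, hm]
        have : 0 + (i + 1) * 1 = i + 1 := by ring
        rw [this]
        exact hFi.upd (by norm_num) rfl
    have q10 : s4.reg 10 = i := by simp [hs4, set_reg, r10]
    have q99 : s4.reg 99 = p * p := by simp [hs4, set_reg, e99]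
    have q98 : s4.reg 98 = p := by simp [hs4, set_reg, e98]
    have q31 : s4.reg 31 = rf i := by simp [hs4, set_reg]
    have q32 : s4.reg 32 = cf i := by simp [hs4, set_reg]
    have q39 : s4.reg 39 = 0 := by simp [hs4, set_reg]
    have q3 : s4.reg 3 = N := by simp [hs4, set_reg, e3]
    have qm : s4.mem = s1.mem := rfl
    clear_value s4
    apply Tr.seq
    refine Tb.ite P b4 (by simp [cs]) (by simp [sz]) (by simp [cs]) (by simp [sz]) (T := 290)
      (by simp [Ex.cost]) ?_ ?_
    · intro hlt1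
      simp only [Ex.ev, q31, q3] at hlt1
      refine Tb.ite P b4 (by simp [cs]) (by simp [sz]) (by simp [cs]) (by simp [sz]) (T := 280)
        (by simp [Ex.cost]) ?_ ?_
      · intro hlt2
        simp only [Ex.ev, q32, q3] at hlt2
        refine Tr.mono (T := 15 + (15 + (15 + (15 + (15 + (15 + 160)))))) ?_ (by norm_num)
          (fun _ h => h)
        apply Tr.seq
        refine Tb.asgv P b4 (v := D1 (rf i)) (by simp [Ex.ev, q99, q31, qm]; exact k5 _ hlt1)
          (c5 _ hlt1) (by simp [cs]; omega) (by simp [sz]) (by simp [Ex.cost]) ?_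
        intro b5
        apply Tr.seq
        refine Tb.asgv P b5 (v := D2 (rf i)) (by simp [Ex.ev, set_reg, q99, q31, qm]; exact k6 _ hlt1)
          (c6 _ hlt1) (by simp [cs]; omega) (by simp [sz]) (by simp [Ex.cost]) ?_
        intro b6
        apply Tr.seq
        refine Tb.asgv P b6 (v := D3 (rf i)) (by simp [Ex.ev, set_reg, q99, q31, qm]; exact k7 _ hlt1)
          (c7 _ hlt1) (by simp [cs]; omega) (by simp [sz]) (by simp [Ex.cost]) ?_
        intro b7
        apply Tr.seq
        refine Tb.asgv P b7 (v := D1 (cf i)) (by simp [Ex.ev, set_reg, q99, q32, qm]; exact k5 _ hlt2)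
          (c5 _ hlt2) (by simp [cs]; omega) (by simp [sz]) (by simp [Ex.cost]) ?_
        intro b8
        apply Tr.seq
        refine Tb.asgv P b8 (v := D2 (cf i)) (by simp [Ex.ev, set_reg, q99, q32, qm]; exact k6 _ hlt2)
          (c6 _ hlt2) (by simp [cs]; omega) (by simp [sz]) (by simp [Ex.cost]) ?_
        intro b9
        apply Tr.seq
        refine Tb.asgv P b9 (v := D3 (cf i)) (by simp [Ex.ev, set_reg, q99, q32, qm]; exact k7 _ hlt2)
          (c7 _ hlt2) (by simp [cs]; omega) (by simp [sz]) (by simp [Ex.cost]) ?_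
        intro b10
        have hv : (prodE P15).ev ((((((s4.set 33 (D1 (rf i))).set 34 (D2 (rf i))).set 35
            (D3 (rf i))).set 36 (D1 (cf i))).set 37 (D2 (cf i))).set 38 (D3 (cf i))) =
            XXm g N D1 D2 D3 (rf i) (cf i) := by
          rw [prodE_ev]
          have G : ∀ u < p, ∀ v < p, s1.mem (u * p + v) = g u v := hG1
          have w1 := hD1 _ hlt1
          have w2 := hD2 _ hlt1
          have w3 := hD3 _ hlt1
          have w4 := hD1 _ hlt2
          have w5 := hD2 _ hlt2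
          have w6 := hD3 _ hlt2
          simp only [P15, List.map_cons, List.map_nil, List.prod_cons, List.prod_nil, St.set_mem,
            set_reg, qm, q98]
          norm_num
          rw [G _ w1 _ w2, G _ w2 _ w3, G _ w1 _ w3, G _ w4 _ w5, G _ w5 _ w6, G _ w4 _ w6,
            G _ w1 _ w4, G _ w1 _ w5, G _ w1 _ w6, G _ w2 _ w4, G _ w2 _ w5, G _ w2 _ w6,
            G _ w3 _ w4, G _ w3 _ w5, G _ w3 _ w6]
          rw [XXm, if_pos ⟨hlt1, hlt2⟩]
          rfl
        have hX1 : XXm g N D1 D2 D3 (rf i) (cf i) ≤ X := by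
          unfold XXm
          split_ifs
          · exact le_trans (six_le (p := p) hg _ _ _ _ _ _) (by omega)
          · omega
        refine Tb.asgv P b10 hv hX1 (prodE_cs (by omega) _) (by rw [prodE_sz]; decide)
          (by rw [prodE_cost]; decide) ?_
        intro b11
        refine fin _ b11 ?_ ?_ ?_ ?_
        · exact qm
        · simp [set_reg, q10]
        · simp [set_reg, q99]
        · simp [set_reg]
      · intro hlt2
        simp only [Ex.ev, q32, q3] at hlt2
        apply Tr.skip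
        exact fin s4 b4 qm q10 q99 (by rw [q39, XXm, if_neg (fun h => hlt2 h.2)])
    · intro hlt1
      simp only [Ex.ev, q31, q3] at hlt1
      apply Tr.skip
      exact fin s4 b4 qm q10 q99 (by rw [q39, XXm, if_neg (fun h => hlt1 h.1)])
  · rintro s1 ⟨hF, hFi⟩ hb1 _ fr1
    have : 0 + S * 1 = S := by ring
    rw [this] at hFi
    refine hQ s1 hb1 ?_ hF hFi
    intro y hy
    simp only [matC, HC.wr, List.mem_cons, not_or] at hy
    exact fr1 y hy.1 hy.2

/-- Store a list of constants. -/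
def tabC (k : ℕ) : ℕ → List ℕ → HC
  | _, [] => .skip
  | i, v :: l => .seq (stA k (.c i) (.c v)) (tabC k (i + 1) l)

lemma tabC_wr (k : ℕ) : ∀ (l : List ℕ) (i : ℕ), (tabC k i l).wr = [] := by
  intro l
  induction l with
  | nil => intro i; rfl
  | cons v l ih => intro i; simp [tabC, HC.wr, stA, ih]

theorem tr_tab {X w : ℕ} (P : PX X w) {B k : ℕ} (hk : k < 32) (hX : 32 ≤ X) {f : ℕ → ℕ} :
    ∀ (l : List ℕ) (i : ℕ) (s : St) {Q : St → Prop}, Bd X s → s.reg 99 = B →
    (∀ j, (hj : j < l.length) → l[j] = f (i + j)) → (∀ v ∈ l, v ≤ X) → i + l.length ≤ X →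
    Fi B s.mem k i f →
    (∀ s', Bd X s' → s'.reg = s.reg → Fr [k] B s.mem s'.mem →
      Fi B s'.mem k (i + l.length) f → Q s') →
    Tr w (tabC k i l) s (10 * l.length) Q := by
  intro l
  induction l with
  | nil =>
    intro i s Q hb h99 hf hv hi hFi hQ
    exact Tr.skip (hQ s hb rfl (Fr.refl _ _ _) (by simpa using hFi))
  | cons v l ih =>
    intro i s Q hb h99 hf hv hi hFi hQ
    simp only [List.length_cons] at hi
    refine Tr.mono (T := 10 + 10 * l.length) ?_ (by simp only [List.length_cons]; omega)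
      (fun _ h => h)
    apply Tr.seq
    refine Tb.stAv P hb hX hk h99 (i := i) (v := v) rfl rfl (hv v (by simp)) (by simp [cs]; omega)
      (by simp [sz]) (by simp [cs]; exact hv v (by simp)) (by simp [sz]) (by simp [Ex.cost]) ?_
    intro b1
    have hf0 := hf 0 (by simp)
    simp only [List.getElem_cons_zero, add_zero] at hf0
    refine ih (i + 1) _ b1 h99 ?_ (fun u hu => hv u (by simp [hu])) (by omega) ?_ ?_
    · intro j hj
      have := hf (j + 1) (by simp; omega)
      simp only [List.getElem_cons_succ] at this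
      rw [this]; congr 1; ring
    · exact hFi.upd hk hf0
    · intro s' hb' hr hF hFi'
      refine hQ s' hb' (by rw [hr]; rfl) ?_ ?_
      · exact ((Fr.refl _ _ _).upd hk (by simp) _ _).trans hF
      · have e : i + (v :: l).length = i + 1 + l.length := by simp only [List.length_cons]; omega
        rw [e]; exact hFi'

end Pool.Agent.H792_Clique
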