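import Pool.Agent.H792_Clique.Yat2
import Pool.Agent.H792_Clique.Fast

/-!
Nine pairwise adjacent vertices in a list of vertices, by fast matrix multiplication.
-/

set_option autoImplicit false
set_option linter.unusedSimpArgs false
set_option linter.unusedVariables false

namespace Pool.Agent.H792_Clique

open Pool.Agent.H588R2 Pool.Agent.TH687.HL

/-- A fast bilinear algorithm with bounded coefficients. -/
structure FM (m r M : ℕ) (E1 E2 E3 : ℕ → ℕ → ℤ) : Prop where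
  two : 2 ≤ m
  le : m * m ≤ r
  fast : r ^ 100 < m ^ 249
  ba : BA m r E1 E2 E3
  M1 : 1 ≤ M
  b1 : ∀ s < r, ∀ t < m * m, |E1 s t| ≤ M
  b2 : ∀ s < r, ∀ t < m * m, |E2 s t| ≤ M
  b3 : ∀ s < r, ∀ t < m * m, |E3 s t| ≤ M

theorem exists_FM : ∃ m r M E1 E2 E3, FM m r M E1 E2 E3 := by
  obtain ⟨m, r, E1, E2, E3, h1, h2, h3, h4⟩ := exists_BA
  have key : ∀ E : ℕ → ℕ → ℤ, ∃ M : ℕ, ∀ s < r, ∀ t < m * m, |E s t| ≤ M := by
    intro E
    refine ⟨∑ s ∈ Finset.range r, ∑ t ∈ Finset.range (m * m), (E s t).natAbs, ?_⟩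
    intro s hs t ht
    have e1 : (E s t).natAbs ≤ ∑ t ∈ Finset.range (m * m), (E s t).natAbs :=
      Finset.single_le_sum (f := fun t => (E s t).natAbs) (fun _ _ => Nat.zero_le _)
        (Finset.mem_range.2 ht)
    have e2 : ∑ t ∈ Finset.range (m * m), (E s t).natAbs ≤
        ∑ s ∈ Finset.range r, ∑ t ∈ Finset.range (m * m), (E s t).natAbs :=
      Finset.single_le_sum (f := fun s => ∑ t ∈ Finset.range (m * m), (E s t).natAbs)
        (fun _ _ => Nat.zero_le _) (Finset.mem_range.2 hs)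
    rw [Int.abs_eq_natAbs]
    exact_mod_cast e1.trans e2
  obtain ⟨M1, k1⟩ := key E1
  obtain ⟨M2, k2⟩ := key E2
  obtain ⟨M3, k3⟩ := key E3
  refine ⟨m, r, M1 + M2 + M3 + 1, E1, E2, E3, h1, h2, h3, h4, by omega, ?_, ?_, ?_⟩
  · intro s hs t ht; refine le_trans (k1 s hs t ht) ?_; push_cast; omega
  · intro s hs t ht; refine le_trans (k2 s hs t ht) ?_; push_cast; omega
  · intro s hs t ht; refine le_trans (k3 s hs t ht) ?_; push_cast; omega

/-- Positive and negative part of a table. -/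
def tP (E : ℕ → ℕ → ℤ) (q j : ℕ) : ℕ := (E (j / q) (j % q)).toNat
def tN (E : ℕ → ℕ → ℤ) (q j : ℕ) : ℕ := (-E (j / q) (j % q)).toNat

lemma tPN (E : ℕ → ℕ → ℤ) {q s t : ℕ} (ht : t < q) :
    E s t = (tP E q (s * q + t) : ℤ) - tN E q (s * q + t) := by
  obtain ⟨g1, g2⟩ := dm (a := s) ht
  simp only [tP, tN, g1, g2]
  omega

lemma tP_le {E : ℕ → ℕ → ℤ} {r q M : ℕ} (h : ∀ s < r, ∀ t < q, |E s t| ≤ M) {j : ℕ} (hj : j < r * q) :
    tP E q j ≤ M := by
  have hq : 0 < q := by rcases Nat.eq_zero_or_pos q with h0 | h0; · subst h0; simp at hj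
                        · exact h0
  have h1 := h (j / q) (Nat.div_lt_of_lt_mul (by rwa [Nat.mul_comm] at hj)) (j % q) (Nat.mod_lt _ hq)
  have := (abs_le.1 h1).2
  simp only [tP]; omega

lemma tN_le {E : ℕ → ℕ → ℤ} {r q M : ℕ} (h : ∀ s < r, ∀ t < q, |E s t| ≤ M) {j : ℕ} (hj : j < r * q) :
    tN E q j ≤ M := by
  have hq : 0 < q := by rcases Nat.eq_zero_or_pos q with h0 | h0; · subst h0; simp at hj
                        · exact h0
  have h1 := h (j / q) (Nat.div_lt_of_lt_mul (by rwa [Nat.mul_comm] at hj)) (j % q) (Nat.mod_lt _ hq)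
  have := (abs_le.1 h1).1
  simp only [tN]; omega

/-- Store a table given by a function. -/
def tabF (k : ℕ) (f : ℕ → ℕ) (n : ℕ) : HC := tabC k 0 ((List.range n).map f)

lemma tabF_wr (k : ℕ) (f : ℕ → ℕ) (n : ℕ) : (tabF k f n).wr = [] := tabC_wr _ _ _

theorem tr_tabF {X w : ℕ} (P : PX X w) {B k n : ℕ} (hk : k < 32) (hX : 32 ≤ X) {f : ℕ → ℕ}
    {s : St} {Q : St → Prop} (hb : Bd X s) (h99 : s.reg 99 = B) (hf : ∀ j < n, f j ≤ X)
    (hn : n ≤ X)
    (hQ : ∀ s', Bd X s' → s'.reg = s.reg → Fr [k] B s.mem s'.mem → Fi B s'.mem k n f → Q s') :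
    Tr w (tabF k f n) s (10 * n) Q := by
  have := tr_tab (Q := Q) P (B := B) hk hX (f := f) ((List.range n).map f) 0 s hb h99 (by simp)
    (by simpa using hf) (by simpa using hn) (Fi.zero _ _ _ _) (by simpa using hQ)
  simpa [tabF] using this

/-- Tables and transform. -/
def stageC (m r : ℕ) (E : ℕ → ℕ → ℤ) (kP kN : ℕ) : HC :=
  .seq (tabF 16 (tP E (m * m)) (r * (m * m))) (.seq (tabF 17 (tN E (m * m)) (r * (m * m)))
    (yatC r (m * m) kP kN))

lemma yatC_wr (r q kP kN : ℕ) : ∀ y, y ∉ [10, 11, 12, 13, 14, 22, 23, 24, 25, 26, 27, 28] →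
    y ∉ (yatC r q kP kN).wr := by
  intro y hy
  simp only [yatC, yatLevel, cpC, yatNest_wr, stA, HC.wr, List.mem_append, List.mem_cons,
    List.not_mem_nil, or_false, not_or] at hy ⊢
  tauto

theorem tr_stage {X w : ℕ} (Px : PX X w) {B m r L M kP kN : ℕ} {E : ℕ → ℕ → ℤ} {x : ℕ → ℕ}
    {s0 : St} {Q : St → Prop}
    (hX : 32 ≤ X) (hb0 : Bd X s0) (h99 : s0.reg 99 = B) (hPW : PW m r L s0)
    (hm : 2 ≤ m) (hmr : m * m ≤ r) (hrX : r ^ L ≤ X) (hrX' : r * (m * m) ≤ X)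
    (hM : (2 * (m * m) * M) ^ L ≤ X) (hM1 : 1 ≤ M) (hMX : M ≤ X)
    (hE : ∀ s < r, ∀ t < m * m, |E s t| ≤ M)
    (hkP : kP < 32) (hkN : kN < 32) (hkP' : kP ∉ [11, 12, 13, 14]) (hkN' : kN ∉ [11, 12, 13, 14])
    (hkk : kN ≠ kP)
    (h15 : Fi B s0.mem 15 (L + 1) (fun i => (m * m) ^ i))
    (hx : ∀ i < (m * m) ^ L, x i ≤ 1)
    (hx10 : Fi B s0.mem 10 ((m * m) ^ L) x)
    (hQ : ∀ s', Bd X s' → (∀ y, y ∉ [10, 11, 12, 13, 14, 22, 23, 24, 25, 26, 27, 28] →
        s'.reg y = s0.reg y) →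
      Fr [11, 12, 13, 14, 16, 17, kP, kN] B s0.mem s'.mem →
      Fi B s'.mem kP (r ^ L) (pr r (m * m) L (tP E (m * m)) (tN E (m * m)) x L).1 →
      Fi B s'.mem kN (r ^ L) (pr r (m * m) L (tP E (m * m)) (tN E (m * m)) x L).2 → Q s') :
    Tr w (stageC m r E kP kN) s0
      (20 * (r * (m * m)) + (L + 1) * (r ^ L * (176 * (m * m) + 600))) Q := by
  have hmm : 0 < m * m := by positivity
  refine Tr.mono (T := 10 * (r * (m * m)) + (10 * (r * (m * m)) +
    (L + 1) * (r ^ L * (176 * (m * m) + 600)))) ?_ (by omega) (fun _ h => h)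
  apply Tr.seq
  refine tr_tabF (B := B) Px (by norm_num) hX hb0 h99 (fun j hj => (tP_le hE hj).trans hMX) hrX' ?_
  intro s1 b1 f1 F1 d1
  apply Tr.seq
  refine tr_tabF (B := B) Px (by norm_num) hX b1 (by rw [f1]; exact h99)
    (fun j hj => (tN_le hE hj).trans hMX) hrX' ?_
  intro s2 b2 f2 F2 d2
  have f02 : s2.reg = s0.reg := by rw [f2, f1]
  have F01' : Fr [16, 17] B s0.mem s1.mem := F1.mono (by decide)
  have F12' : Fr [16, 17] B s1.mem s2.mem := F2.mono (by decide)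
  have F02 : Fr [16, 17] B s0.mem s2.mem := F01'.trans F12'
  refine tr_yat (M := M) Px hX b2 (by rw [f02]; exact h99) (by rw [f02]; exact hPW.r4)
    (by rw [f02]; exact hPW.r6) (by rw [f02]; exact hPW.r7) hmm hmr hrX
    (le_trans (Nat.le_mul_of_pos_right _ hmm) hrX') hM (by nlinarith) hkP hkN hkP' hkN' hkk
    (h15.fr F02 (by norm_num) (by decide)) (d1.fr F2 (by norm_num) (by decide)) d2
    (fun j hj => tP_le hE hj) (fun j hj => tN_le hE hj) hx
    (hx10.fr F02 (by norm_num) (by decide)) ?_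
  intro s3 b3 f3 F3 g1 g2
  refine hQ s3 b3 ?_ ?_ g1 g2
  · intro y hy
    rw [f3 y (yatC_wr _ _ _ _ y hy), f02]
  · exact (F02.mono (by simp)).trans (F3.mono (by simp))

/-- Signed sums. -/
def posE : Ex :=
  .add (.mul (ldA 18 (.r 10)) (.add (.mul (ldA 20 (.r 10)) (ldA 22 (.r 10)))
      (.mul (ldA 21 (.r 10)) (ldA 23 (.r 10)))))
    (.mul (ldA 19 (.r 10)) (.add (.mul (ldA 20 (.r 10)) (ldA 23 (.r 10)))
      (.mul (ldA 21 (.r 10)) (ldA 22 (.r 10)))))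

def negE : Ex :=
  .add (.mul (ldA 19 (.r 10)) (.add (.mul (ldA 20 (.r 10)) (ldA 22 (.r 10)))
      (.mul (ldA 21 (.r 10)) (ldA 23 (.r 10)))))
    (.mul (ldA 18 (.r 10)) (.add (.mul (ldA 20 (.r 10)) (ldA 23 (.r 10)))
      (.mul (ldA 21 (.r 10)) (ldA 22 (.r 10)))))

def sumC : HC :=
  .seq (.asg 29 (.c 0)) (.seq (.asg 30 (.c 0)) (.seq
    (.loop 10 7 (.asg 29 (.add (.r 29) posE))) (.seq
    (.loop 10 7 (.asg 30 (.add (.r 30) negE)))
    (.ite (.r 30) (.r 29) (.asg 40 (.c 1)) (.asg 40 (.c 0))))))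

/-- The positive combination of three pairs. -/
def cP (P1 N1 P2 N2 P3 N3 : ℕ) : ℕ := P1 * (P2 * P3 + N2 * N3) + N1 * (P2 * N3 + N2 * P3)

theorem tr_sum {X w : ℕ} (Px : PX X w) {B R K : ℕ} {P1 N1 P2 N2 P3 N3 : ℕ → ℕ} {s0 : St}
    {Q : St → Prop}
    (hX : 32 ≤ X) (hb0 : Bd X s0) (h99 : s0.reg 99 = B) (h7 : s0.reg 7 = R)
    (d1 : Fi B s0.mem 18 R P1) (e1 : Fi B s0.mem 19 R N1)
    (d2 : Fi B s0.mem 20 R P2) (e2 : Fi B s0.mem 21 R N2)
    (d3 : Fi B s0.mem 22 R P3) (e3 : Fi B s0.mem 23 R N3)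
    (k1 : ∀ i < R, P1 i ≤ K ∧ N1 i ≤ K) (k2 : ∀ i < R, P2 i ≤ K ∧ N2 i ≤ K)
    (k3 : ∀ i < R, P3 i ≤ K ∧ N3 i ≤ K) (hKX : 4 * (K * (K * K)) * R ≤ X)
    (hQ : ∀ s', Bd X s' → (∀ y, y ∉ [10, 29, 30, 40] → s'.reg y = s0.reg y) → s'.mem = s0.mem →
      s'.reg 40 = (if 0 < ∑ σ ∈ Finset.range R, ((P1 σ : ℤ) - N1 σ) * ((P2 σ : ℤ) - N2 σ) *
        ((P3 σ : ℤ) - N3 σ) then 1 else 0) → Q s') :
    Tr w sumC s0 (300 * (R + 1)) Q := by
  refine Tr.mono (T := 5 + (5 + ((R * 140 + 3) + ((R * 140 + 3) + 20)))) ?_ (by omega)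
    (fun _ h => h)
  have hcost : posE.cost = 109 ∧ negE.cost = 109 := by
    constructor <;> simp [posE, negE, Ex.cost]
  have hcsP : cs X posE := by simp [posE, cs]; omega
  have hcsN : cs X negE := by simp [negE, cs]; omega
  have hszP : sz posE = 40 := by simp [posE, sz]
  have hszN : sz negE = 40 := by simp [negE, sz]
  have bnd : ∀ (a1 b1 a2 b2 a3 b3 : ℕ), a1 ≤ K → b1 ≤ K → a2 ≤ K → b2 ≤ K → a3 ≤ K → b3 ≤ K →
      cP a1 b1 a2 b2 a3 b3 ≤ 4 * (K * (K * K)) := by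
    intro a1 b1 a2 b2 a3 b3 h1 h2 h3 h4 h5 h6
    have m1 : a2 * a3 + b2 * b3 ≤ 2 * (K * K) := by
      have := Nat.mul_le_mul h3 h5
      have := Nat.mul_le_mul h4 h6
      omega
    have m2 : a2 * b3 + b2 * a3 ≤ 2 * (K * K) := by
      have := Nat.mul_le_mul h3 h6
      have := Nat.mul_le_mul h4 h5
      omega
    unfold cP
    have := Nat.mul_le_mul h1 m1
    have := Nat.mul_le_mul h2 m2
    nlinarith
  have sP : ∀ (F : ℕ → ℕ), (∀ i < R, F i ≤ 4 * (K * (K * K))) → ∑ i ∈ Finset.range R, F i ≤ X := by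
    intro F hF
    refine le_trans (Finset.sum_le_sum (g := fun _ => 4 * (K * (K * K))) fun i hi =>
      hF i (Finset.mem_range.1 hi)) ?_
    rw [Finset.sum_const, Finset.card_range, smul_eq_mul, Nat.mul_comm]
    exact hKX
  have rd : ∀ i < R, ∀ s' : St, s'.mem = s0.mem → s'.reg 99 = B → s'.reg 10 = i →
      posE.ev s' = cP (P1 i) (N1 i) (P2 i) (N2 i) (P3 i) (N3 i) ∧
      negE.ev s' = cP (N1 i) (P1 i) (P2 i) (N2 i) (P3 i) (N3 i) := by
    intro i hi s' w1 w2 w3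
    simp only [posE, negE, Ex.ev, ldA_ev, w1, w2, w3, d1 i hi, e1 i hi, d2 i hi, e2 i hi, d3 i hi,
      e3 i hi, cP, and_self]
  apply Tr.seq
  refine Tb.asgv Px hb0 (v := 0) rfl (by omega) (by simp [cs]) (by simp [sz]) (by simp [Ex.cost]) ?_
  intro b1
  apply Tr.seq
  refine Tb.asgv Px b1 (v := 0) rfl (by omega) (by simp [cs]) (by simp [sz]) (by simp [Ex.cost]) ?_
  intro b2
  set s2 := (s0.set 29 0).set 30 0 with hs2
  have m2 : s2.mem = s0.mem := rfl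
  have f2 : ∀ y, y ∉ [10, 29, 30, 40] → s2.reg y = s0.reg y := by
    intro y hy
    simp only [List.mem_cons, List.not_mem_nil, or_false, not_or] at hy
    simp [hs2, set_reg, hy]
  have q29 : s2.reg 29 = 0 := by simp [hs2, set_reg]
  have q30 : s2.reg 30 = 0 := by simp [hs2, set_reg]
  clear_value s2
  set A : ℕ := ∑ i ∈ Finset.range R, cP (P1 i) (N1 i) (P2 i) (N2 i) (P3 i) (N3 i) with hA
  set D : ℕ := ∑ i ∈ Finset.range R, cP (N1 i) (P1 i) (P2 i) (N2 i) (P3 i) (N3 i) with hD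
  have hAX : A ≤ X := sP _ fun i hi => bnd _ _ _ _ _ _ (k1 i hi).1 (k1 i hi).2 (k2 i hi).1
    (k2 i hi).2 (k3 i hi).1 (k3 i hi).2
  have hDX : D ≤ X := sP _ fun i hi => bnd _ _ _ _ _ _ (k1 i hi).2 (k1 i hi).1 (k2 i hi).1
    (k2 i hi).2 (k3 i hi).1 (k3 i hi).2
  apply Tr.seq
  refine Tb.sumLoop Px b2 (N := R) ((f2 7 (by decide)).trans h7) (by norm_num) (by norm_num)
    (by norm_num) hcsP (by rw [hszP]; norm_num) (by rw [hcost.1]; omega)
    (f := fun i => cP (P1 i) (N1 i) (P2 i) (N2 i) (P3 i) (N3 i)) ?_ ?_ ?_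
  · intro i hi v
    refine (rd i hi ((s2.set 10 i).set 29 v) m2 ?_ ?_).1
    · simp [set_reg, f2 99 (by decide), h99]
    · simp [set_reg]
  · rw [q29, ← hA]; omega
  intro b3
  rw [q29, ← hA, Nat.zero_add] at b3 ⊢
  set s3 := (s2.set 10 R).set 29 A with hs3
  have m3 : s3.mem = s0.mem := m2
  have f3 : ∀ y, y ∉ [10, 29, 30, 40] → s3.reg y = s0.reg y := by
    intro y hy
    have hy' := hy
    simp only [List.mem_cons, List.not_mem_nil, or_false, not_or] at hy'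
    simp [hs3, set_reg, hy', f2 y hy]
  have u29 : s3.reg 29 = A := by simp [hs3, set_reg]
  have u30 : s3.reg 30 = 0 := by simp [hs3, set_reg, q30]
  clear_value s3
  apply Tr.seq
  refine Tb.sumLoop Px b3 (N := R) ((f3 7 (by decide)).trans h7) (by norm_num) (by norm_num)
    (by norm_num) hcsN (by rw [hszN]; norm_num) (by rw [hcost.2]; omega)
    (f := fun i => cP (N1 i) (P1 i) (P2 i) (N2 i) (P3 i) (N3 i)) ?_ ?_ ?_
  · intro i hi v
    refine (rd i hi ((s3.set 10 i).set 30 v) m3 ?_ ?_).2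
    · simp [set_reg, f3 99 (by decide), h99]
    · simp [set_reg]
  · rw [u30, ← hD]; omega
  intro b4
  rw [u30, ← hD, Nat.zero_add] at b4 ⊢
  set s4 := (s3.set 10 R).set 30 D with hs4
  have m4 : s4.mem = s0.mem := m3
  have f4 : ∀ y, y ∉ [10, 29, 30, 40] → s4.reg y = s0.reg y := by
    intro y hy
    have hy' := hy
    simp only [List.mem_cons, List.not_mem_nil, or_false, not_or] at hy'
    simp [hs4, set_reg, hy', f3 y hy]
  have v29 : s4.reg 29 = A := by simp [hs4, set_reg, u29]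
  have v30 : s4.reg 30 = D := by simp [hs4, set_reg]
  clear_value s4
  have hsum : ∑ σ ∈ Finset.range R, ((P1 σ : ℤ) - N1 σ) * ((P2 σ : ℤ) - N2 σ) *
      ((P3 σ : ℤ) - N3 σ) = (A : ℤ) - D := by
    rw [hA, hD]
    push_cast
    rw [← Finset.sum_sub_distrib]
    refine Finset.sum_congr rfl fun i _ => ?_
    simp only [cP]; push_cast; ring
  have fin : ∀ v : ℕ, v ≤ 1 → v = (if D < A then 1 else 0) →
      Tr w (.asg 40 (.c v)) s4 5 Q := by
    intro v hv1 hv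
    refine Tb.asgv Px b4 (v := v) rfl (by omega) (by simp [cs]; omega) (by simp [sz])
      (by simp [Ex.cost]) ?_
    intro b5
    refine hQ _ b5 ?_ m4 ?_
    · intro y hy
      have hy' := hy
      simp only [List.mem_cons, List.not_mem_nil, or_false, not_or] at hy'
      simp [set_reg, hy', f4 y hy]
    · simp only [St.set_reg_self]
      rw [hsum, hv]
      by_cases hc : D < A
      · rw [if_pos hc, if_pos (by omega)]
      · rw [if_neg hc, if_neg (by omega)]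
  refine Tb.ite Px b4 (by simp [cs]) (by simp [sz]) (by simp [cs]) (by simp [sz]) (T := 5)
    (by simp [Ex.cost]) ?_ ?_
  · intro hlt
    simp only [Ex.ev, v29, v30] at hlt
    exact fin 1 le_rfl (by rw [if_pos hlt])
  · intro hlt
    simp only [Ex.ev, v29, v30] at hlt
    exact fin 0 (by norm_num) (by rw [if_neg hlt])

end Pool.Agent.H792_Clique
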