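import Mathlib

/-!
Bounds for the subroutine.
-/

set_option autoImplicit false

namespace Pool.Agent.H792_Clique

/-- Time bound of the subroutine on a list of length `n`. -/
def tn (m r n : ℕ) : ℕ := (Nat.clog m (n * n * n) + 1) * (r ^ Nat.clog m (n * n * n) *
  (6000 + 60 * (r * (m * m)) + 528 * (m * m)))

/-- Base of the bound for the numbers. -/
def K1 (m r M : ℕ) : ℕ := 4 * ((2 * (m * m) * M) ^ 3 * (r * (m * m)))

end Pool.Agent.H792_Clique
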