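import Pool.Agent.H792_Clique.NineL
import Pool.Agent.H792_Clique.TDefs

/-!
Nine pairwise adjacent vertices in a list of vertices: the whole subroutine.
-/

set_option autoImplicit false
set_option linter.unusedSimpArgs false
set_option linter.unusedVariables false

namespace Pool.Agent.H792_Clique

open Pool.Agent.H588R2 Pool.Agent.TH687.HL

/-- The subroutine. -/
def nineC (m r : ℕ) (E1 E2 E3 : ℕ → ℕ → ℤ) : HC :=
  .seq tripC (.seq (powA m r) (.seq (powB m) (.seq (idxC m) (.seq matC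
    (.seq (stageC m r E1 18 19) (.seq (stageC m r E2 20 21) (.seq (stageC m r E3 22 23) sumC)))))))

/-- Registers used by the subroutine. -/
def nineW : List ℕ := [2, 3, 4, 5, 6, 7, 10, 11, 12, 13, 14, 20, 21, 22, 23, 24, 25, 26, 27, 28, 29,
  30, 31, 32, 33, 34, 35, 36, 37, 38, 39, 40]

lemma nm {l l' : List ℕ} (h : ∀ x ∈ l, x ∈ l') {y : ℕ} (hy : y ∉ l') : y ∉ l :=
  fun h' => hy (h y h')

lemma nineC_wr (m r : ℕ) (E1 E2 E3 : ℕ → ℕ → ℤ) : ∀ y, y ∉ nineW → y ∉ (nineC m r E1 E2 E3).wr := by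
  intro y hy
  have h1 : y ∉ tripC.wr := by
    exact fun h => hy ((by decide : ∀ x ∈ tripC.wr, x ∈ nineW) y h)
  have h2 : y ∉ (powA m r).wr :=
    fun h => hy ((by decide : ∀ x ∈ (powA 0 0).wr, x ∈ nineW) y h)
  have h3 : y ∉ (powB m).wr :=
    fun h => hy ((by decide : ∀ x ∈ (powB 0).wr, x ∈ nineW) y h)
  have h4 : y ∉ (idxC m).wr :=
    fun h => hy ((by decide : ∀ x ∈ (idxC 0).wr, x ∈ nineW) y h)
  have h5 : y ∉ matC.wr :=
    fun h => hy ((by decide : ∀ x ∈ matC.wr, x ∈ nineW) y h)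
  have h6 : ∀ E kP kN, y ∉ (stageC m r E kP kN).wr := by
    intro E kP kN
    simp only [stageC, HC.wr, tabF_wr, List.mem_append, List.not_mem_nil, false_or]
    apply yatC_wr
    exact fun h => hy ((by decide : ∀ x ∈ [10, 11, 12, 13, 14, 22, 23, 24, 25, 26, 27, 28],
      x ∈ nineW) y h)
  have h7 : y ∉ sumC.wr :=
    fun h => hy ((by decide : ∀ x ∈ sumC.wr, x ∈ nineW) y h)
  simp only [nineC, HC.wr, List.mem_append, not_or]
  exact ⟨h1, h2, h3, h4, h5, h6 _ _ _, h6 _ _ _, h6 _ _ _, h7⟩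

/-- Time of the steps after the computation of the number of levels. -/
def tL (m r L : ℕ) : ℕ :=
  60 * (L + 1) + (200 * ((m * m) ^ L + 1) + (400 * ((m * m) ^ L + 1) +
      ((20 * (r * (m * m)) + (L + 1) * (r ^ L * (176 * (m * m) + 600))) +
      ((20 * (r * (m * m)) + (L + 1) * (r ^ L * (176 * (m * m) + 600))) +
      ((20 * (r * (m * m)) + (L + 1) * (r ^ L * (176 * (m * m) + 600))) + 300 * (r ^ L + 1))))))

lemma L_le {m N L : ℕ} (hm : 2 ≤ m) (h : L = 0 ∨ m ^ (L - 1) < N) : L ≤ Nat.clog m N := by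
  rcases h with h0 | h0
  · omega
  · have : L - 1 < Nat.clog m N := (Nat.lt_clog_iff_pow_lt (by omega)).2 h0
    omega

lemma tL_le {m r n L : ℕ} (hm2 : 2 ≤ m) (hmr : m * m ≤ r)
    (h : L = 0 ∨ m ^ (L - 1) < n * n * n) (h' : n * n * n ≤ m ^ L) :
    tL m r L + (200 * (n + 1) ^ 3 + 60 * (n * n * n + 1)) ≤ tn m r n := by
  have hLL := L_le hm2 h
  have hmm : 4 ≤ m * m := by nlinarith
  have hr1 : 1 ≤ r ^ L := Nat.one_le_pow _ _ (by omega)
  have hq1 : (m * m) ^ L ≤ r ^ L := Nat.pow_le_pow_left hmr _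
  have hm1 : m ^ L ≤ r ^ L := Nat.pow_le_pow_left (by nlinarith) _
  have hm1' : 1 ≤ m ^ L := Nat.one_le_pow _ _ (by omega)
  have hn3 : (n + 1) ^ 3 ≤ 8 * m ^ L := by
    rcases Nat.eq_zero_or_pos n with h0 | h0
    · subst h0
      omega
    · have : (n + 1) ^ 3 ≤ (2 * n) ^ 3 := Nat.pow_le_pow_left (by omega) 3
      have e : (2 * n) ^ 3 = 8 * (n * n * n) := by ring
      omega
  have h1 : (L + 1) * (r ^ L * (6000 + 60 * (r * (m * m)) + 528 * (m * m))) ≤ tn m r n := by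
    unfold tn
    refine Nat.mul_le_mul (by omega) (Nat.mul_le_mul (Nat.pow_le_pow_right (by omega) hLL) le_rfl)
  refine le_trans ?_ h1
  have e1 : r ^ L ≤ (L + 1) * r ^ L := Nat.le_mul_of_pos_left _ (by omega)
  have e2 : L + 1 ≤ (L + 1) * r ^ L := Nat.le_mul_of_pos_right _ hr1
  obtain ⟨Z, hZ⟩ : ∃ Z, Z = (L + 1) * r ^ L := ⟨_, rfl⟩
  have e3 : (L + 1) * (r ^ L * (176 * (m * m) + 600)) = Z * (176 * (m * m) + 600) := by
    rw [hZ]; ring
  have e4 : (L + 1) * (r ^ L * (6000 + 60 * (r * (m * m)) + 528 * (m * m))) =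
      6000 * Z + 60 * (Z * (r * (m * m))) + 528 * (Z * (m * m)) := by rw [hZ]; ring
  have e3' : Z * (176 * (m * m) + 600) = 176 * (Z * (m * m)) + 600 * Z := by ring
  unfold tL
  rw [e3, e4, e3']
  rw [← hZ] at e1 e2
  have e5 : 1 ≤ Z := by omega
  have e6 : r * (m * m) ≤ Z * (r * (m * m)) := Nat.le_mul_of_pos_left _ e5
  clear e3 e4 e3' hZ h1
  generalize Z * (r * (m * m)) = a1 at *
  generalize r * (m * m) = a2 at *
  generalize Z * (m * m) = a3 at *
  generalize (m * m) ^ L = a4 at *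
  generalize r ^ L = a5 at *
  generalize (n + 1) ^ 3 = a6 at *
  generalize n * n * n = a7 at *
  generalize m ^ L = a8 at *
  clear h hLL hmr hmm
  omega

theorem tr_nine {X w : ℕ} (Px : PX X w) {m r M : ℕ} {E1 E2 E3 : ℕ → ℕ → ℤ} (H : FM m r M E1 E2 E3)
    {p n : ℕ} {g : ℕ → ℕ → ℕ} {Ls : ℕ → ℕ} {s0 : St} {Q : St → Prop}
    (hX : 32 ≤ X) (hXK : K1 m r M ^ (Nat.clog m (n * n * n) + 1) ≤ X) (hXn : n * n * n ≤ X)
    (hXn2 : n * n ≤ X) (hb0 : Bd X s0) (h98 : s0.reg 98 = p) (h99 : s0.reg 99 = p * p)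
    (h1 : s0.reg 1 = n) (hg : ∀ u v, g u v ≤ 1) (hsym : ∀ u v, g u v = g v u)
    (hG : GM p g s0.mem) (hL : Fi (p * p) s0.mem 4 n Ls) (hLp : ∀ i < n, Ls i < p)
    (hQ : ∀ s', Bd X s' → (∀ y, y ∉ nineW → s'.reg y = s0.reg y) →
      Fr [5, 6, 7, 8, 9, 10, 11, 12, 13, 14, 15, 16, 17, 18, 19, 20, 21, 22, 23] (p * p)
        s0.mem s'.mem → (NineL g n Ls → s'.reg 40 = 1) → (¬ NineL g n Ls → s'.reg 40 = 0) → Q s') :
    Tr w (nineC m r E1 E2 E3) s0 (tn m r n) Q := by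
  set N := n * n * n with hN
  have hm2 := H.two
  have hmr := H.le
  have hM1 := H.M1
  have hmm : 4 ≤ m * m := Nat.mul_le_mul hm2 hm2
  set κ := 2 * (m * m) * M with hκ
  have hκ8 : 8 ≤ κ := by
    have h := Nat.mul_le_mul (Nat.mul_le_mul (le_refl 2) hmm) hM1
    rw [hκ]; simpa using h
  have hκ3 : 512 ≤ κ ^ 3 := by
    calc 512 = 8 ^ 3 := by norm_num
      _ ≤ κ ^ 3 := Nat.pow_le_pow_left hκ8 3
  set Lc := Nat.clog m N with hLc
  have hrq : 16 ≤ r * (m * m) := Nat.mul_le_mul (hmm.trans hmr) hmm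
  have hK1 : K1 m r M = 4 * (κ ^ 3 * (r * (m * m))) := rfl
  have hK1pos : 1 ≤ K1 m r M := by
    rw [hK1]
    have : 1 ≤ κ ^ 3 * (r * (m * m)) := Nat.mul_pos (by omega) (by omega)
    omega
  have hLc' : ∀ L, (L = 0 ∨ m ^ (L - 1) < N) → L ≤ Lc := fun L h => L_le hm2 h
  have big : ∀ L ≤ Lc, ∀ c d : ℕ, c ≤ K1 m r M → d ≤ K1 m r M → c * d ^ L ≤ X := by
    intro L hLL c d hc hd
    calc c * d ^ L ≤ K1 m r M * K1 m r M ^ L := Nat.mul_le_mul hc (Nat.pow_le_pow_left hd _)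
      _ = K1 m r M ^ (L + 1) := by rw [pow_succ]; ring
      _ ≤ K1 m r M ^ (Lc + 1) := Nat.pow_le_pow_right hK1pos (by omega)
      _ ≤ X := hXK
  have crq : r * (m * m) ≤ K1 m r M := by
    rw [hK1]
    have : r * (m * m) ≤ κ ^ 3 * (r * (m * m)) := Nat.le_mul_of_pos_left _ (by omega)
    omega
  have cr : r ≤ K1 m r M := le_trans (Nat.le_mul_of_pos_right _ (by omega)) crq
  have cq : m * m ≤ K1 m r M := hmr.trans cr
  have cκ : κ ≤ K1 m r M := by
    rw [hK1]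
    have h1 : κ ≤ κ ^ 3 := Nat.le_self_pow (by norm_num) κ
    have h2 : κ ^ 3 ≤ κ ^ 3 * (r * (m * m)) := Nat.le_mul_of_pos_right _ (by omega)
    omega
  have cκr : κ ^ 3 * r ≤ K1 m r M := by
    rw [hK1]
    have : κ ^ 3 * r ≤ κ ^ 3 * (r * (m * m)) :=
      Nat.mul_le_mul_left _ (Nat.le_mul_of_pos_right _ (by omega))
    omega
  have cM : M ≤ K1 m r M := by
    have : M ≤ κ := by rw [hκ]; exact Nat.le_mul_of_pos_left _ (by omega)
    omega
  have cX : ∀ c, c ≤ K1 m r M → c ≤ X := fun c hc => by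
    have := big 0 (Nat.zero_le _) c 1 hc (by omega)
    simpa using this
  have hex : 200 * (n + 1) ^ 3 + 60 * (N + 1) ≤ tn m r n := by
    refine le_trans (Nat.le_add_left _ _) (tL_le (L := Lc) hm2 hmr ?_ (Nat.le_pow_clog (by omega) _))
    rcases Nat.eq_zero_or_pos Lc with h0 | h0
    · left; exact h0
    · right
      have h1' : Lc - 1 < Nat.clog m N := by rw [← hLc]; exact Nat.sub_lt h0 Nat.one_pos
      exact (Nat.lt_clog_iff_pow_lt (by omega)).1 h1'
  refine Tr.mono (T := 200 * (n + 1) ^ 3 + (60 * (N + 1) +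
    (tn m r n - (200 * (n + 1) ^ 3 + 60 * (N + 1))))) ?_
    (by rw [← Nat.add_assoc, Nat.add_sub_cancel' hex]) (fun _ h => h)
  apply Tr.seq
  refine tr_trip Px hX hb0 h99 h1 hL hXn hXn2 ?_
  intro s1 b1 f1 r2 r3 hT
  rw [← hN] at r3 hT
  have k1 : ∀ y, y ∉ [2, 3, 10, 11, 12] → s1.reg y = s0.reg y := f1
  apply Tr.seq
  refine tr_powA Px hX hm2 hmr (cX r cr) ?_ b1 r3 ?_
  · intro L hL'
    have := big L (hLc' L hL') 1 r (by omega) cr
    simpa using this
  intro s2 L b2 m2 f2 hPW hNL hL'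
  have hLL := hLc' L hL'
  have k2 : ∀ y, y ∉ [4, 5, 6, 7, 10] → s2.reg y = s1.reg y := by
    intro y hy
    exact f2 y fun h => hy ((by decide : ∀ x ∈ (powA 0 0).wr, x ∈ [4, 5, 6, 7, 10]) y h)
  refine Tr.mono (T := tL m r L) ?_ (Nat.le_sub_of_add_le (tL_le hm2 hmr hL' hNL)) (fun _ h => h)
  have hqX : (m * m) ^ L ≤ X := by
    have := big L hLL 1 (m * m) (by omega) cq
    simpa using this
  have hrX : r ^ L ≤ X := by
    have := big L hLL 1 r (by omega) cr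
    simpa using this
  have hκX : κ ^ L ≤ X := by
    have := big L hLL 1 κ (by omega) cκ
    simpa using this
  apply Tr.seq
  refine tr_powB Px hX hm2 (cX _ cq) hqX b2 hPW.r4 (B := p * p) ?_ ?_
  · rw [k2 99 (by decide), k1 99 (by decide), h99]
  intro s3 b3 f3 F3 d3
  have k3 : ∀ y, y ∉ [10] → s3.reg y = s2.reg y := by
    intro y hy
    exact f3 y fun h => hy ((by decide : ∀ x ∈ (powB 0).wr, x ∈ [10]) y h)
  apply Tr.seq
  refine tr_idx Px hX hm2 (cX _ cq) hqX b3 (L := L) (B := p * p) ?_ ?_ d3 ?_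
  · rw [k3 4 (by decide), hPW.r4]
  · rw [k3 99 (by decide), k2 99 (by decide), k1 99 (by decide), h99]
  intro s4 b4 f4 F4 d8 d9
  have k4 : ∀ y, y ∉ [20, 21, 10, 11, 12] → s4.reg y = s3.reg y := by
    intro y hy
    exact f4 y fun h => hy ((by decide : ∀ x ∈ (idxC 0).wr, x ∈ [20, 21, 10, 11, 12]) y h)
  have F02 : Fr [5, 6, 7] (p * p) s0.mem s2.mem := by rw [m2]; exact hT.fr
  have F14 : Fr [15, 8, 9] (p * p) s2.mem s4.mem :=
    (F3.mono (K' := [15, 8, 9]) (by decide)).trans (F4.mono (by decide))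
  have F04 : Fr [5, 6, 7, 15, 8, 9] (p * p) s0.mem s4.mem :=
    (F02.mono (K' := [5, 6, 7, 15, 8, 9]) (by decide)).trans (F14.mono (by decide))
  have t5 : Fi (p * p) s2.mem 5 N (fun i => Ls (i / (n * n))) := by rw [m2]; exact hT.d1
  have t6 : Fi (p * p) s2.mem 6 N (fun i => Ls (i / n % n)) := by rw [m2]; exact hT.d2
  have t7 : Fi (p * p) s2.mem 7 N (fun i => Ls (i % n)) := by rw [m2]; exact hT.d3
  have hn0 : ∀ i < N, 0 < n := by
    intro i hi
    rcases Nat.eq_zero_or_pos n with h0 | h0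
    · rw [hN, h0] at hi; simp at hi
    · exact h0
  apply Tr.seq
  refine tr_mat Px hX b4 (p := p) (N := N) (S := (m * m) ^ L) (g := g)
    (D1 := fun i => Ls (i / (n * n))) (D2 := fun i => Ls (i / n % n)) (D3 := fun i => Ls (i % n))
    (rf := rowF m L) (cf := colF m L) ?_ ?_ ?_ ?_ hg (hG.fr F04)
    (t5.fr F14 (by norm_num) (by decide)) (t6.fr F14 (by norm_num) (by decide))
    (t7.fr F14 (by norm_num) (by decide)) ?_ ?_ ?_ d8 d9 ?_
  · rw [k4 98 (by decide), k3 98 (by decide), k2 98 (by decide), k1 98 (by decide), h98]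
  · rw [k4 99 (by decide), k3 99 (by decide), k2 99 (by decide), k1 99 (by decide), h99]
  · rw [k4 3 (by decide), k3 3 (by decide), k2 3 (by decide), r3]
  · rw [k4 6 (by decide), k3 6 (by decide), hPW.r6]
  · intro i hi
    exact hLp _ (Nat.div_lt_of_lt_mul hi)
  · intro i hi
    exact hLp _ (Nat.mod_lt _ (hn0 i hi))
  · intro i hi
    exact hLp _ (Nat.mod_lt _ (hn0 i hi))
  intro s5 b5 f5 F5 d10
  have k5 : ∀ y, y ∉ [10, 31, 32, 39, 33, 34, 35, 36, 37, 38] → s5.reg y = s4.reg y := by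
    intro y hy
    exact f5 y fun h =>
      hy ((by decide : ∀ x ∈ matC.wr, x ∈ [10, 31, 32, 39, 33, 34, 35, 36, 37, 38]) y h)
  set x : ℕ → ℕ := fun τ => XXm g N (fun i => Ls (i / (n * n))) (fun i => Ls (i / n % n))
    (fun i => Ls (i % n)) (rowF m L τ) (colF m L τ) with hx
  have hx1 : ∀ i < (m * m) ^ L, x i ≤ 1 := by
    intro i _
    simp only [hx, XXm]
    split_ifs
    · exact six_le (p := p) hg _ _ _ _ _ _
    · omega
  have PW5 : PW m r L s5 := by
    refine ⟨?_, ?_, ?_, ?_⟩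
    · rw [k5 4 (by decide), k4 4 (by decide), k3 4 (by decide), hPW.r4]
    · rw [k5 5 (by decide), k4 5 (by decide), k3 5 (by decide), hPW.r5]
    · rw [k5 6 (by decide), k4 6 (by decide), k3 6 (by decide), hPW.r6]
    · rw [k5 7 (by decide), k4 7 (by decide), k3 7 (by decide), hPW.r7]
  have h99' : s5.reg 99 = p * p := by
    rw [k5 99 (by decide), k4 99 (by decide), k3 99 (by decide), k2 99 (by decide),
      k1 99 (by decide), h99]
  have F35 : Fr [8, 9, 10] (p * p) s3.mem s5.mem :=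
    (F4.mono (K' := [8, 9, 10]) (by decide)).trans (F5.mono (by decide))
  have d15 : Fi (p * p) s5.mem 15 (L + 1) (fun i => (m * m) ^ i) :=
    d3.fr F35 (by norm_num) (by decide)
  apply Tr.seq
  refine tr_stage Px hX b5 h99' PW5 hm2 hmr hrX (cX _ crq) hκX hM1 (cX _ cM) H.b1
    (kP := 18) (kN := 19) (by norm_num) (by norm_num) (by decide) (by decide) (by norm_num)
    d15 hx1 d10 ?_
  intro s6 b6 f6 F6 p1 n1
  have PW6 : PW m r L s6 := ⟨(f6 4 (by decide)).trans PW5.r4, (f6 5 (by decide)).trans PW5.r5,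
    (f6 6 (by decide)).trans PW5.r6, (f6 7 (by decide)).trans PW5.r7⟩
  apply Tr.seq
  refine tr_stage Px hX b6 ((f6 99 (by decide)).trans h99') PW6 hm2 hmr hrX (cX _ crq) hκX hM1
    (cX _ cM) H.b2
    (kP := 20) (kN := 21) (by norm_num) (by norm_num) (by decide) (by decide) (by norm_num)
    (d15.fr F6 (by norm_num) (by decide)) hx1 (d10.fr F6 (by norm_num) (by decide)) ?_
  intro s7 b7 f7 F7 p2 n2
  have PW7 : PW m r L s7 := ⟨(f7 4 (by decide)).trans PW6.r4, (f7 5 (by decide)).trans PW6.r5,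
    (f7 6 (by decide)).trans PW6.r6, (f7 7 (by decide)).trans PW6.r7⟩
  apply Tr.seq
  refine tr_stage Px hX b7 ((f7 99 (by decide)).trans ((f6 99 (by decide)).trans h99')) PW7 hm2 hmr
    hrX (cX _ crq) hκX hM1 (cX _ cM) H.b3
    (kP := 22) (kN := 23) (by norm_num) (by norm_num) (by decide) (by decide) (by norm_num)
    ((d15.fr F6 (by norm_num) (by decide)).fr F7 (by norm_num) (by decide)) hx1
    ((d10.fr F6 (by norm_num) (by decide)).fr F7 (by norm_num) (by decide)) ?_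
  intro s8 b8 f8 F8 p3 n3
  have kk8 : ∀ y, y ∉ [10, 11, 12, 13, 14, 22, 23, 24, 25, 26, 27, 28] → s8.reg y = s5.reg y := by
    intro y hy
    rw [f8 y hy, f7 y hy, f6 y hy]
  have hle : ∀ E : ℕ → ℕ → ℤ, (∀ s < r, ∀ t < m * m, |E s t| ≤ M) → ∀ i < r ^ L,
      (pr r (m * m) L (tP E (m * m)) (tN E (m * m)) x L).1 i ≤ κ ^ L ∧
      (pr r (m * m) L (tP E (m * m)) (tN E (m * m)) x L).2 i ≤ κ ^ L := by
    intro E hE i hi
    exact pr_le (M := M) (by omega) (by omega) (fun j hj => tP_le hE hj) (fun j hj => tN_le hE hj)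
      hx1 L le_rfl i (by simpa using hi)
  refine tr_sum Px hX b8 (B := p * p) (R := r ^ L) (K := κ ^ L) ?_ ?_
    ((p1.fr F7 (by norm_num) (by decide)).fr F8 (by norm_num) (by decide))
    ((n1.fr F7 (by norm_num) (by decide)).fr F8 (by norm_num) (by decide))
    (p2.fr F8 (by norm_num) (by decide)) (n2.fr F8 (by norm_num) (by decide)) p3 n3
    (hle E1 H.b1) (hle E2 H.b2) (hle E3 H.b3) ?_ ?_
  · rw [kk8 99 (by decide), h99']
  · rw [kk8 7 (by decide), PW5.r7]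
  · have := big L hLL 4 (κ ^ 3 * r) (by
      rw [hK1]; exact Nat.le_mul_of_pos_right _ (Nat.mul_pos (by omega) (by omega))) cκr
    have e : ∀ a b c : ℕ, 4 * (a ^ c * (a ^ c * a ^ c)) * b ^ c = 4 * (a ^ 3 * b) ^ c := by
      intro a b c
      rw [mul_pow, ← pow_mul]
      ring
    refine le_trans (le_of_eq ?_) this
    exact e κ r L
  intro s9 b9 f9 m9 r40
  have hFr : Fr [5, 6, 7, 8, 9, 10, 11, 12, 13, 14, 15, 16, 17, 18, 19, 20, 21, 22, 23] (p * p)
        s0.mem s9.mem := by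
    rw [m9]
    refine (F04.mono (by decide)).trans ((F5.mono ?_).trans ((F6.mono ?_).trans ((F7.mono ?_).trans
      (F8.mono ?_)))) <;> decide
  have hiff : (0 < ∑ σ ∈ Finset.range (r ^ L),
      (((pr r (m * m) L (tP E1 (m * m)) (tN E1 (m * m)) x L).1 σ : ℤ) -
        (pr r (m * m) L (tP E1 (m * m)) (tN E1 (m * m)) x L).2 σ) *
      (((pr r (m * m) L (tP E2 (m * m)) (tN E2 (m * m)) x L).1 σ : ℤ) -
        (pr r (m * m) L (tP E2 (m * m)) (tN E2 (m * m)) x L).2 σ) *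
      (((pr r (m * m) L (tP E3 (m * m)) (tN E3 (m * m)) x L).1 σ : ℤ) -
        (pr r (m * m) L (tP E3 (m * m)) (tN E3 (m * m)) x L).2 σ)) ↔ NineL g n Ls := by
    rw [← nine_iff hsym (le_trans (le_of_eq hN.symm) hNL), ← hN]
    rw [← (trace_pos (by omega) H.ba L (XXm g N (fun i => Ls (i / (n * n)))
      (fun i => Ls (i / n % n)) (fun i => Ls (i % n))) (fun τ => (x τ : ℤ)) (fun τ _ => rfl)).2]
    have hspec : ∀ E : ℕ → ℕ → ℤ, ∀ σ ∈ Finset.range (r ^ L),
        (((pr r (m * m) L (tP E (m * m)) (tN E (m * m)) x L).1 σ : ℤ) -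
        (pr r (m * m) L (tP E (m * m)) (tN E (m * m)) x L).2 σ) =
        FF E r (m * m) L (fun τ => (x τ : ℤ)) L σ := by
      intro E σ hσ
      exact pr_spec (by omega) (by omega) (fun s _ t ht => tPN E ht) x L le_rfl σ
        (by simpa using Finset.mem_range.1 hσ)
    rw [Finset.sum_congr rfl fun σ hσ => by rw [hspec E1 σ hσ, hspec E2 σ hσ, hspec E3 σ hσ]]
  refine hQ s9 b9 ?_ hFr ?_ ?_
  · intro y hy
    rw [f9 y (nm (by decide) hy), kk8 y (nm (by decide) hy), k5 y (nm (by decide) hy),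
      k4 y (nm (by decide) hy), k3 y (nm (by decide) hy), k2 y (nm (by decide) hy),
      k1 y (nm (by decide) hy)]
  · intro hN9
    rw [r40, if_pos (hiff.2 hN9)]
  · intro hN9
    rw [r40, if_neg (fun h => hN9 (hiff.1 h))]

end Pool.Agent.H792_Clique
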