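import Pool.Agent.H792_Clique.Nine
import Pool.Agent.H792_Clique.PDefs

/-!
Nine pairwise adjacent vertices in a list of vertices: combinatorics.
-/

set_option autoImplicit false
set_option linter.unusedSimpArgs false
set_option linter.unusedVariables false

namespace Pool.Agent.H792_Clique

open Pool.Agent.H588R2 Pool.Agent.TH687.HL

lemma six_ne {g : ℕ → ℕ → ℕ} {a1 a2 a3 b1 b2 b3 : ℕ} : six g a1 a2 a3 b1 b2 b3 ≠ 0 ↔
    g a1 a2 ≠ 0 ∧ g a2 a3 ≠ 0 ∧ g a1 a3 ≠ 0 ∧ g b1 b2 ≠ 0 ∧ g b2 b3 ≠ 0 ∧ g b1 b3 ≠ 0 ∧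
    g a1 b1 ≠ 0 ∧ g a1 b2 ≠ 0 ∧ g a1 b3 ≠ 0 ∧ g a2 b1 ≠ 0 ∧ g a2 b2 ≠ 0 ∧ g a2 b3 ≠ 0 ∧
    g a3 b1 ≠ 0 ∧ g a3 b2 ≠ 0 ∧ g a3 b3 ≠ 0 := by
  unfold six
  simp only [ne_eq, mul_eq_zero, not_or]

theorem nine_iff {g : ℕ → ℕ → ℕ} (hsym : ∀ u v, g u v = g v u) {n NL : ℕ} {Ls : ℕ → ℕ}
    (hNL : n * n * n ≤ NL) : (∃ i < NL, ∃ j < NL, ∃ k < NL,
      XXm g (n * n * n) (fun i => Ls (i / (n * n))) (fun i => Ls (i / n % n))
        (fun i => Ls (i % n)) i j ≠ 0 ∧
      XXm g (n * n * n) (fun i => Ls (i / (n * n))) (fun i => Ls (i / n % n))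
        (fun i => Ls (i % n)) j k ≠ 0 ∧
      XXm g (n * n * n) (fun i => Ls (i / (n * n))) (fun i => Ls (i / n % n))
        (fun i => Ls (i % n)) k i ≠ 0) ↔ NineL g n Ls := by
  constructor
  · rintro ⟨i, hi, j, hj, k, hk, h1, h2, h3⟩
    unfold XXm at h1 h2 h3
    by_cases c1 : i < n * n * n ∧ j < n * n * n
    swap
    · rw [if_neg c1] at h1; exact absurd rfl h1
    by_cases c2 : j < n * n * n ∧ k < n * n * n
    swap
    · rw [if_neg c2] at h2; exact absurd rfl h2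
    rw [if_pos c1] at h1
    rw [if_pos c2] at h2
    rw [if_pos ⟨c2.2, c1.1⟩] at h3
    rw [six_ne] at h1 h2 h3
    have hn : 0 < n := by
      rcases Nat.eq_zero_or_pos n with h0 | h0
      · subst h0; simp at c1
      · exact h0
    have q1 : ∀ t, t < n * n * n → t / (n * n) < n := fun t ht =>
      Nat.div_lt_of_lt_mul ht
    have q2 : ∀ t : ℕ, t / n % n < n := fun t => Nat.mod_lt _ hn
    have q3 : ∀ t : ℕ, t % n < n := fun t => Nat.mod_lt _ hn
    refine ⟨[i / (n * n), i / n % n, i % n, j / (n * n), j / n % n, j % n,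
      k / (n * n), k / n % n, k % n], rfl, ?_, ?_⟩
    · simp only [List.mem_cons, List.not_mem_nil, or_false]
      rintro x (rfl | rfl | rfl | rfl | rfl | rfl | rfl | rfl | rfl)
      · exact q1 _ c1.1
      · exact q2 _
      · exact q3 _
      · exact q1 _ c1.2
      · exact q2 _
      · exact q3 _
      · exact q1 _ c2.2
      · exact q2 _
      · exact q3 _
    · simp only [List.pairwise_cons, List.mem_cons, List.not_mem_nil, or_false, forall_eq_or_imp,
        forall_eq, IsEmpty.forall_iff, implies_true, List.Pairwise.nil, and_true]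
      obtain ⟨w1, w2, w3, w4, w5, w6, w7, w8, w9, w10, w11, w12, w13, w14, w15⟩ := h1
      obtain ⟨x1, x2, x3, x4, x5, x6, x7, x8, x9, x10, x11, x12, x13, x14, x15⟩ := h2
      obtain ⟨y1, y2, y3, y4, y5, y6, y7, y8, y9, y10, y11, y12, y13, y14, y15⟩ := h3
      rw [hsym] at y7 y8 y9 y10 y11 y12 y13 y14 y15
      tauto
  · rintro ⟨l, hl, hlt, hp⟩
    obtain ⟨a1, a2, a3, b1, b2, b3, c1, c2, c3, rfl⟩ : ∃ a1 a2 a3 b1 b2 b3 c1 c2 c3 : ℕ,
        l = [a1, a2, a3, b1, b2, b3, c1, c2, c3] := by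
      rcases l with _ | ⟨a1, l⟩
      · simp at hl
      rcases l with _ | ⟨a2, l⟩
      · simp at hl
      rcases l with _ | ⟨a3, l⟩
      · simp at hl
      rcases l with _ | ⟨b1, l⟩
      · simp at hl
      rcases l with _ | ⟨b2, l⟩
      · simp at hl
      rcases l with _ | ⟨b3, l⟩
      · simp at hl
      rcases l with _ | ⟨c1, l⟩
      · simp at hl
      rcases l with _ | ⟨c2, l⟩
      · simp at hl
      rcases l with _ | ⟨c3, l⟩
      · simp at hl
      rcases l with _ | ⟨c4, l⟩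
      · exact ⟨a1, a2, a3, b1, b2, b3, c1, c2, c3, rfl⟩
      · simp at hl
    simp only [List.mem_cons, List.not_mem_nil, or_false, forall_eq_or_imp, forall_eq] at hlt
    obtain ⟨k1, k2, k3, k4, k5, k6, k7, k8, k9⟩ := hlt
    simp only [List.pairwise_cons, List.mem_cons, List.not_mem_nil, or_false, forall_eq_or_imp,
        forall_eq, IsEmpty.forall_iff, implies_true, List.Pairwise.nil, and_true] at hp
    have lt3 : ∀ a b c, a < n → b < n → c < n → a * (n * n) + (b * n + c) < n * n * n := by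
      intro a b c ha hb hc
      have h1 : b * n + c < n * n := by nlinarith
      have h2 : (a + 1) * (n * n) ≤ n * (n * n) := Nat.mul_le_mul_right _ ha
      nlinarith
    have g1 := digits3 (a := a1) k2 k3
    have g2 := digits3 (a := b1) k5 k6
    have g3 := digits3 (a := c1) k8 k9
    have l1 := lt3 a1 a2 a3 k1 k2 k3
    have l2 := lt3 b1 b2 b3 k4 k5 k6
    have l3 := lt3 c1 c2 c3 k7 k8 k9
    refine ⟨a1 * (n * n) + (a2 * n + a3), by omega, b1 * (n * n) + (b2 * n + b3), by omega,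
      c1 * (n * n) + (c2 * n + c3), by omega, ?_, ?_, ?_⟩
    · rw [XXm, if_pos ⟨l1, l2⟩, six_ne]
      simp only [g1, g2]
      tauto
    · rw [XXm, if_pos ⟨l2, l3⟩, six_ne]
      simp only [g2, g3]
      tauto
    · rw [XXm, if_pos ⟨l3, l1⟩, six_ne]
      simp only [g1, g3]
      have e1 := hsym (Ls c1) (Ls a1)
      have e2 := hsym (Ls c1) (Ls a2)
      have e3 := hsym (Ls c1) (Ls a3)
      have e4 := hsym (Ls c2) (Ls a1)
      have e5 := hsym (Ls c2) (Ls a2)
      have e6 := hsym (Ls c2) (Ls a3)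
      have e7 := hsym (Ls c3) (Ls a1)
      have e8 := hsym (Ls c3) (Ls a2)
      have e9 := hsym (Ls c3) (Ls a3)
      rw [e1, e2, e3, e4, e5, e6, e7, e8, e9]
      tauto

end Pool.Agent.H792_Clique
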