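import Pool.Agent.H792_Clique.Trip
import Pool.Agent.H792_Clique.Kron

/-!
Number of levels, powers, and the tables of row and column numbers.
-/

set_option autoImplicit false

namespace Pool.Agent.H792_Clique

open Pool.Agent.H588R2 Pool.Agent.TH687.HL

theorem Tb.asgv {X w x v : ℕ} {e : Ex} {s : St} {T : ℕ} {Q : St → Prop} (P : PX X w) (hb : Bd X s)
    (hev : e.ev s = v) (hv : v ≤ X) (hc : cs X e) (hs : sz e ≤ 100) (hT : e.cost + 2 ≤ T)
    (h : Bd X (s.set x v) → Q (s.set x v)) : Tr w (.asg x e) s T Q := by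
  subst hev
  exact Tb.asg P hb hc hs hT hv h

theorem Tb.stAv {X w k i v B : ℕ} {a e : Ex} {s : St} {T : ℕ} {Q : St → Prop} (P : PX X w)
    (hb : Bd X s) (hX : 32 ≤ X) (hk : k < 32) (h99 : s.reg 99 = B) (ha : a.ev s = i)
    (he : e.ev s = v) (hv : v ≤ X)
    (hc : cs X a) (hs : sz a ≤ 90) (hc' : cs X e) (hs' : sz e ≤ 100)
    (hT : a.cost + e.cost + 8 ≤ T)
    (h : Bd X (put s (B + (32 * i + k)) v) → Q (put s (B + (32 * i + k)) v)) :
    Tr w (stA k a e) s T Q := by
  subst he ha h99
  refine Tb.sto P hb (by simp [hc, hX]; omega) (by simp; omega) hc' hs' (by simp; omega) hv ?_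
  simpa using h

/-- Registers 4, 5, 6, 7: `L`, `m ^ L`, `(m * m) ^ L`, `r ^ L`. -/
structure PW (m r L : ℕ) (s : St) : Prop where
  r4 : s.reg 4 = L
  r5 : s.reg 5 = m ^ L
  r6 : s.reg 6 = (m * m) ^ L
  r7 : s.reg 7 = r ^ L

def powStep (m r : ℕ) : HC :=
  .seq (.asg 5 (.mul (.r 5) (.c m))) (.seq (.asg 6 (.mul (.r 6) (.c (m * m))))
    (.seq (.asg 7 (.mul (.r 7) (.c r))) (.asg 4 (.add (.r 4) (.c 1)))))

def powA (m r : ℕ) : HC :=
  .seq (.asg 4 (.c 0)) (.seq (.asg 5 (.c 1)) (.seq (.asg 6 (.c 1)) (.seq (.asg 7 (.c 1))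
    (.loop 10 3 (.ite (.r 5) (.r 3) (powStep m r) .skip)))))

def powB (m : ℕ) : HC :=
  .seq (stA 15 (.c 0) (.c 1)) (.loop 10 4
    (stA 15 (.add (.r 10) (.c 1)) (.mul (ldA 15 (.r 10)) (.c (m * m)))))

lemma Bd.of_reg_eq {X : ℕ} {s : St} (h : Bd X s) (x : ℕ) : s.reg x ≤ X := h.reg x

theorem tr_powA {X w : ℕ} (P : PX X w) {m r N : ℕ} {s : St} {Q : St → Prop}
    (hX : 32 ≤ X) (hm : 2 ≤ m) (hmr : m * m ≤ r) (hrX : r ≤ X)
    (hL : ∀ L, (L = 0 ∨ m ^ (L - 1) < N) → r ^ L ≤ X) (hb : Bd X s) (h3 : s.reg 3 = N)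
    (hQ : ∀ s' L, Bd X s' → s'.mem = s.mem → (∀ y, y ∉ (powA m r).wr → s'.reg y = s.reg y) →
      PW m r L s' → N ≤ m ^ L → (L = 0 ∨ m ^ (L - 1) < N) → Q s') :
    Tr w (powA m r) s (60 * (N + 1)) Q := by
  have hmX : m ≤ X := by nlinarith
  have hmmX : m * m ≤ X := by omega
  refine Tr.mono (T := 5 + (5 + (5 + (5 + (N * (50 + 4) + 3))))) ?_ (by ring_nf; omega)
    (fun _ h => h)
  apply Tr.seq
  refine Tb.asgv P hb (v := 0) rfl (by omega) (by simp [cs]) (by simp [sz]) (by simp [Ex.cost]) ?_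
  intro b1
  apply Tr.seq
  refine Tb.asgv P b1 (v := 1) rfl (by omega) (by simp [cs]; omega) (by simp [sz]) (by simp [Ex.cost]) ?_
  intro b2
  apply Tr.seq
  refine Tb.asgv P b2 (v := 1) rfl (by omega) (by simp [cs]; omega) (by simp [sz]) (by simp [Ex.cost]) ?_
  intro b3
  apply Tr.seq
  refine Tb.asgv P b3 (v := 1) rfl (by omega) (by simp [cs]; omega) (by simp [sz]) (by simp [Ex.cost]) ?_
  intro b4
  set s4 := (((s.set 4 0).set 5 1).set 6 1).set 7 1 with hs4
  have hfr : ∀ y, y ∉ (powA m r).wr → s4.reg y = s.reg y := by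
    intro y hy
    simp only [powA, powStep, HC.wr, List.mem_append, List.mem_cons, List.not_mem_nil, or_false,
      not_or] at hy
    simp [hs4, set_reg, hy]
  refine Tb.loop P b4 (fun i s' => s'.mem = s.mem ∧ ∃ L, PW m r L s' ∧ (L = 0 ∨ m ^ (L - 1) < N) ∧
    (N ≤ m ^ L ∨ L = i)) 50 (N := N) ?_ le_rfl ?_ ?_ ?_
  · simp [hs4, set_reg, h3]
  · refine ⟨rfl, 0, ⟨?_, ?_, ?_, ?_⟩, Or.inl rfl, Or.inr rfl⟩ <;> simp [hs4, set_reg]
  · rintro i hi s5 ⟨hmem, L, hPW, h1, h2⟩ hb5 r10 fr5
    have r3 : s5.reg 3 = N := by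
      rw [fr5 3 (by norm_num) (by simp [powStep, HC.wr])]; simp [hs4, set_reg, h3]
    refine Tb.ite P hb5 (by simp [cs]) (by simp [sz]) (by simp [cs]) (by simp [sz]) (T := 40)
      (by simp [Ex.cost]) ?_ ?_
    · intro hlt
      simp only [Ex.ev, hPW.r5, r3] at hlt
      have hb' := hL (L + 1) (Or.inr (by simpa using hlt))
      have c7 : r ^ L * r ≤ X := by rw [← pow_succ]; exact hb'
      have c6 : (m * m) ^ L * (m * m) ≤ X := le_trans (by
        rw [← pow_succ, ← pow_succ]; exact Nat.pow_le_pow_left hmr _) c7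
      have c5 : m ^ L * m ≤ X := le_trans (by
        rw [← pow_succ, ← pow_succ]; exact Nat.pow_le_pow_left (Nat.le_mul_self m) _) c6
      have c4 : L + 1 ≤ X := le_trans (Nat.lt_pow_self (by omega : 1 < m)).le
        (by rw [pow_succ]; exact c5)
      have c4' : L + 1 ≤ X := c4
      refine Tr.mono (T := 7 + (7 + (7 + 7))) ?_ (by norm_num) (fun _ h => h)
      apply Tr.seq
      refine Tb.asgv P hb5 (v := m ^ L * m) (by simp [Ex.ev, hPW.r5]) c5 (by simp [cs, hmX])
        (by simp [sz]) (by simp [Ex.cost]) ?_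
      intro b1
      apply Tr.seq
      refine Tb.asgv P b1 (v := (m * m) ^ L * (m * m)) (by simp [Ex.ev, set_reg, hPW.r6]) c6
        (by simp [cs, hmmX]) (by simp [sz]) (by simp [Ex.cost]) ?_
      intro b2
      apply Tr.seq
      refine Tb.asgv P b2 (v := r ^ L * r) (by simp [Ex.ev, set_reg, hPW.r7]) c7
        (by simp [cs, hrX]) (by simp [sz]) (by simp [Ex.cost]) ?_
      intro b3
      refine Tb.asgv P b3 (v := L + 1) (by simp [Ex.ev, set_reg, hPW.r4]) c4'
        (by simp [cs]; omega) (by simp [sz]) (by simp [Ex.cost]) ?_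
      intro b4
      refine ⟨b4, hmem, L + 1, ⟨?_, ?_, ?_, ?_⟩, Or.inr (by simpa using hlt), ?_⟩
      · simp [set_reg]
      · simp [set_reg, pow_succ]
      · simp [set_reg, pow_succ]
      · simp [set_reg, pow_succ]
      · rcases h2 with h2 | h2
        · omega
        · right; omega
    · intro hlt
      simp only [Ex.ev, hPW.r5, r3, not_lt] at hlt
      apply Tr.skip
      refine ⟨hb5, hmem, L, ⟨?_, ?_, ?_, ?_⟩, h1, Or.inl hlt⟩
      · rw [set_reg, if_neg (by norm_num)]; exact hPW.r4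
      · rw [set_reg, if_neg (by norm_num)]; exact hPW.r5
      · rw [set_reg, if_neg (by norm_num)]; exact hPW.r6
      · rw [set_reg, if_neg (by norm_num)]; exact hPW.r7
  · rintro s5 ⟨hmem, L, hPW, h1, h2⟩ hb5 r10 fr5
    refine hQ s5 L hb5 hmem ?_ hPW ?_ h1
    · intro y hy
      rw [fr5 y, hfr y hy]
      · rintro rfl; exact hy (by simp [powA, HC.wr])
      · intro h; apply hy
        simp only [powA, HC.wr, List.mem_append, List.mem_cons] at h ⊢
        tauto
    · rcases h2 with h2 | h2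
      · exact h2
      · subst h2; exact (Nat.lt_pow_self (by omega : 1 < m)).le

theorem tr_powB {X w : ℕ} (P : PX X w) {m B L : ℕ} {s : St} {Q : St → Prop}
    (hX : 32 ≤ X) (hm : 2 ≤ m) (hmm : m * m ≤ X) (hLX : (m * m) ^ L ≤ X) (hb : Bd X s)
    (h4 : s.reg 4 = L) (h99 : s.reg 99 = B)
    (hQ : ∀ s', Bd X s' → (∀ y, y ∉ (powB m).wr → s'.reg y = s.reg y) →
      Fr [15] B s.mem s'.mem → Fi B s'.mem 15 (L + 1) (fun i => (m * m) ^ i) → Q s') :
    Tr w (powB m) s (60 * (L + 1)) Q := by
  have hm0 : 0 < m * m := by positivity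
  refine Tr.mono (T := 10 + (L * (50 + 4) + 3)) ?_ (by ring_nf; omega) (fun _ h => h)
  apply Tr.seq
  refine Tb.stAv P hb hX (by norm_num) h99 (i := 0) (v := 1) rfl rfl (by omega) (by simp [cs])
    (by simp [sz]) (by simp [cs]; omega) (by simp [sz]) (by simp [Ex.cost]) ?_
  intro b1
  refine Tb.loop P b1 (fun i s' => Fr [15] B s.mem s'.mem ∧ Fi B s'.mem 15 (i + 1) (fun i => (m * m) ^ i))
    50 (N := L) (by simpa using h4) le_rfl ?_ ?_ ?_
  · refine ⟨(Fr.refl _ _ _).upd (by norm_num) (by decide) _ _, ?_⟩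
    exact Fi.upd (Fi.zero _ _ _ _) (by norm_num) (by simp)
  · rintro i hi s5 ⟨hF, hFi⟩ hb5 r10 fr5
    have e99 : s5.reg 99 = B := by
      rw [fr5 99 (by norm_num) (by simp [stA, HC.wr])]; simpa using h99
    have hv : (m * m) ^ i * (m * m) ≤ X := by
      rw [← pow_succ]; exact le_trans (Nat.pow_le_pow_right hm0 (by omega)) hLX
    refine Tb.stAv P hb5 hX (by norm_num) e99 (i := i + 1) (v := (m * m) ^ i * (m * m))
      (by simp [Ex.ev, r10]) (by simp only [Ex.ev, ldA_ev, e99, r10]; rw [hFi i (by omega)]) hv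
      (by simp [cs]; omega) (by simp [sz]) (by simp [cs]; omega) (by simp [sz]) (by simp [Ex.cost]) ?_
    intro b2
    refine ⟨b2, hF.upd (by norm_num) (by decide) _ _, ?_⟩
    exact Fi.upd hFi (by norm_num) (by rw [pow_succ])
  · rintro s5 ⟨hF, hFi⟩ hb5 r10 fr5
    refine hQ s5 hb5 ?_ hF hFi
    intro y hy
    rw [fr5 y]
    · rfl
    · rintro rfl; exact hy (by simp [powB, HC.wr])
    · simp [stA, HC.wr]

lemma row_stable {m : ℕ} (hm : 0 < m) : ∀ L τ : ℕ, τ < (m * m) ^ L →
    rowF m (L + 1) τ = rowF m L τ := by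
  intro L
  induction L with
  | zero => intro τ hτ; have : τ = 0 := by simpa using hτ
            subst this; simp [rowF]
  | succ L ih =>
    intro τ hτ
    have h1 : τ / (m * m) < (m * m) ^ L := Nat.div_lt_of_lt_mul (by rwa [pow_succ, Nat.mul_comm] at hτ)
    show rowF m (L + 1) (τ / (m * m)) * m + _ = rowF m L (τ / (m * m)) * m + _
    rw [ih _ h1]

lemma col_stable {m : ℕ} (hm : 0 < m) : ∀ L τ : ℕ, τ < (m * m) ^ L →
    colF m (L + 1) τ = colF m L τ := by
  intro L
  induction L with
  | zero => intro τ hτ; have : τ = 0 := by simpa using hτ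
            subst this; simp [colF]
  | succ L ih =>
    intro τ hτ
    have h1 : τ / (m * m) < (m * m) ^ L := Nat.div_lt_of_lt_mul (by rwa [pow_succ, Nat.mul_comm] at hτ)
    show colF m (L + 1) (τ / (m * m)) * m + _ = colF m L (τ / (m * m)) * m + _
    rw [ih _ h1]

lemma row_zero (m : ℕ) : ∀ L, rowF m L 0 = 0 := by
  intro L
  induction L with
  | zero => rfl
  | succ L ih => simp [rowF, ih]

lemma col_zero (m : ℕ) : ∀ L, colF m L 0 = 0 := by
  intro L
  induction L with
  | zero => rfl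
  | succ L ih => simp [colF, ih]

def idxI (m : ℕ) : Ex := .add (.mul (.r 10) (.c (m * m))) (.add (.mul (.r 11) (.c m)) (.r 12))

def idxBody (m : ℕ) : HC :=
  .seq (stA 8 (idxI m) (.add (.mul (ldA 8 (.r 10)) (.c m)) (.r 11)))
    (stA 9 (idxI m) (.add (.mul (ldA 9 (.r 10)) (.c m)) (.r 12)))

/-- The tables of row and column numbers, arrays 8 and 9. -/
def idxC (m : ℕ) : HC :=
  .seq (stA 8 (.c 0) (.c 0)) (.seq (stA 9 (.c 0) (.c 0)) (.ite (.c 0) (.r 4)
    (.seq (.asg 20 (ldA 15 (.sub (.r 4) (.c 1)))) (.seq (.asg 21 (.c m))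
      (.loop 10 20 (.loop 11 21 (.loop 12 21 (idxBody m)))))) .skip))

structure IXt (B m L : ℕ) (m0 : ℕ → ℕ) (k : ℕ) (mm : ℕ → ℕ) : Prop where
  fr : Fr [8, 9] B m0 mm
  d1 : Fi B mm 8 (max k 1) (rowF m L)
  d2 : Fi B mm 9 (max k 1) (colF m L)

lemma Fi.updmax {B : ℕ} {m : ℕ → ℕ} {k n : ℕ} {f : ℕ → ℕ} (h : Fi B m k (max n 1) f) (hk : k < 32)
    {v : ℕ} (hv : v = f n) : Fi B (Function.update m (B + (32 * n + k)) v) k (max (n + 1) 1) f := by
  intro i hi
  rw [ar_update hk hk]
  by_cases e : i = n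
  · subst e; simp [hv]
  · rw [if_neg (by tauto)]; exact h i (by omega)

theorem tr_idx {X w : ℕ} (P : PX X w) {m B L : ℕ} {s : St} {Q : St → Prop}
    (hX : 32 ≤ X) (hm : 2 ≤ m) (hmm : m * m ≤ X) (hLX : (m * m) ^ L ≤ X) (hb : Bd X s)
    (h4 : s.reg 4 = L) (h99 : s.reg 99 = B) (h15 : Fi B s.mem 15 (L + 1) (fun i => (m * m) ^ i))
    (hQ : ∀ s', Bd X s' → (∀ y, y ∉ (idxC m).wr → s'.reg y = s.reg y) →
      Fr [8, 9] B s.mem s'.mem → Fi B s'.mem 8 ((m * m) ^ L) (rowF m L) →
      Fi B s'.mem 9 ((m * m) ^ L) (colF m L) → Q s') :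
    Tr w (idxC m) s (200 * ((m * m) ^ L + 1)) Q := by
  have hm0 : 0 < m := by omega
  have hmm2 : 2 * m ≤ m * m := Nat.mul_le_mul_right m hm
  have hmX : m ≤ X := le_trans (Nat.le_mul_self m) hmm
  have hq0 : 0 < m * m := by positivity
  refine Tr.mono (T := 10 + (10 + (200 * (m * m) ^ L + 60))) ?_ (by omega) (fun _ h => h)
  apply Tr.seq
  refine Tb.stAv P hb hX (by norm_num) h99 (i := 0) (v := 0) rfl rfl (by omega) (by simp [cs])
    (by simp [sz]) (by simp [cs]) (by simp [sz]) (by simp [Ex.cost]) ?_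
  intro b1
  apply Tr.seq
  refine Tb.stAv P b1 hX (by norm_num) (by simpa using h99) (i := 0) (v := 0) rfl rfl (by omega)
    (by simp [cs]) (by simp [sz]) (by simp [cs]) (by simp [sz]) (by simp [Ex.cost]) ?_
  intro b2
  have hfr2 : Fr [8, 9] B s.mem (put (put s (B + (32 * 0 + 8)) 0) (B + (32 * 0 + 9)) 0).mem :=
    ((Fr.refl _ _ _).upd (by norm_num) (by decide) _ _).upd (by norm_num) (by decide) _ _
  have hI0 : IXt B m L s.mem 0 (put (put s (B + (32 * 0 + 8)) 0) (B + (32 * 0 + 9)) 0).mem := by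
    refine ⟨hfr2, ?_, ?_⟩
    · refine Fi.other ?_ (by norm_num) (by norm_num) (by norm_num)
      exact Fi.upd (Fi.zero _ _ _ _) (by norm_num) (row_zero m L).symm
    · exact Fi.upd (Fi.zero _ _ _ _) (by norm_num) (col_zero m L).symm
  set s2 := put (put s (B + (32 * 0 + 8)) 0) (B + (32 * 0 + 9)) 0 with hs2
  have a4 : s2.reg 4 = L := h4
  have a99 : s2.reg 99 = B := h99
  refine Tb.ite P b2 (by simp [cs]) (by simp [sz]) (by simp [cs]) (by simp [sz])
    (T := 200 * (m * m) ^ L + 50) (by simp [Ex.cost]; omega) ?_ ?_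
  · intro hlt
    simp only [Ex.ev, a4] at hlt
    obtain ⟨l, rfl⟩ : ∃ l, L = l + 1 := ⟨L - 1, by omega⟩
    have hq : (m * m) ^ (l + 1) = (m * m) ^ l * (m * m) := pow_succ _ _
    have hlX : (m * m) ^ l ≤ X := le_trans (Nat.pow_le_pow_right hq0 (by omega)) hLX
    refine Tr.mono (T := 18 + (5 + ((m * m) ^ l * ((m * ((m * (150 + 4) + 3) + 4) + 3) + 4) + 3))) ?_ ?_
      (fun _ h => h)
    · apply Tr.seq
      refine Tb.asgv P b2 (v := (m * m) ^ l) ?_ hlX (by simp [cs]; omega) (by simp [sz])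
        (by simp [Ex.cost]) ?_
      · simp only [ldA_ev, Ex.ev, a99, a4]
        have := (h15.fr hI0.fr (by norm_num) (by decide)) l (by omega)
        simpa using this
      intro b3
      apply Tr.seq
      refine Tb.asgv P b3 (v := m) rfl hmX (by simp [cs, hmX]) (by simp [sz]) (by simp [Ex.cost]) ?_
      intro b4
      set s4 := (s2.set 20 ((m * m) ^ l)).set 21 m with hs4
      refine Tb.nest P b4 (IXt B m (l + 1) s.mem) 0 (m * m) ((m * ((m * (150 + 4) + 3) + 4) + 3))
        (N := (m * m) ^ l) (by simp [hs4, set_reg]) le_rfl hI0 ?_ ?_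
      · intro i hi s5 hT5 hb5 r10 fr5
        refine Tb.nest P hb5 (IXt B m (l + 1) s.mem) (0 + i * (m * m)) m (m * (150 + 4) + 3)
          (N := m) ?_ le_rfl hT5 ?_ ?_
        · rw [fr5 21 (by norm_num) (by simp [idxBody, stA, HC.wr])]; simp [hs4, set_reg]
        · intro j hj s6 hT6 hb6 r11 fr6
          refine Tb.nest P hb6 (IXt B m (l + 1) s.mem) (0 + i * (m * m) + j * m) 1 150
            (N := m) ?_ le_rfl hT6 ?_ ?_
          · rw [fr6 21 (by norm_num) (by simp [idxBody, stA, HC.wr]),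
              fr5 21 (by norm_num) (by simp [idxBody, stA, HC.wr])]; simp [hs4, set_reg]
          · intro k hk s7 hT7 hb7 r12 fr7
            have b10 : s7.reg 10 = i := by
              rw [fr7 10 (by norm_num) (by simp [idxBody, stA, HC.wr]),
                fr6 10 (by norm_num) (by simp [idxBody, stA, HC.wr]), r10]
            have b11 : s7.reg 11 = j := by
              rw [fr7 11 (by norm_num) (by simp [idxBody, stA, HC.wr]), r11]
            have b99 : s7.reg 99 = B := by
              rw [fr7 99 (by norm_num) (by simp [idxBody, stA, HC.wr]),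
                fr6 99 (by norm_num) (by simp [idxBody, stA, HC.wr]),
                fr5 99 (by norm_num) (by simp [idxBody, stA, HC.wr])]
              simp [hs4, set_reg, a99]
            set K := 0 + i * (m * m) + j * m + k * 1 with hK
            have hK' : K = i * (m * m) + (j * m + k) := by rw [hK]; ring
            have hjk : j * m + k < m * m := by
              have h9 := Nat.mul_le_mul_right m (show j + 1 ≤ m from hj)
              rw [Nat.add_mul, Nat.one_mul] at h9
              omega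
            obtain ⟨g1, g2⟩ := dm (a := i) hjk
            obtain ⟨g3, g4⟩ := dm (a := j) hk
            have hiK : i < max K 1 := by
              rcases Nat.eq_zero_or_pos i with h0 | h0
              · subst h0; simp
              · have : i < i * (m * m) := lt_mul_of_one_lt_right h0 (by omega)
                omega
            have hrow : rowF m (l + 1) K = rowF m (l + 1) i * m + j := by
              rw [row_stable hm0 l i hi]
              show rowF m l (K / (m * m)) * m + (K % (m * m)) / m = _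
              rw [hK', g1, g2, g3]
            have hcol : colF m (l + 1) K = colF m (l + 1) i * m + k := by
              rw [col_stable hm0 l i hi]
              show colF m l (K / (m * m)) * m + (K % (m * m)) % m = _
              rw [hK', g1, g2, g4]
            have hmL : m ^ (l + 1) ≤ X := le_trans (Nat.pow_le_pow_left (Nat.le_mul_self m) _) hLX
            have hrX : rowF m (l + 1) i * m + j ≤ X := by
              rw [← hrow]; exact le_trans (row_lt hm0 _ _).le hmL
            have hcX : colF m (l + 1) i * m + k ≤ X := by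
              rw [← hcol]; exact le_trans (col_lt hm0 _ _).le hmL
            refine Tr.mono (T := 75 + 75) ?_ (by norm_num) (fun _ h => h)
            apply Tr.seq
            refine Tb.stAv P hb7 hX (by norm_num) b99 (i := K) (v := rowF m (l + 1) i * m + j)
              (by simp only [idxI, Ex.ev, b10, b11, r12, hK'])
              (by simp only [Ex.ev, ldA_ev, b99, b10, b11]; rw [hT7.d1 i hiK]) hrX
              (by simp [idxI, cs, hmm, hmX]) (by simp [idxI, sz]) (by simp [cs, hX, hmX]; omega)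
              (by simp [sz]) (by simp [idxI, Ex.cost]) ?_
            intro b8
            refine Tb.stAv P b8 hX (by norm_num) (by simpa using b99) (i := K)
              (v := colF m (l + 1) i * m + k)
              (by simp only [idxI, Ex.ev, put_reg, b10, b11, r12, hK'])
              (by simp only [Ex.ev, ldA_ev, put_reg, put_mem, b99, b10, r12]
                  rw [(Fi.other hT7.d2 (by norm_num) (by norm_num) (by norm_num)) i hiK]) hcX
              (by simp [idxI, cs, hmm, hmX]) (by simp [idxI, sz]) (by simp [cs, hX, hmX]; omega)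
              (by simp [sz]) (by simp [idxI, Ex.cost]) ?_
            intro b9
            refine ⟨b9, ?_⟩
            have e1 : 0 + i * (m * m) + j * m + (k + 1) * 1 = K + 1 := by rw [hK]; ring
            rw [e1]
            refine ⟨(hT7.fr.upd (by norm_num) (by decide) _ _).upd (by norm_num) (by decide) _ _,
              ?_, ?_⟩
            · exact Fi.other (Fi.updmax hT7.d1 (by norm_num) hrow.symm) (by norm_num) (by norm_num)
                (by norm_num)
            · exact Fi.updmax (Fi.other hT7.d2 (by norm_num) (by norm_num) (by norm_num))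
                (by norm_num) hcol.symm
          · intro s7 hT7 hb7 _ _
            refine ⟨hb7, ?_⟩
            have e1 : 0 + i * (m * m) + (j + 1) * m = 0 + i * (m * m) + j * m + m * 1 := by ring
            rw [e1]; exact hT7
        · intro s6 hT6 hb6 _ _
          refine ⟨hb6, ?_⟩
          have e1 : 0 + (i + 1) * (m * m) = 0 + i * (m * m) + m * m := by ring
          rw [e1]; exact hT6
      · intro s5 hT5 hb5 _ fr5
        have e1 : 0 + (m * m) ^ l * (m * m) = (m * m) ^ (l + 1) := by rw [hq]; ring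
        rw [e1] at hT5
        refine hQ s5 hb5 ?_ hT5.fr (hT5.d1.mono (le_max_left _ _)) (hT5.d2.mono (le_max_left _ _))
        intro y hy
        simp only [idxC, idxBody, stA, HC.wr, List.mem_append, List.mem_cons, List.not_mem_nil,
          or_false, not_or, List.nil_append, List.append_nil] at hy
        rw [fr5 y (by tauto) (by simp [idxBody, stA, HC.wr]; tauto)]
        simp [hs4, set_reg, hs2, hy]
    · rw [hq]
      have hin : (m * ((m * (150 + 4) + 3) + 4) + 3) + 4 ≤ 200 * (m * m) := by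
        have e : (m * ((m * (150 + 4) + 3) + 4) + 3) + 4 = 154 * (m * m) + 7 * m + 7 := by ring
        rw [e]; omega
      have h9 := Nat.mul_le_mul_left ((m * m) ^ l) hin
      have e : (m * m) ^ l * (200 * (m * m)) = 200 * ((m * m) ^ l * (m * m)) := by ring
      rw [e] at h9
      omega
  · intro hlt
    simp only [Ex.ev, a4, not_lt, nonpos_iff_eq_zero] at hlt
    subst hlt
    apply Tr.skip
    refine hQ s2 b2 (fun y hy => by simp [hs2]) hI0.fr ?_ ?_
    · simpa using hI0.d1
    · simpa using hI0.d2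

end Pool.Agent.H792_Clique
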