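import Pool.Agent.H792_Clique.ProfDefs
import Pool.Agent.H792_Clique.Heavy
import Pool.Agent.H792_Clique.Alg

/-!
The dichotomy for the densities of the common neighbourhoods.
-/

set_option autoImplicit false
set_option linter.unusedSimpArgs false
set_option linter.unusedVariables false

namespace Pool.Agent.H792_Clique

open Pool.Agent.H588R2 Pool.Agent.TH687.HL

/-! ### the algorithm -/

/-- Vector of a set of positions. -/
def vecT (T : Finset (Fin 10)) : Sm → ℝ := fun J => if J.1 ⊆ T then 1 else 0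

lemma hull8_compact : IsCompact hull8 := by
  unfold hull8
  apply Set.Finite.isCompact_convexHull
  have : {x : Sm → ℝ | ∃ T : Finset (Fin 10), T.card ≤ 8 ∧ x = fun J => if J.1 ⊆ T then 1 else 0} ⊆
      Set.range vecT := by
    rintro x ⟨T, _, rfl⟩
    exact ⟨T, rfl⟩
  exact (Set.finite_range vecT).subset this

lemma vecT_mem {T : Finset (Fin 10)} (hT : T.card ≤ 8) : vecT T ∈ hull8 :=
  subset_convexHull ℝ _ ⟨T, hT, rfl⟩

lemma OrdClique.inj {p : ℕ} {G : SimpleGraph (Fin p)} {q : Fin 10 → Fin p} (h : OrdClique G q) :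
    Function.Injective q := by
  intro i j e
  by_contra hne
  exact (h i j hne).ne e

theorem prof_easy {C : Set (Sm → ℝ)} (hC : Disjoint (closure C) hull8) :
    SolvesIn 7.5 (fun p G => ¬ G.CliqueFree 10 → ∃ q, OrdClique G q ∧ prof G q ∈ C) := by
  classical
  obtain ⟨δ, hδ, hdis⟩ := hC.symm.exists_thickenings hull8_compact isClosed_closure
  have hδ2 : 0 < δ / 2 := by linarith
  refine (main_alg0 0 0 hδ2).mono ?_
  intro p G hp hG
  refine ⟨fun v h => by simp at h, fun hfree => Or.inr ?_⟩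
  obtain ⟨q, hq, hqC⟩ := hG hfree
  intro s u hs hu happ
  by_contra hcon
  push Not at hcon
  have hsr : (0 : ℝ) < s := by exact_mod_cast hs
  -- neighbours in the clique
  set T : Fin s → Finset (Fin 10) := fun t =>
    Finset.univ.filter fun β => G.Adj ⟨u t, hu t t.2⟩ (q β) with hT
  have hTc : ∀ t, (T t).card ≤ 8 := by
    intro t
    by_contra hc
    push Not at hc
    obtain ⟨S, hS, hSc⟩ := Finset.exists_subset_card_eq (show 9 ≤ (T t).card by omega)
    apply hcon t t.2
    refine nineV_of_clique (G := G) (S := S.image q) (u := ⟨u t, hu t t.2⟩) ⟨?_, ?_⟩ ?_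
    · intro a ha b hb hab
      rw [Finset.mem_coe, Finset.mem_image] at ha hb
      obtain ⟨i, _, rfl⟩ := ha
      obtain ⟨j, _, rfl⟩ := hb
      exact hq i j (fun e => hab (by rw [e]))
    · rw [Finset.card_image_of_injective _ hq.inj, hSc]
    · intro x hx
      obtain ⟨i, hi, rfl⟩ := Finset.mem_image.1 hx
      have := hS hi
      rw [hT, Finset.mem_filter] at this
      exact this.2
  set y : Sm → ℝ := ∑ t : Fin s, (1 / (s : ℝ)) • vecT (T t) with hy
  have hyh : y ∈ hull8 := by
    refine (convex_convexHull ℝ _).sum_mem (fun _ _ => by positivity) ?_ fun t _ => vecT_mem (hTc t)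
    rw [Finset.sum_const, Finset.card_univ, Fintype.card_fin, nsmul_eq_mul]
    field_simp
  have hyJ : ∀ J : Sm, y J = (hit G s u (J.1.image q) : ℝ) / s := by
    intro J
    rw [hy, Finset.sum_apply]
    simp only [Pi.smul_apply, smul_eq_mul]
    rw [← Finset.mul_sum, div_mul_eq_mul_div, one_mul]
    congr 1
    unfold hit
    rw [Finset.card_filter, Finset.sum_range (fun t => if ∃ h : u t < p,
      ∀ x ∈ J.1.image q, G.Adj ⟨u t, h⟩ x then 1 else 0)]
    push_cast
    refine Finset.sum_congr rfl fun t _ => ?_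
    unfold vecT
    by_cases hc : J.1 ⊆ T t
    · rw [if_pos hc, if_pos]
      refine ⟨hu t t.2, fun x hx => ?_⟩
      obtain ⟨i, hi, rfl⟩ := Finset.mem_image.1 hx
      have := hc hi
      rw [hT, Finset.mem_filter] at this
      exact this.2
    · rw [if_neg hc, if_neg]
      rintro ⟨h1, h2⟩
      apply hc
      intro i hi
      rw [hT, Finset.mem_filter]
      exact ⟨Finset.mem_univ _, h2 _ (Finset.mem_image_of_mem _ hi)⟩
  have hdist : dist (prof G q) y < δ := by
    rw [dist_pi_lt_iff hδ]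
    intro J
    rw [hyJ, Real.dist_eq]
    have hJc : (J.1.image q).card ≤ 6 := Finset.card_image_le.trans J.2
    have h1 := happ (J.1.image q) hJc
    unfold prof
    have h2 : (cnb G (J.1.image q) : ℝ) / p - (hit G s u (J.1.image q) : ℝ) / s =
        -(((hit G s u (J.1.image q) : ℝ) - s * (cnb G (J.1.image q) / p)) / s) := by
      field_simp
      ring
    rw [h2, abs_neg, abs_div, abs_of_pos hsr, div_lt_iff₀ hsr]
    nlinarith
  have h1 : prof G q ∈ Metric.thickening δ hull8 :=
    Metric.mem_thickening_iff.2 ⟨y, hyh, hdist⟩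
  have h2 : prof G q ∈ Metric.thickening δ (closure C) :=
    Metric.self_subset_thickening hδ _ (subset_closure hqC)
  exact Set.disjoint_left.1 hdis h1 h2

/-! ### the hard graphs -/

section

variable {ι : Type} (τ : ι → Finset (Fin 10)) (R : ι → ι → Prop)

lemma heavy_clique (hs : ∀ i j, R i j → R j i) (h0 : ∀ i, ¬ R i i)
    (hc : ∀ (I : Finset ι) (S : Finset (Fin 10)), I.Nonempty → (∀ i ∈ I, ∀ j ∈ I, i ≠ j → R i j) →
      (∀ i ∈ I, S ⊆ τ i) → S.card + I.card ≤ 9) {p : ℕ} (G : SimpleGraph (Fin p))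
    {Q : Finset ((Fin 10 ⊕ ι) × Fin p)} (hQ : (heavy τ R hs h0 G).IsNClique 10 Q) :
    ∃ u : Fin 10 → Fin p, ∀ β, (Sum.inl β, u β) ∈ Q := by
  classical
  have hinj : Set.InjOn (Prod.fst : (Fin 10 ⊕ ι) × Fin p → Fin 10 ⊕ ι) Q := by
    rintro ⟨a, u⟩ ha ⟨b, v⟩ hb (rfl : a = b)
    by_contra hne
    have h1 := hQ.1 ha hb hne
    rcases a with a | i
    · exact h1.1 rfl
    · exact h0 _ h1
  set N : Finset (Fin 10 ⊕ ι) := Q.image Prod.fst with hN
  have hNc : N.card = 10 := by rw [hN, Finset.card_image_of_injOn hinj, hQ.2]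
  have hLR := N.card_toLeft_add_card_toRight
  have hadj : ∀ a ∈ N, ∀ b ∈ N, a ≠ b → ∃ u v, (heavy τ R hs h0 G).Adj (a, u) (b, v) := by
    intro a ha b hb hab
    obtain ⟨⟨a', u⟩, hu, rfl⟩ := Finset.mem_image.1 ha
    obtain ⟨⟨b', v⟩, hv, rfl⟩ := Finset.mem_image.1 hb
    exact ⟨u, v, hQ.1 hu hv (fun e => hab (congrArg Prod.fst e))⟩
  have he : N.toRight = ∅ := by
    rcases Finset.eq_empty_or_nonempty N.toRight with he | hne
    · exact he
    · exfalso
      have := hc N.toRight N.toLeft hne ?_ ?_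
      · omega
      · intro i hi j hj hij
        rw [Finset.mem_toRight] at hi hj
        obtain ⟨u, v, h1⟩ := hadj _ hi _ hj (fun e => hij (Sum.inr_injective e))
        exact h1
      · intro i hi β hβ
        rw [Finset.mem_toRight] at hi
        rw [Finset.mem_toLeft] at hβ
        obtain ⟨u, v, h1⟩ := hadj _ hβ _ hi (by simp)
        exact h1
  have hL : N.toLeft = Finset.univ := by
    apply Finset.eq_univ_of_card
    rw [he, Finset.card_empty] at hLR
    rw [Fintype.card_fin]
    omega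
  have hex : ∀ β : Fin 10, ∃ u, (Sum.inl β, u) ∈ Q := by
    intro β
    have : β ∈ N.toLeft := by rw [hL]; exact Finset.mem_univ _
    rw [Finset.mem_toLeft, hN, Finset.mem_image] at this
    obtain ⟨⟨a, u⟩, hu, e⟩ := this
    simp only at e
    exact ⟨u, e ▸ hu⟩
  choose u hu using hex
  exact ⟨u, hu⟩

end

end Pool.Agent.H792_Clique
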