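import Pool.Agent.H792_Clique.Prof

/-!
The dichotomy for the densities of the common neighbourhoods: hard graphs.
-/

set_option autoImplicit false
set_option linter.unusedSimpArgs false
set_option linter.unusedVariables false

namespace Pool.Agent.H792_Clique

open Pool.Agent.H588R2 Pool.Agent.TH687.HL

/-- Common neighbours in the graph with heavy blocks. -/
lemma cnb_part {κ : Type} [Fintype κ] (T : κ → Finset (Fin 10)) (n : κ → ℕ) {p m : ℕ}
    {G : SimpleGraph (Fin p)} {B : SimpleGraph (Fin m)}
    {hs : ∀ i j : (i : κ) × Fin (n i), False → False} {h0 : ∀ i : (i : κ) × Fin (n i), ¬ False}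
    (φ : heavy (fun j : (i : κ) × Fin (n i) => T j.1) (fun _ _ => False) hs h0 G ≃g B)
    (u : Fin 10 → Fin p) (J : Finset (Fin 10)) :
    (∑ i ∈ Finset.univ.filter (fun i => J ⊆ T i), n i) * p ≤
      cnb B (J.image fun β => φ (Sum.inl β, u β)) ∧
    cnb B (J.image fun β => φ (Sum.inl β, u β)) ≤
      (∑ i ∈ Finset.univ.filter (fun i => J ⊆ T i), n i) * p + 10 * p := by
  classical
  set H : Finset ((i : κ) × Fin (n i)) :=
    (Finset.univ.filter (fun i => J ⊆ T i)).sigma fun i => Finset.univ with hH
  have hHc : H.card = ∑ i ∈ Finset.univ.filter (fun i => J ⊆ T i), n i := by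
    rw [hH, Finset.card_sigma]
    simp
  set FH : Finset (Fin m) := (H ×ˢ (Finset.univ : Finset (Fin p))).image
    fun z => φ (Sum.inr z.1, z.2) with hFH
  set FA : Finset (Fin m) := ((Finset.univ : Finset (Fin 10)) ×ˢ (Finset.univ : Finset (Fin p))).image
    fun z => φ (Sum.inl z.1, z.2) with hFA
  have c1 : FH.card = (∑ i ∈ Finset.univ.filter (fun i => J ⊆ T i), n i) * p := by
    rw [hFH, Finset.card_image_of_injective, Finset.card_product, hHc, Finset.card_univ,
      Fintype.card_fin]
    rintro ⟨a, b⟩ ⟨a', b'⟩ e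
    have := φ.injective e
    simpa using this
  have c2 : FA.card ≤ 10 * p := by
    refine Finset.card_image_le.trans ?_
    rw [Finset.card_product, Finset.card_univ, Finset.card_univ, Fintype.card_fin, Fintype.card_fin]
  unfold cnb
  constructor
  · rw [← c1]
    apply Finset.card_le_card
    intro z hz
    rw [hFH, Finset.mem_image] at hz
    obtain ⟨⟨j, v⟩, hj, rfl⟩ := hz
    rw [Finset.mem_product, hH, Finset.mem_sigma, Finset.mem_filter] at hj
    rw [Finset.mem_filter]
    refine ⟨Finset.mem_univ _, fun x hx => ?_⟩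
    obtain ⟨β, hβ, rfl⟩ := Finset.mem_image.1 hx
    rw [φ.map_adj_iff]
    exact hj.1.1.2 hβ
  · rw [← c1]
    refine le_trans ?_ (Nat.add_le_add_left c2 _)
    refine le_trans (Finset.card_le_card ?_) (Finset.card_union_le _ _)
    intro z hz
    rw [Finset.mem_filter] at hz
    have hz' : z = φ (φ.symm z) := (φ.apply_symm_apply z).symm
    rw [Finset.mem_union]
    rcases hz2 : φ.symm z with ⟨β | j, v⟩
    · right
      rw [hFA, Finset.mem_image]
      exact ⟨(β, v), by simp, by rw [hz', hz2]⟩
    · left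
      rw [hFH, Finset.mem_image]
      refine ⟨(j, v), ?_, by rw [hz', hz2]⟩
      rw [Finset.mem_product, hH, Finset.mem_sigma, Finset.mem_filter]
      refine ⟨⟨⟨Finset.mem_univ _, fun β hβ => ?_⟩, Finset.mem_univ _⟩, Finset.mem_univ _⟩
      have h1 := hz.2 _ (Finset.mem_image_of_mem _ hβ)
      rw [hz', φ.map_adj_iff, hz2] at h1
      exact h1

theorem prof_hard {e : ℝ} (he : 2 ≤ e) {C : Set (Sm → ℝ)} (hC : (interior C ∩ hull8).Nonempty)
    {cls : ∀ p : ℕ, SimpleGraph (Fin p) → Prop}
    (hcls : ∀ (p : ℕ) (G : SimpleGraph (Fin p)), G.Colorable 10 → (∀ Q, G.IsNClique 10 Q →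
      ∃ q, OrdClique G q ∧ Finset.univ.image q = Q ∧ prof G q ∈ C) → cls p G)
    (h : SolvesIn e cls) : SolvesIn e allGraphs := by
  classical
  obtain ⟨x, hxC, hxh⟩ := hC
  obtain ⟨ε, hε, hball⟩ := Metric.mem_nhds_iff.1 (mem_interior_iff_mem_nhds.1 hxC)
  obtain ⟨κ, _, w, z, hw0, hw1, hz, hx⟩ := mem_convexHull_iff_exists_fintype.1 hxh
  choose T hT8 hTz using hz
  set m : ℕ := Fintype.card κ with hm
  obtain ⟨N, hN⟩ : ∃ N : ℕ, (m : ℝ) + (m + 11) / ε ≤ N := exists_nat_ge _
  have hN1 : (m : ℝ) + 10 < ε * ((N : ℝ) - m) := by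
    have h1 : ((m : ℝ) + 11) / ε ≤ (N : ℝ) - m := by linarith
    rw [div_le_iff₀ hε] at h1
    linarith
  set n : κ → ℕ := fun i => ⌊(N : ℝ) * w i⌋₊ with hn
  have hn1 : ∀ i, (n i : ℝ) ≤ N * w i := fun i => Nat.floor_le (by have := hw0 i; positivity)
  have hn2 : ∀ i, (N : ℝ) * w i - 1 ≤ n i := fun i => (Nat.sub_one_lt_floor _).le
  have hsum : ∀ F : Finset κ, (N : ℝ) * ∑ i ∈ F, w i - m ≤ ((∑ i ∈ F, n i : ℕ) : ℝ) ∧
      ((∑ i ∈ F, n i : ℕ) : ℝ) ≤ N * ∑ i ∈ F, w i := by
    intro F
    push_cast
    rw [Finset.mul_sum]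
    constructor
    · have h1 : ∑ i ∈ F, ((N : ℝ) * w i - 1) ≤ ∑ i ∈ F, (n i : ℝ) :=
        Finset.sum_le_sum fun i _ => hn2 i
      rw [Finset.sum_sub_distrib, Finset.sum_const, nsmul_eq_mul, mul_one] at h1
      have h2 : (F.card : ℝ) ≤ m := by exact_mod_cast Finset.card_le_univ F
      linarith
    · exact Finset.sum_le_sum fun i _ => hn1 i
  have hcard : Fintype.card ((i : κ) × Fin (n i)) = ∑ i, n i := by
    rw [Fintype.card_sigma]; simp
  refine reduce_heavy (fun j : (i : κ) × Fin (n i) => T j.1) (fun _ _ => False) he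
    (fun _ _ h => h) (fun _ h => h) ?_ ?_ h
  · intro I S hI hR hS
    have h1 : I.card ≤ 1 := by
      rw [Finset.card_le_one]
      intro a ha b hb
      by_contra hab
      exact hR a ha b hb hab
    obtain ⟨i, hi⟩ := hI
    have h2 := Finset.card_le_card (hS i hi)
    have h3 := hT8 i.1
    omega
  · intro p G B hp φ
    have hcol : B.Colorable 10 := by
      have hex : ∀ i, ∃ β, β ∉ T i := by
        intro i
        by_contra hcon
        push Not at hcon
        have h1 : T i = Finset.univ := Finset.eq_univ_of_forall hcon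
        have h2 := hT8 i
        rw [h1, Finset.card_univ, Fintype.card_fin] at h2
        omega
      choose γ hγ using hex
      refine ⟨SimpleGraph.Coloring.mk (fun v => (φ.symm v).1.elim id (fun j => γ j.1)) ?_⟩
      intro v w hvw
      rw [← φ.symm.map_adj_iff] at hvw
      rcases hv : φ.symm v with ⟨k | i, u⟩ <;> rcases hw : φ.symm w with ⟨l | j, u'⟩ <;>
        rw [hv, hw] at hvw
      · exact hvw.1
      · have h1 : k ∈ T j.1 := hvw
        intro e
        have e' : k = γ j.1 := e
        exact hγ j.1 (e' ▸ h1)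
      · have h1 : l ∈ T i.1 := hvw
        intro e
        have e' : γ i.1 = l := e
        exact hγ i.1 (e' ▸ h1)
      · exact absurd hvw id
    apply hcls _ _ hcol
    intro Q hQ
    set Q' := Q.image φ.symm with hQ'
    have hQ'n : (heavy (fun j : (i : κ) × Fin (n i) => T j.1) (fun _ _ => False)
        (fun _ _ h => h) (fun _ h => h) G).IsNClique 10 Q' := by
      constructor
      · intro a ha b hb hab
        rw [hQ', Finset.mem_coe, Finset.mem_image] at ha hb
        obtain ⟨a', ha', rfl⟩ := ha
        obtain ⟨b', hb', rfl⟩ := hb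
        rw [φ.symm.map_adj_iff]
        exact hQ.1 ha' hb' (fun e => hab (by rw [e]))
      · rw [hQ', Finset.card_image_of_injective _ φ.symm.injective, hQ.2]
    obtain ⟨u, hu⟩ := heavy_clique (fun j : (i : κ) × Fin (n i) => T j.1) (fun _ _ => False)
      (fun _ _ h => h) (fun _ h => h) (by
        intro I S hI hR hS
        have h1 : I.card ≤ 1 := by
          rw [Finset.card_le_one]
          intro a ha b hb
          by_contra hab
          exact hR a ha b hb hab
        obtain ⟨i, hi⟩ := hI
        have h2 := Finset.card_le_card (hS i hi)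
        have h3 := hT8 i.1
        omega) G hQ'n
    set q : Fin 10 → Fin ((10 + Fintype.card ((i : κ) × Fin (n i))) * p) :=
      fun β => φ (Sum.inl β, u β) with hq
    have hqQ : ∀ β, q β ∈ Q := by
      intro β
      have h1 := hu β
      rw [hQ', Finset.mem_image] at h1
      obtain ⟨a, ha, e⟩ := h1
      have : q β = a := by rw [hq]; simp only; rw [← e]; exact φ.apply_symm_apply a
      rw [this]; exact ha
    have hqinj : Function.Injective q := by
      intro β γ e
      have := φ.injective e
      simp only [Prod.mk.injEq, Sum.inl.injEq] at this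
      exact this.1
    refine ⟨q, ?_, ?_, ?_⟩
    · intro i j hij
      exact hQ.1 (hqQ i) (hqQ j) (fun e => hij (hqinj e))
    · apply Finset.eq_of_subset_of_card_le
      · intro a ha
        obtain ⟨β, _, rfl⟩ := Finset.mem_image.1 ha
        exact hqQ β
      · rw [Finset.card_image_of_injective _ hqinj, Finset.card_univ, Fintype.card_fin, hQ.2]
    · apply hball
      rw [Metric.mem_ball, dist_pi_lt_iff hε]
      intro J
      obtain ⟨h1, h2⟩ := cnb_part T n φ u J.1
      have hxJ : x J = ∑ i ∈ Finset.univ.filter (fun i => J.1 ⊆ T i), w i := by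
        rw [← hx, Finset.sum_apply, Finset.sum_filter]
        refine Finset.sum_congr rfl fun i _ => ?_
        rw [hTz i]
        simp only [Pi.smul_apply, smul_eq_mul]
        split_ifs <;> simp
      obtain ⟨g1, g2⟩ := hsum (Finset.univ.filter (fun i => J.1 ⊆ T i))
      obtain ⟨g3, g4⟩ := hsum Finset.univ
      rw [← hxJ] at g1 g2
      rw [hw1] at g3 g4
      set S : ℝ := ((∑ i ∈ Finset.univ.filter (fun i => J.1 ⊆ T i), n i : ℕ) : ℝ) with hS
      set H : ℝ := ((∑ i, n i : ℕ) : ℝ) with hH
      set a : ℝ := (cnb B (J.1.image q) : ℝ) with ha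
      have hx0 : 0 ≤ x J := by rw [hxJ]; exact Finset.sum_nonneg fun i _ => hw0 i
      have hx1 : x J ≤ 1 := by
        rw [hxJ, ← hw1]
        exact Finset.sum_le_sum_of_subset_of_nonneg (Finset.filter_subset _ _) fun i _ _ => hw0 i
      have h1' : S * p ≤ a := by rw [hS, ha]; exact_mod_cast h1
      have h2' : a ≤ S * p + 10 * p := by rw [hS, ha]; exact_mod_cast h2
      have hp0 : (0 : ℝ) < p := by exact_mod_cast hp
      have hD0 : 0 < 10 + H := by
        have : (0 : ℝ) ≤ H := Nat.cast_nonneg _
        linarith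
      rw [Real.dist_eq]
      have hval : prof B q J - x J = (a - (10 + H) * p * x J) / ((10 + H) * p) := by
        unfold prof
        rw [← ha, hcard]
        push_cast
        rw [hH]
        push_cast
        have : ((10 : ℝ) + ∑ i, (n i : ℝ)) * p ≠ 0 := by
          rw [hH] at hD0
          push_cast at hD0
          exact (mul_pos hD0 hp0).ne'
        field_simp
      have hDp : 0 < (10 + H) * p := mul_pos hD0 hp0
      rw [hval, abs_div, abs_of_pos hDp, div_lt_iff₀ hDp, abs_lt]
      have hm0 : (0 : ℝ) ≤ m := Nat.cast_nonneg _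
      have k1 : (N - m) * x J ≤ H * x J := mul_le_mul_of_nonneg_right (by linarith) hx0
      have k2 : H * x J ≤ N * x J := mul_le_mul_of_nonneg_right (by linarith) hx0
      have k3 : m * x J ≤ m := mul_le_of_le_one_right hm0 hx1
      have key : -(m + 10) ≤ S - (10 + H) * x J ∧ S + 10 - (10 + H) * x J ≤ m + 10 := by
        constructor
        · linarith
        · linarith
      have k4 : m + 10 < ε * (10 + H) := by
        have : ε * ((N : ℝ) - m) ≤ ε * (10 + H) := mul_le_mul_of_nonneg_left (by linarith) hε.le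
        linarith
      constructor
      · have k5 : -(m + 10) * p ≤ (S - (10 + H) * x J) * p := mul_le_mul_of_nonneg_right key.1 hp0.le
        have k6 : (m + 10) * p < ε * (10 + H) * p := mul_lt_mul_of_pos_right k4 hp0
        linarith
      · have k5 : (S + 10 - (10 + H) * x J) * p ≤ (m + 10) * p :=
          mul_le_mul_of_nonneg_right key.2 hp0.le
        have k6 : (m + 10) * p < ε * (10 + H) * p := mul_lt_mul_of_pos_right k4 hp0
        linarith

/-- The dichotomy for the densities of the common neighbourhoods. -/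
theorem prof_dichotomy {C : Set (Sm → ℝ)}
    (hC : (interior C ∩ hull8).Nonempty ∨ Disjoint (closure C) hull8)
    {cls : ∀ p : ℕ, SimpleGraph (Fin p) → Prop}
    (h1 : ∀ (p : ℕ) (G : SimpleGraph (Fin p)), G.Colorable 10 → (∀ Q, G.IsNClique 10 Q →
      ∃ q, OrdClique G q ∧ Finset.univ.image q = Q ∧ prof G q ∈ C) → cls p G)
    (h2 : ∀ (p : ℕ) (G : SimpleGraph (Fin p)), cls p G → ¬ G.CliqueFree 10 →
      ∃ q, OrdClique G q ∧ prof G q ∈ C) :
    SolvesIn 7.5 cls ↔ (Disjoint (closure C) hull8 ∨ SolvesIn 7.5 allGraphs) := by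
  constructor
  · intro h
    rcases hC with hC | hC
    · exact Or.inr (prof_hard (by norm_num) hC h1 h)
    · exact Or.inl hC
  · rintro (hd | h)
    · exact (prof_easy hd).mono fun p G _ hG => h2 p G hG
    · exact h.mono fun p G _ _ => trivial

end Pool.Agent.H792_Clique
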