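import Pool.Agent.H792_Clique.Defs

/-!
Densities of the common neighbourhoods of the vertices of a clique.
-/

set_option autoImplicit false

namespace Pool.Agent.H792_Clique

/-- Sets of at most six of the ten positions. -/
abbrev Sm := {J : Finset (Fin 10) // J.card ≤ 6}

/-- The sequence `q` lists the vertices of a clique on 10 vertices. -/
def OrdClique {p : ℕ} (G : SimpleGraph (Fin p)) (q : Fin 10 → Fin p) : Prop :=
  ∀ i j, i ≠ j → G.Adj (q i) (q j)

/-- The density of the common neighbourhood of the vertices `q i`, `i ∈ J`, for every set `J` of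
at most six positions. -/
noncomputable def prof {p : ℕ} (G : SimpleGraph (Fin p)) (q : Fin 10 → Fin p) : Sm → ℝ :=
  fun J => (cnb G (J.1.image q) : ℝ) / p

/-- The vectors of the probabilities `P (J ⊆ T)`, for all random sets `T` of at most eight
positions. -/
def hull8 : Set (Sm → ℝ) :=
  convexHull ℝ {x | ∃ T : Finset (Fin 10), T.card ≤ 8 ∧ x = fun J => if J.1 ⊆ T then 1 else 0}

end Pool.Agent.H792_Clique
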