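import Pool.Agent.H792_Clique.Loop

/-!
The initialisation of the main program.
-/

set_option autoImplicit false
set_option linter.unusedSimpArgs false
set_option linter.unusedVariables false

namespace Pool.Agent.H792_Clique

open Pool.Agent.H588R2 Pool.Agent.TH687.HL

/-- Long-lived facts. -/
structure LL (p s : ℕ) (g : ℕ → ℕ → ℕ) (st : St) : Prop where
  r98 : st.reg 98 = p
  r99 : st.reg 99 = p * p
  r43 : st.reg 43 = s
  r44 : st.reg 44 = p * p * p
  r45 : st.reg 45 = (p * p * p) * (p * p * p)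
  G : GM p g st.mem
  d1 : Fi (p * p) st.mem 24 (p * p * p) (fun i => i / (p * p))
  d2 : Fi (p * p) st.mem 25 (p * p * p) (fun i => i / p % p)
  d3 : Fi (p * p) st.mem 26 (p * p * p) (fun i => i % p)

lemma LL.mono {p s : ℕ} {g : ℕ → ℕ → ℕ} {st st' : St} (h : LL p s g st)
    (hr : ∀ y ∈ [98, 99, 43, 44, 45], st'.reg y = st.reg y) {K : List ℕ}
    (hF : Fr K (p * p) st.mem st'.mem) (h24 : 24 ∉ K) (h25 : 25 ∉ K) (h26 : 26 ∉ K) :
    LL p s g st' where
  r98 := (hr 98 (by decide)).trans h.r98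
  r99 := (hr 99 (by decide)).trans h.r99
  r43 := (hr 43 (by decide)).trans h.r43
  r44 := (hr 44 (by decide)).trans h.r44
  r45 := (hr 45 (by decide)).trans h.r45
  G := h.G.fr hF
  d1 := h.d1.fr hF (by norm_num) h24
  d2 := h.d2.fr hF (by norm_num) h25
  d3 := h.d3.fr hF (by norm_num) h26

/-- The number of binary digits of `p`. -/
def sizeC : HC :=
  .seq (.asg 42 (.c 0)) (.seq (.asg 47 (.c 1))
    (.loop 46 98 (.ite (.r 47) (.add (.r 98) (.c 1))
      (.seq (.asg 47 (.add (.r 47) (.r 47))) (.asg 42 (.add (.r 42) (.c 1)))) .skip)))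

theorem tr_size {X w : ℕ} (P : PX X w) {p : ℕ} {s : St} {Q : St → Prop} (hX : 32 ≤ X)
    (hb : Bd X s) (h98 : s.reg 98 = p) (hp : 1 ≤ p) (hX2 : 2 * p + 2 ≤ X)
    (hQ : ∀ s', Bd X s' → (∀ y, y ∉ [42, 46, 47] → s'.reg y = s.reg y) → s'.mem = s.mem →
      s'.reg 42 = Nat.log 2 p + 1 → Q s') :
    Tr w sizeC s (40 * (p + 1)) Q := by
  refine Tr.mono (T := 5 + (5 + (p * (30 + 4) + 3))) ?_ (by omega) (fun _ h => h)
  apply Tr.seq
  refine Tb.asgv P hb (v := 0) rfl (by omega) (by simp [cs]) (by simp [sz]) (by simp [Ex.cost]) ?_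
  intro b1
  apply Tr.seq
  refine Tb.asgv P b1 (v := 1) rfl (by omega) (by simp [cs]; omega) (by simp [sz]) (by simp [Ex.cost]) ?_
  intro b2
  refine Tb.loop P b2 (fun i s' => s'.mem = s.mem ∧ ∃ L, s'.reg 42 = L ∧ s'.reg 47 = 2 ^ L ∧
    (L = 0 ∨ 2 ^ (L - 1) ≤ p) ∧ (p < 2 ^ L ∨ L = i)) 30 (N := p) ?_ le_rfl ?_ ?_ ?_
  · simp [set_reg, h98]
  · refine ⟨rfl, 0, ?_, ?_, Or.inl rfl, Or.inr rfl⟩ <;> simp [set_reg]
  · rintro i hi s5 ⟨hmem, L, r42, r47, h1, h2⟩ hb5 r46 fr5
    have r98 : s5.reg 98 = p := by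
      rw [fr5 98 (by norm_num) (by decide)]; simp [set_reg, h98]
    refine Tb.ite P hb5 (by simp [cs]) (by simp [sz]) (by simp [cs]; omega) (by simp [sz]) (T := 20)
      (by simp [Ex.cost]) ?_ ?_
    · intro hlt
      simp only [Ex.ev, r47, r98] at hlt
      have hLX : L + 1 ≤ X := by
        have : L < 2 ^ L := Nat.lt_two_pow_self
        omega
      refine Tr.mono (T := 10 + 10) ?_ (by norm_num) (fun _ h => h)
      apply Tr.seq
      refine Tb.asgv P hb5 (v := 2 ^ L + 2 ^ L) (by simp [Ex.ev, r47]) (by omega) (by simp [cs])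
        (by simp [sz]) (by simp [Ex.cost]) ?_
      intro b1
      refine Tb.asgv P b1 (v := L + 1) (by simp [Ex.ev, set_reg, r42]) hLX (by simp [cs]; omega)
        (by simp [sz]) (by simp [Ex.cost]) ?_
      intro b2
      refine ⟨b2, hmem, L + 1, ?_, ?_, Or.inr ?_, ?_⟩
      · simp [set_reg]
      · simp [set_reg, pow_succ]; ring
      · simpa using Nat.lt_succ_iff.1 hlt
      · rcases h2 with h2 | h2
        · have : 2 ^ L < p + 1 := hlt
          omega
        · right; omega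
    · intro hlt
      simp only [Ex.ev, r47, r98, not_lt] at hlt
      apply Tr.skip
      refine ⟨hb5, hmem, L, ?_, ?_, h1, Or.inl (by omega)⟩
      · rw [set_reg, if_neg (by norm_num)]; exact r42
      · rw [set_reg, if_neg (by norm_num)]; exact r47
  · rintro s5 ⟨hmem, L, r42, r47, h1, h2⟩ hb5 r46 fr5
    have hlt : p < 2 ^ L := by
      rcases h2 with h2 | h2
      · exact h2
      · subst h2; exact Nat.lt_two_pow_self
    refine hQ s5 hb5 ?_ hmem ?_
    · intro y hy
      simp only [List.mem_cons, List.not_mem_nil, or_false, not_or] at hy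
      rw [fr5 y hy.2.1 (by simp [HC.wr]; tauto)]
      simp [set_reg, hy]
    · rw [r42]
      rcases h1 with h1 | h1
      · subst h1; simp at hlt; omega
      · have hL0 : L ≠ 0 := by rintro rfl; simp at hlt; omega
        obtain ⟨l, rfl⟩ : ∃ l, L = l + 1 := ⟨L - 1, by omega⟩
        simp only [Nat.add_sub_cancel] at h1
        rw [(Nat.log_eq_iff (b := 2) (m := l) (n := p) (by right; exact ⟨by norm_num, by omega⟩)).2
          ⟨h1, hlt⟩]

/-- The table of the numbers `K' * c / p`, array 30. -/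
def quoC (K' : ℕ) : HC :=
  .seq (.asg 47 (.add (.r 98) (.c 1))) (.seq (.asg 49 (.c K'))
    (.loop 46 47 (.seq (.asg 48 (.c 0)) (.seq
      (.loop 11 49 (.ite (.mul (.add (.r 11) (.c 1)) (.r 98)) (.add (.mul (.c K') (.r 46)) (.c 1))
        (.asg 48 (.add (.r 11) (.c 1))) .skip))
      (stA 30 (.r 46) (.r 48))))))

theorem tr_quo {X w : ℕ} (P : PX X w) {p K' : ℕ} {s : St} {Q : St → Prop} (hX : 32 ≤ X)
    (hb : Bd X s) (h98 : s.reg 98 = p) (h99 : s.reg 99 = p * p) (hp : 1 ≤ p) (hX2 : p + 1 ≤ X)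
    (hK' : K' ≤ X)
    (hQ : ∀ s', Bd X s' → (∀ y, y ∉ [11, 46, 47, 48, 49] → s'.reg y = s.reg y) →
      Fr [30] (p * p) s.mem s'.mem → Fi (p * p) s'.mem 30 (p + 1) (fun c => K' * c / p) → Q s') :
    Tr w (quoC K') s (40 * (K' + 1) * (p + 2)) Q := by
  refine Tr.mono (T := 10 + (5 + ((p + 1) * ((5 + ((K' * (29 + 4) + 3) + 20)) + 4) + 3))) ?_
    (by ring_nf; omega) (fun _ h => h)
  apply Tr.seq
  refine Tb.asgv P hb (v := p + 1) (by simp [Ex.ev, h98]) hX2 (by simp [cs]; omega) (by simp [sz])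
    (by simp [Ex.cost]) ?_
  intro b1
  apply Tr.seq
  refine Tb.asgv P b1 (v := K') rfl hK' (by simpa [cs] using hK') (by simp [sz]) (by simp [Ex.cost]) ?_
  intro b2
  set s2 := (s.set 47 (p + 1)).set 49 K' with hs2
  have f2 : ∀ y, y ∉ [47, 49] → s2.reg y = s.reg y := by
    intro y hy
    simp only [List.mem_cons, List.not_mem_nil, or_false, not_or] at hy
    simp [hs2, set_reg, hy]
  have q47 : s2.reg 47 = p + 1 := by simp [hs2, set_reg]
  have q49 : s2.reg 49 = K' := by simp [hs2, set_reg]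
  have m2 : s2.mem = s.mem := rfl
  clear_value s2
  refine Tb.loop P b2 (fun i s' => Fr [30] (p * p) s.mem s'.mem ∧
    Fi (p * p) s'.mem 30 i (fun c => K' * c / p)) (5 + ((K' * (29 + 4) + 3) + 20)) q47 le_rfl
    ⟨m2 ▸ Fr.refl _ _ _, Fi.zero _ _ _ _⟩ ?_ ?_
  · rintro i hi s3 ⟨hF, hFi⟩ b3 r46 f3
    have h49 : s3.reg 49 = K' := by rw [f3 49 (by norm_num) (by simp [HC.wr, stA]), q49]
    have h98' : s3.reg 98 = p := by rw [f3 98 (by norm_num) (by simp [HC.wr, stA]), f2 98 (by decide), h98]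
    have h99' : s3.reg 99 = p * p := by rw [f3 99 (by norm_num) (by simp [HC.wr, stA]), f2 99 (by decide), h99]
    have hdiv : K' * i / p ≤ K' := by
      apply Nat.div_le_of_le_mul
      rw [Nat.mul_comm p]; exact Nat.mul_le_mul_left _ (by omega)
    apply Tr.seq
    refine Tb.asgv P b3 (v := 0) rfl (by omega) (by simp [cs]) (by simp [sz]) (by simp [Ex.cost]) ?_
    intro b4
    apply Tr.seq
    refine Tb.loop P b4 (fun t s' => s'.mem = s3.mem ∧ s'.reg 48 = min t (K' * i / p)) 29 (N := K')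
      (by simp [set_reg, h49]) le_rfl ⟨rfl, by simp [set_reg]⟩ ?_ ?_
    · rintro t ht s5 ⟨m5, r48⟩ b5 r11 f5
      have e98 : s5.reg 98 = p := by
        rw [f5 98 (by norm_num) (by simp [HC.wr, stA])]; simp [set_reg, h98']
      have e46 : s5.reg 46 = i := by
        rw [f5 46 (by norm_num) (by simp [HC.wr, stA])]; simp [set_reg, r46]
      refine Tb.ite P b5 (by simp [cs]; omega) (by simp [sz]) (by simp [cs]; omega) (by simp [sz])
        (T := 10) (by simp [Ex.cost]) ?_ ?_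
      · intro hlt
        simp only [Ex.ev, r11, e98, e46] at hlt
        have hle : t + 1 ≤ K' * i / p := by
          rw [Nat.le_div_iff_mul_le (by omega)]; omega
        refine Tb.asgv P b5 (v := t + 1) (by simp [Ex.ev, r11]) (by omega) (by simp [cs]; omega)
          (by simp [sz]) (by simp [Ex.cost]) ?_
        intro b6
        refine ⟨b6, m5, ?_⟩
        simp [set_reg]; omega
      · intro hlt
        simp only [Ex.ev, r11, e98, e46] at hlt
        have hle : K' * i / p < t + 1 := by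
          rw [Nat.div_lt_iff_lt_mul (by omega)]; omega
        apply Tr.skip
        refine ⟨b5, m5, ?_⟩
        simp [set_reg, r48]; omega
    · rintro s5 ⟨m5, r48⟩ b5 r11 f5
      refine Tb.stAv P b5 hX (by norm_num) (B := p * p) ?_ (i := i) (v := K' * i / p) ?_ ?_
        (by omega) (by simp [cs]) (by simp [sz]) (by simp [cs]) (by simp [sz]) (by simp [Ex.cost]) ?_
      · rw [f5 99 (by norm_num) (by simp [HC.wr, stA])]; simp [set_reg, h99']
      · simp only [Ex.ev]; rw [f5 46 (by norm_num) (by simp [HC.wr, stA])]; simp [set_reg, r46]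
      · simp only [Ex.ev, r48]; omega
      intro b6
      refine ⟨b6, ?_, ?_⟩
      · simp only [St.set_mem, put_mem, m5]; exact hF.upd (by norm_num) (by simp [HC.wr, stA]) _ _
      · simp only [St.set_mem, put_mem, m5]; exact hFi.upd (by norm_num) rfl
  · rintro s3 ⟨hF, hFi⟩ b3 _ f3
    refine hQ s3 b3 ?_ hF hFi
    intro y hy
    simp only [List.mem_cons, List.not_mem_nil, or_false, not_or] at hy
    rw [f3 y (by tauto) (by simp [HC.wr, stA]; tauto), f2 y (by simp; tauto)]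

/-- The initialisation. -/
def initC (K' S0 : ℕ) : HC :=
  .seq (.asg 98 (.r 0)) (.seq (.asg 99 (.mul (.r 98) (.r 98))) (.seq (.asg 41 (.c 0)) (.seq sizeC
    (.seq (.asg 43 (.mul (.c S0) (.r 42))) (.seq (.loop 11 98 (stA 4 (.r 11) (.r 11)))
    (.seq (.asg 1 (.r 98)) (.seq tripC (.seq (.asg 44 (.r 3)) (.seq (cpC 44 5 24)
    (.seq (cpC 44 6 25) (.seq (cpC 44 7 26) (.seq (.asg 45 (.mul (.r 44) (.r 44)))
      (quoC K')))))))))))))

theorem tr_init {X w : ℕ} (P : PX X w) {p K' S0 : ℕ} {g : ℕ → ℕ → ℕ} {s0 : St} {Q : St → Prop}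
    (hX : 32 ≤ X) (hb : Bd X s0) (h0 : s0.reg 0 = p) (hp : 1 ≤ p)
    (hX2 : 2 * p + 2 ≤ X) (hX6 : (p * p * p) * (p * p * p) ≤ X) (hK' : K' ≤ X)
    (hS : S0 * (Nat.log 2 p + 1) ≤ X) (hS0 : S0 ≤ X) (hG : GM p g s0.mem)
    (hQ : ∀ s', Bd X s' → LL p (S0 * (Nat.log 2 p + 1)) g s' → s'.reg 41 = 0 →
      Fi (p * p) s'.mem 30 (p + 1) (fun c => K' * c / p) → Q s') :
    Tr w (initC K' S0) s0 (1000 * (K' + 1) * (p + 1) ^ 3) Q := by
  have hp2 : p * p ≤ X := by
    refine le_trans ?_ hX6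
    calc p * p ≤ p * p * p := Nat.le_mul_of_pos_right _ hp
      _ ≤ (p * p * p) * (p * p * p) := Nat.le_mul_of_pos_right _ (by positivity)
  have hp3 : p * p * p ≤ X := le_trans (Nat.le_mul_of_pos_right _ (by positivity)) hX6
  refine Tr.mono (T := 5 + (10 + (5 + (40 * (p + 1) + (10 + ((p * 30 + 3) + (5 +
    (200 * (p + 1) ^ 3 + (5 + ((p * p * p * 30 + 3) + ((p * p * p * 30 + 3) + ((p * p * p * 30 + 3) +
    (10 + 40 * (K' + 1) * (p + 2)))))))))))))) ?_ ?_ (fun _ h => h)
  swap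
  · have h1 : p * p * p ≤ (p + 1) ^ 3 := by nlinarith
    have h2 : p + 1 ≤ (p + 1) ^ 3 := Nat.le_self_pow (by norm_num) _
    have h3 : (K' + 1) * (p + 2) ≤ (K' + 1) * (2 * (p + 1) ^ 3) := Nat.mul_le_mul_left _ (by omega)
    have h4 : (p + 1) ^ 3 ≤ (K' + 1) * (p + 1) ^ 3 := Nat.le_mul_of_pos_left _ (by omega)
    have h5 : 1000 * (K' + 1) * (p + 1) ^ 3 = 1000 * ((K' + 1) * (p + 1) ^ 3) := by ring
    have h6 : (K' + 1) * (2 * (p + 1) ^ 3) = 2 * ((K' + 1) * (p + 1) ^ 3) := by ring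
    have h7 : 40 * (K' + 1) * (p + 2) = 40 * ((K' + 1) * (p + 2)) := by ring
    rw [h5, h7]
    rw [h6] at h3
    generalize (K' + 1) * (p + 1) ^ 3 = a at *
    generalize (K' + 1) * (p + 2) = b at *
    generalize (p + 1) ^ 3 = c at *
    generalize p * p * p = d at *
    clear hX6 hp2 hp3
    omega
  apply Tr.seq
  refine Tb.asgv P hb (v := p) (by simp [Ex.ev, h0]) (by omega) (by simp [cs]) (by simp [sz])
    (by simp [Ex.cost]) ?_
  intro b1
  apply Tr.seq
  refine Tb.asgv P b1 (v := p * p) (by simp [Ex.ev, set_reg]) hp2 (by simp [cs]) (by simp [sz])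
    (by simp [Ex.cost]) ?_
  intro b2
  apply Tr.seq
  refine Tb.asgv P b2 (v := 0) rfl (by omega) (by simp [cs]) (by simp [sz]) (by simp [Ex.cost]) ?_
  intro b3
  apply Tr.seq
  refine tr_size P hX b3 (p := p) (by simp [set_reg]) hp hX2 ?_
  intro s4 b4 f4 m4 r42
  have q98 : s4.reg 98 = p := by rw [f4 98 (by decide)]; simp [set_reg]
  have q99 : s4.reg 99 = p * p := by rw [f4 99 (by decide)]; simp [set_reg]
  have q41 : s4.reg 41 = 0 := by rw [f4 41 (by decide)]; simp [set_reg]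
  have m4' : s4.mem = s0.mem := m4
  apply Tr.seq
  refine Tb.asgv P b4 (v := S0 * (Nat.log 2 p + 1)) (by simp [Ex.ev, r42]) hS (by simpa [cs] using hS0)
    (by simp [sz]) (by simp [Ex.cost]) ?_
  intro b5
  set s5 := s4.set 43 (S0 * (Nat.log 2 p + 1)) with hs5
  have f5 : ∀ y, y ≠ 43 → s5.reg y = s4.reg y := fun y hy => by simp [hs5, set_reg, hy]
  have q43 : s5.reg 43 = S0 * (Nat.log 2 p + 1) := by simp [hs5, set_reg]
  have m5 : s5.mem = s0.mem := m4'
  clear_value s5
  apply Tr.seq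
  refine Tb.mapLoop (f := fun i => i) P b5 hX (by norm_num) (N := p) (B := p * p)
    (by rw [f5 98 (by norm_num), q98]) (by rw [f5 99 (by norm_num), q99]) (by norm_num)
    (by simp [cs]) (by simp [sz]) (by simp [Ex.cost]; omega) ?_ ?_ ?_
  · intro i hi s' _ hr _; simp [Ex.ev, hr]
  · intro i hi; omega
  intro s6 b6 _ f6 F6 d6
  apply Tr.seq
  refine Tb.asgv P b6 (v := p) (by simp [Ex.ev]; rw [f6 98 (by norm_num), f5 98 (by norm_num), q98])
    (by omega) (by simp [cs]) (by simp [sz]) (by simp [Ex.cost]) ?_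
  intro b7
  set s7 := s6.set 1 p with hs7
  have f7 : ∀ y, y ≠ 1 → s7.reg y = s6.reg y := fun y hy => by simp [hs7, set_reg, hy]
  have q1 : s7.reg 1 = p := by simp [hs7, set_reg]
  have m7 : s7.mem = s6.mem := rfl
  clear_value s7
  apply Tr.seq
  refine tr_trip P hX b7 (B := p * p) (n := p) (Ls := fun i => i) ?_ q1 (by rw [m7]; exact d6)
    hp3 hp2 ?_
  · rw [f7 99 (by norm_num), f6 99 (by norm_num), f5 99 (by norm_num), q99]
  intro s8 b8 f8 r2 r3 hT
  have k8 : ∀ y, y ∉ [2, 3, 10, 11, 12] → s8.reg y = s7.reg y := f8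
  apply Tr.seq
  refine Tb.asgv P b8 (v := p * p * p) (by simp [Ex.ev, r3]) hp3 (by simp [cs]) (by simp [sz])
    (by simp [Ex.cost]) ?_
  intro b9
  set s9 := s8.set 44 (p * p * p) with hs9
  have f9 : ∀ y, y ≠ 44 → s9.reg y = s8.reg y := fun y hy => by simp [hs9, set_reg, hy]
  have q44 : s9.reg 44 = p * p * p := by simp [hs9, set_reg]
  have m9 : s9.mem = s8.mem := rfl
  clear_value s9
  have h99' : s9.reg 99 = p * p := by
    rw [f9 99 (by norm_num), k8 99 (by decide), f7 99 (by norm_num), f6 99 (by norm_num),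
      f5 99 (by norm_num), q99]
  apply Tr.seq
  refine tr_cp P b9 hX (by norm_num) (by norm_num) (by norm_num) q44 h99' le_rfl
    (by rw [m9]; exact hT.d1) ?_
  intro s10 b10 f10 F10 d10
  apply Tr.seq
  refine tr_cp P b10 hX (by norm_num) (by norm_num) (by norm_num)
    ((f10 44 (by norm_num)).trans q44) ((f10 99 (by norm_num)).trans h99') le_rfl
    (((m9 ▸ hT.d2 : Fi (p * p) s9.mem 6 _ _)).fr F10 (by norm_num) (by decide)) ?_
  intro s11 b11 f11 F11 d11
  apply Tr.seq
  refine tr_cp P b11 hX (by norm_num) (by norm_num) (by norm_num)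
    ((f11 44 (by norm_num)).trans ((f10 44 (by norm_num)).trans q44))
    ((f11 99 (by norm_num)).trans ((f10 99 (by norm_num)).trans h99')) le_rfl
    ((((m9 ▸ hT.d3 : Fi (p * p) s9.mem 7 _ _)).fr F10 (by norm_num) (by decide)).fr F11
      (by norm_num) (by decide)) ?_
  intro s12 b12 f12 F12 d12
  have g44 : s12.reg 44 = p * p * p := by
    rw [f12 44 (by norm_num), f11 44 (by norm_num), f10 44 (by norm_num), q44]
  apply Tr.seq
  refine Tb.asgv P b12 (v := (p * p * p) * (p * p * p)) (by simp [Ex.ev, g44]) hX6 (by simp [cs])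
    (by simp [sz]) (by simp [Ex.cost]) ?_
  intro b13
  set s13 := s12.set 45 ((p * p * p) * (p * p * p)) with hs13
  have f13 : ∀ y, y ≠ 45 → s13.reg y = s12.reg y := fun y hy => by simp [hs13, set_reg, hy]
  have q45 : s13.reg 45 = (p * p * p) * (p * p * p) := by simp [hs13, set_reg]
  have m13 : s13.mem = s12.mem := rfl
  clear_value s13
  have all : ∀ y, y ∉ [1, 2, 3, 10, 11, 12, 43, 44, 45] → s13.reg y = s4.reg y := by
    intro y hy
    simp only [List.mem_cons, List.not_mem_nil, or_false, not_or] at hy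
    rw [f13 y (by tauto), f12 y (by tauto), f11 y (by tauto), f10 y (by tauto), f9 y (by tauto),
      k8 y (by simp; tauto), f7 y (by tauto), f6 y (by tauto), f5 y (by tauto)]
  refine tr_quo P hX b13 (by rw [all 98 (by decide), q98]) (by rw [all 99 (by decide), q99]) hp
    (by omega) hK' ?_
  intro s14 b14 f14 F14 d14
  have t1 : Fr [4, 5, 6, 7, 24, 25, 26, 30] (p * p) s5.mem s6.mem := F6.mono (by decide)
  have t2 : Fr [4, 5, 6, 7, 24, 25, 26, 30] (p * p) s6.mem s8.mem := by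
    rw [← m7]; exact hT.fr.mono (by decide)
  have t3 : Fr [4, 5, 6, 7, 24, 25, 26, 30] (p * p) s8.mem s10.mem := by
    rw [← m9]; exact F10.mono (by decide)
  have t4 : Fr [4, 5, 6, 7, 24, 25, 26, 30] (p * p) s10.mem s11.mem := F11.mono (by decide)
  have t5 : Fr [4, 5, 6, 7, 24, 25, 26, 30] (p * p) s11.mem s12.mem := F12.mono (by decide)
  have t6 : Fr [4, 5, 6, 7, 24, 25, 26, 30] (p * p) s12.mem s14.mem := by
    rw [← m13]; exact F14.mono (by decide)
  have tt := t1.trans (t2.trans (t3.trans (t4.trans (t5.trans t6))))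
  rw [m5] at tt
  refine hQ s14 b14 ⟨?_, ?_, ?_, ?_, ?_, hG.fr tt, ?_, ?_, ?_⟩ ?_ d14
  · rw [f14 98 (by decide), all 98 (by decide), q98]
  · rw [f14 99 (by decide), all 99 (by decide), q99]
  · rw [f14 43 (by decide), f13 43 (by norm_num), f12 43 (by norm_num), f11 43 (by norm_num),
      f10 43 (by norm_num), f9 43 (by norm_num), k8 43 (by decide), f7 43 (by norm_num),
      f6 43 (by norm_num), q43]
  · rw [f14 44 (by decide), f13 44 (by norm_num), g44]
  · rw [f14 45 (by decide), q45]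
  · refine Fi.fr ?_ F14 (by norm_num) (by decide)
    rw [m13]
    exact (d10.fr F11 (by norm_num) (by decide)).fr F12 (by norm_num) (by decide)
  · refine Fi.fr ?_ F14 (by norm_num) (by decide)
    rw [m13]
    exact d11.fr F12 (by norm_num) (by decide)
  · refine Fi.fr ?_ F14 (by norm_num) (by decide)
    rw [m13]
    exact d12
  · rw [f14 41 (by decide), all 41 (by decide), q41]

end Pool.Agent.H792_Clique
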