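import Pool.Agent.H792_Clique.Prog1
import Pool.Agent.H792_Clique.PDefs

/-!
Arrays indexed by pairs of triples.
-/

set_option autoImplicit false
set_option linter.unusedSimpArgs false
set_option linter.unusedVariables false

namespace Pool.Agent.H792_Clique

open Pool.Agent.H588R2 Pool.Agent.TH687.HL

/-- Index of a pair. -/
def ixE : Ex := .add (.mul (.r 52) (.r 44)) (.r 53)

/-- State of an array during an update in place. -/
structure UP (B k N : ℕ) (f f' : ℕ → ℕ) (m0 : ℕ → ℕ) (cnt : ℕ) (m : ℕ → ℕ) : Prop where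
  fr : Fr [k] B m0 m
  d1 : Fi B m k cnt f'
  d2 : ∀ i, cnt ≤ i → i < N * N → ar B m k i = f i

theorem Tb.map2 {X w k c : ℕ} {e : Ex} {s : St} {T N B : ℕ} {f f' : ℕ → ℕ} {Q : St → Prop}
    (P : PX X w) (hb : Bd X s) (hX : 32 ≤ X) (hk : k < 32) (hN : s.reg 44 = N)
    (h99 : s.reg 99 = B) (hc : cs X e) (hs : sz e ≤ 100) (hcost : e.cost ≤ c)
    (hT : N * (N * (c + 30) + 7) + 3 ≤ T) (hf : Fi B s.mem k (N * N) f)
    (he : ∀ a < N, ∀ b < N, ∀ s', Fr [k] B s.mem s'.mem → ar B s'.mem k (a * N + b) = f (a * N + b) →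
      s'.reg 52 = a → s'.reg 53 = b → (∀ y, y ∉ [52, 53] → s'.reg y = s.reg y) →
      e.ev s' = f' (a * N + b))
    (hv : ∀ i < N * N, f' i ≤ X)
    (hQ : ∀ s', Bd X s' → (∀ y, y ∉ [52, 53] → s'.reg y = s.reg y) →
      Fr [k] B s.mem s'.mem → Fi B s'.mem k (N * N) f' → Q s') :
    Tr w (.loop 52 44 (.loop 53 44 (stA k ixE e))) s T Q := by
  refine Tr.mono (T := N * ((N * ((c + 26) + 4) + 3) + 4) + 3) ?_ ?_ (fun _ h => h)
  swap
  · refine le_trans (le_of_eq ?_) hT
    ring
  refine Tb.nest P hb (UP B k N f f' s.mem) 0 N (N * ((c + 26) + 4) + 3) (N := N) hN le_rfl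
    ⟨Fr.refl _ _ _, Fi.zero _ _ _ _, fun i _ hi => hf i hi⟩ ?_ ?_
  · intro a ha s1 h1 b1 r52 f1
    refine Tb.nest P b1 (UP B k N f f' s.mem) (0 + a * N) 1 (c + 26) (N := N)
      (by rw [f1 44 (by norm_num) (by simp [HC.wr, stA]), hN]) le_rfl h1 ?_ ?_
    · intro b hb' s2 h2 b2 r53 f2
      have e1 : 0 + a * N + b * 1 = a * N + b := by ring
      have e2 : 0 + a * N + (b + 1) * 1 = a * N + b + 1 := by ring
      rw [e1] at h2
      rw [e2]
      have hlt : a * N + b < N * N := by
        have : (a + 1) * N ≤ N * N := Nat.mul_le_mul_right _ ha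
        rw [Nat.add_mul] at this; omega
      have g52 : s2.reg 52 = a := by rw [f2 52 (by norm_num) (by simp [HC.wr, stA]), r52]
      have gall : ∀ y, y ∉ [52, 53] → s2.reg y = s.reg y := by
        intro y hy
        simp only [List.mem_cons, List.not_mem_nil, or_false, not_or] at hy
        rw [f2 y hy.2 (by simp [HC.wr, stA]), f1 y hy.1 (by simp [HC.wr, stA]; tauto)]
      have hev := he a ha b hb' s2 h2.fr (h2.d2 _ le_rfl hlt) g52 r53 gall
      refine Tb.stAv P b2 hX hk (B := B) (by rw [gall 99 (by decide), h99]) (i := a * N + b)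
        (v := f' (a * N + b)) ?_ hev (hv _ hlt) (by simp [ixE, cs]) (by simp [ixE, sz]) hc hs
        (by simp [ixE, Ex.cost]; omega) ?_
      · simp only [ixE, Ex.ev, g52, r53, gall 44 (by decide), hN]
      intro b3
      refine ⟨b3, h2.fr.upd hk (by simp) _ _, h2.d1.upd hk rfl, ?_⟩
      intro i hi hi'
      simp only [put_mem]
      rw [ar_update hk hk, if_neg (by omega)]
      exact h2.d2 i (by omega) hi'
    · intro s2 h2 b2 _ _
      refine ⟨b2, ?_⟩
      have e1 : 0 + (a + 1) * N = 0 + a * N + N * 1 := by ring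
      rw [e1]; exact h2
  · intro s1 h1 b1 _ f1
    have e1 : 0 + N * N = N * N := by ring
    rw [e1] at h1
    refine hQ s1 b1 ?_ h1.fr h1.d1
    intro y hy
    simp only [List.mem_cons, List.not_mem_nil, or_false, not_or] at hy
    exact f1 y hy.1 (by simp [HC.wr, stA]; tauto)

/-- A double sum. -/
theorem Tb.sum2 {X w c : ℕ} {e : Ex} {s : St} {T N : ℕ} {f : ℕ → ℕ} {Q : St → Prop}
    (P : PX X w) (hb : Bd X s) (hN : s.reg 44 = N)
    (hc : cs X e) (hs : sz e ≤ 90) (hcost : e.cost ≤ c)
    (hT : N * (N * (c + 10) + 7) + 3 ≤ T)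
    (he : ∀ a < N, ∀ b < N, ∀ s', s'.mem = s.mem →
      s'.reg 52 = a → s'.reg 53 = b → (∀ y, y ∉ [52, 53, 57] → s'.reg y = s.reg y) →
      e.ev s' = f (a * N + b))
    (h57 : s.reg 57 = 0)
    (hv : ∑ i ∈ Finset.range (N * N), f i ≤ X)
    (hQ : ∀ s', Bd X s' → (∀ y, y ∉ [52, 53, 57] → s'.reg y = s.reg y) →
      s'.mem = s.mem → s'.reg 57 = ∑ i ∈ Finset.range (N * N), f i → Q s') :
    Tr w (.loop 52 44 (.loop 53 44 (.asg 57 (.add (.r 57) e)))) s T Q := by
  have mono : ∀ n ≤ N * N, ∑ i ∈ Finset.range n, f i ≤ X := fun n hn =>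
    le_trans (Finset.sum_le_sum_of_subset (Finset.range_subset_range.2 hn)) hv
  refine Tr.mono (T := N * ((N * (e.cost + 9) + 3) + 4) + 3) ?_ ?_ (fun _ h => h)
  swap
  · refine le_trans ?_ hT
    have : N * (e.cost + 9) ≤ N * (c + 10) := Nat.mul_le_mul_left _ (by omega)
    have := Nat.mul_le_mul_left N (show N * (e.cost + 9) + 3 + 4 ≤ N * (c + 10) + 7 by omega)
    omega
  refine Tb.loop P hb (fun a s' => s'.mem = s.mem ∧ (∀ y, y ∉ [52, 53, 57] → s'.reg y = s.reg y) ∧
    s'.reg 57 = ∑ i ∈ Finset.range (a * N), f i) (N * (e.cost + 9) + 3) hN le_rfl ?_ ?_ ?_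
  · refine ⟨rfl, ?_, ?_⟩
    · intro y hy
      simp only [List.mem_cons, List.not_mem_nil, or_false, not_or] at hy
      simp [set_reg, hy]
    · simp [set_reg, h57]
  · rintro a ha s1 ⟨m1, f1, r57⟩ b1 r52 _
    refine Tb.sumLoop P b1 (N := N) (f := fun b => f (a * N + b)) (by rw [f1 44 (by decide), hN])
      (by norm_num) (by norm_num) (by norm_num) hc (by omega) le_rfl ?_ ?_ ?_
    · intro b hb' v
      refine he a ha b hb' ((s1.set 53 b).set 57 v) m1 ?_ ?_ ?_
      · simp [set_reg, r52]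
      · simp [set_reg]
      · intro y hy
        have hy' := hy
        simp only [List.mem_cons, List.not_mem_nil, or_false, not_or] at hy'
        simp [set_reg, hy', f1 y hy]
    · rw [r57, ← Finset.sum_range_add]
      apply mono
      have : (a + 1) * N ≤ N * N := Nat.mul_le_mul_right _ ha
      rw [Nat.add_mul] at this; omega
    · rw [r57, ← Finset.sum_range_add]
      intro b2
      refine ⟨b2, ?_, ?_, ?_⟩
      · exact m1
      · intro y hy
        have hy' := hy
        simp only [List.mem_cons, List.not_mem_nil, or_false, not_or] at hy'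
        simp [set_reg, hy', f1 y hy]
      · have e1 : (a + 1) * N = a * N + N := by ring
        rw [e1]
        simp [set_reg]
  · rintro s1 ⟨m1, f1, r57⟩ b1 _ _
    exact hQ s1 b1 f1 m1 r57

def taE : Ex := .mul (adE (.r 58) (ldA 24 (.r 51))) (.mul (adE (.r 58) (ldA 25 (.r 51)))
  (adE (.r 58) (ldA 26 (.r 51))))

def taC : HC := .loop 51 44 (stA 29 (.r 51) taE)

theorem tr_ta {X w : ℕ} (P : PX X w) {p σ v : ℕ} {g : ℕ → ℕ → ℕ} {s : St} {Q : St → Prop}
    (hX : 32 ≤ X) (hb : Bd X s) (hLL : LL p σ g s) (hg : ∀ u v, g u v ≤ 1) (h58 : s.reg 58 = v)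
    (hv : v < p)
    (hQ : ∀ s', Bd X s' → (∀ y, y ≠ 51 → s'.reg y = s.reg y) →
      Fr [29] (p * p) s.mem s'.mem → Fi (p * p) s'.mem 29 (p * p * p) (ta g p v) → Q s') :
    Tr w taC s (p * p * p * 100 + 3) Q := by
  refine Tb.mapLoop (f := ta g p v) P hb hX (by norm_num) (N := p * p * p) (B := p * p)
    hLL.r44 hLL.r99 (by norm_num) (by simp [taE, cs]; omega) (by simp [taE, sz])
    (by simp [taE, Ex.cost]; omega) ?_ ?_ ?_
  · intro i hi s' hF hr hfr
    have hG := hLL.G.fr hF
    have e1 := (hLL.d1.fr hF (by norm_num) (by decide)) i hi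
    have e2 := (hLL.d2.fr hF (by norm_num) (by decide)) i hi
    have e3 := (hLL.d3.fr hF (by norm_num) (by decide)) i hi
    have hp : 0 < p := by omega
    simp only [taE, Ex.ev, adE_ev, ldA_ev, hfr 58 (by norm_num), hfr 99 (by norm_num),
      hfr 98 (by norm_num), hLL.r98, hLL.r99, h58, hr, e1, e2, e3]
    have k1 : i / (p * p) < p := Nat.div_lt_of_lt_mul hi
    rw [hG v hv _ k1, hG v hv _ (Nat.mod_lt _ hp), hG v hv _ (Nat.mod_lt _ hp)]
    rfl
  · intro i hi
    exact le_trans (ta_le hg _ _ _) (by omega)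
  · intro s' b' _ f' F' d'
    exact hQ s' b' f' F' d'

/-- The table of the weights of common neighbourhoods. -/
def hC : HC :=
  .seq (.loop 11 45 (stA 28 (.r 11) (.c 0))) (.seq
    (.loop 50 98 (.seq (.asg 58 (.r 50)) (.seq taC
      (.loop 52 44 (.loop 53 44 (stA 28 ixE (.add (ldA 28 ixE)
        (.mul (ldA 29 (.r 52)) (ldA 29 (.r 53))))))))))
    (.seq (.loop 52 44 (.loop 53 44 (stA 2 ixE (ldA 30 (.sub (.r 98) (ldA 28 ixE))))))
    (.seq (.loop 52 44 (.loop 53 44 (stA 28 ixE (ldA 30 (ldA 28 ixE)))))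
      (.seq (.loop 11 45 (stA 27 (.r 11) (.c 1))) (.loop 11 45 (stA 3 (.r 11) (.c 1)))))))

theorem tr_h {X w : ℕ} (P : PX X w) {p σ K' : ℕ} {g : ℕ → ℕ → ℕ} {s : St} {Q : St → Prop}
    (hX : 32 ≤ X) (hb : Bd X s) (hLL : LL p σ g s) (hg : ∀ u v, g u v ≤ 1) (hp : 1 ≤ p)
    (hpX : p ≤ X) (hKX : K' ≤ X)
    (h30 : Fi (p * p) s.mem 30 (p + 1) (fun c => K' * c / p))
    (hQ : ∀ s', Bd X s' → (∀ y, y ∉ [11, 50, 51, 52, 53, 58] → s'.reg y = s.reg y) →
      LL p σ g s' →
      Fi (p * p) s'.mem 28 ((p * p * p) * (p * p * p))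
        (fun J => K' * (∑ v ∈ Finset.range p, bb g p J v) / p) →
      Fi (p * p) s'.mem 2 ((p * p * p) * (p * p * p))
        (fun J => K' * (p - ∑ v ∈ Finset.range p, bb g p J v) / p) →
      Fi (p * p) s'.mem 27 ((p * p * p) * (p * p * p)) (fun _ => 1) →
      Fi (p * p) s'.mem 3 ((p * p * p) * (p * p * p)) (fun _ => 1) → Q s') :
    Tr w hC s (1000 * (p * ((p * p * p) * (p * p * p)) + 1)) Q := by
  set N := p * p * p with hN
  have hN1 : 1 ≤ N := by rw [hN]; exact Nat.mul_pos (Nat.mul_pos hp hp) hp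
  refine Tr.mono (T := (N * N * 20 + 3) + ((p * ((5 + ((N * 100 + 3) +
    (N * (N * (100 + 30) + 7) + 3))) + 4) + 3) + ((N * (N * (100 + 30) + 7) + 3) +
      ((N * (N * (100 + 30) + 7) + 3) + ((N * N * 20 + 3) + (N * N * 20 + 3)))))) ?_ ?_
      (fun _ h => h)
  swap
  · have h1 : N ≤ N * N := Nat.le_mul_of_pos_left _ hN1
    have h2 : N * N ≤ p * (N * N) := Nat.le_mul_of_pos_left _ hp
    have h3 : p ≤ p * (N * N) := Nat.le_mul_of_pos_right _ (Nat.mul_pos hN1 hN1)
    have h4 : N * (N * (100 + 30) + 7) = 130 * (N * N) + 7 * N := by ring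
    have h5 : p * ((5 + ((N * 100 + 3) + (N * (N * (100 + 30) + 7) + 3))) + 4) =
      130 * (p * (N * N)) + 107 * (p * N) + 15 * p := by ring
    have h6 : p * N ≤ p * (N * N) := Nat.mul_le_mul_left _ h1
    rw [h4] at *
    rw [h5]
    generalize p * (N * N) = a at *
    generalize p * N = b at *
    generalize N * N = c at *
    clear hN h4 h5
    omega
  apply Tr.seq
  refine Tb.mapLoop (f := fun _ => 0) P hb hX (by norm_num) (N := N * N) (B := p * p) hLL.r45
    hLL.r99 (by norm_num) (by simp [cs]) (by simp [sz]) (by simp [Ex.cost]; omega)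
    (fun _ _ _ _ _ _ => rfl) (fun _ _ => by omega) ?_
  intro s1 b1 _ f1 F1 d1
  have L1 : LL p σ g s1 := hLL.mono (fun y hy => f1 y (by
    simp only [List.mem_cons, List.not_mem_nil, or_false] at hy; omega)) F1 (by decide) (by decide) (by decide)
  apply Tr.seq
  refine Tb.loop P b1 (fun i s' => (∀ y, y ∉ [50, 51, 52, 53, 58] → s'.reg y = s1.reg y) ∧
    Fr [28, 29] (p * p) s1.mem s'.mem ∧ Fi (p * p) s'.mem 28 (N * N)
      (fun J => ∑ v ∈ Finset.range i, bb g p J v)) (5 + ((N * 100 + 3) +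
    (N * (N * (100 + 30) + 7) + 3))) L1.r98 le_rfl ?_ ?_ ?_
  · refine ⟨?_, ?_, ?_⟩
    · intro y hy
      simp only [List.mem_cons, List.not_mem_nil, or_false, not_or] at hy
      simp [set_reg, hy]
    · exact Fr.refl _ _ _
    · simpa using d1
  · rintro v hv s2 ⟨f2, F2, d2⟩ b2 r50 _
    have L2 : LL p σ g s2 := L1.mono (fun y hy => f2 y (by
      simp only [List.mem_cons, List.not_mem_nil, or_false] at hy ⊢; omega)) F2 (by decide)
      (by decide) (by decide)
    apply Tr.seq
    refine Tb.asgv P b2 (v := v) (by simp [Ex.ev, r50]) (by omega) (by simp [cs]) (by simp [sz])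
      (by simp [Ex.cost]) ?_
    intro b3
    have L3 : LL p σ g (s2.set 58 v) := L2.mono (K := []) (fun y hy => by
      simp only [List.mem_cons, List.not_mem_nil, or_false] at hy
      rw [set_reg, if_neg (by omega)]) (Fr.refl _ _ _) (by decide) (by decide) (by decide)
    apply Tr.seq
    refine tr_ta P hX b3 L3 hg (v := v) (by simp [set_reg]) hv ?_
    intro s4 b4 f4 F4 d4
    have F24 : Fr [29] (p * p) s2.mem s4.mem := F4
    refine Tb.map2 (f := fun J => ∑ v ∈ Finset.range v, bb g p J v)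
      (f' := fun J => ∑ v ∈ Finset.range (v + 1), bb g p J v) (c := 100) P b4 hX (by norm_num)
      (N := N) (B := p * p) ?_ ?_ (by simp [cs, ixE]; omega) (by simp [sz, ixE])
      (by simp [Ex.cost, ixE]) le_rfl (d2.fr F24 (by norm_num) (by decide)) ?_ ?_ ?_
    · rw [f4 44 (by norm_num)]; simpa [set_reg] using L2.r44
    · rw [f4 99 (by norm_num)]; simpa [set_reg] using L2.r99
    · intro a ha b hb' s' hF hold h52 h53 hall
      have h99' : s'.reg 99 = p * p := by
        rw [hall 99 (by decide), f4 99 (by norm_num)]; simpa [set_reg] using L2.r99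
      have h44' : s'.reg 44 = N := by
        rw [hall 44 (by decide), f4 44 (by norm_num)]; simpa [set_reg] using L2.r44
      have t1 := (d4.fr hF (by norm_num) (by decide)) a ha
      have t2 := (d4.fr hF (by norm_num) (by decide)) b hb'
      obtain ⟨g1, g2⟩ := dm (a := a) hb'
      simp only [Ex.ev, ldA_ev, ixE, h52, h53, h44', h99', hold, t1, t2]
      rw [Finset.sum_range_succ, bb, ← hN, g1, g2]
    · intro i hi
      refine le_trans (Finset.sum_le_sum (g := fun _ => 1) fun v _ => bb_le hg _ _ _) ?_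
      simp; omega
    · intro s5 b5 f5 F5 d5
      refine ⟨b5, ?_, ?_, ?_⟩
      · intro y hy
        have hy' := hy
        simp only [List.mem_cons, List.not_mem_nil, or_false, not_or] at hy'
        rw [set_reg, if_neg hy'.1, f5 y (by simp; tauto), f4 y (by tauto), set_reg,
          if_neg (by tauto), f2 y hy]
      · exact F2.trans ((F24.mono (by decide)).trans (F5.mono (by decide)))
      · exact d5
  · rintro s2 ⟨f2, F2, d2⟩ b2 _ _
    have L2 : LL p σ g s2 := L1.mono (fun y hy => f2 y (by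
      simp only [List.mem_cons, List.not_mem_nil, or_false] at hy ⊢; omega)) F2 (by decide)
      (by decide) (by decide)
    have hcnt : ∀ J, ∑ v ∈ Finset.range p, bb g p J v ≤ p := by
      intro J
      refine le_trans (Finset.sum_le_sum (g := fun _ => 1) fun v _ => bb_le hg _ _ _) ?_
      simp
    have h30' : Fi (p * p) s2.mem 30 (p + 1) (fun c => K' * c / p) :=
      (h30.fr F1 (by norm_num) (by decide)).fr F2 (by norm_num) (by decide)
    have hdivK : ∀ c, c ≤ p → K' * c / p ≤ X := by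
      intro c hc
      refine le_trans ?_ hKX
      apply Nat.div_le_of_le_mul
      rw [Nat.mul_comm p]; exact Nat.mul_le_mul_left _ hc
    apply Tr.seq
    refine Tb.map2 (f := fun J => ar (p * p) s2.mem 2 J)
      (f' := fun J => K' * (p - ∑ v ∈ Finset.range p, bb g p J v) / p) (c := 100) P b2 hX
      (by norm_num) (N := N) (B := p * p) L2.r44 L2.r99 (by simp [cs, ixE]; omega)
      (by simp [sz, ixE]) (by simp [Ex.cost, ixE]) le_rfl (fun _ _ => rfl) ?_ ?_ ?_
    · intro a ha b hb' s' hF hold h52 h53 hall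
      have h99' : s'.reg 99 = p * p := by rw [hall 99 (by decide)]; exact L2.r99
      have h44' : s'.reg 44 = N := by rw [hall 44 (by decide)]; exact L2.r44
      have h98' : s'.reg 98 = p := by rw [hall 98 (by decide)]; exact L2.r98
      have hlt : a * N + b < N * N := by
        have : (a + 1) * N ≤ N * N := Nat.mul_le_mul_right _ ha
        rw [Nat.add_mul] at this; omega
      have e28 := (d2.fr hF (by norm_num) (by decide)) _ hlt
      simp only [Ex.ev, ldA_ev, ixE, h52, h53, h44', h99', h98', e28]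
      exact (h30'.fr hF (by norm_num) (by decide)) _ (Nat.lt_succ_of_le (Nat.sub_le _ _))
    · intro i hi
      exact hdivK _ (Nat.sub_le _ _)
    intro s2' b2' f2' F2' d2'
    have L2' : LL p σ g s2' := L2.mono (fun y hy => f2' y (by
      simp only [List.mem_cons, List.not_mem_nil, or_false] at hy ⊢; omega)) F2' (by decide)
      (by decide) (by decide)
    apply Tr.seq
    refine Tb.map2 (f := fun J => ∑ v ∈ Finset.range p, bb g p J v)
      (f' := fun J => K' * (∑ v ∈ Finset.range p, bb g p J v) / p) (c := 100) P b2' hX (by norm_num)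
      (N := N) (B := p * p) L2'.r44 L2'.r99 (by simp [cs, ixE]; omega) (by simp [sz, ixE])
      (by simp [Ex.cost, ixE]) le_rfl (d2.fr F2' (by norm_num) (by decide)) ?_ ?_ ?_
    · intro a ha b hb' s' hF hold h52 h53 hall
      have h99' : s'.reg 99 = p * p := by rw [hall 99 (by decide)]; exact L2'.r99
      have h44' : s'.reg 44 = N := by rw [hall 44 (by decide)]; exact L2'.r44
      simp only [Ex.ev, ldA_ev, ixE, h52, h53, h44', h99', hold]
      exact ((h30'.fr F2' (by norm_num) (by decide)).fr hF (by norm_num) (by decide)) _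
        (Nat.lt_succ_of_le (hcnt _))
    · intro i hi
      exact hdivK _ (hcnt _)
    · intro s3 b3 f3 F3 d3
      have L3 : LL p σ g s3 := L2'.mono (fun y hy => f3 y (by
        simp only [List.mem_cons, List.not_mem_nil, or_false] at hy ⊢; omega)) F3 (by decide)
        (by decide) (by decide)
      apply Tr.seq
      refine Tb.mapLoop (f := fun _ => 1) P b3 hX (by norm_num) (N := N * N) (B := p * p) L3.r45
        L3.r99 (by norm_num) (by simp [cs]; omega) (by simp [sz]) (by simp [Ex.cost]; omega)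
        (fun _ _ _ _ _ _ => rfl) (fun _ _ => by omega) ?_
      intro s4 b4 _ f4 F4 d4
      have L4 : LL p σ g s4 := L3.mono (fun y hy => f4 y (by
          simp only [List.mem_cons, List.not_mem_nil, or_false] at hy; omega)) F4 (by decide)
          (by decide) (by decide)
      refine Tb.mapLoop (f := fun _ => 1) P b4 hX (by norm_num) (N := N * N) (B := p * p) L4.r45
        L4.r99 (by norm_num) (by simp [cs]; omega) (by simp [sz]) (by simp [Ex.cost]; omega)
        (fun _ _ _ _ _ _ => rfl) (fun _ _ => by omega) ?_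
      intro s5 b5 _ f5 F5 d5
      refine hQ s5 b5 ?_ ?_ ((d3.fr F4 (by norm_num) (by decide)).fr F5 (by norm_num) (by decide))
        (((d2'.fr F3 (by norm_num) (by decide)).fr F4 (by norm_num) (by decide)).fr F5
          (by norm_num) (by decide)) (d4.fr F5 (by norm_num) (by decide)) d5
      · intro y hy
        simp only [List.mem_cons, List.not_mem_nil, or_false, not_or] at hy
        rw [f5 y (by tauto), f4 y (by tauto), f3 y (by simp; tauto), f2' y (by simp; tauto),
          f2 y (by simp; tauto), f1 y (by tauto)]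
      · exact L4.mono (fun y hy => f5 y (by
          simp only [List.mem_cons, List.not_mem_nil, or_false] at hy; omega)) F5 (by decide)
          (by decide) (by decide)

end Pool.Agent.H792_Clique
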