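import Pool.Agent.H792_Clique.Prog2

/-!
One step of the multiplicative weights method, and the treatment of one vertex.
-/

set_option autoImplicit false
set_option linter.unusedSimpArgs false
set_option linter.unusedVariables false

namespace Pool.Agent.H792_Clique

open Pool.Agent.H588R2 Pool.Agent.TH687.HL

/-- Find the vertex of largest weight. -/
def bestC : HC :=
  .seq (.asg 55 (.c 0)) (.seq (.asg 56 (.c 0)) (.loop 50 98 (.seq (.asg 58 (.r 50)) (.seq taC
    (.seq (.asg 57 (.c 0)) (.seq (.loop 52 44 (.loop 53 44 (.asg 57 (.add (.r 57)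
      (.add (.mul (ldA 27 ixE) (.mul (ldA 29 (.r 52)) (ldA 29 (.r 53))))
        (.mul (ldA 3 ixE) (.sub (.c 1) (.mul (ldA 29 (.r 52)) (ldA 29 (.r 53))))))))))
      (.ite (.r 55) (.r 57) (.seq (.asg 55 (.r 57)) (.asg 56 (.r 50))) .skip)))))))

/-- Weight of a vertex. -/
def SW (g : ℕ → ℕ → ℕ) (p : ℕ) (Wf Wg : ℕ → ℕ) (v : ℕ) : ℕ :=
  ∑ J ∈ Finset.range ((p * p * p) * (p * p * p)), (Wf J * bb g p J v + Wg J * (1 - bb g p J v))

theorem tr_best {X w : ℕ} (P : PX X w) {p σ : ℕ} {g : ℕ → ℕ → ℕ} {Wf Wg : ℕ → ℕ} {s : St}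
    {Q : St → Prop}
    (hX : 32 ≤ X) (hb : Bd X s) (hLL : LL p σ g s) (hg : ∀ u v, g u v ≤ 1) (hp : 1 ≤ p)
    (hpX : p ≤ X)
    (h27 : Fi (p * p) s.mem 27 ((p * p * p) * (p * p * p)) Wf)
    (h3 : Fi (p * p) s.mem 3 ((p * p * p) * (p * p * p)) Wg)
    (hWX : ∑ J ∈ Finset.range ((p * p * p) * (p * p * p)), (Wf J + Wg J) ≤ X)
    (hQ : ∀ s' u, Bd X s' → (∀ y, y ∉ [50, 51, 52, 53, 55, 56, 57, 58] → s'.reg y = s.reg y) →
      Fr [29] (p * p) s.mem s'.mem → LL p σ g s' → s'.reg 56 = u → u < p →
      (∀ v < p, SW g p Wf Wg v ≤ SW g p Wf Wg u) → Q s') :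
    Tr w bestC s (1000 * (p * ((p * p * p) * (p * p * p)) + 1)) Q := by
  set N := p * p * p with hN
  have hN1 : 1 ≤ N := by rw [hN]; exact Nat.mul_pos (Nat.mul_pos hp hp) hp
  have hSX : ∀ v, SW g p Wf Wg v ≤ X := by
    intro v
    refine le_trans (Finset.sum_le_sum fun J _ => ?_) hWX
    have h1 := bb_le hg p J v
    have h2 : Wf J * bb g p J v ≤ Wf J * 1 := Nat.mul_le_mul_left _ h1
    have h3 : Wg J * (1 - bb g p J v) ≤ Wg J * 1 := Nat.mul_le_mul_left _ (by omega)
    omega
  refine Tr.mono (T := 5 + (5 + (p * ((5 + ((N * 100 + 3) + (5 + ((N * (N * (190 + 10) + 7) + 3) +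
    30)))) + 4) + 3))) ?_ ?_ (fun _ h => h)
  swap
  · have h1 : N ≤ N * N := Nat.le_mul_of_pos_left _ hN1
    have h3 : p ≤ p * (N * N) := Nat.le_mul_of_pos_right _ (Nat.mul_pos hN1 hN1)
    have h5 : p * ((5 + ((N * 100 + 3) + (5 + ((N * (N * (190 + 10) + 7) + 3) + 30)))) + 4) =
      200 * (p * (N * N)) + 107 * (p * N) + 50 * p := by ring
    have h6 : p * N ≤ p * (N * N) := Nat.mul_le_mul_left _ h1
    rw [h5]
    generalize p * (N * N) = a at *
    generalize p * N = b at *
    generalize N * N = c at *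
    clear hN h5 hSX hWX
    omega
  apply Tr.seq
  refine Tb.asgv P hb (v := 0) rfl (by omega) (by simp [cs]) (by simp [sz]) (by simp [Ex.cost]) ?_
  intro b1
  apply Tr.seq
  refine Tb.asgv P b1 (v := 0) rfl (by omega) (by simp [cs]) (by simp [sz]) (by simp [Ex.cost]) ?_
  intro b2
  set s2 := (s.set 55 0).set 56 0 with hs2
  have f2 : ∀ y, y ∉ [50, 51, 52, 53, 55, 56, 57, 58] → s2.reg y = s.reg y := by
    intro y hy
    simp only [List.mem_cons, List.not_mem_nil, or_false, not_or] at hy
    simp [hs2, set_reg, hy]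
  have q55 : s2.reg 55 = 0 := by simp [hs2, set_reg]
  have q56 : s2.reg 56 = 0 := by simp [hs2, set_reg]
  have m2 : s2.mem = s.mem := rfl
  clear_value s2
  have fLL : ∀ s' : St, (∀ y, y ∉ [50, 51, 52, 53, 55, 56, 57, 58] → s'.reg y = s.reg y) →
      Fr [29] (p * p) s.mem s'.mem → LL p σ g s' := by
    intro s' hf hF
    exact hLL.mono (fun y hy => hf y (by
      simp only [List.mem_cons, List.not_mem_nil, or_false] at hy ⊢; omega)) hF (by decide)
      (by decide) (by decide)
  refine Tb.loop P b2 (fun i s' => (∀ y, y ∉ [50, 51, 52, 53, 55, 56, 57, 58] →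
      s'.reg y = s.reg y) ∧ Fr [29] (p * p) s.mem s'.mem ∧ s'.reg 56 < p ∧
      (∀ v < i, SW g p Wf Wg v ≤ s'.reg 55) ∧ s'.reg 55 ≤ SW g p Wf Wg (s'.reg 56))
      (5 + ((N * 100 + 3) + (5 + ((N * (N * (190 + 10) + 7) + 3) + 30)))) (N := p)
      (by rw [f2 98 (by decide), hLL.r98]) le_rfl ?_ ?_ ?_
  · refine ⟨?_, ?_, ?_, ?_, ?_⟩
    · intro y hy
      have hy' := hy
      simp only [List.mem_cons, List.not_mem_nil, or_false, not_or] at hy'
      rw [set_reg, if_neg (by tauto), f2 y hy]
    · exact m2 ▸ Fr.refl _ _ _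
    · simp [set_reg, q56]; omega
    · intro v hv; omega
    · simp [set_reg, q55]
  · rintro v hv s3 ⟨f3, F3, c1, c2, c3⟩ b3 r50 _
    have L3 := fLL s3 f3 F3
    apply Tr.seq
    refine Tb.asgv P b3 (v := v) (by simp [Ex.ev, r50]) (by omega) (by simp [cs]) (by simp [sz])
      (by simp [Ex.cost]) ?_
    intro b4
    have L4 : LL p σ g (s3.set 58 v) := L3.mono (K := []) (fun y hy => by
      simp only [List.mem_cons, List.not_mem_nil, or_false] at hy
      rw [set_reg, if_neg (by omega)]) (Fr.refl _ _ _) (by decide) (by decide) (by decide)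
    apply Tr.seq
    refine tr_ta P hX b4 L4 hg (v := v) (by simp [set_reg]) hv ?_
    intro s5 b5 f5 F5 d5
    have F35 : Fr [29] (p * p) s3.mem s5.mem := F5
    apply Tr.seq
    refine Tb.asgv P b5 (v := 0) rfl (by omega) (by simp [cs]) (by simp [sz]) (by simp [Ex.cost]) ?_
    intro b6
    set s6 := s5.set 57 0 with hs6
    have f6 : ∀ y, y ∉ [51, 57, 58] → s6.reg y = s3.reg y := by
      intro y hy
      simp only [List.mem_cons, List.not_mem_nil, or_false, not_or] at hy
      rw [hs6, set_reg, if_neg (by tauto), f5 y (by tauto), set_reg, if_neg (by tauto)]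
    have q57 : s6.reg 57 = 0 := by simp [hs6, set_reg]
    have F36 : Fr [29] (p * p) s3.mem s6.mem := F35
    have d6 : Fi (p * p) s6.mem 29 (p * p * p) (ta g p v) := d5
    clear_value s6
    have L6 : LL p σ g s6 := L3.mono (fun y hy => f6 y (by
      simp only [List.mem_cons, List.not_mem_nil, or_false] at hy ⊢; omega)) F36 (by decide)
      (by decide) (by decide)
    apply Tr.seq
    refine Tb.sum2 P b6 (N := N) (c := 190)
      (f := fun J => Wf J * bb g p J v + Wg J * (1 - bb g p J v)) L6.r44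
      (by simp [cs, ixE]; omega) (by simp [sz, ixE]) (by simp [Ex.cost, ixE]) le_rfl ?_ q57
      (hSX v) ?_
    · intro a ha b hb' s' hm h52 h53 hall
      have h99' : s'.reg 99 = p * p := by rw [hall 99 (by decide)]; exact L6.r99
      have h44' : s'.reg 44 = N := by rw [hall 44 (by decide)]; exact L6.r44
      obtain ⟨g1, g2⟩ := dm (a := a) hb'
      have hlt : a * N + b < N * N := by
        have : (a + 1) * N ≤ N * N := Nat.mul_le_mul_right _ ha
        rw [Nat.add_mul] at this; omega
      have hW := ((h27.fr F3 (by norm_num) (by decide)).fr F36 (by norm_num) (by decide)) _ hlt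
      have hW' := ((h3.fr F3 (by norm_num) (by decide)).fr F36 (by norm_num) (by decide)) _ hlt
      simp only [Ex.ev, ldA_ev, ixE, h52, h53, h44', h99', hm, d6 a ha, d6 b hb', hW, hW', bb,
        ← hN, g1, g2]
    · intro s7 b7 f7 m7 r57
      have r57' : s7.reg 57 = SW g p Wf Wg v := r57
      have g55 : s7.reg 55 = s3.reg 55 := by rw [f7 55 (by decide), f6 55 (by decide)]
      have g56 : s7.reg 56 = s3.reg 56 := by rw [f7 56 (by decide), f6 56 (by decide)]
      have g50 : s7.reg 50 = v := by rw [f7 50 (by decide), f6 50 (by decide), r50]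
      have hF7 : Fr [29] (p * p) s.mem s7.mem := by rw [m7]; exact F3.trans F36
      have f37 : ∀ y, y ∉ [50, 51, 52, 53, 55, 56, 57, 58] → s7.reg y = s.reg y := by
        intro y hy
        have hy' := hy
        simp only [List.mem_cons, List.not_mem_nil, or_false, not_or] at hy'
        rw [f7 y (by simp; tauto), f6 y (by simp; tauto), f3 y hy]
      refine Tb.ite P b7 (by simp [cs]) (by simp [sz]) (by simp [cs]) (by simp [sz])
        (T := 20) (by simp [Ex.cost]) ?_ ?_
      · intro hlt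
        simp only [Ex.ev, r57', g55] at hlt
        refine Tr.mono (T := 10 + 10) ?_ (by norm_num) (fun _ h => h)
        apply Tr.seq
        refine Tb.asgv P b7 (v := SW g p Wf Wg v) (by simp [Ex.ev, r57']) (hSX v) (by simp [cs])
          (by simp [sz]) (by simp [Ex.cost]) ?_
        intro b8
        refine Tb.asgv P b8 (v := v) (by simp [Ex.ev, set_reg, g50]) (by omega) (by simp [cs])
          (by simp [sz]) (by simp [Ex.cost]) ?_
        intro b9
        refine ⟨b9, ?_, ?_, ?_, ?_, ?_⟩
        · intro y hy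
          have hy' := hy
          simp only [List.mem_cons, List.not_mem_nil, or_false, not_or] at hy'
          simp only [set_reg, hy', if_false, f37 y hy]
        · exact hF7
        · simp [set_reg]; exact hv
        · intro v' hv'
          simp [set_reg]
          rcases Nat.lt_succ_iff_lt_or_eq.1 hv' with h' | h'
          · exact le_trans (c2 v' h') hlt.le
          · subst h'; exact le_rfl
        · simp [set_reg]
      · intro hlt
        simp only [Ex.ev, r57', g55, not_lt] at hlt
        apply Tr.skip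
        refine ⟨b7, ?_, ?_, ?_, ?_, ?_⟩
        · intro y hy
          have hy' := hy
          simp only [List.mem_cons, List.not_mem_nil, or_false, not_or] at hy'
          simp only [set_reg, hy', if_false, f37 y hy]
        · exact hF7
        · simp [set_reg, g56]; exact c1
        · intro v' hv'
          simp [set_reg, g55]
          rcases Nat.lt_succ_iff_lt_or_eq.1 hv' with h' | h'
          · exact c2 v' h'
          · subst h'; exact hlt
        · simp [set_reg, g55, g56]; exact c3
  · rintro s3 ⟨f3, F3, c1, c2, c3⟩ b3 _ _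
    exact hQ s3 (s3.reg 56) b3 f3 F3 (fLL s3 f3 F3) rfl c1 fun v hv => (c2 v hv).trans c3

/-- Update of the weights. -/
def updC (K K' : ℕ) : HC :=
  .seq (.asg 58 (.r 56)) (.seq taC (.seq
    (.loop 52 44 (.loop 53 44 (stA 27 ixE (.mul (ldA 27 ixE)
    (.sub (.add (.c (K * K')) (ldA 28 ixE)) (.mul (.c K') (.mul (ldA 29 (.r 52))
      (ldA 29 (.r 53)))))))))
    (.loop 52 44 (.loop 53 44 (stA 3 ixE (.mul (ldA 3 ixE)
    (.sub (.add (.c (K * K')) (ldA 2 ixE)) (.mul (.c K') (.sub (.c 1) (.mul (ldA 29 (.r 52))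
      (ldA 29 (.r 53))))))))))))

theorem tr_upd {X w : ℕ} (P : PX X w) {p σ K K' u : ℕ} {g : ℕ → ℕ → ℕ} {Wf Wg hf hg' : ℕ → ℕ}
    {s : St} {Q : St → Prop}
    (hX : 32 ≤ X) (hb : Bd X s) (hLL : LL p σ g s) (hg : ∀ u v, g u v ≤ 1) (hp : 1 ≤ p)
    (hpX : p ≤ X) (h56 : s.reg 56 = u) (hu : u < p) (hKX : K * K' ≤ X) (hK'X : K' ≤ X)
    (h27 : Fi (p * p) s.mem 27 ((p * p * p) * (p * p * p)) Wf)
    (h28 : Fi (p * p) s.mem 28 ((p * p * p) * (p * p * p)) hf)
    (h3 : Fi (p * p) s.mem 3 ((p * p * p) * (p * p * p)) Wg)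
    (h2 : Fi (p * p) s.mem 2 ((p * p * p) * (p * p * p)) hg')
    (hWX : ∀ J < (p * p * p) * (p * p * p), Wf J * (K * K' + hf J - K' * bb g p J u) ≤ X)
    (hWX' : ∀ J < (p * p * p) * (p * p * p), Wg J * (K * K' + hg' J - K' * (1 - bb g p J u)) ≤ X)
    (hQ : ∀ s', Bd X s' → (∀ y, y ∉ [51, 52, 53, 58] → s'.reg y = s.reg y) → s'.reg 58 = u →
      Fr [27, 29, 3] (p * p) s.mem s'.mem → LL p σ g s' →
      Fi (p * p) s'.mem 27 ((p * p * p) * (p * p * p))
        (fun J => Wf J * (K * K' + hf J - K' * bb g p J u)) →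
      Fi (p * p) s'.mem 3 ((p * p * p) * (p * p * p))
        (fun J => Wg J * (K * K' + hg' J - K' * (1 - bb g p J u))) → Q s') :
    Tr w (updC K K') s (1000 * ((p * p * p) * (p * p * p) + 1)) Q := by
  set N := p * p * p with hN
  have hN1 : 1 ≤ N := by rw [hN]; exact Nat.mul_pos (Nat.mul_pos hp hp) hp
  refine Tr.mono (T := 5 + ((N * 100 + 3) + ((N * (N * (150 + 30) + 7) + 3) +
    (N * (N * (150 + 30) + 7) + 3)))) ?_ ?_ (fun _ h => h)
  swap
  · have h1 : N ≤ N * N := Nat.le_mul_of_pos_left _ hN1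
    have h5 : N * (N * (150 + 30) + 7) = 180 * (N * N) + 7 * N := by ring
    rw [h5]
    generalize N * N = c at *
    clear hN h5
    omega
  apply Tr.seq
  refine Tb.asgv P hb (v := u) (by simp [Ex.ev, h56]) (by omega) (by simp [cs]) (by simp [sz])
    (by simp [Ex.cost]) ?_
  intro b1
  have L1 : LL p σ g (s.set 58 u) := hLL.mono (K := []) (fun y hy => by
    simp only [List.mem_cons, List.not_mem_nil, or_false] at hy
    rw [set_reg, if_neg (by omega)]) (Fr.refl _ _ _) (by decide) (by decide) (by decide)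
  apply Tr.seq
  refine tr_ta P hX b1 L1 hg (v := u) (by simp [set_reg]) hu ?_
  intro s2 b2 f2 F2 d2
  have F02 : Fr [29] (p * p) s.mem s2.mem := F2
  have L2 : LL p σ g s2 := L1.mono (fun y hy => f2 y (by
      simp only [List.mem_cons, List.not_mem_nil, or_false] at hy ⊢; omega)) F2 (by decide)
      (by decide) (by decide)
  apply Tr.seq
  refine Tb.map2 (f := Wf) (f' := fun J => Wf J * (K * K' + hf J - K' * bb g p J u)) (c := 150)
    P b2 hX (by norm_num) (N := N) (B := p * p) L2.r44 L2.r99 (by simp [cs, ixE]; omega)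
    (by simp [sz, ixE]) (by simp [Ex.cost, ixE]) le_rfl (h27.fr F02 (by norm_num) (by decide))
    ?_ hWX ?_
  · intro a ha b hb' s' hF hold h52 h53 hall
    have h99' : s'.reg 99 = p * p := by rw [hall 99 (by decide)]; exact L2.r99
    have h44' : s'.reg 44 = N := by rw [hall 44 (by decide)]; exact L2.r44
    obtain ⟨g1, g2⟩ := dm (a := a) hb'
    have hlt : a * N + b < N * N := by
      have : (a + 1) * N ≤ N * N := Nat.mul_le_mul_right _ ha
      rw [Nat.add_mul] at this; omega
    have hH := ((h28.fr F02 (by norm_num) (by decide)).fr hF (by norm_num) (by decide)) _ hlt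
    have t1 := (d2.fr hF (by norm_num) (by decide)) a ha
    have t2 := (d2.fr hF (by norm_num) (by decide)) b hb'
    simp only [Ex.ev, ldA_ev, ixE, h52, h53, h44', h99', hold, hH, t1, t2, bb, ← hN, g1, g2]
  intro s3 b3 f3 F3 d3
  have L3 : LL p σ g s3 := L2.mono (fun y hy => f3 y (by
      simp only [List.mem_cons, List.not_mem_nil, or_false] at hy ⊢; omega)) F3 (by decide)
      (by decide) (by decide)
  refine Tb.map2 (f := Wg) (f' := fun J => Wg J * (K * K' + hg' J - K' * (1 - bb g p J u)))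
    (c := 150) P b3 hX (by norm_num) (N := N) (B := p * p) L3.r44 L3.r99
    (by simp [cs, ixE]; omega)
    (by simp [sz, ixE]) (by simp [Ex.cost, ixE]) le_rfl
    ((h3.fr F02 (by norm_num) (by decide)).fr F3 (by norm_num) (by decide))
    ?_ hWX' ?_
  · intro a ha b hb' s' hF hold h52 h53 hall
    have h99' : s'.reg 99 = p * p := by rw [hall 99 (by decide)]; exact L3.r99
    have h44' : s'.reg 44 = N := by rw [hall 44 (by decide)]; exact L3.r44
    obtain ⟨g1, g2⟩ := dm (a := a) hb'
    have hlt : a * N + b < N * N := by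
      have : (a + 1) * N ≤ N * N := Nat.mul_le_mul_right _ ha
      rw [Nat.add_mul] at this; omega
    have hH := (((h2.fr F02 (by norm_num) (by decide)).fr F3 (by norm_num) (by decide)).fr hF
      (by norm_num) (by decide)) _ hlt
    have t1 := ((d2.fr F3 (by norm_num) (by decide)).fr hF (by norm_num) (by decide)) a ha
    have t2 := ((d2.fr F3 (by norm_num) (by decide)).fr hF (by norm_num) (by decide)) b hb'
    simp only [Ex.ev, ldA_ev, ixE, h52, h53, h44', h99', hold, hH, t1, t2, bb, ← hN, g1, g2]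
  · intro s4 b4 f4 F4 d4
    refine hQ s4 b4 ?_ ?_ ?_ ?_ (d3.fr F4 (by norm_num) (by decide)) d4
    · intro y hy
      simp only [List.mem_cons, List.not_mem_nil, or_false, not_or] at hy
      rw [f4 y (by simp; tauto), f3 y (by simp; tauto), f2 y (by tauto), set_reg,
        if_neg (by tauto)]
    · rw [f4 58 (by decide), f3 58 (by decide), f2 58 (by norm_num)]; simp [set_reg]
    · exact (F02.mono (by decide)).trans ((F3.mono (by decide)).trans (F4.mono (by decide)))
    · exact L3.mono (fun y hy => f4 y (by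
        simp only [List.mem_cons, List.not_mem_nil, or_false] at hy ⊢; omega)) F4 (by decide)
        (by decide) (by decide)

def nbC : HC :=
  .seq (.asg 1 (.c 0)) (.loop 51 98 (.ite (.c 0) (adE (.r 58) (.r 51))
    (.seq (stA 4 (.r 1) (.r 51)) (.asg 1 (.add (.r 1) (.c 1)))) .skip))

theorem tr_nb {X w : ℕ} (P : PX X w) {p σ v : ℕ} {g : ℕ → ℕ → ℕ} {s : St} {Q : St → Prop}
    (hX : 32 ≤ X) (hb : Bd X s) (hLL : LL p σ g s) (h58 : s.reg 58 = v) (hv : v < p) (hpX : p ≤ X)
    (hQ : ∀ s', Bd X s' → (∀ y, y ∉ [1, 51] → s'.reg y = s.reg y) →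
      Fr [4] (p * p) s.mem s'.mem → s'.reg 1 = (nbl g v p).length →
      Fi (p * p) s'.mem 4 (nbl g v p).length (fun i => (nbl g v p).getD i 0) → Q s') :
    Tr w nbC s (100 * (p + 1)) Q := by
  refine Tr.mono (T := 5 + (p * (60 + 4) + 3)) ?_ (by omega) (fun _ h => h)
  apply Tr.seq
  refine Tb.asgv P hb (v := 0) rfl (by omega) (by simp [cs]) (by simp [sz]) (by simp [Ex.cost]) ?_
  intro b1
  refine Tb.loop P b1 (fun i s' => (∀ y, y ∉ [1, 51] → s'.reg y = s.reg y) ∧
    Fr [4] (p * p) s.mem s'.mem ∧ s'.reg 1 = (nbl g v i).length ∧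
    Fi (p * p) s'.mem 4 (nbl g v i).length (fun j => (nbl g v i).getD j 0)) 60 (N := p)
    (by simp [set_reg, hLL.r98]) le_rfl ?_ ?_ ?_
  · refine ⟨?_, Fr.refl _ _ _, ?_, ?_⟩
    · intro y hy
      simp only [List.mem_cons, List.not_mem_nil, or_false, not_or] at hy
      simp [set_reg, hy]
    · simp [set_reg, nbl]
    · simpa [nbl] using Fi.zero _ _ _ _
  · rintro i hi s2 ⟨f2, F2, r1, d2⟩ b2 r51 _
    have h98' : s2.reg 98 = p := by rw [f2 98 (by decide), hLL.r98]
    have h99' : s2.reg 99 = p * p := by rw [f2 99 (by decide), hLL.r99]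
    have h58' : s2.reg 58 = v := by rw [f2 58 (by decide), h58]
    have hG := (hLL.G.fr F2) v hv i hi
    have hlen := nbl_length_le g v i
    have hs := nbl_succ g v i
    refine Tb.ite P b2 (by simp [cs]) (by simp [sz]) (by simp [cs]) (by simp [sz])
      (T := 40) (by simp [Ex.cost]) ?_ ?_
    · intro hlt
      simp only [Ex.ev, adE_ev, h58', r51, h98', hG] at hlt
      rw [if_pos hlt] at hs
      refine Tr.mono (T := 20 + 20) ?_ (by norm_num) (fun _ h => h)
      apply Tr.seq
      refine Tb.stAv P b2 hX (by norm_num) h99' (i := (nbl g v i).length) (v := i)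
        (by simp [Ex.ev, r1]) (by simp [Ex.ev, r51]) (by omega) (by simp [cs]) (by simp [sz])
        (by simp [cs]) (by simp [sz]) (by simp [Ex.cost]) ?_
      intro b3
      refine Tb.asgv P b3 (v := (nbl g v i).length + 1) (by simp [Ex.ev, r1]) (by omega)
        (by simp [cs]; omega) (by simp [sz]) (by simp [Ex.cost]) ?_
      intro b4
      refine ⟨b4, ?_, ?_, ?_, ?_⟩
      · intro y hy
        have hy' := hy
        simp only [List.mem_cons, List.not_mem_nil, or_false, not_or] at hy'
        simp only [set_reg, hy', if_false, put_reg, f2 y hy]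
      · exact F2.upd (by norm_num) (by decide) _ _
      · simp [set_reg, hs]
      · simp only [St.set_mem, put_mem]
        rw [hs, List.length_append, List.length_singleton]
        refine Fi.upd ?_ (by norm_num) ?_
        · intro j hj
          rw [d2 j hj]
          simp only [List.getD_eq_getElem?_getD]
          rw [List.getElem?_append_left hj]
        · simp
    · intro hlt
      simp only [Ex.ev, adE_ev, h58', r51, h98', hG] at hlt
      rw [if_neg hlt] at hs
      apply Tr.skip
      refine ⟨b2, ?_, ?_, ?_, ?_⟩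
      · intro y hy
        have hy' := hy
        simp only [List.mem_cons, List.not_mem_nil, or_false, not_or] at hy'
        simp only [set_reg, hy', if_false, f2 y hy]
      · exact F2
      · simp [set_reg, hs, r1]
      · rw [hs]; exact d2
  · rintro s2 ⟨f2, F2, r1, d2⟩ b2 _ _
    exact hQ s2 b2 f2 F2 r1 d2

end Pool.Agent.H792_Clique
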