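import Mathlib

/-!
Rank and border rank of tensors over the integers, direct sums of matrix multiplication tensors.
(Integer version of `Pool.Agent.Y538.Par.Basic` and `Pool.Agent.Y538.Par.Sums`.)
-/

set_option autoImplicit false
set_option linter.unusedSectionVars false

namespace Pool.Agent.H792_Clique

open Polynomial Finset

/-- The integer tensor `T` has rank at most `r` over the integers. -/
def Rk {α β γ : Type*} (T : α → β → γ → ℤ) (r : ℕ) : Prop :=
  ∃ (u : Fin r → α → ℤ) (v : Fin r → β → ℤ) (w : Fin r → γ → ℤ),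
    ∀ a b c, T a b c = ∑ l, u l a * v l b * w l c

/-- The integer tensor `T` has border rank at most `r`. -/
def BRk {α β γ : Type*} (T : α → β → γ → ℤ) (r : ℕ) : Prop :=
  ∃ (h : ℕ) (u : Fin r → α → ℤ[X]) (v : Fin r → β → ℤ[X]) (w : Fin r → γ → ℤ[X]),
    ∀ a b c, ∃ E : ℤ[X], ∑ l, u l a * v l b * w l c = X ^ h * (C (T a b c) + X * E)

variable {α β γ α' β' γ' κ : Type*}

theorem Rk.of_fintype [Fintype κ] {T : α → β → γ → ℤ} (u : κ → α → ℤ)
    (v : κ → β → ℤ) (w : κ → γ → ℤ) (h : ∀ a b c, T a b c = ∑ l, u l a * v l b * w l c) :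
    Rk T (Fintype.card κ) := by
  let e := Fintype.equivFin κ
  refine ⟨fun l => u (e.symm l), fun l => v (e.symm l), fun l => w (e.symm l), fun a b c => ?_⟩
  rw [h]
  exact (Equiv.sum_comp e.symm (fun l => u l a * v l b * w l c)).symm

theorem BRk.of_fintype [Fintype κ] {T : α → β → γ → ℤ} (h : ℕ) (u : κ → α → ℤ[X])
    (v : κ → β → ℤ[X]) (w : κ → γ → ℤ[X])
    (H : ∀ a b c, ∃ E : ℤ[X], ∑ l, u l a * v l b * w l c = X ^ h * (C (T a b c) + X * E)) :
    BRk T (Fintype.card κ) := by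
  let e := Fintype.equivFin κ
  refine ⟨h, fun l => u (e.symm l), fun l => v (e.symm l), fun l => w (e.symm l),
    fun a b c => ?_⟩
  obtain ⟨E, hE⟩ := H a b c
  refine ⟨E, ?_⟩
  rw [← hE]
  exact Equiv.sum_comp e.symm (fun l => u l a * v l b * w l c)

theorem Rk.comp {T : α → β → γ → ℤ} {r : ℕ} (h : Rk T r) (f : α' → α) (g : β' → β)
    (k : γ' → γ) : Rk (fun a b c => T (f a) (g b) (k c)) r := by
  obtain ⟨u, v, w, h⟩ := h
  exact ⟨fun l a => u l (f a), fun l b => v l (g b), fun l c => w l (k c), fun a b c => h _ _ _⟩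

theorem Rk.congr {T T' : α → β → γ → ℤ} {r : ℕ} (h : Rk T r) (hT : ∀ a b c, T' a b c = T a b c) :
    Rk T' r := by
  have : T' = T := by funext a b c; exact hT a b c
  rwa [this]

theorem Rk.mono {T : α → β → γ → ℤ} {r r' : ℕ} (h : Rk T r) (hr : r ≤ r') : Rk T r' := by
  obtain ⟨u, v, w, h⟩ := h
  have h2 := Rk.of_fintype (κ := Fin r ⊕ Fin (r' - r)) (T := T)
    (Sum.elim u fun _ _ => 0) (Sum.elim v fun _ _ => 0) (Sum.elim w fun _ _ => 0)
    (fun a b c => by rw [Fintype.sum_sum_type, h]; simp)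
  have h3 : Fintype.card (Fin r ⊕ Fin (r' - r)) = r' := by
    rw [Fintype.card_sum, Fintype.card_fin, Fintype.card_fin]; omega
  rwa [h3] at h2

/-- Rotation of the three factors. -/
theorem BRk.rot {T : α → β → γ → ℤ} {r : ℕ} (h : BRk T r) :
    BRk (fun (c : γ) (a : α) (b : β) => T a b c) r := by
  obtain ⟨e, u, v, w, h⟩ := h
  refine ⟨e, w, u, v, fun c a b => ?_⟩
  obtain ⟨E, hE⟩ := h a b c
  refine ⟨E, ?_⟩
  rw [← hE]
  exact Finset.sum_congr rfl fun l _ => by ring

/-- Kronecker power. -/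
def kp (T : α → β → γ → ℤ) (N : ℕ) : (Fin N → α) → (Fin N → β) → (Fin N → γ) → ℤ :=
  fun a b c => ∏ t, T (a t) (b t) (c t)

/-- Kronecker product. -/
def kmul (T : α → β → γ → ℤ) (T' : α' → β' → γ' → ℤ) : α × α' → β × β' → γ × γ' → ℤ :=
  fun a b c => T a.1 b.1 c.1 * T' a.2 b.2 c.2

theorem BRk.kmul {T : α → β → γ → ℤ} {T' : α' → β' → γ' → ℤ} {r r' : ℕ} (H : BRk T r)
    (H' : BRk T' r') : BRk (kmul T T') (r * r') := by
  obtain ⟨h, u, v, w, hh⟩ := H
  obtain ⟨h', u', v', w', hh'⟩ := H'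
  have key := BRk.of_fintype (κ := Fin r × Fin r') (T := Pool.Agent.H792_Clique.kmul T T') (h + h')
    (fun l a => u l.1 a.1 * u' l.2 a.2) (fun l a => v l.1 a.1 * v' l.2 a.2)
    (fun l a => w l.1 a.1 * w' l.2 a.2) (by
      intro a b c
      obtain ⟨E, hE⟩ := hh a.1 b.1 c.1
      obtain ⟨E', hE'⟩ := hh' a.2 b.2 c.2
      refine ⟨C (T a.1 b.1 c.1) * E' + E * C (T' a.2 b.2 c.2) + X * E * E', ?_⟩
      have e1 : ∑ l : Fin r × Fin r', u l.1 a.1 * u' l.2 a.2 * (v l.1 b.1 * v' l.2 b.2) *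
          (w l.1 c.1 * w' l.2 c.2) = (∑ l, u l a.1 * v l b.1 * w l c.1) *
            ∑ l, u' l a.2 * v' l b.2 * w' l c.2 := by
        rw [Fintype.sum_prod_type, Finset.sum_mul_sum]
        refine Finset.sum_congr rfl fun i _ => Finset.sum_congr rfl fun j _ => ?_
        ring
      rw [e1, hE, hE']
      simp only [Pool.Agent.H792_Clique.kmul, C_mul]
      ring)
  have hc : Fintype.card (Fin r × Fin r') = r * r' := by simp
  rwa [hc] at key

theorem BRk.kp {T : α → β → γ → ℤ} {r : ℕ} (H : BRk T r) (N : ℕ) :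
    BRk (kp T N) (r ^ N) := by
  classical
  obtain ⟨h, u, v, w, hh⟩ := H
  choose E hE using hh
  have key := BRk.of_fintype (κ := Fin N → Fin r) (T := Pool.Agent.H792_Clique.kp T N) (N * h)
    (fun l a => ∏ s, u (l s) (a s)) (fun l a => ∏ s, v (l s) (a s))
    (fun l a => ∏ s, w (l s) (a s)) (by
      intro a b c
      have h1 : ∑ t : Fin N → Fin r, (∏ s, u (t s) (a s)) * (∏ s, v (t s) (b s)) *
          (∏ s, w (t s) (c s)) = X ^ (N * h) * ∏ s, (C (T (a s) (b s) (c s)) +
            X * E (a s) (b s) (c s)) := by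
        calc ∑ t : Fin N → Fin r, (∏ s, u (t s) (a s)) * (∏ s, v (t s) (b s)) *
              (∏ s, w (t s) (c s))
            = ∑ t : Fin N → Fin r, ∏ s, (u (t s) (a s) * v (t s) (b s) * w (t s) (c s)) := by
              refine Finset.sum_congr rfl fun t _ => ?_
              rw [Finset.prod_mul_distrib, Finset.prod_mul_distrib]
          _ = ∏ s, ∑ t : Fin r, (u t (a s) * v t (b s) * w t (c s)) := by
              rw [Finset.prod_univ_sum, Fintype.piFinset_univ]
          _ = ∏ s, (X ^ h * (C (T (a s) (b s) (c s)) + X * E (a s) (b s) (c s))) :=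
              Finset.prod_congr rfl fun s _ => hE _ _ _
          _ = _ := by
              rw [Finset.prod_mul_distrib, Finset.prod_const, Finset.card_univ, Fintype.card_fin,
                ← pow_mul, mul_comm h N]
      have h2 : ∀ (s : Finset (Fin N)), ∃ F : ℤ[X], ∏ t ∈ s, (C (T (a t) (b t) (c t)) +
            X * E (a t) (b t) (c t)) = C (∏ t ∈ s, T (a t) (b t) (c t)) + X * F := by
        intro s
        induction s using Finset.induction_on with
        | empty => exact ⟨0, by simp⟩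
        | insert t s ht ih =>
          obtain ⟨F, hF⟩ := ih
          refine ⟨C (T (a t) (b t) (c t)) * F + E (a t) (b t) (c t) *
            C (∏ t ∈ s, T (a t) (b t) (c t)) + X * E (a t) (b t) (c t) * F, ?_⟩
          rw [Finset.prod_insert ht, Finset.prod_insert ht, hF, C_mul]
          ring
      obtain ⟨F, hF⟩ := h2 Finset.univ
      refine ⟨F, ?_⟩
      rw [h1, hF]
      rfl)
  have hc : Fintype.card (Fin N → Fin r) = r ^ N := by simp
  rwa [hc] at key

lemma coeff_triple (p q r : ℤ[X]) (h : ℕ) :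
    (p * q * r).coeff h = ∑ x : Fin (h + 1), ∑ y : Fin (h + 1),
      p.coeff x * q.coeff y * (if (x : ℕ) + y ≤ h then r.coeff (h - x - y) else 0) := by
  rw [mul_assoc, Polynomial.coeff_mul, Finset.Nat.sum_antidiagonal_eq_sum_range_succ_mk,
    Finset.sum_range]
  refine Finset.sum_congr rfl fun x _ => ?_
  rw [Polynomial.coeff_mul, Finset.Nat.sum_antidiagonal_eq_sum_range_succ_mk]
  simp only
  rw [← Finset.sum_range (f := fun y => p.coeff x * q.coeff y *
    (if (x : ℕ) + y ≤ h then r.coeff (h - x - y) else 0))]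
  have hx : (x : ℕ) ≤ h := Nat.lt_succ_iff.mp x.2
  rw [Finset.mul_sum]
  have hsub : Finset.range (h - x).succ ⊆ Finset.range (h + 1) := by
    apply Finset.range_subset_range.mpr; omega
  rw [← Finset.sum_subset hsub]
  · refine Finset.sum_congr rfl fun y hy => ?_
    rw [Finset.mem_range] at hy
    rw [if_pos (by omega)]
    ring
  · intro y hy hy'
    rw [Finset.mem_range] at hy hy'
    rw [if_neg (by omega), mul_zero]

/-- Powers of approximate decompositions give exact ones. -/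
theorem BRk.pow {T : α → β → γ → ℤ} {r : ℕ} (H : BRk T r) :
    ∃ h : ℕ, ∀ N : ℕ, Rk (Pool.Agent.H792_Clique.kp T N) (r ^ N * (N * h + 1) ^ 2) := by
  classical
  obtain ⟨h, u, v, w, hh⟩ := H
  choose E hE using hh
  refine ⟨h, fun N => ?_⟩
  have key := Rk.of_fintype (κ := (Fin N → Fin r) × Fin (N * h + 1) × Fin (N * h + 1))
    (T := Pool.Agent.H792_Clique.kp T N)
    (fun l a => (∏ s, u (l.1 s) (a s)).coeff l.2.1)
    (fun l b => (∏ s, v (l.1 s) (b s)).coeff l.2.2)
    (fun l c => if (l.2.1 : ℕ) + l.2.2 ≤ N * h then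
      (∏ s, w (l.1 s) (c s)).coeff (N * h - l.2.1 - l.2.2) else 0) (fun a b c => by
      rw [Fintype.sum_prod_type]
      simp only [Fintype.sum_prod_type]
      have h1 : ∑ t : Fin N → Fin r, (∏ s, u (t s) (a s)) * (∏ s, v (t s) (b s)) *
          (∏ s, w (t s) (c s)) = X ^ (N * h) * ∏ s, (C (T (a s) (b s) (c s)) +
            X * E (a s) (b s) (c s)) := by
        calc ∑ t : Fin N → Fin r, (∏ s, u (t s) (a s)) * (∏ s, v (t s) (b s)) *
              (∏ s, w (t s) (c s))
            = ∑ t : Fin N → Fin r, ∏ s, (u (t s) (a s) * v (t s) (b s) * w (t s) (c s)) := by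
              refine Finset.sum_congr rfl fun t _ => ?_
              rw [Finset.prod_mul_distrib, Finset.prod_mul_distrib]
          _ = ∏ s, ∑ t : Fin r, (u t (a s) * v t (b s) * w t (c s)) := by
              rw [Finset.prod_univ_sum, Fintype.piFinset_univ]
          _ = ∏ s, (X ^ h * (C (T (a s) (b s) (c s)) + X * E (a s) (b s) (c s))) :=
              Finset.prod_congr rfl fun s _ => hE _ _ _
          _ = _ := by
              rw [Finset.prod_mul_distrib, Finset.prod_const, Finset.card_univ, Fintype.card_fin,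
                ← pow_mul, mul_comm h N]
      have h2 := congrArg (fun p => p.coeff (N * h)) h1
      simp only [Polynomial.finsetSum_coeff] at h2
      rw [Polynomial.coeff_X_pow_mul', if_pos le_rfl, Nat.sub_self,
        Polynomial.coeff_zero_eq_eval_zero, Polynomial.eval_prod] at h2
      have h3 : ∏ s, Polynomial.eval 0 (C (T (a s) (b s) (c s)) + X * E (a s) (b s) (c s)) =
          Pool.Agent.H792_Clique.kp T N a b c := by
        unfold Pool.Agent.H792_Clique.kp
        refine Finset.prod_congr rfl fun s _ => ?_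
        simp
      rw [h3] at h2
      rw [← h2]
      refine Finset.sum_congr rfl fun t _ => ?_
      rw [coeff_triple])
  have hcard : Fintype.card ((Fin N → Fin r) × Fin (N * h + 1) × Fin (N * h + 1)) =
      r ^ N * (N * h + 1) ^ 2 := by
    simp [pow_two]
  rwa [hcard] at key

/-- Monomial degeneration and restriction. -/
theorem BRk.degen {T : α → β → γ → ℤ} {r : ℕ} (H : BRk T r) (f : α' → α) (g : β' → β)
    (k : γ' → γ) (wa : α' → ℕ) (wb : β' → ℕ) (wc : γ' → ℕ) (D : ℕ) {T' : α' → β' → γ' → ℤ}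
    (h : ∀ a b c, (T (f a) (g b) (k c) = 0 ∧ T' a b c = 0) ∨
      (wa a + wb b + wc c = D ∧ T' a b c = T (f a) (g b) (k c)) ∨
      (D < wa a + wb b + wc c ∧ T' a b c = 0)) : BRk T' r := by
  obtain ⟨e, u, v, w, hh⟩ := H
  refine ⟨(D + 1) * e + D, fun l a => X ^ wa a * expand ℤ (D + 1) (u l (f a)),
    fun l a => X ^ wb a * expand ℤ (D + 1) (v l (g a)),
    fun l a => X ^ wc a * expand ℤ (D + 1) (w l (k a)), fun a b c => ?_⟩
  obtain ⟨E, hE⟩ := hh (f a) (g b) (k c)
  have e1 : ∑ l, X ^ wa a * expand ℤ (D + 1) (u l (f a)) * (X ^ wb b * expand ℤ (D + 1)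
      (v l (g b))) * (X ^ wc c * expand ℤ (D + 1) (w l (k c))) =
      X ^ (wa a + wb b + wc c) * (X ^ ((D + 1) * e) * (C (T (f a) (g b) (k c)) +
        X ^ (D + 1) * expand ℤ (D + 1) E)) := by
    have e2 : ∑ l, X ^ wa a * expand ℤ (D + 1) (u l (f a)) * (X ^ wb b * expand ℤ (D + 1)
      (v l (g b))) * (X ^ wc c * expand ℤ (D + 1) (w l (k c))) =
      X ^ (wa a + wb b + wc c) * expand ℤ (D + 1) (∑ l, u l (f a) * v l (g b) * w l (k c)) := by
      rw [map_sum, Finset.mul_sum]
      refine Finset.sum_congr rfl fun l _ => ?_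
      simp only [map_mul]
      ring
    rw [e2, hE]
    simp only [map_mul, map_pow, map_add, expand_X, expand_C, ← pow_mul]
  rw [e1]
  rcases h a b c with ⟨h1, h2⟩ | ⟨h1, h2⟩ | ⟨h1, h2⟩
  · refine ⟨X ^ (wa a + wb b + wc c) * expand ℤ (D + 1) E, ?_⟩
    rw [h1, h2, C_0]
    ring
  · refine ⟨X ^ D * expand ℤ (D + 1) E, ?_⟩
    rw [h1, h2]
    ring
  · obtain ⟨d, hd⟩ := Nat.exists_eq_add_of_lt h1
    refine ⟨X ^ d * (C (T (f a) (g b) (k c)) + X ^ (D + 1) * expand ℤ (D + 1) E), ?_⟩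
    rw [hd, h2, C_0]
    ring

/-- Direct sum, indexed by `S`, of matrix multiplication tensors with index set `I`. -/
def DSM (S I : Type*) [DecidableEq S] [DecidableEq I] : S × I × I → S × I × I → S × I × I → ℤ :=
  fun x y z => if x.1 = y.1 ∧ y.1 = z.1 ∧ x.2.2 = y.2.1 ∧ y.2.2 = z.2.1 ∧ z.2.2 = x.2.1 then 1
    else 0

section

variable {S I I' : Type} [DecidableEq S] [DecidableEq I] [DecidableEq I'] [Fintype S]
  [Fintype I] [Fintype I']

theorem Rk.DSM_inj {S I S' I' : Type*} [DecidableEq S] [DecidableEq I] [DecidableEq S']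
    [DecidableEq I'] {r : ℕ} (h : Rk (DSM S I) r) {f : S' → S} {g : I' → I}
    (hf : Function.Injective f) (hg : Function.Injective g) : Rk (DSM S' I') r := by
  refine (h.comp (fun x : S' × I' × I' => (f x.1, g x.2.1, g x.2.2))
    (fun x : S' × I' × I' => (f x.1, g x.2.1, g x.2.2))
    (fun x : S' × I' × I' => (f x.1, g x.2.1, g x.2.2))).congr fun x y z => ?_
  simp [DSM, hf.eq_iff, hg.eq_iff]

lemma tri_sum {P X : Type*} [Fintype P] [Fintype X] (A B D : X → ℤ) (A' B' D' : P → X → ℤ) :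
    ∑ p, (∑ x, A x * A' p x) * (∑ x, B x * B' p x) * (∑ x, D x * D' p x) =
      ∑ x, ∑ y, ∑ z, A x * B y * D z * ∑ p, A' p x * B' p y * D' p z := by
  have h1 : ∀ p, (∑ x, A x * A' p x) * (∑ x, B x * B' p x) * (∑ x, D x * D' p x) =
      ∑ x, ∑ y, ∑ z, A x * B y * D z * (A' p x * B' p y * D' p z) := by
    intro p
    rw [Finset.sum_mul_sum, Finset.sum_mul]
    refine Finset.sum_congr rfl fun x _ => ?_
    rw [Finset.sum_mul]
    refine Finset.sum_congr rfl fun y _ => ?_
    rw [Finset.mul_sum]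
    exact Finset.sum_congr rfl fun z _ => by ring
  simp_rw [h1]
  rw [Finset.sum_comm]
  refine Finset.sum_congr rfl fun x _ => ?_
  rw [Finset.sum_comm]
  refine Finset.sum_congr rfl fun y _ => ?_
  rw [Finset.sum_comm]
  refine Finset.sum_congr rfl fun z _ => ?_
  rw [Finset.mul_sum]

/-- One step of the recursion. -/
theorem DSM_rec {a r r' : ℕ} (h : Rk (DSM S I) r) (hr : r ≤ a * Fintype.card S)
    (h' : Rk (DSM S I') r') : Rk (DSM S (I × I')) (a * r') := by
  classical
  obtain ⟨u, v, w, H⟩ := h.mono hr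
  obtain ⟨u', v', w', H'⟩ := h'
  have hcard : Fintype.card (Fin a × S) = a * Fintype.card S := by simp
  let e : Fin a × S ≃ Fin (a * Fintype.card S) := Fintype.equivFinOfCardEq hcard
  have key := Rk.of_fintype (κ := Fin a × Fin r') (T := DSM S (I × I'))
    (fun t x => ∑ σ, u (e (t.1, σ)) (x.1, x.2.1.1, x.2.2.1) * u' t.2 (σ, x.2.1.2, x.2.2.2))
    (fun t x => ∑ σ, v (e (t.1, σ)) (x.1, x.2.1.1, x.2.2.1) * v' t.2 (σ, x.2.1.2, x.2.2.2))
    (fun t x => ∑ σ, w (e (t.1, σ)) (x.1, x.2.1.1, x.2.2.1) * w' t.2 (σ, x.2.1.2, x.2.2.2))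
    (by
      rintro ⟨s1, ⟨i1, i1'⟩, ⟨j1, j1'⟩⟩ ⟨s2, ⟨i2, i2'⟩, ⟨j2, j2'⟩⟩ ⟨s3, ⟨i3, i3'⟩, ⟨j3, j3'⟩⟩
      rw [Fintype.sum_prod_type]
      simp only
      have h1 : ∀ α : Fin a, ∑ p : Fin r',
          (∑ σ, u (e (α, σ)) (s1, i1, j1) * u' p (σ, i1', j1')) *
          (∑ σ, v (e (α, σ)) (s2, i2, j2) * v' p (σ, i2', j2')) *
          (∑ σ, w (e (α, σ)) (s3, i3, j3) * w' p (σ, i3', j3')) =
          if j1' = i2' ∧ j2' = i3' ∧ j3' = i1' then
            ∑ σ, u (e (α, σ)) (s1, i1, j1) * v (e (α, σ)) (s2, i2, j2) *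
              w (e (α, σ)) (s3, i3, j3) else 0 := by
        intro α
        rw [tri_sum (fun σ => u (e (α, σ)) (s1, i1, j1)) (fun σ => v (e (α, σ)) (s2, i2, j2))
          (fun σ => w (e (α, σ)) (s3, i3, j3)) (fun p σ => u' p (σ, i1', j1'))
          (fun p σ => v' p (σ, i2', j2')) (fun p σ => w' p (σ, i3', j3'))]
        simp_rw [← H']
        by_cases hc : j1' = i2' ∧ j2' = i3' ∧ j3' = i1'
        · rw [if_pos hc]
          refine Finset.sum_congr rfl fun σ _ => ?_
          rw [Fintype.sum_eq_single σ, Fintype.sum_eq_single σ]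
          · simp [DSM, hc]
          · intro σ' hσ'
            simp [DSM, hσ'.symm]
          · intro σ' hσ'
            refine Finset.sum_eq_zero fun σ'' _ => ?_
            simp [DSM, hσ'.symm]
        · rw [if_neg hc]
          refine Finset.sum_eq_zero fun σ _ => Finset.sum_eq_zero fun σ' _ =>
            Finset.sum_eq_zero fun σ'' _ => ?_
          have : ¬ (σ = σ' ∧ σ' = σ'' ∧ j1' = i2' ∧ j2' = i3' ∧ j3' = i1') := fun h =>
            hc h.2.2
          simp only [DSM, this, if_false, mul_zero]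
      rw [Finset.sum_congr rfl fun α _ => h1 α]
      have h2 := H (s1, i1, j1) (s2, i2, j2) (s3, i3, j3)
      rw [← Equiv.sum_comp e, Fintype.sum_prod_type] at h2
      by_cases hc : j1' = i2' ∧ j2' = i3' ∧ j3' = i1'
      · simp only [if_pos hc]
        rw [← h2]
        obtain ⟨rfl, rfl, rfl⟩ := hc
        simp [DSM]
      · simp only [if_neg hc, Finset.sum_const_zero]
        have : ¬ (s1 = s2 ∧ s2 = s3 ∧ (j1, j1') = (i2, i2') ∧ (j2, j2') = (i3, i3') ∧
            (j3, j3') = (i1, i1')) := fun h =>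
          hc ⟨(Prod.mk.inj h.2.2.1).2, (Prod.mk.inj h.2.2.2.1).2, (Prod.mk.inj h.2.2.2.2).2⟩
        simp only [DSM, this, if_false])
  have hc2 : Fintype.card (Fin a × Fin r') = a * r' := by simp
  rwa [hc2] at key

theorem DSM_unit [Subsingleton I] : Rk (DSM S I) (Fintype.card S) := by
  refine Rk.of_fintype (κ := S) (fun s x => if s = x.1 then 1 else 0)
    (fun s x => if s = x.1 then 1 else 0) (fun s x => if s = x.1 then 1 else 0) ?_
  intro x y z
  rw [Fintype.sum_eq_single x.1]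
  · have e1 : x.2.2 = y.2.1 := Subsingleton.elim _ _
    have e2 : y.2.2 = z.2.1 := Subsingleton.elim _ _
    have e3 : z.2.2 = x.2.1 := Subsingleton.elim _ _
    unfold DSM
    by_cases h1 : x.1 = y.1
    · by_cases h2 : x.1 = z.1
      · have h3 : y.1 = z.1 := h1.symm.trans h2
        rw [if_pos ⟨h1, h3, e1, e2, e3⟩, if_pos rfl, if_pos h1, if_pos h2]; norm_num
      · have h3 : ¬ y.1 = z.1 := fun h => h2 (h1.trans h)
        rw [if_neg (fun h => h3 h.2.1), if_neg h2]; simp
    · rw [if_neg (fun h => h1 h.1), if_neg h1]; simp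
  · intro s hs
    simp [hs]

theorem DSM_pow {a r : ℕ} (h : Rk (DSM S I) r) (hr : r ≤ a * Fintype.card S) (N : ℕ) :
    Rk (DSM S (Fin N → I)) (a ^ N * Fintype.card S) := by
  induction N with
  | zero => simpa using DSM_unit (S := S) (I := Fin 0 → I)
  | succ N ih =>
    have h1 := DSM_rec h hr ih
    have h2 : Rk (DSM S (Fin (N + 1) → I)) (a * (a ^ N * Fintype.card S)) := by
      refine h1.DSM_inj (f := id) (g := fun x : Fin (N + 1) → I => (x 0, fun t => x t.succ))
        Function.injective_id ?_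
      intro x y hxy
      have e1 := (Prod.mk.inj hxy).1
      have e2 := (Prod.mk.inj hxy).2
      funext t
      refine Fin.cases e1 (fun s => congrFun e2 s) t
    rwa [← mul_assoc, ← pow_succ'] at h2

/-- The Kronecker power of a direct sum of matrix multiplication tensors. -/
theorem BRk.DSM_pows {s Q r : ℕ} (H : BRk (DSM (Fin s) (Fin Q)) r) :
    ∃ h : ℕ, ∀ N : ℕ, Rk (DSM (Fin N → Fin s) (Fin N → Fin Q)) (r ^ N * (N * h + 1) ^ 2) := by
  obtain ⟨h, hh⟩ := H.pow
  refine ⟨h, fun N => ?_⟩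
  refine ((hh N).comp (fun x : (Fin N → Fin s) × (Fin N → Fin Q) × (Fin N → Fin Q) =>
      fun t => (x.1 t, x.2.1 t, x.2.2 t)) (fun x : (Fin N → Fin s) × (Fin N → Fin Q) ×
      (Fin N → Fin Q) => fun t => (x.1 t, x.2.1 t, x.2.2 t)) (fun x : (Fin N → Fin s) ×
      (Fin N → Fin Q) × (Fin N → Fin Q) => fun t => (x.1 t, x.2.1 t, x.2.2 t))).congr ?_
  intro x y z
  simp only [Pool.Agent.H792_Clique.kp, DSM]
  rw [Finset.prod_ite_zero]
  simp only [Finset.mem_univ, forall_true_left, Finset.prod_const_one]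
  congr 1
  simp only [funext_iff, eq_iff_iff]
  constructor
  · intro h t
    exact ⟨h.1 t, h.2.1 t, h.2.2.1 t, h.2.2.2.1 t, h.2.2.2.2 t⟩
  · intro h
    exact ⟨fun t => (h t).1, fun t => (h t).2.1, fun t => (h t).2.2.1, fun t => (h t).2.2.2.1,
      fun t => (h t).2.2.2.2⟩

end

end Pool.Agent.H792_Clique
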