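import Pool.Agent.TH687.HL2

/-!
Running one program after another.
-/

set_option autoImplicit false

namespace Pool.Agent.H792_Clique

open Pool.Agent.H588R2 Pool.Agent.TH687.HL

/-- Shift the jump targets. -/
def shI (o : ℕ) : Instr → Instr
  | .op i => .op i
  | .jmp l => .jmp (l + o)
  | .jlt a b l => .jlt a b (l + o)
  | .halt => .halt

/-- The program `P` after the program `B`. -/
def glue (B P : List Instr) : List Instr := B ++ P.map (shI B.length)

lemma glue_get (B P : List Instr) (i : ℕ) :
    (glue B P)[i + B.length]? = (P[i]?).map (shI B.length) := by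
  unfold glue
  rw [List.getElem?_append_right (by omega)]
  simp

/-- Configuration with shifted program counter. -/
def shC (o : ℕ) (c : Config) : Config := ⟨c.pc + o, c.st⟩

lemma step_glue (w : ℕ) (B P : List Instr) (c : Config) :
    step w (glue B P) (shC B.length c) = shC B.length (step w P c) := by
  unfold step
  simp only [shC]
  rw [glue_get]
  rcases h : P[c.pc]? with _ | i
  · simp
  · cases i with
    | op o => simp [shI]; omega
    | jmp l => simp [shI]
    | jlt a b l =>
      simp only [Option.map_some, shI]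
      split_ifs
      · rfl
      · simp; omega
    | halt => simp [shI]

lemma steps_glue (w : ℕ) (B P : List Instr) (c : Config) (t : ℕ) :
    (step w (glue B P))^[t] (shC B.length c) = shC B.length ((step w P)^[t] c) := by
  induction t with
  | zero => rfl
  | succ t ih => rw [Function.iterate_succ_apply', Function.iterate_succ_apply', ih, step_glue]

lemma halted_glue {B P : List Instr} {c : Config} (h : Halted P c) :
    Halted (glue B P) (shC B.length c) := by
  unfold Halted at *
  simp only [shC]
  rw [glue_get]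
  rcases h with h | h
  · left; rw [h]; rfl
  · right; rw [h]; rfl

/-- Registers written by a command. -/
def wrO : Op → List ℕ
  | .const d _ => [d]
  | .add d _ _ => [d]
  | .sub d _ _ => [d]
  | .mul d _ _ => [d]
  | .load d _ => [d]
  | .store _ _ => []

def wrC : Cmd → List ℕ
  | .skip => []
  | .op o => wrO o
  | .seq c d => wrC c ++ wrC d
  | .ite _ _ c d => wrC c ++ wrC d
  | .loop _ _ c => wrC c

lemma exec_frame {w : ℕ} {c : Cmd} {s s' : St} {t : ℕ} (h : Exec w c s s' t) :
    ∀ y, y ∉ wrC c → s'.reg y = s.reg y := by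
  induction h with
  | skip s => intro y _; rfl
  | op o s =>
    intro y hy
    cases o <;> simp only [wrC, wrO, List.mem_singleton] at hy <;>
      simp only [Op.exec] <;> exact Function.update_of_ne hy _ _
  | seq _ _ ih1 ih2 =>
    intro y hy
    simp only [wrC, List.mem_append, not_or] at hy
    rw [ih2 y hy.2, ih1 y hy.1]
  | iteTrue _ _ ih =>
    intro y hy
    simp only [wrC, List.mem_append, not_or] at hy
    exact ih y hy.1
  | iteFalse _ _ ih =>
    intro y hy
    simp only [wrC, List.mem_append, not_or] at hy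
    exact ih y hy.2
  | loopTrue _ _ _ ih1 ih2 =>
    intro y hy
    rw [ih2 y hy, ih1 y hy]
  | loopFalse _ => intro y _; rfl

/-- Clear registers. -/
def clr : List ℕ → Cmd
  | [] => .skip
  | y :: l => .seq (.op (.const y 0)) (clr l)

lemma runs_clr {w : ℕ} : ∀ (l : List ℕ) (s : St), Runs w (clr l) s (fun s' t =>
    s'.mem = s.mem ∧ (∀ y ∈ l, s'.reg y = 0) ∧ (∀ y, y ∉ l → s'.reg y = s.reg y) ∧ t = l.length) := by
  intro l
  induction l with
  | nil => intro s; exact Runs.skip ⟨rfl, by simp, fun _ _ => rfl, rfl⟩
  | cons x l ih =>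
    intro s
    apply Runs.seq
    apply Runs.const (by positivity)
    refine (ih (s.set x 0)).mono ?_
    rintro s' t ⟨h1, h2, h3, h4⟩
    refine ⟨h1, ?_, ?_, ?_⟩
    · intro y hy
      by_cases hyl : y ∈ l
      · exact h2 y hyl
      · have : y = x := by simpa [hyl] using hy
        subst this
        rw [h3 y hyl]; simp
    · intro y hy
      simp only [List.mem_cons, not_or] at hy
      rw [h3 y hy.2, St.set_reg_ne _ _ hy.1]
    · simp [h4]; omega

/-- The command `c` followed by the clearing of all registers other than `0`. -/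
def cleanC (c : HC) : Cmd := .seq c.comp (clr ((wrC c.comp).filter (fun y => decide (y ≠ 0))))

/-- The program `P` is run on the state produced by `c`. -/
def afterP (c : HC) (P : List Instr) : List Instr := glue ((cleanC c).compile 0) P

theorem after_halts {w : ℕ} {c : HC} {P : List Instr} {s s1 : St} {T out : ℕ} {X : ℝ}
    (hwf : c.wf = true) (h : Tr w c s T (fun s' => s'.reg 0 = s1.reg 0 ∧ s'.mem = s1.mem))
    (hs : ∀ y, y ≠ 0 → s.reg y = 0) (hs1 : ∀ y, y ≠ 0 → s1.reg y = 0)
    (hP : HaltsWithin w P ⟨0, s1⟩ X out) :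
    HaltsWithin w (afterP c P) ⟨0, s⟩ ((T : ℝ) + (wrC c.comp).length + X) out := by
  obtain ⟨hok, ht, hq⟩ := h
  obtain ⟨s2, t2, he, h1, h2⟩ := HC.sim c s s hwf hok (Agr.refl _ _)
  obtain ⟨s3, t3, he3, g1, g2, g3, g4⟩ :=
    runs_clr (w := w) ((wrC c.comp).filter (fun y => decide (y ≠ 0))) s2
  have he' : Exec w (cleanC c) s s3 (t2 + t3) := Exec.seq he he3
  have hs3 : s3 = s1 := by
    have hreg : s3.reg = s1.reg := by
      funext y
      by_cases hy : y = 0
      · subst hy
        rw [g3 0 (by simp), h1.2 0 (by norm_num)]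
        exact hq.1
      · rw [hs1 y hy]
        by_cases hw : y ∈ wrC c.comp
        · exact g2 y (by simp [hw, hy])
        · rw [g3 y (by simp [hw]), exec_frame he y hw, hs y hy]
    have hmem : s3.mem = s1.mem := by rw [g1, h1.1]; exact hq.2
    cases s3; cases s1
    simp only at hreg hmem
    subst hreg; subst hmem; rfl
  subst hs3
  set B := (cleanC c).compile 0 with hB
  have hAt : At (glue B P) 0 ((cleanC c).compile 0) := by
    intro i hi
    unfold glue
    rw [Nat.zero_add, List.getElem?_append_left hi]
  have hc := compile_correct w (glue B P) he' 0 hAt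
  have hlen : B.length = (cleanC c).size := by rw [hB, Cmd.length_compile]
  obtain ⟨t, htX, hhalt, hout⟩ := hP
  have hc' : (step w (glue B P))^[t2 + t3] ⟨0, s⟩ = shC B.length ⟨0, s3⟩ := by
    rw [hc, hlen]; rfl
  have hall : (step w (glue B P))^[t + (t2 + t3)] ⟨0, s⟩ =
      shC B.length ((step w P)^[t] ⟨0, s3⟩) := by
    rw [Function.iterate_add_apply, hc', steps_glue]
  refine ⟨t + (t2 + t3), ?_, ?_, ?_⟩
  · have e1 : (t2 : ℝ) ≤ T := by exact_mod_cast (h2 ▸ ht : t2 ≤ T)
    have e2 : (t3 : ℝ) ≤ (wrC c.comp).length := by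
      rw [g4]; exact_mod_cast List.length_filter_le _ _
    push_cast
    linarith
  · show Halted (glue B P) ((step w (glue B P))^[t + (t2 + t3)] ⟨0, s⟩)
    rw [hall]
    exact halted_glue hhalt
  · show ((step w (glue B P))^[t + (t2 + t3)] ⟨0, s⟩).st.reg 0 = out
    rw [hall]
    exact hout

end Pool.Agent.H792_Clique
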