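import Pool.Agent.H792_Clique.Prog1
import Pool.Agent.H792_Clique.Defs
import Pool.Agent.H792_Clique.Shift

/-!
Graphs given by a table of blocks, and their construction by a program.
-/

set_option autoImplicit false
set_option linter.unusedSimpArgs false
set_option linter.unusedVariables false

namespace Pool.Agent.H792_Clique

open Pool.Agent.H588R2 Pool.Agent.TH687.HL

/-- The graph with the blocks `0, …, κ - 1` of `p` vertices each; the blocks `x` and `y` are
completely joined if `T x y = 1`, and joined like a copy of `G` if `T x y = 2`. -/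
def blow (κ : ℕ) (T : ℕ → ℕ → ℕ) (hs : ∀ x y, T x y = T y x) (h0 : ∀ x, T x x ≠ 1) {p : ℕ}
    (G : SimpleGraph (Fin p)) : SimpleGraph (Fin (κ * p)) where
  Adj a b := T (a / p) (b / p) = 1 ∨ (T (a / p) (b / p) = 2 ∧ bit G (a % p) (b % p) ≠ 0)
  symm := ⟨by
    intro a b h
    have hb : bit G (a % p) (b % p) = bit G (b % p) (a % p) := by
      unfold bit
      congr 1
      simp only [eq_iff_iff]
      constructor
      · rintro ⟨h1, h2, h3⟩; exact ⟨h2, h1, h3.symm⟩
      · rintro ⟨h1, h2, h3⟩; exact ⟨h2, h1, h3.symm⟩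
    rw [hs, ← hb]
    exact h⟩
  loopless := ⟨by
    intro a h
    rcases h with h | ⟨_, h⟩
    · exact h0 _ h
    · apply h
      unfold bit
      rw [if_neg]
      rintro ⟨_, _, h3⟩
      exact h3.ne rfl⟩

/-- Entry of the adjacency matrix. -/
def val (T : ℕ → ℕ → ℕ) (g : ℕ → ℕ → ℕ) (x y u v : ℕ) : ℕ :=
  if T x y = 1 then 1 else if T x y = 2 then g u v else 0

lemma bit_blow {κ : ℕ} {T : ℕ → ℕ → ℕ} {hs : ∀ x y, T x y = T y x} {h0 : ∀ x, T x x ≠ 1} {p : ℕ}
    (G : SimpleGraph (Fin p)) {x y u v : ℕ} (hx : x < κ) (hy : y < κ) (hu : u < p) (hv : v < p) :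
    bit (blow κ T hs h0 G) (x * p + u) (y * p + v) = val T (bit G) x y u v := by
  obtain ⟨g1, g2⟩ := dm (a := x) hu
  obtain ⟨g3, g4⟩ := dm (a := y) hv
  have l1 : x * p + u < κ * p := by
    have : (x + 1) * p ≤ κ * p := Nat.mul_le_mul_right _ hx
    rw [Nat.add_mul] at this; omega
  have l2 : y * p + v < κ * p := by
    have : (y + 1) * p ≤ κ * p := Nat.mul_le_mul_right _ hy
    rw [Nat.add_mul] at this; omega
  have hbit : bit G u v = 0 ∨ bit G u v = 1 := by
    unfold bit; split_ifs <;> simp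
  have hiff : (∃ (hu : x * p + u < κ * p) (hv : y * p + v < κ * p),
      (blow κ T hs h0 G).Adj ⟨_, hu⟩ ⟨_, hv⟩) ↔ (T x y = 1 ∨ (T x y = 2 ∧ bit G u v ≠ 0)) := by
    constructor
    · rintro ⟨_, _, h⟩
      simp only [blow, g1, g2, g3, g4] at h
      exact h
    · intro h
      refine ⟨l1, l2, ?_⟩
      simp only [blow, g1, g2, g3, g4]
      exact h
  unfold val
  rw [bit]
  by_cases c1 : T x y = 1
  · rw [if_pos (hiff.2 (Or.inl c1)), if_pos c1]
  · by_cases c2 : T x y = 2
    · rw [if_neg c1, if_pos c2]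
      rcases hbit with hb | hb
      · rw [if_neg, hb]
        intro h
        rcases hiff.1 h with h' | h'
        · exact c1 h'
        · exact h'.2 hb
      · rw [if_pos (hiff.2 (Or.inr ⟨c2, by omega⟩)), hb]
    · rw [if_neg c1, if_neg c2, if_neg]
      intro h
      rcases hiff.1 h with h' | h'
      · exact c1 h'
      · exact c2 h'.1

/-! ### the program -/

def cellE (x y : ℕ) : Ex := .add (.mul (.add (.mul (.c x) (.r 1)) (.r 10)) (.r 2))
  (.add (.mul (.c y) (.r 1)) (.r 11))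

def valE (t : ℕ) : Ex :=
  if t = 1 then .c 1 else if t = 2 then .ld (.add (.r 3) (.add (.mul (.r 10) (.r 1)) (.r 11)))
  else .c 0

def blkC (x y t : ℕ) : HC := .loop 10 1 (.loop 11 1 (.sto (cellE x y) (valE t)))

def blksC (T : ℕ → ℕ → ℕ) : List (ℕ × ℕ) → HC
  | [] => .skip
  | z :: l => .seq (blkC z.1 z.2 (T z.1 z.2)) (blksC T l)

/-- All pairs of blocks. -/
def prs (κ : ℕ) : List (ℕ × ℕ) := (List.range (κ * κ)).map fun i => (i / κ, i % κ)

def redC (κ : ℕ) (T : ℕ → ℕ → ℕ) : HC :=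
  .seq (.asg 1 (.r 0)) (.seq (.asg 2 (.mul (.c κ) (.r 1))) (.seq (.asg 3 (.mul (.r 2) (.r 2)))
    (.seq (.asg 4 (.mul (.r 1) (.r 1))) (.seq (.loop 10 4 (.sto (.add (.r 3) (.r 10)) (.ld (.r 10))))
    (.seq (blksC T (prs κ)) (.seq (.loop 10 4 (.sto (.add (.r 3) (.r 10)) (.c 0)))
      (.asg 0 (.r 2))))))))

lemma wf_blk (x y t : ℕ) : (blkC x y t).wf = true := by
  unfold blkC valE
  split_ifs <;> rfl

lemma wf_blks (T : ℕ → ℕ → ℕ) : ∀ l, (blksC T l).wf = true := by
  intro l
  induction l with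
  | nil => rfl
  | cons z l ih => simp [blksC, HC.wf, wf_blk, ih]

lemma wf_red (κ : ℕ) (T : ℕ → ℕ → ℕ) : (redC κ T).wf = true := by
  have h := wf_blks T (prs κ)
  have h1 : ∀ a b : HC, a.wf = true → b.wf = true → (HC.seq a b).wf = true := by
    intro a b ha hb; simp [HC.wf, ha, hb]
  exact h1 _ _ rfl (h1 _ _ rfl (h1 _ _ rfl (h1 _ _ rfl (h1 _ _ rfl (h1 _ _ h (h1 _ _ rfl rfl))))))

lemma blks_wr (T : ℕ → ℕ → ℕ) : ∀ l, ∀ y ∈ (blksC T l).wr, y = 10 ∨ y = 11 := by
  intro l
  induction l with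
  | nil => intro y hy; simp [blksC, HC.wr] at hy
  | cons z l ih =>
    intro y hy
    simp only [blksC, blkC, HC.wr, List.mem_append, List.mem_cons, List.not_mem_nil, or_false] at hy
    rcases hy with hy | hy
    · exact hy
    · exact ih y hy

/-- Invariant: the cells in `D` have their final values. -/
structure BI (M : ℕ) (tgt m1 : ℕ → ℕ) (D : ℕ → Prop) (m : ℕ → ℕ) : Prop where
  done : ∀ a, D a → m a = tgt a
  high : ∀ a, M ≤ a → m a = m1 a

lemma BI.upd {M : ℕ} {tgt m1 : ℕ → ℕ} {D D' : ℕ → Prop} {m : ℕ → ℕ} (h : BI M tgt m1 D m) {a v : ℕ}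
    (ha : a < M) (hv : v = tgt a) (hD : ∀ b, D' b → D b ∨ b = a) :
    BI M tgt m1 D' (Function.update m a v) := by
  refine ⟨?_, ?_⟩
  · intro b hb
    by_cases e : b = a
    · subst e; simp [hv]
    · rw [Function.update_of_ne e]
      rcases hD b hb with h' | h'
      · exact h.done b h'
      · exact absurd h' e
  · intro b hb
    rw [Function.update_of_ne (by omega)]
    exact h.high b hb

/-- Address of an entry. -/
def cell (p κ x y u v : ℕ) : ℕ := (x * p + u) * (κ * p) + (y * p + v)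

lemma cell_lt {p κ x y u v : ℕ} (hx : x < κ) (hy : y < κ) (hu : u < p) (hv : v < p) :
    cell p κ x y u v < (κ * p) * (κ * p) := by
  unfold cell
  have h1 : x * p + u < κ * p := by
    have : (x + 1) * p ≤ κ * p := Nat.mul_le_mul_right _ hx
    rw [Nat.add_mul] at this; omega
  have h2 : y * p + v < κ * p := by
    have : (y + 1) * p ≤ κ * p := Nat.mul_le_mul_right _ hy
    rw [Nat.add_mul] at this; omega
  have h3 : (x * p + u + 1) * (κ * p) ≤ (κ * p) * (κ * p) := Nat.mul_le_mul_right _ h1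
  rw [Nat.add_mul] at h3; omega

theorem tr_blk {X w : ℕ} (Px : PX X w) {p κ x y : ℕ} {T : ℕ → ℕ → ℕ} {g : ℕ → ℕ → ℕ}
    {tgt m1 : ℕ → ℕ} {D : ℕ → Prop} {s : St} {Q : St → Prop} (hX : 32 ≤ X) (hb : Bd X s)
    (hx : x < κ) (hy : y < κ) (hκX : κ ≤ X) (h1 : s.reg 1 = p) (h2 : s.reg 2 = κ * p)
    (h3 : s.reg 3 = (κ * p) * (κ * p))
    (hm1 : ∀ u < p, ∀ v < p, m1 ((κ * p) * (κ * p) + (u * p + v)) = g u v)
    (hg : ∀ u v, g u v ≤ 1)
    (htgt : ∀ u < p, ∀ v < p, tgt (cell p κ x y u v) = val T g x y u v)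
    (hI : BI ((κ * p) * (κ * p)) tgt m1 D s.mem)
    (hQ : ∀ s', Bd X s' → (∀ z, z ≠ 10 → z ≠ 11 → s'.reg z = s.reg z) →
      BI ((κ * p) * (κ * p)) tgt m1 (fun a => D a ∨ ∃ u < p, ∃ v < p, a = cell p κ x y u v)
        s'.mem → Q s') :
    Tr w (blkC x y (T x y)) s (60 * (p + 1) ^ 2) Q := by
  refine Tr.mono (T := p * ((p * (50 + 4) + 3) + 4) + 3) ?_ (by nlinarith) (fun _ h => h)
  refine Tb.loop Px hb (fun i s' => (∀ z, z ≠ 10 → z ≠ 11 → s'.reg z = s.reg z) ∧
    BI ((κ * p) * (κ * p)) tgt m1 (fun a => D a ∨ ∃ u < i, ∃ v < p, a = cell p κ x y u v) s'.mem)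
    (p * (50 + 4) + 3) h1 le_rfl ?_ ?_ ?_
  · refine ⟨fun z h10 h11 => by rw [set_reg, if_neg h10], ⟨?_, ?_⟩⟩
    · rintro a (h | ⟨u, hu, _⟩)
      · exact hI.done a h
      · omega
    · exact hI.high
  · rintro u hu s1 ⟨f1, I1⟩ b1 r10 _
    refine Tb.loop Px b1 (fun j s' => (∀ z, z ≠ 10 → z ≠ 11 → s'.reg z = s.reg z) ∧ s'.reg 10 = u ∧
      BI ((κ * p) * (κ * p)) tgt m1 (fun a => (D a ∨ ∃ u' < u, ∃ v < p, a = cell p κ x y u' v) ∨
        ∃ v < j, a = cell p κ x y u v) s'.mem) 50 (N := p)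
      (by rw [f1 1 (by norm_num) (by norm_num), h1]) le_rfl ?_ ?_ ?_
    · refine ⟨fun z h10 h11 => by rw [set_reg, if_neg h11]; exact f1 z h10 h11,
        by rw [set_reg, if_neg (by norm_num)]; exact r10, ⟨?_, ?_⟩⟩
      · rintro a (h | ⟨v, hv, _⟩)
        · exact I1.done a h
        · omega
      · exact I1.high
    · rintro v hv s2 ⟨f2, r10', I2⟩ b2 r11 _
      have e1 : s2.reg 1 = p := by rw [f2 1 (by norm_num) (by norm_num), h1]
      have e2 : s2.reg 2 = κ * p := by rw [f2 2 (by norm_num) (by norm_num), h2]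
      have e3 : s2.reg 3 = (κ * p) * (κ * p) := by rw [f2 3 (by norm_num) (by norm_num), h3]
      have hcell : (cellE x y).ev s2 = cell p κ x y u v := by
        simp only [cellE, Ex.ev, e1, e2, r10', r11, cell]
      have hval : (valE (T x y)).ev s2 = val T g x y u v := by
        unfold valE val
        by_cases c1 : T x y = 1
        · rw [if_pos c1, if_pos c1]; rfl
        · by_cases c2 : T x y = 2
          · rw [if_neg c1, if_neg c1, if_pos c2, if_pos c2]
            simp only [Ex.ev, e1, e3, r10', r11]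
            rw [I2.high _ (by omega)]
            exact hm1 u hu v hv
          · rw [if_neg c1, if_neg c1, if_neg c2, if_neg c2]; rfl
      have hval1 : val T g x y u v ≤ 1 := by
        unfold val
        split_ifs
        · exact le_rfl
        · exact hg u v
        · omega
      refine Tb.sto Px b2 (by simp [cellE, cs]; omega) (by simp [cellE, sz]) ?_ ?_ ?_
        (by rw [hval]; omega) ?_
      · unfold valE; split_ifs <;> simp [cs]; omega
      · unfold valE; split_ifs <;> simp [sz]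
      · have : (valE (T x y)).cost ≤ 20 := by unfold valE; split_ifs <;> simp [Ex.cost]
        have h' : (cellE x y).cost = 18 := by simp [cellE, Ex.cost]
        omega
      · rw [hcell, hval]
        intro b3
        refine ⟨b3, fun z h10 h11 => by rw [set_reg, if_neg h11]; exact f2 z h10 h11,
          by rw [set_reg, if_neg (by norm_num)]; exact r10', ?_⟩
        refine I2.upd (cell_lt hx hy hu hv) (htgt u hu v hv).symm ?_
        rintro b (h | ⟨v', hv', h⟩)
        · left; left; exact h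
        · rcases Nat.lt_succ_iff_lt_or_eq.1 hv' with h' | h'
          · left; right; exact ⟨v', h', h⟩
          · right; rw [h, h']
    · rintro s2 ⟨f2, r10', I2⟩ b2 _ _
      refine ⟨b2, fun z h10 h11 => by rw [set_reg, if_neg h10]; exact f2 z h10 h11, ⟨?_, I2.high⟩⟩
      rintro a (h | ⟨u', hu', v, hv, h⟩)
      · exact I2.done a (Or.inl (Or.inl h))
      · rcases Nat.lt_succ_iff_lt_or_eq.1 hu' with h' | h'
        · exact I2.done a (Or.inl (Or.inr ⟨u', h', v, hv, h⟩))
        · exact I2.done a (Or.inr ⟨v, hv, by rw [h, h']⟩)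
  · rintro s1 ⟨f1, I1⟩ b1 _ _
    exact hQ s1 b1 f1 I1

theorem tr_blks {X w : ℕ} (Px : PX X w) {p κ : ℕ} {T : ℕ → ℕ → ℕ} {g : ℕ → ℕ → ℕ}
    {tgt m1 : ℕ → ℕ} (hX : 32 ≤ X) (hκX : κ ≤ X)
    (hm1 : ∀ u < p, ∀ v < p, m1 ((κ * p) * (κ * p) + (u * p + v)) = g u v)
    (hg : ∀ u v, g u v ≤ 1)
    (htgt : ∀ x < κ, ∀ y < κ, ∀ u < p, ∀ v < p, tgt (cell p κ x y u v) = val T g x y u v) :
    ∀ (l : List (ℕ × ℕ)) (D : ℕ → Prop) (s : St) {Q : St → Prop}, Bd X s →
    (∀ z ∈ l, z.1 < κ ∧ z.2 < κ) → s.reg 1 = p → s.reg 2 = κ * p →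
    s.reg 3 = (κ * p) * (κ * p) → BI ((κ * p) * (κ * p)) tgt m1 D s.mem →
    (∀ s', Bd X s' → (∀ z, z ≠ 10 → z ≠ 11 → s'.reg z = s.reg z) →
      BI ((κ * p) * (κ * p)) tgt m1 (fun a => D a ∨ ∃ z ∈ l, ∃ u < p, ∃ v < p,
        a = cell p κ z.1 z.2 u v) s'.mem → Q s') →
    Tr w (blksC T l) s (60 * (p + 1) ^ 2 * l.length) Q := by
  intro l
  induction l with
  | nil =>
    intro D s Q hb _ _ _ _ hI hQ
    refine Tr.skip (hQ s hb (fun _ _ _ => rfl) ⟨?_, hI.high⟩)
    rintro a (h | ⟨z, hz, _⟩)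
    · exact hI.done a h
    · simp at hz
  | cons z l ih =>
    intro D s Q hb hl h1 h2 h3 hI hQ
    refine Tr.mono (T := 60 * (p + 1) ^ 2 + 60 * (p + 1) ^ 2 * l.length) ?_
      (by rw [List.length_cons]; ring_nf; omega) (fun _ h => h)
    obtain ⟨hz1, hz2⟩ := hl z (by simp)
    apply Tr.seq
    refine tr_blk Px hX hb hz1 hz2 hκX h1 h2 h3 hm1 hg (htgt _ hz1 _ hz2) hI ?_
    intro s1 b1 f1 I1
    refine ih _ s1 b1 (fun z' hz' => hl z' (by simp [hz'])) (by rw [f1 1 (by norm_num) (by norm_num), h1])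
      (by rw [f1 2 (by norm_num) (by norm_num), h2]) (by rw [f1 3 (by norm_num) (by norm_num), h3])
      I1 ?_
    intro s2 b2 f2 I2
    refine hQ s2 b2 (fun z' h10 h11 => by rw [f2 z' h10 h11, f1 z' h10 h11]) ⟨?_, I2.high⟩
    rintro a (h | ⟨z', hz', h⟩)
    · exact I2.done a (Or.inl (Or.inl h))
    · rcases List.mem_cons.1 hz' with rfl | hz''
      · exact I2.done a (Or.inl (Or.inr h))
      · exact I2.done a (Or.inr ⟨z', hz'', h⟩)

theorem tr_red {X w : ℕ} (Px : PX X w) {p κ : ℕ} {T : ℕ → ℕ → ℕ} {hs : ∀ x y, T x y = T y x}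
    {h0 : ∀ x, T x x ≠ 1} (G : SimpleGraph (Fin p)) (hX : 32 ≤ X) (hp : 1 ≤ p) (hκ : 1 ≤ κ)
    (hκX : κ ≤ X) (hκp : (κ * p) * (κ * p) ≤ X) :
    Tr w (redC κ T) (inputConfig G).st (200 * (κ * κ + 1) * (p + 1) ^ 2)
      (fun s' => s'.reg 0 = (inputConfig (blow κ T hs h0 G)).st.reg 0 ∧
        s'.mem = (inputConfig (blow κ T hs h0 G)).st.mem) := by
  set s := (inputConfig G).st with hsdef
  set g := bit G with hgdef
  have hg : ∀ u v, g u v ≤ 1 := by
    intro u v; rw [hgdef]; unfold bit; split_ifs <;> omega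
  have hκp' : κ * p ≤ X := le_trans (Nat.le_mul_of_pos_right _ (Nat.mul_pos hκ hp)) hκp
  have hpX : p ≤ X := le_trans (Nat.le_mul_of_pos_left _ hκ) hκp'
  have hppX : p * p ≤ X := by
    refine le_trans (Nat.mul_le_mul ?_ ?_) hκp <;> exact Nat.le_mul_of_pos_left _ hκ
  have hb : Bd X s := by
    constructor
    · intro x
      show (if x = 0 then p else 0) ≤ X
      split_ifs
      · exact hpX
      · omega
    · intro x
      exact (hg _ _).trans (by omega)
  have hr0 : s.reg 0 = p := by rw [hsdef]; rfl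
  have hm : ∀ a, s.mem a = g (a / p) (a % p) := fun a => rfl
  set M := (κ * p) * (κ * p) with hM
  set tgt : ℕ → ℕ := (inputConfig (blow κ T hs h0 G)).st.mem with htgt
  have htgt' : ∀ a, tgt a = bit (blow κ T hs h0 G) (a / (κ * p)) (a % (κ * p)) := fun a => rfl
  have hbig : ∀ (q : ℕ) (G' : SimpleGraph (Fin q)) (a : ℕ), 1 ≤ q → q * q ≤ a →
      bit G' (a / q) (a % q) = 0 := by
    intro q G' a hq ha
    unfold bit
    rw [if_neg]
    rintro ⟨h1, _⟩
    have : q ≤ a / q := (Nat.le_div_iff_mul_le (by omega)).2 ha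
    omega
  have hppM : p * p ≤ M := by
    rw [hM]; apply Nat.mul_le_mul <;> exact Nat.le_mul_of_pos_left _ hκ
  refine Tr.mono (T := 5 + (10 + (10 + (10 + ((p * p * 20 + 3) +
    (60 * (p + 1) ^ 2 * (prs κ).length + ((p * p * 20 + 3) + 5))))))) ?_ ?_ (fun _ h => h)
  swap
  · have h1 : (prs κ).length = κ * κ := by simp [prs]
    rw [h1]
    have h2 : p * p ≤ (p + 1) ^ 2 := by nlinarith
    have h3 : 1 ≤ (p + 1) ^ 2 := Nat.one_le_pow _ _ (by omega)
    have h4 : 200 * (κ * κ + 1) * (p + 1) ^ 2 = 200 * (κ * κ * (p + 1) ^ 2) + 200 * (p + 1) ^ 2 := by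
      ring
    have h5 : 60 * (p + 1) ^ 2 * (κ * κ) = 60 * (κ * κ * (p + 1) ^ 2) := by ring
    rw [h4, h5]
    generalize κ * κ * (p + 1) ^ 2 = a at *
    generalize (p + 1) ^ 2 = b at *
    clear hκp hppM
    generalize p * p = c at *
    omega
  apply Tr.seq
  refine Tb.asgv Px hb (v := p) (by simp [Ex.ev, hr0]) hpX (by simp [cs]) (by simp [sz])
    (by simp [Ex.cost]) ?_
  intro b1
  apply Tr.seq
  refine Tb.asgv Px b1 (v := κ * p) (by simp [Ex.ev, set_reg]) hκp' (by simp [cs, hκX]) (by simp [sz])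
    (by simp [Ex.cost]) ?_
  intro b2
  apply Tr.seq
  refine Tb.asgv Px b2 (v := M) (by simp [Ex.ev, set_reg, hM]) hκp (by simp [cs]) (by simp [sz])
    (by simp [Ex.cost]) ?_
  intro b3
  apply Tr.seq
  refine Tb.asgv Px b3 (v := p * p) (by simp [Ex.ev, set_reg]) hppX (by simp [cs])
    (by simp [sz]) (by simp [Ex.cost]) ?_
  intro b4
  set s4 := (((s.set 1 p).set 2 (κ * p)).set 3 M).set 4 (p * p) with hs4
  have q1 : s4.reg 1 = p := by simp [hs4, set_reg]
  have q2 : s4.reg 2 = κ * p := by simp [hs4, set_reg]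
  have q3 : s4.reg 3 = M := by simp [hs4, set_reg]
  have q4 : s4.reg 4 = p * p := by simp [hs4, set_reg]
  have m4 : s4.mem = s.mem := rfl
  clear_value s4
  apply Tr.seq
  refine Tb.loop Px b4 (fun i s' => (∀ z, z ≠ 10 → s'.reg z = s4.reg z) ∧
    (∀ a, s'.mem a = if M ≤ a ∧ a < M + i then s.mem (a - M) else s.mem a)) 16 q4 (by omega) ?_ ?_ ?_
  · refine ⟨fun z hz => by rw [set_reg, if_neg hz], ?_⟩
    intro a
    rw [if_neg (by omega)]
    show s4.mem a = _
    rw [m4]
  · rintro i hi s5 ⟨f5, m5⟩ b5 r10 _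
    have e3 : s5.reg 3 = M := by rw [f5 3 (by norm_num), q3]
    have hld : s5.mem i = s.mem i := by rw [m5, if_neg (by omega)]
    refine Tb.sto Px b5 (by simp [cs]) (by simp [sz]) (by simp [cs]) (by simp [sz])
      (by simp [Ex.cost]) ?_ ?_
    · simp only [Ex.ev, r10, hld]; exact hb.mem i
    · simp only [Ex.ev, r10, hld, e3]
      intro b6
      refine ⟨b6, fun z hz => by rw [set_reg, if_neg hz]; exact f5 z hz, ?_⟩
      intro a
      show Function.update s5.mem (M + i) (s.mem i) a = _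
      by_cases e : a = M + i
      · subst e
        rw [Function.update_self, if_pos (by omega), Nat.add_sub_cancel_left]
      · rw [Function.update_of_ne e, m5]
        by_cases h : M ≤ a ∧ a < M + i
        · rw [if_pos h, if_pos (by omega)]
        · rw [if_neg h, if_neg (by omega)]
  · rintro s5 ⟨f5, m5⟩ b5 _ _
    have e1 : s5.reg 1 = p := by rw [f5 1 (by norm_num), q1]
    have e2 : s5.reg 2 = κ * p := by rw [f5 2 (by norm_num), q2]
    have e3 : s5.reg 3 = M := by rw [f5 3 (by norm_num), q3]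
    have e4 : s5.reg 4 = p * p := by rw [f5 4 (by norm_num), q4]
    have hm1 : ∀ u < p, ∀ v < p, s5.mem (M + (u * p + v)) = g u v := by
      intro u hu v hv
      have hlt : u * p + v < p * p := by
        have : (u + 1) * p ≤ p * p := Nat.mul_le_mul_right _ hu
        rw [Nat.add_mul] at this; omega
      rw [m5, if_pos (by omega), Nat.add_sub_cancel_left, hm]
      obtain ⟨g1, g2⟩ := dm (a := u) hv
      rw [g1, g2]
    have htg : ∀ x < κ, ∀ y < κ, ∀ u < p, ∀ v < p, tgt (cell p κ x y u v) = val T g x y u v := by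
      intro x hx y hy u hu v hv
      have hlt : y * p + v < κ * p := by
        have : (y + 1) * p ≤ κ * p := Nat.mul_le_mul_right _ hy
        rw [Nat.add_mul] at this; omega
      obtain ⟨g1, g2⟩ := dm (a := x * p + u) hlt
      rw [htgt']
      unfold cell
      rw [g1, g2]
      exact bit_blow G hx hy hu hv
    apply Tr.seq
    refine tr_blks Px hX hκX hm1 hg htg (prs κ) (fun _ => False) s5 b5 ?_ e1 e2 e3
      ⟨fun a h => h.elim, fun a _ => rfl⟩ ?_
    · intro z hz
      obtain ⟨i, hi, rfl⟩ := List.mem_map.1 hz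
      rw [List.mem_range] at hi
      exact ⟨Nat.div_lt_of_lt_mul hi, Nat.mod_lt _ hκ⟩
    intro s6 b6 f6 I6
    have low : ∀ a < M, s6.mem a = tgt a := by
      intro a ha
      apply I6.done
      right
      have h1 : a / (κ * p) < κ * p := Nat.div_lt_of_lt_mul ha
      have h2 : a % (κ * p) < κ * p := Nat.mod_lt _ (Nat.mul_pos hκ hp)
      have h3 : a / (κ * p) / p < κ := Nat.div_lt_of_lt_mul (by rw [Nat.mul_comm p κ]; exact h1)
      have h4 : a % (κ * p) / p < κ := Nat.div_lt_of_lt_mul (by rw [Nat.mul_comm p κ]; exact h2)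
      refine ⟨(a / (κ * p) / p, a % (κ * p) / p), ?_, a / (κ * p) % p, Nat.mod_lt _ hp,
        a % (κ * p) % p, Nat.mod_lt _ hp, ?_⟩
      · rw [prs, List.mem_map]
        refine ⟨(a / (κ * p) / p) * κ + a % (κ * p) / p, ?_, ?_⟩
        · rw [List.mem_range]
          have : (a / (κ * p) / p + 1) * κ ≤ κ * κ := Nat.mul_le_mul_right _ h3
          rw [Nat.add_mul] at this; omega
        · obtain ⟨g1, g2⟩ := dm (a := a / (κ * p) / p) h4
          rw [g1, g2]
      · unfold cell
        simp only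
        rw [Nat.div_add_mod', Nat.div_add_mod', Nat.div_add_mod']
    have high : ∀ a, M + p * p ≤ a → s6.mem a = 0 := by
      intro a ha
      rw [I6.high a (by omega), m5, if_neg (by omega), hm]
      exact hbig p G a hp (by omega)
    apply Tr.seq
    refine Tb.loop Px b6 (fun i s' => (∀ z, z ≠ 10 → s'.reg z = s6.reg z) ∧
      (∀ a < M, s'.mem a = tgt a) ∧ (∀ a, M ≤ a → a < M + i → s'.mem a = 0) ∧
      (∀ a, M + p * p ≤ a → s'.mem a = 0)) 16 (N := p * p) ?_ (by omega) ?_ ?_ ?_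
    · rw [f6 4 (by norm_num) (by norm_num), e4]
    · exact ⟨fun z hz => by rw [set_reg, if_neg hz], low, fun a h1 h2 => by omega, high⟩
    · rintro i hi s7 ⟨f7, l7, z7, h7⟩ b7 r10 _
      have e3' : s7.reg 3 = M := by rw [f7 3 (by norm_num), f6 3 (by norm_num) (by norm_num), e3]
      refine Tb.sto Px b7 (by simp [cs]) (by simp [sz]) (by simp [cs]) (by simp [sz])
        (by simp [Ex.cost]) (by simp [Ex.ev]) ?_
      simp only [Ex.ev, r10, e3']
      intro b8
      refine ⟨b8, fun z hz => by rw [set_reg, if_neg hz]; exact f7 z hz, ?_, ?_, ?_⟩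
      · intro a ha
        show Function.update s7.mem (M + i) 0 a = _
        rw [Function.update_of_ne (by omega)]; exact l7 a ha
      · intro a ha ha'
        show Function.update s7.mem (M + i) 0 a = 0
        by_cases e : a = M + i
        · subst e; simp
        · rw [Function.update_of_ne e]; exact z7 a ha (by omega)
      · intro a ha
        show Function.update s7.mem (M + i) 0 a = 0
        rw [Function.update_of_ne (by omega)]; exact h7 a ha
    · rintro s7 ⟨f7, l7, z7, h7⟩ b7 _ _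
      have e2' : s7.reg 2 = κ * p := by
        rw [f7 2 (by norm_num), f6 2 (by norm_num) (by norm_num), e2]
      refine Tb.asgv Px b7 (v := κ * p) (by simp [Ex.ev, e2']) hκp' (by simp [cs]) (by simp [sz])
        (by simp [Ex.cost]) ?_
      intro b8
      refine ⟨?_, ?_⟩
      · rw [St.set_reg_self]; rfl
      · funext a
        show s7.mem a = tgt a
        by_cases ha : a < M
        · exact l7 a ha
        · have hz : tgt a = 0 := by
            rw [htgt']
            exact hbig _ _ a (Nat.mul_pos hκ hp) (by omega)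
          rw [hz]
          by_cases ha' : a < M + p * p
          · exact z7 a (by omega) ha'
          · exact h7 a (by omega)

end Pool.Agent.H792_Clique
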