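import Pool.Agent.H792_Clique.Red

/-!
The reduction from all graphs to a class of graphs.
-/

set_option autoImplicit false
set_option linter.unusedSimpArgs false
set_option linter.unusedVariables false

namespace Pool.Agent.H792_Clique

open Pool.Agent.H588R2 Pool.Agent.TH687.HL

theorem reduce {e : ℝ} (he : 2 ≤ e) {cls cls' : ∀ p : ℕ, SimpleGraph (Fin p) → Prop} {κ : ℕ}
    (hκ : 1 ≤ κ) {T : ℕ → ℕ → ℕ} (hs : ∀ x y, T x y = T y x) (h0 : ∀ x, T x x ≠ 1)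
    (hcls : ∀ (p : ℕ) (G : SimpleGraph (Fin p)), 1 ≤ p → cls' p G → cls (κ * p) (blow κ T hs h0 G))
    (hfree : ∀ (p : ℕ) (G : SimpleGraph (Fin p)), 1 ≤ p → cls' p G →
      ((blow κ T hs h0 G).CliqueFree 10 ↔ G.CliqueFree 10))
    (h : SolvesIn e cls) : SolvesIn e cls' := by
  classical
  obtain ⟨P, c, C, hP⟩ := h
  set A : ℕ := 32 + κ + κ * κ * 4 with hA
  refine ⟨afterP (redC κ T) P, c * (Nat.log 2 κ + 2) + 100 * A,
    800 * (κ * κ + 1) + (wrC (redC κ T).comp).length + C * (κ : ℝ) ^ e, ?_⟩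
  intro p w G hp hw hG
  set L2 := Nat.log 2 p + 1 with hL2
  have hL2' : 1 ≤ L2 := by omega
  have hp2 : p < 2 ^ L2 := Nat.lt_pow_succ_log_self (by norm_num) p
  set X := A ^ L2 with hXdef
  have leX : ∀ c, c ≤ A → c ≤ X := fun c hc => hc.trans (Nat.le_self_pow (by omega) A)
  have hX32 : 32 ≤ X := leX 32 (by omega)
  have hw1 : 100 * A * L2 ≤ w :=
    le_trans (Nat.mul_le_mul_right _ (Nat.le_add_left _ _)) hw
  have hw3 : c * (Nat.log 2 κ + 2) * L2 ≤ w :=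
    le_trans (Nat.mul_le_mul_right _ (Nat.le_add_right _ _)) hw
  have hPX : PX X w := by
    refine ⟨by omega, ?_⟩
    have h1 : X ^ 100 < 2 ^ (100 * A * L2) := by
      have h2 : A < 2 ^ A := Nat.lt_two_pow_self
      calc X ^ 100 = A ^ (L2 * 100) := by rw [hXdef, ← pow_mul]
        _ < (2 ^ A) ^ (L2 * 100) := Nat.pow_lt_pow_left h2 (by omega)
        _ = 2 ^ (100 * A * L2) := by rw [← pow_mul]; congr 1; ring
    exact lt_of_lt_of_le h1 (Nat.pow_le_pow_right (by norm_num) hw1)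
  have hκp : (κ * p) * (κ * p) ≤ X := by
    calc (κ * p) * (κ * p) ≤ (κ * 2 ^ L2) * (κ * 2 ^ L2) :=
          Nat.mul_le_mul (Nat.mul_le_mul_left _ hp2.le) (Nat.mul_le_mul_left _ hp2.le)
      _ = (κ * κ) * 4 ^ L2 := by
          have : (4 : ℕ) ^ L2 = 2 ^ L2 * 2 ^ L2 := by rw [← mul_pow]; norm_num
          rw [this]; ring
      _ ≤ (κ * κ) ^ L2 * 4 ^ L2 := Nat.mul_le_mul_right _ (Nat.le_self_pow (by omega) _)
      _ = (κ * κ * 4) ^ L2 := by rw [← mul_pow]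
      _ ≤ X := Nat.pow_le_pow_left (by omega) _
  have hpos : 1 ≤ κ * p := Nat.mul_pos hκ hp
  have hlog : Nat.log 2 (κ * p) + 1 ≤ (Nat.log 2 κ + 2) * L2 := by
    have h1 : κ * p < 2 ^ ((Nat.log 2 κ + 2) * L2) := by
      have h2 : κ < 2 ^ (Nat.log 2 κ + 1) := Nat.lt_pow_succ_log_self (by norm_num) κ
      calc κ * p < 2 ^ (Nat.log 2 κ + 1) * 2 ^ L2 := Nat.mul_lt_mul'' h2 hp2
        _ = 2 ^ (Nat.log 2 κ + 1 + L2) := (pow_add 2 _ _).symm
        _ ≤ 2 ^ ((Nat.log 2 κ + 2) * L2) := by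
            apply Nat.pow_le_pow_right (by norm_num)
            nlinarith
    have := Nat.log_lt_of_lt_pow (by omega) h1
    omega
  have hw2 : c * (Nat.log 2 (κ * p) + 1) ≤ w := by
    calc c * (Nat.log 2 (κ * p) + 1) ≤ c * ((Nat.log 2 κ + 2) * L2) := Nat.mul_le_mul_left _ hlog
      _ = c * (Nat.log 2 κ + 2) * L2 := by ring
      _ ≤ w := hw3
  have hrun := hP (κ * p) w (blow κ T hs h0 G) hpos hw2 (hcls p G hp hG)
  have htr := tr_red (T := T) (hs := hs) (h0 := h0) hPX G hX32 hp hκ (leX κ (by omega)) hκp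
  have hfin := after_halts (wf_red κ T) htr (fun y hy => by simp [inputConfig, hy])
    (fun y hy => by simp [inputConfig, hy]) hrun
  have hout : (if (blow κ T hs h0 G).CliqueFree 10 then 0 else 1) =
      (if G.CliqueFree 10 then 0 else 1) := by
    by_cases hc : G.CliqueFree 10
    · rw [if_pos hc, if_pos ((hfree p G hp hG).2 hc)]
    · rw [if_neg hc, if_neg (fun h => hc ((hfree p G hp hG).1 h))]
  rw [← hout]
  obtain ⟨t, ht, h1, h2⟩ := hfin
  refine ⟨t, ht.trans ?_, h1, h2⟩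
  have hp1 : (1 : ℝ) ≤ p := by exact_mod_cast hp
  have hpe : (p : ℝ) ^ 2 ≤ (p : ℝ) ^ e := by
    rw [← Real.rpow_natCast]
    exact Real.rpow_le_rpow_of_exponent_le hp1 (by exact_mod_cast he)
  have h1e : 1 ≤ (p : ℝ) ^ e := Real.one_le_rpow hp1 (by linarith)
  have hmul : ((κ * p : ℕ) : ℝ) ^ e = (κ : ℝ) ^ e * (p : ℝ) ^ e := by
    push_cast
    rw [Real.mul_rpow (by positivity) (by positivity)]
  rw [hmul]
  have e1 : ((200 * (κ * κ + 1) * (p + 1) ^ 2 : ℕ) : ℝ) ≤ 800 * (κ * κ + 1) * (p : ℝ) ^ e := by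
    push_cast
    have h3 : ((p : ℝ) + 1) ^ 2 ≤ 4 * (p : ℝ) ^ e := by nlinarith
    have h4 : (0 : ℝ) ≤ 200 * (κ * κ + 1) := by positivity
    nlinarith [mul_le_mul_of_nonneg_left h3 h4]
  have e2 : (((wrC (redC κ T).comp).length : ℕ) : ℝ) ≤ (wrC (redC κ T).comp).length * (p : ℝ) ^ e := by
    have : (0 : ℝ) ≤ ((wrC (redC κ T).comp).length : ℕ) := by positivity
    nlinarith
  calc ((200 * (κ * κ + 1) * (p + 1) ^ 2 : ℕ) : ℝ) + (wrC (redC κ T).comp).length +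
        C * ((κ : ℝ) ^ e * (p : ℝ) ^ e) ≤ 800 * (κ * κ + 1) * (p : ℝ) ^ e +
        (wrC (redC κ T).comp).length * (p : ℝ) ^ e + C * ((κ : ℝ) ^ e * (p : ℝ) ^ e) := by linarith
    _ = (800 * (κ * κ + 1) + (wrC (redC κ T).comp).length + C * (κ : ℝ) ^ e) * (p : ℝ) ^ e := by
        ring

end Pool.Agent.H792_Clique
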