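import Pool.Agent.H792_Clique.Rank

/-!
Strassen's tensor of border rank `q + 1`, and the direct sums of matrix multiplication tensors
which are degenerations of the powers of its cyclic product (the laser method of 1986).
-/

set_option autoImplicit false
set_option linter.unusedSectionVars false

namespace Pool.Agent.H792_Clique

open Polynomial Finset

/-- Strassen's tensor. -/
def S0 (q : ℕ) : Option (Fin q) → Option (Fin q) → Fin q → ℤ := fun x y z =>
  if (x = some z ∧ y = none) ∨ (x = none ∧ y = some z) then 1 else 0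

theorem S0_brk (q : ℕ) : BRk (S0 q) (q + 1) := by
  have key := BRk.of_fintype (κ := Option (Fin q)) (T := S0 q) 1
    (fun l x => match l, x with
      | none, none => -1
      | none, some _ => 0
      | some _, none => 1
      | some i, some j => if i = j then X else 0)
    (fun l x => match l, x with
      | none, none => 1
      | none, some _ => 0
      | some _, none => 1
      | some i, some j => if i = j then X else 0)
    (fun l z => match l with
      | none => 1
      | some i => if i = z then 1 else 0)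
    (by
      intro x y z
      rw [Fintype.sum_option]
      simp only [mul_ite, mul_one, mul_zero, Finset.sum_ite_eq', Finset.mem_univ, if_true]
      rcases x with _ | x <;> rcases y with _ | y
      · exact ⟨0, by simp [S0]⟩
      · by_cases h : z = y
        · subst h; exact ⟨0, by simp [S0]⟩
        · exact ⟨0, by simp [S0, h, Ne.symm h]⟩
      · by_cases h : z = x
        · subst h; exact ⟨0, by simp [S0]⟩
        · exact ⟨0, by simp [S0, h, Ne.symm h]⟩
      · by_cases h : z = x
        · by_cases h' : z = y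
          · subst h; subst h'; exact ⟨1, by simp [S0]⟩
          · exact ⟨0, by simp [S0, h']⟩
        · exact ⟨0, by simp [S0, h]⟩)
  simpa using key

/-- The subsets of size `n` of a set of size `2 n`. -/
abbrev Sub (n : ℕ) := {J : Finset (Fin (2 * n)) // J.card = n}

lemma card_Sub (n : ℕ) : Fintype.card (Sub n) = n.centralBinom := by
  rw [Nat.centralBinom_eq_two_mul_choose]
  have : Fintype.card (Sub n) = (Finset.powersetCard n (Finset.univ : Finset (Fin (2 * n)))).card := by
    rw [Fintype.card_subtype]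
    congr 1
    ext J
    simp [Finset.mem_powersetCard]
  rw [this, Finset.card_powersetCard]
  simp

/-- Enumeration of the subsets. -/
noncomputable def enum (n : ℕ) : Sub n ≃ Fin n.centralBinom := Fintype.equivFinOfCardEq (card_Sub n)

/-- A bijection of the disjoint union of `A` and the complement of `B` with `Fin (2 n)`. -/
noncomputable def phi {n : ℕ} (A B : Sub n) : {t // t ∈ A.1} ⊕ {t // t ∉ B.1} ≃ Fin (2 * n) :=
  Fintype.equivFinOfCardEq (by
    rw [Fintype.card_sum, Fintype.card_subtype_compl]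
    simp only [Fintype.card_coe, Fintype.card_fin]
    rw [A.2, B.2]; omega)

/-- Pairs of numbers with sum at most `M - 1`. -/
abbrev Prs (M : ℕ) := {s : Fin M × Fin M // (s.1 : ℕ) + s.2 ≤ M - 1}

/-- The third number. -/
def Prs.k {M : ℕ} (s : Prs M) : Fin M := ⟨M - 1 - s.1.1 - s.1.2, by
  have := s.1.1.2
  omega⟩

lemma Prs.sum {M : ℕ} (s : Prs M) : (s.1.1 : ℕ) + s.1.2 + s.k = M - 1 := by
  have := s.2
  simp only [Prs.k]
  omega

lemma card_Prs (M : ℕ) : M ^ 2 ≤ 2 * Fintype.card (Prs M) := by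
  classical
  have h1 : Fintype.card {s : Fin M × Fin M // ¬ ((s.1 : ℕ) + s.2 ≤ M - 1)} ≤
      Fintype.card (Prs M) := by
    refine Fintype.card_le_of_injective (fun s => ⟨(Fin.rev s.1.1, Fin.rev s.1.2), ?_⟩) ?_
    · have := s.2
      have h1 := s.1.1.2
      have h2 := s.1.2.2
      simp only [Fin.val_rev]
      omega
    · intro s s' h
      simp only [Subtype.mk.injEq, Prod.mk.injEq, Fin.rev_inj] at h
      exact Subtype.ext (Prod.ext h.1 h.2)
  have h2 := Fintype.card_subtype_compl (fun s : Fin M × Fin M => (s.1 : ℕ) + s.2 ≤ M - 1)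
  have h3 : Fintype.card (Fin M × Fin M) = M ^ 2 := by simp [pow_two]
  have h4 : Fintype.card (Prs M) ≤ Fintype.card (Fin M × Fin M) := Fintype.card_subtype_le _
  change Fintype.card {s : Fin M × Fin M // ¬ ((s.1 : ℕ) + s.2 ≤ M - 1)} = _ at h2
  change _ = Fintype.card (Fin M × Fin M) - Fintype.card (Prs M) at h2
  omega

section

variable {n q : ℕ}

/-- First set of a pair. -/
noncomputable def sI (s : Prs n.centralBinom) : Sub n := (enum n).symm s.1.1
/-- Second set of a pair. -/
noncomputable def sJ (s : Prs n.centralBinom) : Sub n := (enum n).symm s.1.2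
/-- Third set of a pair. -/
noncomputable def sK (s : Prs n.centralBinom) : Sub n := (enum n).symm s.k

/-- Component of first kind: `some` on `J`. -/
noncomputable def fS (J : Sub n) (K : Sub n) (a : Fin (2 * n) → Fin q) :
    Fin (2 * n) → Option (Fin q) := fun t =>
  if h : t ∈ J.1 then some (a (phi J K (Sum.inl ⟨t, h⟩))) else none

/-- Component of second kind: `some` outside `J`. -/
noncomputable def fN (J : Sub n) (I : Sub n) (c : Fin (2 * n) → Fin q) :
    Fin (2 * n) → Option (Fin q) := fun t =>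
  if h : t ∈ J.1 then none else some (c (phi I J (Sum.inr ⟨t, h⟩)))

/-- Component of third kind. -/
noncomputable def fB (J : Sub n) (K I : Sub n) (a c : Fin (2 * n) → Fin q) :
    Fin (2 * n) → Fin q := fun t =>
  if h : t ∈ J.1 then a (phi J K (Sum.inl ⟨t, h⟩)) else c (phi I J (Sum.inr ⟨t, h⟩))

lemma S0_fS_fN {J J' K I K' I' L : Sub n} {a c a' c' : Fin (2 * n) → Fin q} {t : Fin (2 * n)}
    (h : S0 q (fS J K a t) (fN J' I c t) (fB L K' I' a' c' t) ≠ 0) : t ∈ J.1 ↔ t ∈ J'.1 := by
  unfold fS fN S0 at h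
  by_cases h1 : t ∈ J.1 <;> by_cases h2 : t ∈ J'.1 <;> simp [h1, h2] at h ⊢

/-- If the product does not vanish, the patterns agree. -/
lemma kp_ne {J J' K I K' I' L : Sub n} {a c a' c' : Fin (2 * n) → Fin q}
    (h : kp (S0 q) (2 * n) (fS J K a) (fN J' I c) (fB L K' I' a' c') ≠ 0) : J = J' := by
  unfold kp at h
  rw [Finset.prod_ne_zero_iff] at h
  apply Subtype.ext
  ext t
  exact S0_fS_fN (h t (Finset.mem_univ t))

/-- The value of the product for equal patterns. -/
lemma kp_eq {J K I : Sub n} {a c a' c' : Fin (2 * n) → Fin q} :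
    kp (S0 q) (2 * n) (fS J K a) (fN J I c) (fB J K I a' c') =
      if (∀ x : {t // t ∈ J.1}, a (phi J K (Sum.inl x)) = a' (phi J K (Sum.inl x))) ∧
        (∀ x : {t // t ∉ J.1}, c (phi I J (Sum.inr x)) = c' (phi I J (Sum.inr x))) then 1 else 0 := by
  unfold kp
  split_ifs with h
  · refine Finset.prod_eq_one fun t _ => ?_
    by_cases h1 : t ∈ J.1
    · simp [S0, fS, fN, fB, h1, h.1 ⟨t, h1⟩]
    · simp [S0, fS, fN, fB, h1, h.2 ⟨t, h1⟩]
  · rw [not_and_or] at h
    rcases h with h | h
    · push Not at h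
      obtain ⟨⟨t, ht⟩, h⟩ := h
      refine Finset.prod_eq_zero (Finset.mem_univ t) ?_
      simp [S0, fS, fN, fB, ht, h]
    · push Not at h
      obtain ⟨⟨t, ht⟩, h⟩ := h
      refine Finset.prod_eq_zero (Finset.mem_univ t) ?_
      simp [S0, fS, fN, fB, ht, h]

lemma eq_iff_phi {J K : Sub n} {a a' : Fin (2 * n) → Fin q} :
    ((∀ x : {t // t ∈ J.1}, a (phi J K (Sum.inl x)) = a' (phi J K (Sum.inl x))) ∧
      (∀ x : {t // t ∉ K.1}, a (phi J K (Sum.inr x)) = a' (phi J K (Sum.inr x)))) ↔ a = a' := by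
  constructor
  · rintro ⟨h1, h2⟩
    funext t
    obtain ⟨x, rfl⟩ := (phi J K).surjective t
    rcases x with x | x
    · exact h1 x
    · exact h2 x
  · rintro rfl
    exact ⟨fun _ => rfl, fun _ => rfl⟩

/-- The product of the three rotated powers. -/
noncomputable def TT (n q : ℕ) := kmul (kp (S0 q) (2 * n))
  (kmul (fun (x : Fin (2 * n) → Fin q) (y : Fin (2 * n) → Option (Fin q))
      (z : Fin (2 * n) → Option (Fin q)) => kp (S0 q) (2 * n) y z x)
    (fun (x : Fin (2 * n) → Option (Fin q)) (y : Fin (2 * n) → Fin q)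
      (z : Fin (2 * n) → Option (Fin q)) => kp (S0 q) (2 * n) z x y))

lemma TT_brk (n q : ℕ) : BRk (TT n q) ((q + 1) ^ (6 * n)) := by
  have h := (S0_brk q).kp (2 * n)
  have h1 := h.rot
  have h2 := h1.rot
  have := h.kmul (h1.kmul h2)
  have e : (q + 1) ^ (2 * n) * ((q + 1) ^ (2 * n) * (q + 1) ^ (2 * n)) = (q + 1) ^ (6 * n) := by
    rw [← pow_add, ← pow_add]; congr 1; ring
  rw [e] at this
  exact this

/-- Weights. -/
def wt (M i j : ℕ) : ℕ := i ^ 2 + 2 * i * j + 2 * (M - 1) * (M - i)

lemma wt_sum {M i j k : ℕ} (hi : i < M) (hj : j < M) (hk : k < M) :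
    ((wt M i j + wt M j k + wt M k i : ℕ) : ℤ) =
      (6 * (M - 1) * M - (M - 1) ^ 2 : ℤ) + ((i : ℤ) + j + k - (M - 1)) ^ 2 := by
  obtain ⟨m, rfl⟩ : ∃ m, M = m + 1 := ⟨M - 1, by omega⟩
  obtain ⟨i', hi'⟩ : ∃ i', m + 1 = i + i' := ⟨m + 1 - i, by omega⟩
  obtain ⟨j', hj'⟩ : ∃ j', m + 1 = j + j' := ⟨m + 1 - j, by omega⟩
  obtain ⟨k', hk'⟩ : ∃ k', m + 1 = k + k' := ⟨m + 1 - k, by omega⟩
  unfold wt
  have e1 : m + 1 - i = i' := by omega
  have e2 : m + 1 - j = j' := by omega
  have e3 : m + 1 - k = k' := by omega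
  have e4 : m + 1 - 1 = m := by omega
  rw [e1, e2, e3, e4]
  have f1 : (i' : ℤ) = m + 1 - i := by omega
  have f2 : (j' : ℤ) = m + 1 - j := by omega
  have f3 : (k' : ℤ) = m + 1 - k := by omega
  push_cast
  rw [f1, f2, f3]
  ring

/-- The total weight of the diagonal. -/
def wD (M : ℕ) : ℕ := 6 * (M - 1) * M - (M - 1) ^ 2

lemma wD_cast {M : ℕ} (hM : 1 ≤ M) : ((wD M : ℕ) : ℤ) = 6 * (M - 1) * M - (M - 1) ^ 2 := by
  obtain ⟨m, rfl⟩ : ∃ m, M = m + 1 := ⟨M - 1, by omega⟩
  unfold wD
  have : m ^ 2 ≤ 6 * m * (m + 1) := by nlinarith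
  simp only [Nat.add_sub_cancel]
  rw [Nat.cast_sub this]
  push_cast
  ring

/-- The degeneration to a direct sum of matrix multiplication tensors. -/
theorem DSM_brk (n q : ℕ) : BRk (DSM (Prs n.centralBinom) (Fin (2 * n) → Fin q))
    ((q + 1) ^ (6 * n)) := by
  classical
  refine (TT_brk n q).degen
    (fun x => (fS (sJ x.1) (sK x.1) x.2.1,
      fB (sK x.1) (sI x.1) (sJ x.1) x.2.2 x.2.1, fN (sI x.1) (sK x.1) x.2.2))
    (fun y => (fN (sJ y.1) (sI y.1) y.2.2, fS (sK y.1) (sI y.1) y.2.1,
      fB (sI y.1) (sJ y.1) (sK y.1) y.2.2 y.2.1))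
    (fun z => (fB (sJ z.1) (sK z.1) (sI z.1) z.2.2 z.2.1, fN (sK z.1) (sJ z.1) z.2.2,
      fS (sI z.1) (sJ z.1) z.2.1))
    (fun x => wt n.centralBinom x.1.1.1 x.1.1.2) (fun y => wt n.centralBinom y.1.1.2 y.1.k)
    (fun z => wt n.centralBinom z.1.k z.1.1.1) (wD n.centralBinom) ?_
  rintro ⟨s, a, b⟩ ⟨s', b', c⟩ ⟨s'', c', a'⟩
  simp only
  have hM1 : 1 ≤ n.centralBinom := Nat.centralBinom_pos n
  by_cases hV : TT n q (fS (sJ s) (sK s) a, fB (sK s) (sI s) (sJ s) b a, fN (sI s) (sK s) b)
      (fN (sJ s') (sI s') c, fS (sK s') (sI s') b', fB (sI s') (sJ s') (sK s') c b')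
      (fB (sJ s'') (sK s'') (sI s'') a' c', fN (sK s'') (sJ s'') a', fS (sI s'') (sJ s'') c') = 0
  · left
    refine ⟨hV, ?_⟩
    unfold DSM
    rw [if_neg]
    rintro ⟨h1, h2, h3, h4, h5⟩
    simp only at h1 h2 h3 h4 h5
    subst h1 h2 h3 h4 h5
    revert hV
    simp only [TT, kmul]
    rw [kp_eq, kp_eq, kp_eq]
    simp
  · right
    have hV' := hV
    simp only [TT, kmul] at hV'
    have g1 := left_ne_zero_of_mul hV'
    have g2 := left_ne_zero_of_mul (right_ne_zero_of_mul hV')
    have g3 := right_ne_zero_of_mul (right_ne_zero_of_mul hV')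
    have e1 : s.1.2 = s'.1.2 := (enum n).symm.injective (kp_ne g1)
    have e2 : s'.k = s''.k := (enum n).symm.injective (kp_ne g2)
    have e3 : s''.1.1 = s.1.1 := (enum n).symm.injective (kp_ne g3)
    have hw := wt_sum (M := n.centralBinom) (i := s.1.1) (j := s.1.2) (k := s''.k) s.1.1.2 s.1.2.2 s''.k.2
    rw [← wD_cast hM1] at hw
    by_cases hs : s = s' ∧ s' = s''
    · left
      obtain ⟨rfl, rfl⟩ := hs
      constructor
      · have := s.sum
        have h0 : ((s.1.1 : ℕ) : ℤ) + (s.1.2 : ℕ) + (s.k : ℕ) - (n.centralBinom - 1) = 0 := by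
          have h1 : (((s.1.1 : ℕ) + s.1.2 + s.k : ℕ) : ℤ) = ((n.centralBinom - 1 : ℕ) : ℤ) := by rw [this]
          rw [Nat.cast_sub hM1] at h1
          push_cast at h1
          linarith
        rw [h0] at hw
        have : ((wt n.centralBinom s.1.1 s.1.2 + wt n.centralBinom s.1.2 s.k + wt n.centralBinom s.k s.1.1 : ℕ) : ℤ) = (wD n.centralBinom : ℕ) := by
          rw [hw]; ring
        exact_mod_cast this
      · unfold DSM
        simp only [TT, kmul]
        rw [kp_eq, kp_eq, kp_eq]
        have A : a = a' ↔ _ := (eq_iff_phi (J := sJ s) (K := sK s)).symm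
        have B : b = b' ↔ _ := (eq_iff_phi (J := sK s) (K := sI s)).symm
        have Cc : c = c' ↔ _ := (eq_iff_phi (J := sI s) (K := sJ s)).symm
        have key : (b = b' ∧ c = c' ∧ a' = a) ↔
          (((∀ x : {t // t ∈ (sJ s).1}, a (phi (sJ s) (sK s) (Sum.inl x)) = a' (phi (sJ s) (sK s) (Sum.inl x))) ∧
            (∀ x : {t // t ∉ (sJ s).1}, c (phi (sI s) (sJ s) (Sum.inr x)) = c' (phi (sI s) (sJ s) (Sum.inr x)))) ∧
          ((∀ x : {t // t ∈ (sK s).1}, b' (phi (sK s) (sI s) (Sum.inl x)) = b (phi (sK s) (sI s) (Sum.inl x))) ∧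
            (∀ x : {t // t ∉ (sK s).1}, a' (phi (sJ s) (sK s) (Sum.inr x)) = a (phi (sJ s) (sK s) (Sum.inr x)))) ∧
          ((∀ x : {t // t ∈ (sI s).1}, c' (phi (sI s) (sJ s) (Sum.inl x)) = c (phi (sI s) (sJ s) (Sum.inl x))) ∧
            (∀ x : {t // t ∉ (sI s).1}, b (phi (sK s) (sI s) (Sum.inr x)) = b' (phi (sK s) (sI s) (Sum.inr x))))) := by
          rw [eq_comm (a := a'), A, B, Cc]
          constructor
          · rintro ⟨⟨b1, b2⟩, ⟨c1, c2⟩, ⟨a1, a2⟩⟩
            exact ⟨⟨a1, c2⟩, ⟨fun x => (b1 x).symm, fun x => (a2 x).symm⟩,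
              ⟨fun x => (c1 x).symm, b2⟩⟩
          · rintro ⟨⟨a1, c2⟩, ⟨b1, a2⟩, ⟨c1, b2⟩⟩
            exact ⟨⟨fun x => (b1 x).symm, b2⟩, ⟨fun x => (c1 x).symm, c2⟩,
              ⟨a1, fun x => (a2 x).symm⟩⟩
        simp only [true_and]
        by_cases hh : b = b' ∧ c = c' ∧ a' = a
        · rw [if_pos hh]
          obtain ⟨h1, h2, h3⟩ := key.1 hh
          rw [if_pos h1, if_pos h2, if_pos h3]
          norm_num
        · rw [if_neg hh]
          by_contra hne
          have hne' := Ne.symm hne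
          have k1 := left_ne_zero_of_mul hne'
          have k2 := left_ne_zero_of_mul (right_ne_zero_of_mul hne')
          have k3 := right_ne_zero_of_mul (right_ne_zero_of_mul hne')
          apply hh
          apply key.2
          refine ⟨?_, ?_, ?_⟩
          · by_contra hc; exact k1 (if_neg hc)
          · by_contra hc; exact k2 (if_neg hc)
          · by_contra hc; exact k3 (if_neg hc)
    · right
      constructor
      · have h0 : ((s.1.1 : ℕ) : ℤ) + (s.1.2 : ℕ) + (s''.k : ℕ) - (n.centralBinom - 1) ≠ 0 := by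
          intro h0
          apply hs
          have hM' : ((n.centralBinom - 1 : ℕ) : ℤ) = (n.centralBinom : ℤ) - 1 := by rw [Nat.cast_sub hM1]; simp
          have hsum : (s.1.1 : ℕ) + s.1.2 + s''.k = n.centralBinom - 1 := by
            have : (((s.1.1 : ℕ) + s.1.2 + s''.k : ℕ) : ℤ) = ((n.centralBinom - 1 : ℕ) : ℤ) := by
              rw [hM']; push_cast; linarith
            exact_mod_cast this
          have s1 := s.sum
          have s2 := s'.sum
          have s3 := s''.sum
          have f1 : (s.1.2 : ℕ) = s'.1.2 := congrArg Fin.val e1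
          have f2 : (s'.k : ℕ) = s''.k := congrArg Fin.val e2
          have f3 : (s''.1.1 : ℕ) = s.1.1 := congrArg Fin.val e3
          constructor
          · apply Subtype.ext
            apply Prod.ext
            · apply Fin.ext; omega
            · exact e1
          · apply Subtype.ext
            apply Prod.ext
            · apply Fin.ext; omega
            · apply Fin.ext; omega
        have hpos : 0 < (((s.1.1 : ℕ) : ℤ) + (s.1.2 : ℕ) + (s''.k : ℕ) - (n.centralBinom - 1)) ^ 2 := by
          positivity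
        have hlt : ((wD n.centralBinom : ℕ) : ℤ) < ((wt n.centralBinom s.1.1 s.1.2 + wt n.centralBinom s.1.2 s''.k + wt n.centralBinom s''.k s.1.1 : ℕ) : ℤ) := by
          rw [hw]; linarith
        rw [e1] at hlt ⊢
        rw [e2, e3]
        exact_mod_cast hlt
      · unfold DSM
        rw [if_neg]
        rintro ⟨h1, h2, _⟩
        exact hs ⟨h1, h2⟩

end

end Pool.Agent.H792_Clique
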