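import Pool.Agent.H792_Clique.Prog3
import Pool.Agent.H792_Clique.Nine2

/-!
Nine pairwise adjacent vertices in a neighbourhood.
-/

set_option autoImplicit false
set_option linter.unusedSimpArgs false
set_option linter.unusedVariables false

namespace Pool.Agent.H792_Clique

open Pool.Agent.H588R2 Pool.Agent.TH687.HL

/-- Look for nine pairwise adjacent vertices in the neighbourhood of the vertex in register 58. -/
def visC (m r : ℕ) (E1 E2 E3 : ℕ → ℕ → ℤ) : HC :=
  .seq nbC (.seq (nineC m r E1 E2 E3) (.asg 41 (.add (.r 41) (.r 40))))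

theorem tr_vis {X w : ℕ} (Px : PX X w) {m r M : ℕ} {E1 E2 E3 : ℕ → ℕ → ℤ} (H : FM m r M E1 E2 E3)
    {p σ v : ℕ} {g : ℕ → ℕ → ℕ} {s : St} {Q : St → Prop}
    (hX : 32 ≤ X) (hXK : K1 m r M ^ (Nat.clog m (p * p * p) + 1) ≤ X) (hX3 : p * p * p ≤ X)
    (hX2 : p * p ≤ X) (hpX : p ≤ X)
    (hb : Bd X s) (hLL : LL p σ g s) (hg : ∀ u v, g u v ≤ 1) (hsym : ∀ u v, g u v = g v u)
    (h58 : s.reg 58 = v) (hv : v < p) (h41 : s.reg 41 < X)
    (hQ : ∀ s', Bd X s' → (∀ y, y ∉ nineW → y ∉ [1, 41, 51] → s'.reg y = s.reg y) →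
      Fr [4, 5, 6, 7, 8, 9, 10, 11, 12, 13, 14, 15, 16, 17, 18, 19, 20, 21, 22, 23] (p * p)
        s.mem s'.mem → LL p σ g s' →
      (NineV g p v → s'.reg 41 = s.reg 41 + 1) → (¬ NineV g p v → s'.reg 41 = s.reg 41) → Q s') :
    Tr w (visC m r E1 E2 E3) s (200 * (p + 1) + tn m r (nbl g v p).length) Q := by
  have hlen := nbl_length_le g v p
  set n := (nbl g v p).length with hn
  refine Tr.mono (T := 100 * (p + 1) + (tn m r n + 10)) ?_ (by omega) (fun _ h => h)
  apply Tr.seq
  refine tr_nb Px hX hb hLL h58 hv hpX ?_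
  intro s1 b1 f1 F1 r1 d1
  have L1 : LL p σ g s1 := hLL.mono (fun y hy => f1 y (by
      simp only [List.mem_cons, List.not_mem_nil, or_false] at hy ⊢; omega)) F1 (by decide)
      (by decide) (by decide)
  have hn3 : n * n * n ≤ p * p * p := Nat.mul_le_mul (Nat.mul_le_mul hlen hlen) hlen
  have hm2 := H.two
  have hK1pos : 1 ≤ K1 m r M := by
    unfold K1
    have h1 : 0 < 2 * (m * m) * M := Nat.mul_pos (Nat.mul_pos (by norm_num) (by positivity)) H.M1
    have h2 : 0 < r * (m * m) := Nat.mul_pos (lt_of_lt_of_le (by positivity) H.le) (by positivity)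
    exact Nat.mul_pos (by norm_num) (Nat.mul_pos (Nat.pow_pos h1) h2)
  apply Tr.seq
  refine tr_nine Px H hX ?_ (hn3.trans hX3) ((Nat.mul_le_mul hlen hlen).trans hX2) b1 L1.r98 L1.r99
    r1 hg hsym L1.G d1 ?_ ?_
  · refine le_trans (Nat.pow_le_pow_right hK1pos ?_) hXK
    exact Nat.succ_le_succ (Nat.clog_mono_right _ hn3)
  · intro i hi
    have hi' : i < (nbl g v p).length := hi
    simp only [List.getD_eq_getElem?_getD, List.getElem?_eq_getElem hi', Option.getD_some]
    have : (nbl g v p)[i] ∈ nbl g v p := List.getElem_mem _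
    have h2 : (nbl g v p)[i] ∈ List.range p := List.mem_of_mem_filter this
    exact List.mem_range.1 h2
  intro s2 b2 f2 F2 y1 y2
  have e41 : s2.reg 41 = s.reg 41 := by rw [f2 41 (by decide), f1 41 (by decide)]
  have h40 : s2.reg 40 ≤ 1 := by
    by_cases h : NineL g n fun i => (nbl g v p).getD i 0
    · rw [y1 h]
    · rw [y2 h]; omega
  refine Tb.asgv Px b2 (v := s.reg 41 + s2.reg 40) (by simp [Ex.ev, e41]) (by omega) (by simp [cs])
    (by simp [sz]) (by simp [Ex.cost]) ?_
  intro b3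
  refine hQ _ b3 ?_ ?_ ?_ ?_ ?_
  · intro y hy hy'
    have hy'' := hy'
    simp only [List.mem_cons, List.not_mem_nil, or_false, not_or] at hy''
    rw [set_reg, if_neg (by tauto), f2 y hy, f1 y (by simp; tauto)]
  · exact (F1.mono (by decide)).trans (F2.mono (by decide))
  · refine L1.mono (st' := s2.set 41 _) (fun y hy => ?_) F2 (by decide) (by decide) (by decide)
    have : y ∉ nineW ∧ y ≠ 41 := by
      simp only [List.mem_cons, List.not_mem_nil, or_false] at hy
      rcases hy with rfl | rfl | rfl | rfl | rfl <;> decide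
    rw [set_reg, if_neg this.2, f2 y this.1]
  · intro h
    rw [St.set_reg_self, y1 h]
  · intro h
    rw [St.set_reg_self, y2 h]; rfl

end Pool.Agent.H792_Clique
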