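import Pool.Agent.H792_Clique.Loop

/-!
The transform which evaluates the Kronecker power of a matrix level by level.
-/

set_option autoImplicit false
set_option linter.unusedSimpArgs false
set_option linter.unusedVariables false

namespace Pool.Agent.H792_Clique

open Pool.Agent.H588R2 Pool.Agent.TH687.HL

/-! ### the pure transform -/

/-- One step of the transform. -/
def gs (r q : ℕ) (Ea Eb : ℕ → ℕ) (Bq : ℕ) (P N : ℕ → ℕ) (j : ℕ) : ℕ :=
  ∑ t ∈ Finset.range q, (Ea (j / Bq % r * q + t) * P ((j / Bq / r * q + t) * Bq + j % Bq) +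
    Eb (j / Bq % r * q + t) * N ((j / Bq / r * q + t) * Bq + j % Bq))

/-- Positive and negative parts at level `l`. -/
def pr (r q L : ℕ) (Ep En : ℕ → ℕ) (x : ℕ → ℕ) : ℕ → (ℕ → ℕ) × (ℕ → ℕ)
  | 0 => (x, fun _ => 0)
  | l + 1 => (gs r q Ep En (q ^ (L - l - 1)) (pr r q L Ep En x l).1 (pr r q L Ep En x l).2,
      gs r q Ep En (q ^ (L - l - 1)) (pr r q L Ep En x l).2 (pr r q L Ep En x l).1)

lemma gs_idx {r q Bq a s b : ℕ} (Ea Eb : ℕ → ℕ) (P N : ℕ → ℕ) (hs : s < r) (hb : b < Bq) :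
    gs r q Ea Eb Bq P N ((a * r + s) * Bq + b) = ∑ t ∈ Finset.range q,
      (Ea (s * q + t) * P ((a * q + t) * Bq + b) + Eb (s * q + t) * N ((a * q + t) * Bq + b)) := by
  obtain ⟨d1, d2⟩ := dm (a := a * r + s) hb
  obtain ⟨g1, g2⟩ := dm (a := a) hs
  unfold gs
  rw [d1, d2, g1, g2]

lemma idx_split {r Bq A i : ℕ} (hr : 0 < r) (hBq : 0 < Bq) (hi : i < A * r * Bq) :
    ∃ a s b, a < A ∧ s < r ∧ b < Bq ∧ i = (a * r + s) * Bq + b := by
  refine ⟨i / Bq / r, i / Bq % r, i % Bq, ?_, Nat.mod_lt _ hr, Nat.mod_lt _ hBq, ?_⟩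
  · apply Nat.div_lt_of_lt_mul
    apply Nat.div_lt_of_lt_mul
    calc i < A * r * Bq := hi
      _ = Bq * (r * A) := by ring
  · rw [Nat.div_add_mod', Nat.div_add_mod']

lemma mul_add_lt {a A q t : ℕ} (ha : a < A) (ht : t < q) : a * q + t < A * q := by
  have h := Nat.mul_le_mul_right q (show a + 1 ≤ A from ha)
  rw [Nat.add_mul, Nat.one_mul] at h
  omega

lemma idx_in {A q Bq a t b : ℕ} (ha : a < A) (ht : t < q) (hb : b < Bq) :
    (a * q + t) * Bq + b < A * q * Bq := by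
  have h1 : a * q + t + 1 ≤ A * q := mul_add_lt ha ht
  calc (a * q + t) * Bq + b < (a * q + t + 1) * Bq := mul_add_lt (Nat.lt_succ_self _) hb
    _ ≤ A * q * Bq := Nat.mul_le_mul_right _ h1

lemma pr_spec {E : ℕ → ℕ → ℤ} {r q L : ℕ} {Ep En : ℕ → ℕ} (hr : 0 < r) (hq : 0 < q)
    (hE : ∀ s < r, ∀ t < q, E s t = (Ep (s * q + t) : ℤ) - En (s * q + t)) (x : ℕ → ℕ) :
    ∀ l ≤ L, ∀ i < r ^ l * q ^ (L - l), ((pr r q L Ep En x l).1 i : ℤ) - (pr r q L Ep En x l).2 i =
      FF E r q L (fun τ => (x τ : ℤ)) l i := by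
  intro l
  induction l with
  | zero =>
    intro _ i hi
    rw [FF_zero]
    · simp [pr]
    · simpa using hi
  | succ l ih =>
    intro hl i hi
    have e1 : L - (l + 1) = L - l - 1 := by omega
    have e2 : q ^ (L - l) = q * q ^ (L - l - 1) := by
      rw [← pow_succ']; congr 1; omega
    rw [e1, pow_succ] at hi
    have hBq : 0 < q ^ (L - l - 1) := by positivity
    obtain ⟨a, s, b, ha, hs, hb, rfl⟩ := idx_split hr hBq hi
    rw [FF_step E hq _ (by omega) hs hb]
    simp only [pr]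
    rw [gs_idx _ _ _ _ hs hb, gs_idx _ _ _ _ hs hb]
    push_cast
    rw [← Finset.sum_sub_distrib]
    refine Finset.sum_congr rfl fun t ht => ?_
    rw [Finset.mem_range] at ht
    rw [← ih (by omega) _ (by rw [e2, ← mul_assoc]; exact idx_in ha ht hb), hE s hs t ht]
    ring

lemma pr_le {r q L M : ℕ} {Ep En : ℕ → ℕ} (hr : 0 < r) (hq : 0 < q)
    (hEp : ∀ j < r * q, Ep j ≤ M) (hEn : ∀ j < r * q, En j ≤ M) {x : ℕ → ℕ}
    (hx : ∀ i < q ^ L, x i ≤ 1) : ∀ l ≤ L, ∀ i < r ^ l * q ^ (L - l),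
    (pr r q L Ep En x l).1 i ≤ (2 * q * M) ^ l ∧ (pr r q L Ep En x l).2 i ≤ (2 * q * M) ^ l := by
  intro l
  induction l with
  | zero =>
    intro _ i hi
    simp only [pr, pow_zero]
    exact ⟨hx i (by simpa using hi), by omega⟩
  | succ l ih =>
    intro hl i hi
    have e1 : L - (l + 1) = L - l - 1 := by omega
    have e2 : q ^ (L - l) = q * q ^ (L - l - 1) := by
      rw [← pow_succ']; congr 1; omega
    rw [e1, pow_succ] at hi
    have hBq : 0 < q ^ (L - l - 1) := by positivity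
    obtain ⟨a, s, b, ha, hs, hb, rfl⟩ := idx_split hr hBq hi
    simp only [pr]
    rw [gs_idx _ _ _ _ hs hb, gs_idx _ _ _ _ hs hb]
    have key : ∀ t ∈ Finset.range q, ∀ Ea Eb : ℕ → ℕ, (∀ j < r * q, Ea j ≤ M) →
        (∀ j < r * q, Eb j ≤ M) → ∀ u v : ℕ, u ≤ (2 * q * M) ^ l → v ≤ (2 * q * M) ^ l →
        Ea (s * q + t) * u + Eb (s * q + t) * v ≤ 2 * M * (2 * q * M) ^ l := by
      intro t ht Ea Eb ha' hb' u v hu hv
      rw [Finset.mem_range] at ht
      have hj : s * q + t < r * q := mul_add_lt hs ht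
      have h1 := Nat.mul_le_mul (ha' _ hj) hu
      have h2 := Nat.mul_le_mul (hb' _ hj) hv
      have h3 := Nat.add_le_add h1 h2
      refine h3.trans (le_of_eq ?_)
      ring
    have hin : ∀ t ∈ Finset.range q, (a * q + t) * q ^ (L - l - 1) + b < r ^ l * q ^ (L - l) := by
      intro t ht
      rw [Finset.mem_range] at ht
      rw [e2, ← mul_assoc]; exact idx_in ha ht hb
    have fin : q * (2 * M * (2 * q * M) ^ l) = (2 * q * M) ^ (l + 1) := by rw [pow_succ]; ring
    constructor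
    · refine le_trans (Finset.sum_le_sum fun t ht => key t ht Ep En hEp hEn _ _
        (ih (by omega) _ (hin t ht)).1 (ih (by omega) _ (hin t ht)).2) ?_
      rw [Finset.sum_const, Finset.card_range, smul_eq_mul, fin]
    · refine le_trans (Finset.sum_le_sum fun t ht => key t ht Ep En hEp hEn _ _
        (ih (by omega) _ (hin t ht)).2 (ih (by omega) _ (hin t ht)).1) ?_
      rw [Finset.sum_const, Finset.card_range, smul_eq_mul, fin]

/-! ### the program -/

def eI : Ex := .add (.mul (.r 12) (.r 23)) (.r 14)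
def inI : Ex := .add (.mul (.add (.mul (.r 11) (.r 23)) (.r 14)) (.r 25)) (.r 13)
def outI : Ex := .add (.mul (.add (.mul (.r 11) (.r 22)) (.r 12)) (.r 25)) (.r 13)
def eY (k k' : ℕ) : Ex := .add (.mul (ldA 16 eI) (ldA k inI)) (.mul (ldA 17 eI) (ldA k' inI))

def yatBody : HC :=
  .seq (.asg 26 (.c 0)) (.seq (.asg 27 (.c 0)) (.seq
    (.loop 14 23 (.asg 26 (.add (.r 26) (eY 11 12)))) (.seq
    (.loop 14 23 (.asg 27 (.add (.r 27) (eY 12 11)))) (.seq
    (stA 13 outI (.r 26)) (stA 14 outI (.r 27))))))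

/-- State of the tables inside a level. -/
structure YI (B : ℕ) (G1 G2 : ℕ → ℕ) (m0 : ℕ → ℕ) (k : ℕ) (m : ℕ → ℕ) : Prop where
  fr : Fr [13, 14] B m0 m
  d1 : Fi B m 13 k G1
  d2 : Fi B m 14 k G2

theorem tr_yatBody {X w : ℕ} (Px : PX X w) {B r q Bq a s b : ℕ} {Ep En P N : ℕ → ℕ} {A : ℕ}
    {m0 : ℕ → ℕ} {s0 : St}
    (hX : 32 ≤ X) (hb0 : Bd X s0) (h99 : s0.reg 99 = B) (h22 : s0.reg 22 = r) (h23 : s0.reg 23 = q)
    (h25 : s0.reg 25 = Bq) (h11 : s0.reg 11 = a) (h12 : s0.reg 12 = s) (h13 : s0.reg 13 = b)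
    (ha : a < A) (hs : s < r) (hb : b < Bq)
    (hEp : Fi B m0 16 (r * q) Ep) (hEn : Fi B m0 17 (r * q) En)
    (hP : Fi B m0 11 (A * q * Bq) P) (hN : Fi B m0 12 (A * q * Bq) N)
    (hG1 : gs r q Ep En Bq P N ((a * r + s) * Bq + b) ≤ X)
    (hG2 : gs r q Ep En Bq N P ((a * r + s) * Bq + b) ≤ X)
    (hI : YI B (gs r q Ep En Bq P N) (gs r q Ep En Bq N P) m0 ((a * r + s) * Bq + b) s0.mem) :
    Tr w yatBody s0 (176 * q + 200) (fun s' => Bd X s' ∧
      YI B (gs r q Ep En Bq P N) (gs r q Ep En Bq N P) m0 ((a * r + s) * Bq + b + 1) s'.mem) := by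
  refine Tr.mono (T := 5 + (5 + ((q * 88 + 3) + ((q * 88 + 3) + (40 + 40))))) ?_ (by omega)
    (fun _ h => h)
  have rd16 : ∀ j < r * q, ar B s0.mem 16 j = Ep j := fun j hj =>
    (hI.fr.arr 16 (by norm_num) (by decide) j).trans (hEp j hj)
  have rd17 : ∀ j < r * q, ar B s0.mem 17 j = En j := fun j hj =>
    (hI.fr.arr 17 (by norm_num) (by decide) j).trans (hEn j hj)
  have rd11 : ∀ j < A * q * Bq, ar B s0.mem 11 j = P j := fun j hj =>
    (hI.fr.arr 11 (by norm_num) (by decide) j).trans (hP j hj)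
  have rd12 : ∀ j < A * q * Bq, ar B s0.mem 12 j = N j := fun j hj =>
    (hI.fr.arr 12 (by norm_num) (by decide) j).trans (hN j hj)
  have hcost : ∀ k k', (eY k k').cost = 79 := by
    intro k k'; simp [eY, eI, inI, Ex.cost]
  have hsz : ∀ k k', sz (eY k k') = 28 := by
    intro k k'; simp [eY, eI, inI, sz]
  have hcs : ∀ k k', k < 32 → k' < 32 → cs X (eY k k') := by
    intro k k' h h'; simp [eY, eI, inI, cs]; omega
  apply Tr.seq
  refine Tb.asgv Px hb0 (v := 0) rfl (by omega) (by simp [cs]) (by simp [sz]) (by simp [Ex.cost]) ?_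
  intro b1
  apply Tr.seq
  refine Tb.asgv Px b1 (v := 0) rfl (by omega) (by simp [cs]) (by simp [sz]) (by simp [Ex.cost]) ?_
  intro b2
  apply Tr.seq
  set s2 := (s0.set 26 0).set 27 0 with hs2
  have m2 : s2.mem = s0.mem := rfl
  have q99 : s2.reg 99 = B := by simp [hs2, set_reg, h99]
  have q22 : s2.reg 22 = r := by simp [hs2, set_reg, h22]
  have q23 : s2.reg 23 = q := by simp [hs2, set_reg, h23]
  have q25 : s2.reg 25 = Bq := by simp [hs2, set_reg, h25]
  have q11 : s2.reg 11 = a := by simp [hs2, set_reg, h11]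
  have q12 : s2.reg 12 = s := by simp [hs2, set_reg, h12]
  have q13 : s2.reg 13 = b := by simp [hs2, set_reg, h13]
  have q26 : s2.reg 26 = 0 := by simp [hs2, set_reg]
  have q27 : s2.reg 27 = 0 := by simp [hs2, set_reg]
  clear_value s2
  -- evaluation of the summand
  have hev : ∀ (k k' : ℕ) (U V : ℕ → ℕ), (∀ j < A * q * Bq, ar B s0.mem k j = U j) →
      (∀ j < A * q * Bq, ar B s0.mem k' j = V j) → ∀ t < q, ∀ s' : St, s'.mem = s0.mem →
      s'.reg 99 = B → s'.reg 23 = q → s'.reg 25 = Bq → s'.reg 11 = a → s'.reg 12 = s →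
      s'.reg 13 = b → s'.reg 14 = t → (eY k k').ev s' =
        Ep (s * q + t) * U ((a * q + t) * Bq + b) + En (s * q + t) * V ((a * q + t) * Bq + b) := by
    intro k k' U V hU hV t ht s' w1 w2 w3 w4 w5 w6 w7 w8
    have hj : s * q + t < r * q := mul_add_lt hs ht
    have hj' := idx_in ha ht hb
    simp only [eY, eI, inI, Ex.ev, ldA_ev, w1, w2, w3, w4, w5, w6, w7, w8]
    rw [rd16 _ hj, rd17 _ hj, hU _ hj', hV _ hj']
  have G1 := gs_idx (q := q) (a := a) Ep En P N hs hb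
  have G2 := gs_idx (q := q) (a := a) Ep En N P hs hb
  refine Tb.sumLoop Px b2 (N := q) q23 (by norm_num) (by norm_num) (by norm_num)
    (hcs 11 12 (by norm_num) (by norm_num)) (by rw [hsz]; norm_num) (by rw [hcost])
    (f := fun t => Ep (s * q + t) * P ((a * q + t) * Bq + b) +
      En (s * q + t) * N ((a * q + t) * Bq + b)) ?_ ?_ ?_
  · intro t ht v
    refine hev 11 12 P N rd11 rd12 t ht _ m2 ?_ ?_ ?_ ?_ ?_ ?_ ?_ <;>
      simp [set_reg, q99, q23, q25, q11, q12, q13]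
  · rw [q26, ← G1]; omega
  intro b3
  rw [q26, ← G1, Nat.zero_add] at b3 ⊢
  set s3 := (s2.set 14 q).set 26 (gs r q Ep En Bq P N ((a * r + s) * Bq + b)) with hs3
  have m3 : s3.mem = s0.mem := m2
  have u99 : s3.reg 99 = B := by simp [hs3, set_reg, q99]
  have u22 : s3.reg 22 = r := by simp [hs3, set_reg, q22]
  have u23 : s3.reg 23 = q := by simp [hs3, set_reg, q23]
  have u25 : s3.reg 25 = Bq := by simp [hs3, set_reg, q25]
  have u11 : s3.reg 11 = a := by simp [hs3, set_reg, q11]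
  have u12 : s3.reg 12 = s := by simp [hs3, set_reg, q12]
  have u13 : s3.reg 13 = b := by simp [hs3, set_reg, q13]
  have u26 : s3.reg 26 = gs r q Ep En Bq P N ((a * r + s) * Bq + b) := by simp [hs3, set_reg]
  have u27 : s3.reg 27 = 0 := by simp [hs3, set_reg, q27]
  clear_value s3
  apply Tr.seq
  refine Tb.sumLoop Px b3 (N := q) u23 (by norm_num) (by norm_num) (by norm_num)
    (hcs 12 11 (by norm_num) (by norm_num)) (by rw [hsz]; norm_num) (by rw [hcost])
    (f := fun t => Ep (s * q + t) * N ((a * q + t) * Bq + b) +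
      En (s * q + t) * P ((a * q + t) * Bq + b)) ?_ ?_ ?_
  · intro t ht v
    refine hev 12 11 N P rd12 rd11 t ht _ m3 ?_ ?_ ?_ ?_ ?_ ?_ ?_ <;>
      simp [set_reg, u99, u23, u25, u11, u12, u13]
  · rw [u27, ← G2]; omega
  intro b4
  rw [u27, ← G2, Nat.zero_add] at b4 ⊢
  set s4 := (s3.set 14 q).set 27 (gs r q Ep En Bq N P ((a * r + s) * Bq + b)) with hs4
  have m4 : s4.mem = s0.mem := m3
  have v99 : s4.reg 99 = B := by simp [hs4, set_reg, u99]
  have v22 : s4.reg 22 = r := by simp [hs4, set_reg, u22]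
  have v25 : s4.reg 25 = Bq := by simp [hs4, set_reg, u25]
  have v11 : s4.reg 11 = a := by simp [hs4, set_reg, u11]
  have v12 : s4.reg 12 = s := by simp [hs4, set_reg, u12]
  have v13 : s4.reg 13 = b := by simp [hs4, set_reg, u13]
  have v26 : s4.reg 26 = gs r q Ep En Bq P N ((a * r + s) * Bq + b) := by simp [hs4, set_reg, u26]
  have v27 : s4.reg 27 = gs r q Ep En Bq N P ((a * r + s) * Bq + b) := by simp [hs4, set_reg]
  clear_value s4
  apply Tr.seq
  refine Tb.stAv Px b4 hX (by norm_num) v99 (i := (a * r + s) * Bq + b) (v := _)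
    (by simp only [outI, Ex.ev, v22, v25, v11, v12, v13]) v26 hG1 (by simp [outI, cs])
    (by simp [outI, sz]) (by simp [cs]) (by simp [sz]) (by simp [outI, Ex.cost]) ?_
  intro b5
  refine Tb.stAv Px b5 hX (by norm_num) v99 (i := (a * r + s) * Bq + b) (v := _)
    (by simp only [outI, Ex.ev, put_reg, v22, v25, v11, v12, v13]) v27 hG2 (by simp [outI, cs])
    (by simp [outI, sz]) (by simp [cs]) (by simp [sz]) (by simp [outI, Ex.cost]) ?_
  intro b6
  refine ⟨b6, ?_, ?_, ?_⟩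
  · simp only [put_mem, m4]
    exact (hI.fr.upd (by norm_num) (by decide) _ _).upd (by norm_num) (by decide) _ _
  · simp only [put_mem, m4]
    exact Fi.other (Fi.upd hI.d1 (by norm_num) rfl) (by norm_num) (by norm_num) (by norm_num)
  · simp only [put_mem, m4]
    exact Fi.upd (Fi.other hI.d2 (by norm_num) (by norm_num) (by norm_num)) (by norm_num) rfl

end Pool.Agent.H792_Clique
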