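import Pool.Agent.H792_Clique.Yat

/-!
The transform: levels.
-/

set_option autoImplicit false
set_option linter.unusedSimpArgs false
set_option linter.unusedVariables false

namespace Pool.Agent.H792_Clique

open Pool.Agent.H588R2 Pool.Agent.TH687.HL

def yatNest : HC := .loop 11 24 (.loop 12 22 (.loop 13 25 yatBody))

lemma yatNest_wr : yatNest.wr = [11, 12, 13, 26, 27, 14, 26, 14, 27] := rfl

theorem tr_yatNest {X w : ℕ} (Px : PX X w) {B r q Bq A : ℕ} {Ep En P N : ℕ → ℕ} {s0 : St}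
    {Q : St → Prop}
    (hX : 32 ≤ X) (hb0 : Bd X s0) (h99 : s0.reg 99 = B) (h22 : s0.reg 22 = r) (h23 : s0.reg 23 = q)
    (h25 : s0.reg 25 = Bq) (h24 : s0.reg 24 = A) (hr : 0 < r) (hBq : 0 < Bq) (hA : 0 < A)
    (hEp : Fi B s0.mem 16 (r * q) Ep) (hEn : Fi B s0.mem 17 (r * q) En)
    (hP : Fi B s0.mem 11 (A * q * Bq) P) (hN : Fi B s0.mem 12 (A * q * Bq) N)
    (hG1 : ∀ i < A * r * Bq, gs r q Ep En Bq P N i ≤ X)
    (hG2 : ∀ i < A * r * Bq, gs r q Ep En Bq N P i ≤ X)
    (hQ : ∀ s', Bd X s' → (∀ y, y ∉ yatNest.wr → s'.reg y = s0.reg y) →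
      YI B (gs r q Ep En Bq P N) (gs r q Ep En Bq N P) s0.mem (A * r * Bq) s'.mem → Q s') :
    Tr w yatNest s0 (A * r * Bq * (176 * q + 230)) Q := by
  have f14 : ∀ y : ℕ, y ∉ yatNest.wr → y ∉ [26, 27, 14, 26, 14, 27] := by
    intro y hy; rw [yatNest_wr] at hy; simp at hy ⊢; tauto
  refine Tr.mono (T := A * ((r * ((Bq * ((176 * q + 200) + 4) + 3) + 4) + 3) + 4) + 3) ?_ ?_
    (fun _ h => h)
  · refine Tb.nest Px hb0 (YI B (gs r q Ep En Bq P N) (gs r q Ep En Bq N P) s0.mem) 0 (r * Bq)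
      ((r * ((Bq * ((176 * q + 200) + 4) + 3) + 4) + 3)) h24 le_rfl
      ⟨Fr.refl _ _ _, Fi.zero _ _ _ _, Fi.zero _ _ _ _⟩ ?_ ?_
    · intro a ha s1 hT1 hb1 r11 fr1
      refine Tb.nest Px hb1 (YI B (gs r q Ep En Bq P N) (gs r q Ep En Bq N P) s0.mem)
        (0 + a * (r * Bq)) Bq (Bq * ((176 * q + 200) + 4) + 3) (N := r) ?_ le_rfl hT1 ?_ ?_
      · rw [fr1 22 (by norm_num) (by decide), h22]
      · intro s hs s2 hT2 hb2 r12 fr2
        refine Tb.nest Px hb2 (YI B (gs r q Ep En Bq P N) (gs r q Ep En Bq N P) s0.mem)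
          (0 + a * (r * Bq) + s * Bq) 1 (176 * q + 200) (N := Bq) ?_ le_rfl hT2 ?_ ?_
        · rw [fr2 25 (by norm_num) (by decide), fr1 25 (by norm_num) (by decide), h25]
        · intro b hb s3 hT3 hb3 r13 fr3
          have e1 : 0 + a * (r * Bq) + s * Bq + b * 1 = (a * r + s) * Bq + b := by ring
          have e2 : 0 + a * (r * Bq) + s * Bq + (b + 1) * 1 = (a * r + s) * Bq + b + 1 := by ring
          rw [e1] at hT3
          rw [e2]
          refine tr_yatBody Px hX hb3 (A := A) (a := a) ?_ ?_ ?_ ?_ ?_ ?_ r13 ha hs hb hEp hEn hP hN ?_ ?_ hT3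
          · rw [fr3 99 (by norm_num) (by decide), fr2 99 (by norm_num) (by decide),
              fr1 99 (by norm_num) (by decide), h99]
          · rw [fr3 22 (by norm_num) (by decide), fr2 22 (by norm_num) (by decide),
              fr1 22 (by norm_num) (by decide), h22]
          · rw [fr3 23 (by norm_num) (by decide), fr2 23 (by norm_num) (by decide),
              fr1 23 (by norm_num) (by decide), h23]
          · rw [fr3 25 (by norm_num) (by decide), fr2 25 (by norm_num) (by decide),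
              fr1 25 (by norm_num) (by decide), h25]
          · rw [fr3 11 (by norm_num) (by decide), fr2 11 (by norm_num) (by decide), r11]
          · rw [fr3 12 (by norm_num) (by decide), r12]
          · apply hG1
            have := idx_in (Bq := Bq) ha hs hb
            exact this
          · apply hG2
            have := idx_in (Bq := Bq) ha hs hb
            exact this
        · intro s3 hT3 hb3 _ _
          refine ⟨hb3, ?_⟩
          have e1 : 0 + a * (r * Bq) + (s + 1) * Bq = 0 + a * (r * Bq) + s * Bq + Bq * 1 := by ring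
          rw [e1]; exact hT3
      · intro s2 hT2 hb2 _ _
        refine ⟨hb2, ?_⟩
        have e1 : 0 + (a + 1) * (r * Bq) = 0 + a * (r * Bq) + r * Bq := by ring
        rw [e1]; exact hT2
    · intro s1 hT1 hb1 _ fr1
      have e1 : 0 + A * (r * Bq) = A * r * Bq := by ring
      rw [e1] at hT1
      refine hQ s1 hb1 ?_ hT1
      intro y hy
      rw [yatNest_wr] at hy
      simp only [List.mem_cons, List.not_mem_nil, or_false, not_or] at hy
      refine fr1 y hy.1 ?_
      simp only [yatBody, stA, HC.wr, List.mem_append, List.mem_cons, List.not_mem_nil, or_false,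
        not_or]
      tauto
  · have h1 : 1 ≤ Bq := hBq
    have h2 : r ≤ r * Bq := Nat.le_mul_of_pos_right _ hBq
    have h3 : A ≤ A * r * Bq := by
      have : 1 ≤ r * Bq := Nat.mul_pos hr hBq
      rw [Nat.mul_assoc]
      exact Nat.le_mul_of_pos_right _ this
    have h4 : A * r ≤ A * r * Bq := Nat.le_mul_of_pos_right _ hBq
    have h5 : 1 ≤ A * r * Bq := Nat.mul_pos (Nat.mul_pos hA hr) hBq
    nlinarith

/-- One level. -/
def yatLevel : HC :=
  .seq (.asg 25 (ldA 15 (.sub (.sub (.r 4) (.r 10)) (.c 1)))) (.seq yatNest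
    (.seq (.asg 24 (.mul (.r 24) (.r 22))) (.seq (.asg 28 (.mul (.r 24) (.r 25)))
      (.seq (cpC 28 13 11) (cpC 28 14 12)))))

/-- State of the tables between levels. -/
structure YL (B : ℕ) (r q L : ℕ) (Ep En x : ℕ → ℕ) (m0 : ℕ → ℕ) (l : ℕ) (m : ℕ → ℕ) : Prop where
  fr : Fr [11, 12, 13, 14] B m0 m
  d1 : Fi B m 11 (r ^ l * q ^ (L - l)) (pr r q L Ep En x l).1
  d2 : Fi B m 12 (r ^ l * q ^ (L - l)) (pr r q L Ep En x l).2

theorem tr_yatLevel {X w : ℕ} (Px : PX X w) {B r q L M l : ℕ} {Ep En x : ℕ → ℕ} {s0 : St}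
    {m0 : ℕ → ℕ}
    (hX : 32 ≤ X) (hb0 : Bd X s0) (h99 : s0.reg 99 = B) (h4 : s0.reg 4 = L) (h10 : s0.reg 10 = l)
    (h22 : s0.reg 22 = r) (h23 : s0.reg 23 = q) (h24 : s0.reg 24 = r ^ l)
    (hq : 0 < q) (hqr : q ≤ r) (hl : l < L) (hrX : r ^ L ≤ X) (hM : (2 * q * M) ^ L ≤ X)
    (hM1 : 1 ≤ 2 * q * M)
    (h15 : Fi B m0 15 (L + 1) (fun i => q ^ i))
    (hEp : Fi B m0 16 (r * q) Ep) (hEn : Fi B m0 17 (r * q) En)
    (hEp' : ∀ j < r * q, Ep j ≤ M) (hEn' : ∀ j < r * q, En j ≤ M) (hx : ∀ i < q ^ L, x i ≤ 1)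
    (hI : YL B r q L Ep En x m0 l s0.mem) :
    Tr w yatLevel s0 (r ^ L * (176 * q + 350)) (fun s' => Bd X s' ∧
      (∀ y, y ∉ yatLevel.wr → s'.reg y = s0.reg y) ∧ s'.reg 24 = r ^ (l + 1) ∧
      s'.reg 28 = r ^ (l + 1) * q ^ (L - (l + 1)) ∧
      YL B r q L Ep En x m0 (l + 1) s'.mem) := by
  have hr : 0 < r := by omega
  set Bq := q ^ (L - l - 1) with hBqd
  have hBq : 0 < Bq := by positivity
  have e1 : L - (l + 1) = L - l - 1 := by omega
  have e2 : q ^ (L - l) = q * Bq := by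
    rw [hBqd, ← pow_succ']; congr 1; omega
  have hsize : r ^ (l + 1) * Bq ≤ r ^ L := by
    calc r ^ (l + 1) * Bq ≤ r ^ (l + 1) * r ^ (L - l - 1) :=
          Nat.mul_le_mul_left _ (Nat.pow_le_pow_left hqr _)
      _ = r ^ L := by rw [← pow_add]; congr 1; omega
  have hsz1 : r ^ l * r * Bq = r ^ (l + 1) * Bq := by rw [pow_succ]
  have hBX : Bq ≤ X := by
    refine le_trans ?_ (le_trans hsize hrX)
    exact Nat.le_mul_of_pos_left _ (by positivity)
  have hAX : r ^ (l + 1) ≤ X := by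
    refine le_trans ?_ (le_trans hsize hrX)
    exact Nat.le_mul_of_pos_right _ hBq
  have hrL : 1 ≤ r ^ L := Nat.pos_of_ne_zero (by positivity)
  refine Tr.mono (T := 30 + (r ^ l * r * Bq * (176 * q + 230) + (10 + (10 +
    ((r ^ l * r * Bq * 30 + 3) + (r ^ l * r * Bq * 30 + 3)))))) ?_ ?_ (fun _ h => h)
  swap
  · rw [hsz1]
    nlinarith
  have rd15 : ∀ j < L + 1, ar B s0.mem 15 j = q ^ j := fun j hj =>
    (hI.fr.arr 15 (by norm_num) (by decide) j).trans (h15 j hj)
  apply Tr.seq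
  refine Tb.asgv Px hb0 (v := Bq) ?_ hBX (by simp [cs]; omega) (by simp [sz]) (by simp [Ex.cost]) ?_
  · simp only [ldA_ev, Ex.ev, h99, h4, h10]
    rw [rd15 _ (by omega)]
  intro b1
  set s1 := s0.set 25 Bq with hs1
  have f1 : ∀ y, y ≠ 25 → s1.reg y = s0.reg y := fun y hy => by simp [hs1, set_reg, hy]
  have g25 : s1.reg 25 = Bq := by simp [hs1, set_reg]
  have m1 : s1.mem = s0.mem := rfl
  clear_value s1
  apply Tr.seq
  refine tr_yatNest (r := r) (q := q) (A := r ^ l) (Bq := Bq) (Ep := Ep) (En := En)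
    (P := (pr r q L Ep En x l).1) (N := (pr r q L Ep En x l).2) Px hX b1
    ((f1 99 (by norm_num)).trans h99) ((f1 22 (by norm_num)).trans h22)
    ((f1 23 (by norm_num)).trans h23) g25 ((f1 24 (by norm_num)).trans h24) hr hBq (by positivity)
    ?_ ?_ ?_ ?_ ?_ ?_ ?_
  · rw [m1]; exact hEp.fr hI.fr (by norm_num) (by decide)
  · rw [m1]; exact hEn.fr hI.fr (by norm_num) (by decide)
  · rw [m1, mul_assoc, ← e2]; exact hI.d1
  · rw [m1, mul_assoc, ← e2]; exact hI.d2
  · intro i hi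
    rw [hsz1] at hi
    have := (pr_le (r := r) (q := q) (L := L) (M := M) (Ep := Ep) (En := En) hr hq hEp' hEn' hx
      (l + 1) hl i (by rw [e1]; exact hi)).1
    simp only [pr, ← hBqd] at this
    exact le_trans this (le_trans (Nat.pow_le_pow_right hM1 hl) hM)
  · intro i hi
    rw [hsz1] at hi
    have := (pr_le (r := r) (q := q) (L := L) (M := M) (Ep := Ep) (En := En) hr hq hEp' hEn' hx
      (l + 1) hl i (by rw [e1]; exact hi)).2
    simp only [pr, ← hBqd] at this
    exact le_trans this (le_trans (Nat.pow_le_pow_right hM1 hl) hM)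
  intro s2 b2 f2 hY2
  have k2 : ∀ y, y ∉ [11, 12, 13, 26, 27, 14] → s2.reg y = s1.reg y := by
    intro y hy
    refine f2 y ?_
    rw [yatNest_wr]; simp at hy ⊢; tauto
  apply Tr.seq
  refine Tb.asgv Px b2 (v := r ^ (l + 1)) ?_ hAX (by simp [cs]) (by simp [sz]) (by simp [Ex.cost]) ?_
  · simp only [Ex.ev]
    rw [k2 24 (by decide), f1 24 (by norm_num), h24, k2 22 (by decide), f1 22 (by norm_num), h22,
      pow_succ]
  intro b3
  apply Tr.seq
  refine Tb.asgv Px b3 (v := r ^ (l + 1) * Bq) ?_ (le_trans hsize hrX) (by simp [cs])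
    (by simp [sz]) (by simp [Ex.cost]) ?_
  · simp only [Ex.ev, set_reg]
    simp [k2 25 (by decide), g25]
  intro b4
  set s4 := (s2.set 24 (r ^ (l + 1))).set 28 (r ^ (l + 1) * Bq) with hs4
  have g28 : s4.reg 28 = r ^ (l + 1) * Bq := by simp [hs4, set_reg]
  have g24 : s4.reg 24 = r ^ (l + 1) := by simp [hs4, set_reg]
  have g99 : s4.reg 99 = B := by
    simp [hs4, set_reg]; rw [k2 99 (by decide), f1 99 (by norm_num), h99]
  have f4 : ∀ y, y ∉ [11, 12, 13, 26, 27, 14, 24, 28, 25] → s4.reg y = s0.reg y := by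
    intro y hy
    simp only [List.mem_cons, List.not_mem_nil, or_false, not_or] at hy
    have : s4.reg y = s2.reg y := by simp [hs4, set_reg, hy]
    rw [this, k2 y (by simp; tauto), f1 y (by tauto)]
  have m4 : s4.mem = s2.mem := rfl
  clear_value s4
  rw [hsz1] at hY2 ⊢
  apply Tr.seq
  refine tr_cp Px b4 hX (by norm_num) (by norm_num) (by norm_num) g28 g99 le_rfl
    (by rw [m4]; exact hY2.d1) ?_
  intro s5 b5 f5 F5 d5
  refine tr_cp Px b5 hX (by norm_num) (by norm_num) (by norm_num)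
    ((f5 28 (by norm_num)).trans g28) ((f5 99 (by norm_num)).trans g99) le_rfl
    ((m4 ▸ hY2.d2 : Fi B s4.mem 14 _ _).fr F5 (by norm_num) (by decide)) ?_
  intro s6 b6 f6 F6 d6
  refine ⟨b6, ?_, ?_, ?_, ?_, ?_, ?_⟩
  · intro y hy
    have hy' : y ∉ [11, 12, 13, 26, 27, 14, 24, 28, 25] := by
      simp only [yatLevel, cpC, yatNest_wr, stA, HC.wr, List.mem_append, List.mem_cons,
        List.not_mem_nil, or_false, not_or] at hy
      simp only [List.mem_cons, List.not_mem_nil, or_false, not_or]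
      tauto
    have h11 : y ≠ 11 := by
      rintro rfl; exact hy' (by decide)
    rw [f6 y h11, f5 y h11, f4 y hy']
  · rw [f6 24 (by norm_num), f5 24 (by norm_num), g24]
  · rw [f6 28 (by norm_num), f5 28 (by norm_num), g28, e1]
  · have t1 : Fr [11, 12, 13, 14] B s1.mem s2.mem := hY2.fr.mono (by decide)
    have t2 : Fr [11, 12, 13, 14] B s4.mem s5.mem := F5.mono (by decide)
    have t3 : Fr [11, 12, 13, 14] B s5.mem s6.mem := F6.mono (by decide)
    rw [m1] at t1
    rw [m4] at t2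
    exact hI.fr.trans (t1.trans (t2.trans t3))
  · rw [e1]
    exact Fi.fr d5 F6 (by norm_num) (by decide)
  · rw [e1]
    exact d6

/-- The transform of array 10 with the tables in arrays 16, 17; results in arrays `kP`, `kN`. -/
def yatC (r q kP kN : ℕ) : HC :=
  .seq (.asg 22 (.c r)) (.seq (.asg 23 (.c q)) (.seq (.asg 24 (.c 1))
    (.seq (cpC 6 10 11) (.seq (.loop 11 6 (stA 12 (.r 11) (.c 0)))
      (.seq (.loop 10 4 yatLevel) (.seq (cpC 7 11 kP) (cpC 7 12 kN)))))))

theorem tr_yat {X w : ℕ} (Px : PX X w) {B r q L M kP kN : ℕ} {Ep En x : ℕ → ℕ} {s0 : St}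
    {Q : St → Prop}
    (hX : 32 ≤ X) (hb0 : Bd X s0) (h99 : s0.reg 99 = B) (h4 : s0.reg 4 = L) (h6 : s0.reg 6 = q ^ L)
    (h7 : s0.reg 7 = r ^ L)
    (hq : 0 < q) (hqr : q ≤ r) (hrX : r ^ L ≤ X) (hrX' : r ≤ X) (hM : (2 * q * M) ^ L ≤ X)
    (hM1 : 1 ≤ 2 * q * M)
    (hkP : kP < 32) (hkN : kN < 32) (hkP' : kP ∉ [11, 12, 13, 14]) (hkN' : kN ∉ [11, 12, 13, 14])
    (hkk : kN ≠ kP)
    (h15 : Fi B s0.mem 15 (L + 1) (fun i => q ^ i))
    (hEp : Fi B s0.mem 16 (r * q) Ep) (hEn : Fi B s0.mem 17 (r * q) En)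
    (hEp' : ∀ j < r * q, Ep j ≤ M) (hEn' : ∀ j < r * q, En j ≤ M) (hx : ∀ i < q ^ L, x i ≤ 1)
    (hx10 : Fi B s0.mem 10 (q ^ L) x)
    (hQ : ∀ s', Bd X s' → (∀ y, y ∉ (yatC r q kP kN).wr → s'.reg y = s0.reg y) →
      Fr [11, 12, 13, 14, kP, kN] B s0.mem s'.mem →
      Fi B s'.mem kP (r ^ L) (pr r q L Ep En x L).1 →
      Fi B s'.mem kN (r ^ L) (pr r q L Ep En x L).2 → Q s') :
    Tr w (yatC r q kP kN) s0 ((L + 1) * (r ^ L * (176 * q + 600))) Q := by
  have hr : 0 < r := by omega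
  have hrL : 1 ≤ r ^ L := Nat.pos_of_ne_zero (by positivity)
  have hqrL : q ^ L ≤ r ^ L := Nat.pow_le_pow_left hqr _
  refine Tr.mono (T := 5 + (5 + (5 + ((q ^ L * 30 + 3) + ((q ^ L * 30 + 3) +
    ((L * (r ^ L * (176 * q + 350) + 4) + 3) + ((r ^ L * 30 + 3) + (r ^ L * 30 + 3)))))))) ?_ ?_
    (fun _ h => h)
  swap
  · nlinarith [Nat.mul_le_mul_left L hrL]
  apply Tr.seq
  refine Tb.asgv Px hb0 (v := r) rfl hrX' (by simp [cs]; omega) (by simp [sz]) (by simp [Ex.cost]) ?_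
  intro b1
  apply Tr.seq
  refine Tb.asgv Px b1 (v := q) rfl (by omega) (by simp [cs]; omega) (by simp [sz]) (by simp [Ex.cost]) ?_
  intro b2
  apply Tr.seq
  refine Tb.asgv Px b2 (v := 1) rfl (by omega) (by simp [cs]; omega) (by simp [sz]) (by simp [Ex.cost]) ?_
  intro b3
  set s3 := ((s0.set 22 r).set 23 q).set 24 1 with hs3
  have f3 : ∀ y, y ∉ [22, 23, 24] → s3.reg y = s0.reg y := by
    intro y hy
    simp only [List.mem_cons, List.not_mem_nil, or_false, not_or] at hy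
    simp [hs3, set_reg, hy]
  have g22 : s3.reg 22 = r := by simp [hs3, set_reg]
  have g23 : s3.reg 23 = q := by simp [hs3, set_reg]
  have g24 : s3.reg 24 = 1 := by simp [hs3, set_reg]
  have m3 : s3.mem = s0.mem := rfl
  clear_value s3
  apply Tr.seq
  refine tr_cp Px b3 hX (by norm_num) (by norm_num) (by norm_num)
    ((f3 6 (by decide)).trans h6) ((f3 99 (by decide)).trans h99) le_rfl
    (by rw [m3]; exact hx10) ?_
  intro s4 b4 f4 F4 d4
  apply Tr.seq
  refine Tb.mapLoop (f := fun _ => 0) Px b4 hX (by norm_num) (N := q ^ L) (B := B)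
    ((f4 6 (by norm_num)).trans ((f3 6 (by decide)).trans h6))
    ((f4 99 (by norm_num)).trans ((f3 99 (by decide)).trans h99)) (by norm_num) (by simp [cs])
    (by simp [sz]) (by simp [Ex.cost]; omega) (fun _ _ _ _ _ _ => rfl) (fun _ _ => by omega) ?_
  intro s5 b5 _ f5 F5 d5
  have f5' : ∀ y, y ∉ [22, 23, 24, 11] → s5.reg y = s0.reg y := by
    intro y hy
    simp only [List.mem_cons, List.not_mem_nil, or_false, not_or] at hy
    rw [f5 y hy.2.2.2, f4 y hy.2.2.2, f3 y (by simp; tauto)]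
  have h22 : s5.reg 22 = r := by rw [f5 22 (by norm_num), f4 22 (by norm_num), g22]
  have h23 : s5.reg 23 = q := by rw [f5 23 (by norm_num), f4 23 (by norm_num), g23]
  have h24 : s5.reg 24 = 1 := by rw [f5 24 (by norm_num), f4 24 (by norm_num), g24]
  have F05 : Fr [11, 12, 13, 14] B s0.mem s5.mem := by
    have t1 : Fr [11, 12, 13, 14] B s3.mem s4.mem := F4.mono (by decide)
    have t2 : Fr [11, 12, 13, 14] B s4.mem s5.mem := F5.mono (by decide)
    rw [m3] at t1
    exact t1.trans t2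
  have hwr : ∀ y, y ∉ yatLevel.wr ↔ y ∉ [11, 12, 13, 26, 27, 14, 24, 28, 25] := by
    intro y
    simp only [yatLevel, cpC, yatNest_wr, stA, HC.wr, List.mem_append, List.mem_cons,
      List.not_mem_nil, or_false, not_or]
    tauto
  apply Tr.seq
  refine Tb.loop Px b5 (fun l s' => YL B r q L Ep En x s0.mem l s'.mem ∧ s'.reg 24 = r ^ l ∧
    (∀ y, y ∉ [10, 11, 12, 13, 26, 27, 14, 24, 28, 25] → s'.reg y = s5.reg y))
    (r ^ L * (176 * q + 350)) (N := L) ((f5' 4 (by decide)).trans h4) le_rfl ?_ ?_ ?_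
  · refine ⟨⟨?_, ?_, ?_⟩, ?_, ?_⟩
    · exact F05
    · simp only [pow_zero, one_mul, Nat.sub_zero, pr]
      exact Fi.fr d4 F5 (by norm_num) (by decide)
    · simp only [pow_zero, one_mul, Nat.sub_zero, pr]
      exact d5
    · simp [set_reg, h24]
    · intro y hy
      simp only [List.mem_cons, List.not_mem_nil, or_false, not_or] at hy
      simp [set_reg, hy]
  · rintro l hl s6 ⟨hY, hr24, hfr⟩ b6 r10 fr6
    refine Tr.mono (tr_yatLevel Px hX b6 (L := L) (l := l) (r := r) (q := q) (M := M) ?_ ?_ r10 ?_ ?_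
      hr24 hq hqr hl hrX hM hM1 h15 hEp hEn hEp' hEn' hx hY) le_rfl ?_
    · rw [hfr 99 (by decide), f5' 99 (by decide), h99]
    · rw [hfr 4 (by decide), f5' 4 (by decide), h4]
    · rw [hfr 22 (by decide), h22]
    · rw [hfr 23 (by decide), h23]
    · rintro s7 ⟨b7, f7, r24, _, hY7⟩
      refine ⟨b7, hY7, ?_, ?_⟩
      · simp [set_reg, r24]
      · intro y hy
        have hy' := hy
        simp only [List.mem_cons, List.not_mem_nil, or_false, not_or] at hy'
        rw [set_reg, if_neg hy'.1, f7 y ((hwr y).2 (by simp; tauto)), hfr y hy]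
  · rintro s6 ⟨hY, hr24, hfr⟩ b6 _ _
    have hlast : r ^ L * q ^ (L - L) = r ^ L := by simp
    have y1 := hY.d1
    have y2 := hY.d2
    rw [hlast] at y1 y2
    apply Tr.seq
    refine tr_cp Px b6 hX (by norm_num) hkP (by intro h; exact hkP' (by simp [← h])) (N := r ^ L)
      (B := B) ?_ ?_ le_rfl y1 ?_
    · rw [hfr 7 (by decide), f5' 7 (by decide), h7]
    · rw [hfr 99 (by decide), f5' 99 (by decide), h99]
    intro s7 b7 f7 F7 d7
    refine tr_cp Px b7 hX (by norm_num) hkN (by intro h; exact hkN' (by simp [← h])) (N := r ^ L)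
      (B := B) ?_ ?_ le_rfl (y2.fr F7 (by norm_num) (by simp; intro h; exact hkP' (by simp [← h]))) ?_
    · rw [f7 7 (by norm_num), hfr 7 (by decide), f5' 7 (by decide), h7]
    · rw [f7 99 (by norm_num), hfr 99 (by decide), f5' 99 (by decide), h99]
    intro s8 b8 f8 F8 d8
    refine hQ s8 b8 ?_ ?_ ?_ d8
    · intro y hy
      have hy' : y ∉ [22, 23, 24, 10, 11, 12, 13, 26, 27, 14, 24, 28, 25] := by
        have := hwr y
        simp only [yatC, cpC, stA, HC.wr, List.mem_append, List.mem_cons, not_or, this,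
          List.not_mem_nil, or_false, not_false_eq_true, and_true, true_and] at hy
        simp only [List.mem_cons, List.not_mem_nil, or_false, not_or]
        tauto
      simp only [List.mem_cons, List.not_mem_nil, or_false, not_or] at hy'
      have h11 : y ≠ 11 := by tauto
      rw [f8 y h11, f7 y h11, hfr y (by simp; tauto), f5' y (by simp; tauto)]
    · have t1 : Fr [11, 12, 13, 14, kP, kN] B s0.mem s6.mem := hY.fr.mono (by simp)
      have t2 : Fr [11, 12, 13, 14, kP, kN] B s6.mem s7.mem := F7.mono (by simp)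
      have t3 : Fr [11, 12, 13, 14, kP, kN] B s7.mem s8.mem := F8.mono (by simp)
      exact t1.trans (t2.trans t3)
    · exact Fi.fr d7 F8 hkP (by simp; exact Ne.symm hkk)

end Pool.Agent.H792_Clique
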